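import Pool.Agent.Lib.MP_a01f70_lc.GK.Bas
import Pool.Agent.Lib.MP_a01f70_lc.GA.Main

/-! Block A'': a bounded relation outside a cyclotomic ideal. -/

namespace Pool.Agent.GT
open Pool.Agent.GK Polynomial

theorem bounded_mod : ∃ k₀ : ℕ, ∀ c : ℕ, ∃ S₀ n₀ : ℕ, ∀ n d c' : ℕ, n₀ ≤ n → Odd n → c ∣ n →
    c' ∣ c → Dn n d → ∃ η : ZMod (2 ^ n - 1), Wt k₀ η ∧ Wt S₀ (η * d) ∧
      ¬ (((cyclotomic c' ℤ).eval (2 ^ (n / c)) : ℤ) : ZMod (2 ^ n - 1)) ∣ η := by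
  obtain ⟨k₀, h⟩ := Pool.Agent.Lib.MP_a01f70_lc.GA.bounded2
  refine ⟨k₀, fun c => ?_⟩
  obtain ⟨S₀, hS⟩ := h c
  refine ⟨S₀, 2 * c + 1, fun n d c' hn ho hc hc' hd => ?_⟩
  have hc0 : 0 < c := Nat.pos_of_dvd_of_pos hc (by omega)
  have h2 : 2 ≤ n / c := (Nat.le_div_iff_mul_le hc0).2 (by omega)
  obtain ⟨η, h1, h3, h4⟩ := hS n (n / c) c' d ho (Nat.mul_div_cancel' hc).symm h2 hc' hd
  exact ⟨η, h3, h4, h1⟩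

end Pool.Agent.GT
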