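import Pool.Agent.Lib.MP_a01f70_lc.GT.MDefs
import Pool.Agent.Lib.MP_a01f70_lc.GK.EIa

/-! The global model: transfer of weights, small elements, the ideals `J`, `J2`. -/

noncomputable section

namespace Pool.Agent.GT.Fr
open Finset Filter Topology Pool.Agent.GK

variable {F : Fr} {d : ℕ → ℕ}

theorem sm_rep (P : Multiset F.G) : ∃ p : ℕ → Multiset ℕ, (∀ i, (p i).card = P.card) ∧
    (F.sm P : F.R) = F.mkR fun i => ((p i).map (2 ^ ·)).sum := by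
  refine ⟨fun i => P.map fun γ => (F.og γ i).val, fun i => by simp, ?_⟩
  induction P using Multiset.induction_on with
  | empty => exact (map_zero F.mkR).symm
  | cons a P ih =>
    rw [← Multiset.singleton_add, sm_add, sm_single, Subring.coe_add, ih]
    refine (map_add F.mkR _ _).symm.trans (congrArg _ (funext fun i => ?_))
    simp

theorem WtB.wt {k : ℕ} {x : F.B} (h : F.WtB k x) {y : ∀ i, ZMod (2 ^ F.n i - 1)}
    (hy : (x : F.R) = F.mkR y) : ∀ᶠ i in F.U, Wt k (y i) := by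
  obtain ⟨P, Q, h1, rfl⟩ := h
  obtain ⟨p, a1, a2⟩ := sm_rep P
  obtain ⟨q, b1, b2⟩ := sm_rep Q
  rw [AddSubgroupClass.coe_sub, a2, b2, ← map_sub, mkR_eq] at hy
  exact hy.mono fun i hi => ⟨p i, q i, by rwa [a1, b1], hi.symm⟩

/-- `Wt.fin`; the signs are constant along the ultrafilter -/
theorem exists_of_wt {k : ℕ} {y : ∀ i, ZMod (2 ^ F.n i - 1)} (h : ∀ᶠ i in F.U, Wt k (y i)) :
    ∃ x : F.B, (x : F.R) = F.mkR y ∧ F.WtB k x := by
  obtain ⟨c, h1⟩ := Ultrafilter.eventually_exists_iff.1 (h.mono fun i hi => hi.fin)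
  obtain ⟨s, h2⟩ := Filter.skolem.1 h1
  have h3 : ∀ j, F.WtB 1 ((c j : ℤ) • F.mn (F.mkG fun i => (s i j : ZMod (F.n i)))) := fun j => by
    rcases c j with _ | _ | _
    · exact ⟨0, 0, by simp, by simp⟩
    · simpa using (wtB_mn _).neg
    · simpa using wtB_mn _
  have h4 : ∀ t : Finset (Fin k), F.WtB t.card
      (∑ j ∈ t, (c j : ℤ) • F.mn (F.mkG fun i => (s i j : ZMod (F.n i)))) := fun t => by
    induction t using Finset.induction_on with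
    | empty => exact ⟨0, 0, by simp, by simp⟩
    | insert a t ha ih =>
      rw [sum_insert ha, card_insert_of_notMem ha, add_comm t.card]
      exact (h3 a).add ih
  refine ⟨_, ?_, (h4 univ).mono (by simp)⟩
  rw [F.mkR_eq.2 h2, show (fun i => ∑ j, ((c j : ℤ) : ZMod (2 ^ F.n i - 1)) * 2 ^ s i j) =
    ∑ j, (c j : ℤ) • fun i => (2 : ZMod (2 ^ F.n i - 1)) ^ (s i j : ZMod (F.n i)).val by
      funext i
      simp only [Finset.sum_apply, Pi.smul_apply, two_pow_val_natCast]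
      simp only [zsmul_eq_mul], map_sum]
  refine (map_sum F.B.subtype _ _).trans (sum_congr rfl fun j _ => ?_)
  rw [map_zsmul, map_zsmul, ← mR_mk]
  rfl

theorem not_wt {y : ∀ i, ZMod (2 ^ F.n i - 1)} (h : F.mkR y ∉ F.B) (T : ℕ) :
    ∀ᶠ i in F.U, ¬ Wt T (y i) := by
  refine Ultrafilter.eventually_not.2 fun e => h ?_
  obtain ⟨x, hx, -⟩ := exists_of_wt e
  exact hx ▸ x.2

theorem dR_mul (g g' : ℕ → ℕ) : F.dR (g * g') = F.dR g * F.dR g' := by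
  rw [dR, dR, dR, ← map_mul]
  exact congrArg _ (funext fun i => Nat.cast_mul _ _)

theorem dR_const (m : ℕ) : F.dR (fun _ => m) = m := by
  exact map_natCast F.mkR m

theorem small_zero : F.Small 0 := by
  exact fun ε hε => ⟨fun _ => 1, .of_forall fun i => ⟨one_pos, by
    rw [Nat.cast_one]
    exact Real.one_le_rpow one_le_two (by positivity)⟩, mul_zero _⟩

theorem Small.mul {e : F.R} (h : F.Small e) (u : F.R) : F.Small (u * e) := by
  exact fun ε hε => (h ε hε).imp fun g hg => ⟨hg.1, by rw [mul_left_comm, hg.2, mul_zero]⟩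

theorem Small.add {e e' : F.R} (h : F.Small e) (h' : F.Small e') : F.Small (e + e') := by
  intro ε hε
  obtain ⟨g, a1, a2⟩ := h _ (half_pos hε)
  obtain ⟨g', b1, b2⟩ := h' _ (half_pos hε)
  refine ⟨g * g', (a1.and b1).mono fun i hi => ⟨Nat.mul_pos hi.1.1 hi.2.1, ?_⟩, ?_⟩
  · rw [Pi.mul_apply, Nat.cast_mul, ← add_halves ε, add_mul, Real.rpow_add two_pos]
    exact mul_le_mul hi.1.2 hi.2.2 (Nat.cast_nonneg _) (by positivity)
  · rw [dR_mul]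
    linear_combination F.dR g' * a2 + F.dR g * b2

theorem Small.neg {e : F.R} (h : F.Small e) : F.Small (-e) := by
  simpa using h.mul (-1)

theorem Small.of_nat {e : F.R} {m : ℕ} (hm : 0 < m) (h : F.Small (m * e)) : F.Small e := by
  intro ε hε
  obtain ⟨g, a1, a2⟩ := h _ (half_pos hε)
  obtain ⟨n₀, hn⟩ := exists_nat_ge (2 * m / ε)
  refine ⟨g * fun _ => m, (a1.and (F.big n₀)).mono fun i hi => ⟨Nat.mul_pos hi.1.1 hm, ?_⟩, ?_⟩
  · rw [Pi.mul_apply, Nat.cast_mul, ← add_halves ε, add_mul, Real.rpow_add two_pos]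
    refine mul_le_mul hi.1.2 ?_ (Nat.cast_nonneg _) (by positivity)
    refine (Nat.cast_le.2 m.lt_two_pow_self.le).trans ?_
    rw [Nat.cast_pow, Nat.cast_ofNat, ← Real.rpow_natCast]
    refine Real.rpow_le_rpow_of_exponent_le one_le_two ?_
    have := hn.trans (Nat.cast_le.2 hi.2)
    rw [div_le_iff₀ hε] at this
    linarith
  · rw [dR_mul, dR_const, mul_assoc, a2]

theorem Small.pow {e : F.R} (h : F.Small e) {t : ℕ} (ht : 0 < t) :
    ∃ g : ℕ → ℕ, (∀ᶠ i in F.U, 0 < g i ∧ g i ^ t ≤ 2 ^ F.n i) ∧ F.dR g * e = 0 := by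
  have ht' : (0 : ℝ) < t := by exact_mod_cast ht
  refine (h (1 / t) (by positivity)).imp fun g hg => ⟨hg.1.mono fun i hi => ⟨hi.1, ?_⟩, hg.2⟩
  have h5 := pow_le_pow_left₀ (Nat.cast_nonneg _) hi.2 t
  rw [← Real.rpow_natCast (_ ^ _), ← Real.rpow_mul zero_le_two,
    show 1 / (t : ℝ) * F.n i * t = F.n i by field_simp, Real.rpow_natCast] at h5
  exact_mod_cast h5

/-- `eq_zero_of_small_order` -/
theorem Small.eq_zero {x : F.B} (h : F.Small x) : x = 0 := by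
  obtain ⟨k, hk⟩ := exists_wtB x
  obtain ⟨L, hL, H⟩ := eq_zero_of_small_order k
  obtain ⟨g, a1, a2⟩ := h.pow hL
  obtain ⟨y, hy⟩ := F.mkR_surj x
  rw [← hy, dR, ← map_mul, ← map_zero F.mkR, mkR_eq] at a2
  refine Subtype.ext (hy.symm.trans ((F.mkR_eq.2 ?_).trans (map_zero _)))
  filter_upwards [a1, a2, hk.wt hy.symm, F.big L] with i b1 b2 b3 b4
  exact H _ b4 _ _ b3 b1.1 b1.2 b2

theorem isUnit_of {y : ∀ i, ZMod (2 ^ F.n i - 1)} (h : ∀ᶠ i in F.U, IsUnit (y i)) :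
    IsUnit (F.mkR y) := by
  obtain ⟨z, hz⟩ := Filter.skolem.1 (h.mono fun i hi => hi.exists_right_inv)
  exact IsUnit.of_mul_eq_one (F.mkR z) (by
    rw [← map_mul, ← map_one F.mkR]
    exact F.mkR_eq.2 hz)

theorem isUnit_dR (hd : ∀ i, Good (F.n i) (d i)) : IsUnit (F.dR d) := by
  exact isUnit_of (.of_forall fun i => (hd i).unit)

/-- see `Lim.isUnit_ev_binom` in `GK/Kinj.lean` -/
theorem isUnit_binom (γ γ' : F.G) : IsUnit ((F.mn γ + F.mn γ' : F.B) : F.R) := by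
  have h1 : F.mn γ + F.mn γ' = F.mn γ * (1 + F.mn (γ' - γ)) := by
    rw [mul_add, mul_one, ← mn_add, add_sub_cancel]
  rw [h1, Subring.coe_mul]
  refine ((F.isUnit_mn γ).map F.B.subtype).mul ?_
  change IsUnit (1 + F.mR _)
  rw [mR, ← map_one F.mkR, ← map_add]
  refine isUnit_of (.of_forall fun i => isUnit_of_dvd_unit ?_
    (IsUnit.of_pow_eq_one (two_pow_self _) (F.odd i).pos.ne'))
  have h4 := (F.odd i).add_dvd_pow_add_pow (1 : ZMod (2 ^ F.n i - 1)) (2 ^ (F.og (γ' - γ) i).val)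
  rwa [one_pow, ← pow_mul, mul_comm, pow_mul, two_pow_self, one_pow, one_add_one_eq_two] at h4

theorem isUnit_coe_mn (γ : F.G) : IsUnit ((F.mn γ : F.B) : F.R) := by
  exact (F.isUnit_mn γ).map F.B.subtype

/-- `Good.inv` -/
theorem exists_inv (hd : ∀ i, Good (F.n i) (d i)) :
    ∃ d' : ℕ → ℕ, (∀ i, Good (F.n i) (d' i)) ∧ F.dR d * F.dR d' = 1 := by
  choose d' h1 h2 using fun i => (hd i).inv (F.two i)
  refine ⟨d', h2, ?_⟩
  rw [dR, dR, ← map_mul, ← map_one F.mkR]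
  exact congrArg _ (funext h1)

/-- `Good.nq` -/
theorem nq (hd : ∀ i, Good (F.n i) (d i)) (γ₁ γ₂ γ₃ γ₄ : F.G) :
    F.dR d * (F.mn γ₃ + F.mn γ₄ : F.B) ≠ (F.mn γ₁ + F.mn γ₂ : F.B) := by
  intro h
  have e1 : F.mn (γ₃ - γ₄) + 1 = F.mn (-γ₄) * (F.mn γ₃ + F.mn γ₄) := by
    rw [mul_add, ← mn_add, ← mn_add, neg_add_cancel, mn_zero, neg_add_eq_sub]
  have e2 : F.mn (γ₂ - γ₄) * (F.mn (γ₁ - γ₂) + 1) = F.mn (-γ₄) * (F.mn γ₁ + F.mn γ₂) := by
    rw [mul_add, mul_add, mul_one, ← mn_add, ← mn_add, ← mn_add, neg_add_eq_sub, neg_add_eq_sub,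
      sub_add_sub_cancel']
  have e3 : F.dR d * (F.mn (γ₃ - γ₄) + 1 : F.B) = (F.mn (γ₂ - γ₄) * (F.mn (γ₁ - γ₂) + 1) : F.B) := by
    rw [e1, e2, Subring.coe_mul, Subring.coe_mul, mul_left_comm, h]
  change F.dR d * (F.mR _ + 1) = F.mR _ * (F.mR _ + 1) at e3
  rw [dR, mR, mR, mR, ← map_one F.mkR, ← map_add, ← map_add, ← map_mul, ← map_mul, mkR_eq] at e3
  obtain ⟨i, hi⟩ := e3.exists
  exact (hd i).nq _ _ _ hi

/-- `Good.nl` with `Small.pow` for `t = 4` -/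
theorem nl (hd : ∀ i, Good (F.n i) (d i)) (γ : F.G) : ¬ F.Small (F.dR d - (F.mn γ : F.B)) := by
  intro h
  obtain ⟨g, a1, a2⟩ := h.pow four_pos
  change F.dR g * (F.dR d - F.mR γ) = 0 at a2
  rw [dR, dR, mR, ← map_sub, ← map_mul, ← map_zero F.mkR, mkR_eq] at a2
  obtain ⟨i, ⟨⟨h3, h4⟩, h5⟩, h2⟩ := ((a1.and a2).and (F.big 8)).exists
  have h6 : 2 ^ 8 ≤ 2 ^ F.n i := Nat.pow_le_pow_right two_pos h2
  refine (hd i).nl (g i) _ h3 ((Nat.pow_le_pow_iff_left two_ne_zero).1 ?_) h5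
  nlinarith [Nat.mul_le_mul h6 h4]

theorem mem_J {η : F.B} : η ∈ F.J d ↔ (η : F.R) * F.dR d ∈ F.B := Iff.rfl

theorem mem_J2 {η : F.B} :
    η ∈ F.J2 d ↔ ∃ (m : ℕ) (ξ : F.B), 0 < m ∧ (m : F.R) * (η * F.dR d - ξ) = 0 := Iff.rfl

theorem mem_KI {I : Ideal F.B} {ω : F.G} : ω ∈ F.KI I ↔ ω ∈ F.Tor ∧ F.mn ω - 1 ∈ I := Iff.rfl

theorem mem_K0 {θ : F.Ch} {ω : F.G} : ω ∈ F.K0 θ ↔ ω ∈ F.Tor ∧ θ.1 ω = 0 := Iff.rfl

theorem J_le_J2 : F.J d ≤ F.J2 d := by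
  exact fun η h => ⟨1, ⟨_, h⟩, one_pos, by simp⟩

/-- `eq_zero_of_nsmul` -/
theorem Dm_eq {η ξ : F.B} {m : ℕ} (hm : 0 < m) (h : (m : F.R) * (η * F.dR d - ξ) = 0) :
    F.Dm d η = ξ := by
  have h1 : ∃ ξ : F.B, ∃ m : ℕ, 0 < m ∧ (m : F.R) * (η * F.dR d - ξ) = 0 := ⟨ξ, m, hm, h⟩
  rw [Dm, dif_pos h1]
  obtain ⟨m', hm', h'⟩ := h1.choose_spec
  refine sub_eq_zero.1 (F.eq_zero_of_nsmul (Nat.mul_pos hm hm') (Subtype.ext ?_))
  push_cast
  linear_combination (m' : F.R) * h - (m : F.R) * h'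

/-- the number can be taken odd because `2` is a unit -/
theorem Dm_spec {η : F.B} (h : η ∈ F.J2 d) :
    ∃ m : ℕ, Odd m ∧ (m : F.R) * (η * F.dR d - F.Dm d η) = 0 := by
  obtain ⟨m, ξ, hm, h⟩ := h
  obtain ⟨k, u, hu, rfl⟩ := Nat.exists_eq_two_pow_mul_odd hm.ne'
  refine ⟨u, hu, ((isUnit_coe_mn F.σ).pow k).mul_right_eq_zero.1 ?_⟩
  rw [Dm_eq hm h, mn_σ, ← h, ← mul_assoc, Nat.cast_mul, Nat.cast_pow]
  rfl

theorem Dm_of_eq {η b : F.B} (h : (η : F.R) * F.dR d = b) : F.Dm d η = b := by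
  exact Dm_eq one_pos (by simp [h])

theorem Dm_of_J {η : F.B} (h : η ∈ F.J d) : (η : F.R) * F.dR d = F.Dm d η := by
  rw [Dm_of_eq (b := ⟨_, h⟩) rfl]

theorem Dm_add {η η' : F.B} (h : η ∈ F.J2 d) (h' : η' ∈ F.J2 d) :
    F.Dm d (η + η') = F.Dm d η + F.Dm d η' := by
  obtain ⟨m, hm, a⟩ := Dm_spec h
  obtain ⟨m', hm', b⟩ := Dm_spec h'
  refine Dm_eq (Nat.mul_pos hm.pos hm'.pos) ?_
  push_cast
  linear_combination (m' : F.R) * a + (m : F.R) * b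

theorem Dm_mul (x : F.B) {η : F.B} (h : η ∈ F.J2 d) : F.Dm d (x * η) = x * F.Dm d η := by
  obtain ⟨m, hm, a⟩ := Dm_spec h
  refine Dm_eq hm.pos ?_
  push_cast
  linear_combination (x : F.R) * a

theorem Dm_neg {η : F.B} (h : η ∈ F.J2 d) : F.Dm d (-η) = -F.Dm d η := by
  simpa using Dm_mul (-1) h

theorem exists_mul_J {η : F.B} (h : η ∈ F.J2 d) : ∃ m : ℕ, Odd m ∧ (m : F.B) * η ∈ F.J d := by
  obtain ⟨m, hm, a⟩ := Dm_spec h
  refine ⟨m, hm, mem_J.2 ?_⟩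
  convert (m * F.Dm d η : F.B).2 using 1
  push_cast
  linear_combination a

theorem xi_zero : F.xi d 0 = 0 := by
  exact Dm_of_eq (by simp [mn_zero])

theorem xi_add {ω ω' : F.G} (h : ω ∈ F.KI (F.J2 d)) (h' : ω' ∈ F.KI (F.J2 d)) :
    F.xi d (ω + ω') = F.mn ω * F.xi d ω' + F.xi d ω := by
  rw [xi, xi, xi, ← Dm_mul _ h'.2, ← Dm_add (Ideal.mul_mem_left _ _ h'.2) h.2, mn_add]
  congr 1
  ring

theorem dich_J : F.Dich d (F.J d) := by
  exact fun s => ⟨1, one_pos, fun η _ => ⟨fun h => by simp [Dm_of_J h], fun h => by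
    simpa [← mem_J] using h⟩⟩

theorem chi_J2 {θ : F.Ch} (h : ∀ η ∈ F.J d, F.chi θ η = 0) : ∀ η ∈ F.J2 d, F.chi θ η = 0 := by
  intro η hη
  obtain ⟨m, hm, a⟩ := exists_mul_J hη
  have := h _ a
  rw [← nsmul_eq_mul, map_nsmul, ← Nat.cast_smul_eq_nsmul ℂ] at this
  exact (smul_eq_zero.1 this).resolve_left (Nat.cast_ne_zero.2 hm.pos.ne')

/-- `η * e = η d q - η p` lies in `B` and is small -/
theorem kill {q p η : F.B} (hs : F.Small (F.dR d * q - p)) (h : η ∈ F.J d) :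
    (η : F.R) * (F.dR d * q - p) = 0 := by
  have h1 : (η : F.R) * (F.dR d * q - p) = (F.Dm d η * q - η * p : F.B) := by
    push_cast
    rw [← Dm_of_J h]
    ring
  have h2 := hs.mul η
  rw [h1] at h2 ⊢
  rw [h2.eq_zero]
  rfl

theorem dvd_of_J {q p η : F.B} (hs : F.Small (F.dR d * q - p)) (h : η ∈ F.J d) : q ∣ η * p := by
  refine ⟨F.Dm d η, Subtype.ext ?_⟩
  push_cast
  rw [← Dm_of_J h]
  linear_combination -kill hs h

end Pool.Agent.GT.Fr
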