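import Pool.Agent.Lib.MP_a01f70_lc.GT.B2a
import Pool.Agent.Lib.MP_a01f70_lc.GT.MW

/-! A non zero divisor of bounded weight has a small annihilator. -/

namespace Pool.Agent.GT
open Finset Polynomial Filter Pool.Agent.GK

theorem B2_exp {K n w u b₀ s b : ℕ} (hK : 0 < K) (hs : s < n) (hw : 2 * w < n) (hb : b ≤ 2 * w)
    (h : K * s + w ≡ b [MOD n]) (hu : K * u = n + b₀) (h0 : b₀ < K) :
    ∃ t f : ℕ, t ≤ K ∧ f ≤ 2 * (w / K + K + 1) ∧ f + u * t = w / K + K + 1 + s := by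
  obtain ⟨t, ht⟩ : ∃ t, K * s + w = n * t + b :=
    ⟨(K * s + w) / n, by rw [← Nat.mod_eq_of_lt (show b < n by omega), ← h, Nat.div_add_mod]⟩
  have h1 : t ≤ K := by
    by_contra hc
    nlinarith [Nat.mul_le_mul_left n (show K + 1 ≤ t by omega), Nat.mul_le_mul_left K hs.le]
  have h2 := Nat.lt_div_mul_add (a := w) hK
  have h3 : b₀ * t ≤ K * K := Nat.mul_le_mul h0.le h1
  have h4 : K * (u * t) = n * t + b₀ * t := by rw [← mul_assoc, hu, add_mul]
  have h5 : u * t ≤ w / K + K + 1 + s := Nat.le_of_mul_le_mul_left (by nlinarith) hK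
  have h6 : s ≤ w / K + K + 1 + u * t := Nat.le_of_mul_le_mul_left (by nlinarith) hK
  exact ⟨t, w / K + K + 1 + s - u * t, h1, by omega, by omega⟩

theorem B2_coeff {k L : ℕ} (a : Fin k → ℤ) (t : Fin k → ℕ) {A : ℕ} (h : ∀ j, (a j).natAbs ≤ A) :
    ∑ i ∈ range L, ((∑ j, monomial (t j) (a j)).coeff i).natAbs ≤ k * A := by
  calc _ ≤ ∑ i ∈ range L, ∑ j, if t j = i then A else 0 := by
        refine sum_le_sum fun i _ => ?_
        rw [finsetSum_coeff]
        refine (Int.natAbs_sum_le _ _).trans (sum_le_sum fun j _ => ?_)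
        rw [coeff_monomial]
        split_ifs
        · exact h j
        · simp
    _ ≤ _ := by
        rw [sum_comm]
        refine (sum_le_card_nsmul _ _ A fun j _ => ?_).trans_eq (by simp)
        rw [sum_ite_eq]
        split_ifs <;> simp

theorem ann_alt (k : ℕ) {ε : ℝ} (hε : 0 < ε) : ∃ Q C : ℕ, ∀ n : ℕ, Q ≤ n →
    ∀ η : ZMod (2 ^ n - 1), Wt k η →
      (∃ ξ : ZMod (2 ^ n - 1), ξ ≠ 0 ∧ Wt C ξ ∧ η * ξ = 0) ∨
      ∃ g : ℕ, 0 < g ∧ (g : ℝ) ≤ 2 ^ (ε * n) ∧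
        ∀ e : ZMod (2 ^ n - 1), η * e = 0 → (g : ZMod (2 ^ n - 1)) * e = 0 := by
  obtain ⟨R, hR⟩ := exists_nat_ge (max 3 (4 / ε))
  have hR3 : 3 ≤ R := by exact_mod_cast (le_max_left _ _).trans hR
  replace hR := (le_max_right _ _).trans hR
  obtain ⟨A, hA⟩ := cofactor_bound (R ^ k)
  obtain ⟨Q₁, hQ₁⟩ := cofactor_ne (R ^ k) A
  obtain ⟨D, hD⟩ : ∃ D : ℕ, D = (R ^ k).factorial + (k + 4 * R ^ k + 2) * R ^ k := ⟨_, rfl⟩
  obtain ⟨Q, hQ⟩ := exists_nat_ge (2 * D / ε)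
  refine ⟨Q + Q₁ + 1, A, fun n hn η hη => ?_⟩
  obtain ⟨c, s, rfl⟩ := hη.fin
  have hn0 : 0 < n := by omega
  obtain ⟨K, b, hK, hKR, hb⟩ := Bgcd_dir (show 0 < R by omega) hn0 fun j => s j % n
  obtain ⟨u, b₀, hu, h0⟩ : ∃ u b₀, K * u = n + b₀ ∧ b₀ < K := by
    have h1 := Nat.div_add_mod (n + K - 1) K
    have h2 := Nat.mod_lt (n + K - 1) hK
    exact ⟨(n + K - 1) / K, K - 1 - (n + K - 1) % K, by omega, by omega⟩
  have hw : 2 * (n / R) < n := by
    have := Nat.div_le_div_left (a := n) hR3 (by norm_num)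
    omega
  choose t f ht hf e using fun j => B2_exp hK (Nat.mod_lt (s j) hn0) hw (hb j).1 (hb j).2 hu h0
  obtain ⟨E, hE⟩ : ∃ E, E = n / R / K + K + 1 := ⟨_, rfl⟩
  rw [← hE] at hf e
  obtain ⟨p, hp⟩ : ∃ p : ℤ[X], p = ∑ j, monomial (t j) (c j * 2 ^ f j : ℤ) := ⟨_, rfl⟩
  have h1 : aeval ((2 : ZMod (2 ^ n - 1)) ^ u) p = 2 ^ E * ∑ j, ((c j : ℤ) : ZMod _) * 2 ^ s j := by
    rw [hp, map_sum, mul_sum]
    refine sum_congr rfl fun j _ => ?_
    rw [aeval_monomial, eq_intCast, ← bas2_pow_mod n (s j), mul_left_comm, ← pow_add, ← e, pow_add,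
      pow_mul]
    push_cast
    ring
  have h2 : aeval ((2 : ZMod (2 ^ n - 1)) ^ u) (X ^ K - C (2 ^ b₀ : ℤ)) = 0 := by
    rw [map_sub, map_pow, aeval_X, aeval_C, ← pow_mul, mul_comm, hu, pow_add, two_pow_self]
    simp
  have h3 : IsUnit ((2 : ZMod (2 ^ n - 1)) ^ E) :=
    (IsUnit.of_pow_eq_one (two_pow_self n) hn0.ne').pow _
  rcases det_alt (b := b₀) (A := k * 2 ^ (2 * E)) (p := p) hK (by
      rw [hp]
      exact natDegree_sum_le_of_forall_le _ _ fun j _ =>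
        (natDegree_monomial_le _).trans ((ht j).trans (by omega))) (by
      rw [hp]
      refine B2_coeff _ _ fun j => ?_
      rw [Int.natAbs_mul, Int.natAbs_pow]
      refine (Nat.mul_le_mul (show _ ≤ 1 by rcases c j with _ | _ | _ <;> simp)
        (Nat.pow_le_pow_right two_pos (hf j))).trans_eq (one_mul _)) with
    ⟨h, a1, a2, a3⟩ | ⟨g, a1, a2, v, w, a3⟩
  · obtain ⟨H, b1, b2, b3, z, b4⟩ := exists_cofactor hK a1 a2 a3
    obtain ⟨b5, b6⟩ := hQ₁ n K b₀ u (by omega) hKR (by omega) hu H b1 b2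
      (hA K b₀ hK hKR (by omega) H b1 b3)
    refine .inl ⟨_, b5, b6, h3.mul_right_eq_zero.1 ?_⟩
    rw [← mul_assoc, ← h1, ← map_mul, b4, map_mul, h2, zero_mul]
  · refine .inr ⟨g, a1, ?_, fun x hx => ?_⟩
    · have b1 : g ≤ 2 ^ (D + 2 * (n / R)) := by
        have b2 : E * K ≤ n / R + (K + 1) * K := by
          rw [hE, add_assoc, add_mul]
          exact Nat.add_le_add_right (Nat.div_mul_le_self _ _) _
        calc g ≤ 2 ^ (R ^ k).factorial * (2 ^ k * 2 ^ (2 * E) * (2 ^ 2) ^ K) ^ K := by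
              refine a2.trans (Nat.mul_le_mul ((Nat.factorial_le hKR).trans Nat.lt_two_pow_self.le)
                (Nat.pow_le_pow_left (Nat.mul_le_mul (Nat.mul_le_mul_right _
                  Nat.lt_two_pow_self.le) (Nat.pow_le_pow_right (by norm_num) h0.le)) _))
          _ ≤ _ := by
              simp only [← pow_mul, ← pow_add]
              refine Nat.pow_le_pow_right two_pos ?_
              have := Nat.mul_le_mul (show k + 4 * K + 2 ≤ k + 4 * R ^ k + 2 by omega) hKR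
              nlinarith
      refine le_trans (b := (2 : ℝ) ^ (D + 2 * (n / R))) (by exact_mod_cast b1) ?_
      rw [← Real.rpow_natCast]
      refine Real.rpow_le_rpow_of_exponent_le one_le_two ?_
      have h4 : (Q : ℝ) ≤ n := by exact_mod_cast (by omega : Q ≤ n)
      have h5 : ((n / R : ℕ) : ℝ) * R ≤ n := by exact_mod_cast Nat.div_mul_le_self n R
      rw [div_le_iff₀ hε] at hQ hR
      have h6 : (0 : ℝ) ≤ (n / R : ℕ) := Nat.cast_nonneg _
      push_cast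
      nlinarith [mul_le_mul_of_nonneg_left hR h6, mul_le_mul_of_nonneg_right h5 hε.le,
        mul_le_mul_of_nonneg_right h4 hε.le]
    · have b1 := congrArg (aeval ((2 : ZMod (2 ^ n - 1)) ^ u)) a3
      rw [map_natCast, map_add, map_mul, map_mul, h1, h2, mul_zero, add_zero] at b1
      rw [b1, mul_assoc, mul_assoc, hx, mul_zero, mul_zero]

theorem Fr.Small.of_nzd {F : Fr} {A : F.B} (hA : A ∈ nonZeroDivisors F.B) {e : F.R}
    (h : F.Small (A * e)) : F.Small e := by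
  classical
  intro ε hε
  obtain ⟨k, hk⟩ := Fr.exists_wtB A
  obtain ⟨y, hy⟩ := F.mkR_surj A
  obtain ⟨x, rfl⟩ := F.mkR_surj e
  obtain ⟨Q, C, hQ⟩ := ann_alt k (half_pos hε)
  obtain ⟨g', h1, h2⟩ := h _ (half_pos hε)
  rcases Ultrafilter.eventually_or.1 (((hk.wt hy.symm).and (F.big Q)).mono fun i hi =>
    hQ _ hi.2 _ hi.1) with h3 | h3
  · obtain ⟨ξ, h4⟩ := Filter.skolem.1 h3
    obtain ⟨z, h5, -⟩ := Fr.exists_of_wt (h4.mono fun i hi => hi.2.1)
    have h6 : z = 0 := mem_nonZeroDivisors_iff_left.1 hA z (Subtype.ext (by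
      rw [Subring.coe_mul, h5, ← hy, ← map_mul, Subring.coe_zero, ← map_zero F.mkR, F.mkR_eq]
      exact h4.mono fun i hi => hi.2.2))
    rw [h6, Subring.coe_zero, ← map_zero F.mkR, F.mkR_eq] at h5
    obtain ⟨i, a1, a2⟩ := (h4.and h5).exists
    exact absurd a2.symm a1.1
  · obtain ⟨g, h4⟩ := Filter.skolem.1 h3
    refine ⟨g * g', (h4.and h1).mono fun i hi => ⟨Nat.mul_pos hi.1.1 hi.2.1, ?_⟩, ?_⟩
    · rw [Pi.mul_apply, Nat.cast_mul, ← add_halves ε, add_mul, Real.rpow_add two_pos]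
      exact mul_le_mul hi.1.2.1 hi.2.2 (Nat.cast_nonneg _) (by positivity)
    · rw [← hy, Fr.dR, ← map_mul, ← map_mul, ← map_zero F.mkR, F.mkR_eq] at h2
      rw [Fr.dR, ← map_mul, ← map_zero F.mkR, F.mkR_eq]
      filter_upwards [h4, h2] with i a1 a2
      have := a1.2.2 (g' i * x i) (by simpa [mul_left_comm] using a2)
      simpa [mul_assoc] using this

end Pool.Agent.GT
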