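import Pool.Agent.Lib.MP_a01f70_lc.GK.Bgcd

/-! Cofactors of `X ^ K - 2 ^ b`. -/

namespace Pool.Agent.GT
open Finset Polynomial Pool.Agent.GK

/-- Over `ℚ` let `G = gcd p P`, `P = X ^ K - C (2 ^ b)`. `G` is not a unit (else `P ∣ h`). The monic cofactor
`P / G` has integer coefficients (`IsIntegrallyClosed.eq_map_mul_C_of_dvd` or
`integralClosure.mem_lifts_of_monic_of_dvd_map`), `P ∣ p * H` over `ℚ`, hence over `ℤ`
(`Monic.dvd_iff_fraction_map_dvd_fraction_map`, `map_dvd_map`). -/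
theorem exists_cofactor {K b : ℕ} (hK : 0 < K) {p h : ℤ[X]} (h0 : h ≠ 0) (h1 : h.natDegree < K)
    (h2 : X ^ K - C (2 ^ b : ℤ) ∣ p * h) :
    ∃ H : ℤ[X], H.Monic ∧ H.natDegree < K ∧ H ∣ X ^ K - C (2 ^ b : ℤ) ∧
      X ^ K - C (2 ^ b : ℤ) ∣ p * H := by
  obtain ⟨a, c, ha, hc, e⟩ := exists_dvd_and_dvd_of_dvd_mul h2
  have h3 : a.leadingCoeff * c.leadingCoeff = 1 := by
    rw [← leadingCoeff_mul, ← e]
    exact monic_X_pow_sub_C _ hK.ne'
  rw [e]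
  exact ⟨C a.leadingCoeff * c, monic_C_mul_of_mul_leadingCoeff_eq_one h3,
    ((natDegree_C_mul_le _ _).trans (natDegree_le_of_dvd hc h0)).trans_lt h1,
    (isUnit_C.2 (IsUnit.of_mul_eq_one _ h3)).mul_left_dvd.2 (dvd_mul_left _ _),
    mul_dvd_mul ha (dvd_mul_left _ _)⟩

/-- finitely many monic divisors (`Polynomial.fintypeSubtypeMonicDvd`, or `coeff_le_of_roots_le`) -/
theorem cofactor_bound (K₀ : ℕ) : ∃ A : ℕ, ∀ K b : ℕ, 0 < K → K ≤ K₀ → b ≤ K₀ → ∀ H : ℤ[X], H.Monic →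
    H ∣ X ^ K - C (2 ^ b : ℤ) → ∑ i ∈ range (H.natDegree + 1), (H.coeff i).natAbs ≤ A := by
  have := fintypeSubtypeMonicDvd (∏ q ∈ Ioc 0 K₀ ×ˢ Iic K₀, (X ^ q.1 - C (2 ^ q.2 : ℤ)))
    (prod_ne_zero_iff.2 fun q hq => X_pow_sub_C_ne_zero (mem_Ioc.1 (mem_product.1 hq).1).1 _)
  obtain ⟨A, hA⟩ := Finite.exists_le fun H : {g : ℤ[X] // g.Monic ∧
    g ∣ ∏ q ∈ Ioc 0 K₀ ×ˢ Iic K₀, (X ^ q.1 - C (2 ^ q.2 : ℤ))} =>
      ∑ i ∈ range (H.1.natDegree + 1), (H.1.coeff i).natAbs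
  exact ⟨A, fun K b h1 h2 h3 H h4 h5 => hA ⟨H, h4, h5.trans (dvd_prod_of_mem (a := (K, b)) _
    (mk_mem_product (mem_Ioc.2 ⟨h1, h2⟩) (mem_Iic.2 h3)))⟩⟩

theorem b2a_bd (c : ℕ → ℤ) {x : ℤ} (hx : 1 ≤ x) (m : ℕ) :
    |∑ i ∈ range m, c i * x ^ i| * x ≤ (∑ i ∈ range m, (c i).natAbs : ℕ) * x ^ m := by
  refine (mul_le_mul_of_nonneg_right (abs_sum_le_sum_abs _ _) (by omega)).trans ?_
  rw [Nat.cast_sum, sum_mul, sum_mul]
  refine sum_le_sum fun i hi => ?_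
  rw [abs_mul, abs_pow, abs_of_nonneg (a := x) (by omega), mul_assoc, ← pow_succ, Int.natCast_natAbs]
  exact mul_le_mul_of_nonneg_left (pow_le_pow_right₀ hx (mem_range.1 hi)) (abs_nonneg _)

theorem b2a_wt {R : Type} [CommRing R] (c : ℕ → ℤ) (u m : ℕ) :
    Wt (∑ i ∈ range m, (c i).natAbs) (∑ i ∈ range m, c i • ((2 : R) ^ u) ^ i) := by
  induction m with
  | zero => exact wt_zero
  | succ m ih =>
    rw [sum_range_succ, sum_range_succ, zsmul_eq_mul, ← pow_mul, mul_comm]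
    exact ih.add (bas3_pow (wt_intCast _) _)

/-- `0 < |H (2 ^ u)| ≤ A 2 ^ (u (K - 1)) < 2 ^ n - 1` -/
theorem cofactor_ne (K₀ A : ℕ) : ∃ Q : ℕ, ∀ n K b u : ℕ, Q ≤ n → K ≤ K₀ → b ≤ K₀ → K * u = n + b →
    ∀ H : ℤ[X], H.Monic → H.natDegree < K → ∑ i ∈ range (H.natDegree + 1), (H.coeff i).natAbs ≤ A →
      aeval ((2 : ZMod (2 ^ n - 1)) ^ u) H ≠ 0 ∧ Wt A (aeval ((2 : ZMod (2 ^ n - 1)) ^ u) H) := by
  refine ⟨K₀ * (A + K₀ + 1) + 1, fun n K b u hn hK hb e H h1 h2 h3 => ⟨fun h0 => ?_, ?_⟩⟩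
  swap
  · rw [aeval_eq_sum_range]
    exact (b2a_wt _ _ _).mono h3
  have hu : A + K₀ + 1 ≤ u := le_of_not_gt fun h => by
    have := Nat.mul_le_mul hK h.le
    omega
  have hx : (A : ℤ) * 2 ^ b * 2 < 2 ^ u := by
    refine lt_of_lt_of_le ?_ (pow_le_pow_right₀ one_le_two hu)
    rw [pow_succ, pow_add]
    exact_mod_cast Nat.mul_lt_mul_of_pos_right (Nat.mul_lt_mul_of_lt_of_le A.lt_two_pow_self
      (Nat.pow_le_pow_right two_pos hb) (by positivity)) two_pos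
  have h4 : (1 : ℤ) ≤ 2 ^ u := one_le_pow₀ one_le_two
  have h5 : ((H.eval (2 ^ u) : ℤ) : ZMod (2 ^ n - 1)) = 0 := by
    rw [← h0, ← eq_intCast (algebraMap ℤ (ZMod (2 ^ n - 1))), ← aeval_algebraMap_apply_eq_algebraMap_eval]
    simp
  have h6 := b2a_bd H.coeff h4 (H.natDegree + 1)
  have h7 := b2a_bd H.coeff h4 H.natDegree
  have h8 : (2 : ℤ) ≤ 2 ^ n := le_self_pow₀ one_le_two (by omega)
  have h9 : (1 : ℤ) ≤ 2 ^ b := one_le_pow₀ one_le_two
  rw [← eval_eq_sum_range] at h6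
  replace h6 := h6.trans (mul_le_mul (Nat.cast_le.2 h3) (pow_le_pow_right₀ h4 h2) (by positivity)
    (by positivity))
  rw [← pow_mul, mul_comm u, e, pow_add] at h6
  have h10 := Int.eq_zero_of_abs_lt_dvd ((ZMod.intCast_zmod_eq_zero_iff_dvd _ _).1 h5) (by
    rw [Nat.cast_sub Nat.one_le_two_pow]
    push_cast
    refine lt_of_mul_lt_mul_right (h6.trans_lt ?_) (by omega)
    nlinarith [mul_nonneg (Nat.cast_nonneg (α := ℤ) A) (by omega : (0 : ℤ) ≤ 2 ^ b)])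
  rw [eval_eq_sum_range, sum_range_succ, h1.coeff_natDegree, one_mul, add_eq_zero_iff_eq_neg] at h10
  rw [h10, abs_neg, abs_of_pos (by positivity), mul_comm] at h7
  have h11 := (le_of_mul_le_mul_right h7 (by positivity)).trans
    (Nat.cast_le.2 ((sum_le_sum_of_subset (range_subset_range.2 (Nat.le_succ _))).trans h3))
  nlinarith [Nat.cast_nonneg (α := ℤ) A]

/-- the matrix of the multiplication by `p` -/
def b2a_M (K b : ℕ) (p : ℤ[X]) : Matrix (Fin K) (Fin K) ℤ := Matrix.of fun i l =>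
  ∑ j ∈ range (p.natDegree + 1), if (j + i) % K = l then p.coeff j * 2 ^ (b * ((j + i) / K)) else 0

theorem b2a_row {K b : ℕ} (p : ℤ[X]) {S : Type} [CommRing S] {φ : ℤ[X] →+* S}
    (h : φ (X ^ K - C (2 ^ b : ℤ)) = 0) (i : Fin K) :
    ∑ l, (b2a_M K b p i l : S) * φ X ^ (l : ℕ) = φ p * φ X ^ (i : ℕ) := by
  have ht : φ X ^ K = 2 ^ b := by simpa [sub_eq_zero, map_ofNat] using h
  rw [congrArg φ p.as_sum_range_C_mul_X_pow]
  simp only [b2a_M, Matrix.of_apply, Int.cast_sum, sum_mul, map_sum, map_mul, map_pow, eq_intCast,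
    map_intCast]
  rw [sum_comm]
  refine sum_congr rfl fun j _ => ?_
  rw [sum_eq_single ⟨(j + i) % K, Nat.mod_lt _ i.pos⟩ (fun l _ hl => by
    rw [if_neg fun e => hl (Fin.ext e.symm), Int.cast_zero, zero_mul]) (by simp), if_pos rfl]
  push_cast
  rw [pow_mul, ← ht, ← pow_mul, mul_assoc, mul_assoc, ← pow_add, ← pow_add, Nat.div_add_mod]

theorem b2a_ker {K b : ℕ} {p : ℤ[X]} {S : Type} [CommRing S] {φ : ℤ[X] →+* S}
    (h : φ (X ^ K - C (2 ^ b : ℤ)) = 0) {w : Fin K → ℤ} (e : Matrix.vecMul w (b2a_M K b p) = 0) :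
    φ (p * ofFn K w) = 0 := by
  have e' : ∀ l, ∑ i, (w i : S) * b2a_M K b p i l = 0 := fun l => by
    simpa [Matrix.vecMul, dotProduct] using congrArg (Int.cast (R := S)) (congrFun e l)
  simp only [ofFn_eq_sum_monomial, ← C_mul_X_pow_eq_monomial, map_sum, map_mul, map_pow, eq_intCast,
    map_intCast, mul_sum, mul_left_comm (φ p), ← b2a_row p h]
  simp only [← mul_assoc]
  rw [sum_comm]
  simp only [← sum_mul, e', zero_mul, sum_const_zero]

theorem b2a_det {K b : ℕ} [NeZero K] {p : ℤ[X]} {S : Type} [CommRing S] {φ : ℤ[X] →+* S}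
    (h : φ (X ^ K - C (2 ^ b : ℤ)) = 0) (hp : φ p = 0) : φ (b2a_M K b p).det = 0 := by
  have h4 : ((Int.castRingHom S).mapMatrix (b2a_M K b p)).mulVec (fun i => φ X ^ (i : ℕ)) = 0 :=
    funext fun i => (b2a_row p h i).trans (mul_eq_zero_of_left hp _)
  have h5 := congrArg ((Int.castRingHom S).mapMatrix (b2a_M K b p)).adjugate.mulVec h4
  rw [Matrix.mulVec_mulVec, Matrix.adjugate_mul, Matrix.mulVec_zero, ← RingHom.map_det,
    Matrix.smul_mulVec, Matrix.one_mulVec] at h5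
  simpa using congrFun h5 0

/-- Multiplication by `p` on `AdjoinRoot P` (power basis `AdjoinRoot.powerBasis'` of dimension `K`), `g = |det|`
(`Algebra.leftMulMatrix`, `Algebra.norm`). If the determinant vanishes there is `h`
(`Matrix.exists_mulVec_eq_zero_iff`). Otherwise `det ∈ (p, P)` (adjugate, compare `Bgcd_det_mul`). The entry `(l, i)` is the
coefficient `l` of `p * X ^ i` modulo `P`, of size at most `A * 4 ^ b`: `X ^ (t + i) = 2 ^ (b * ((t + i) / K)) X ^ ((t + i) % K)` and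
`t + i < 3 K`; `Matrix.det_le`. -/
theorem det_alt {K b A : ℕ} (hK : 0 < K) {p : ℤ[X]} (h1 : p.natDegree ≤ 2 * K)
    (h2 : ∑ i ∈ range (p.natDegree + 1), (p.coeff i).natAbs ≤ A) :
    (∃ h : ℤ[X], h ≠ 0 ∧ h.natDegree < K ∧ X ^ K - C (2 ^ b : ℤ) ∣ p * h) ∨
      ∃ g : ℕ, 0 < g ∧ g ≤ K.factorial * (A * 4 ^ b) ^ K ∧
        ∃ v w : ℤ[X], (g : ℤ[X]) = v * p + w * (X ^ K - C (2 ^ b : ℤ)) := by
  have : NeZero K := ⟨hK.ne'⟩
  by_cases h0 : (b2a_M K b p).det = 0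
  · obtain ⟨w, hw, e⟩ := Matrix.exists_vecMul_eq_zero_iff.2 h0
    exact Or.inl ⟨ofFn K w, fun e => hw (injective_ofFn K (e.trans (map_zero _).symm)),
      ofFn_natDegree_lt hK w, AdjoinRoot.mk_eq_zero.1 (b2a_ker AdjoinRoot.mk_self e)⟩
  refine Or.inr ⟨_, Int.natAbs_pos.2 h0, ?_, ?_⟩
  · have h3 := Matrix.det_le (A := b2a_M K b p) (abv := AbsoluteValue.abs) (x := A * 4 ^ b)
      fun i l => by
        rw [AbsoluteValue.abs_apply, b2a_M, Matrix.of_apply]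
        refine (abs_sum_le_sum_abs _ _).trans (le_trans ?_
          (mul_le_mul_of_nonneg_right (Nat.cast_le.2 h2) (by positivity : (0 : ℤ) ≤ 4 ^ b)))
        rw [Nat.cast_sum, sum_mul]
        refine sum_le_sum fun j hj => ?_
        split_ifs
        · rw [abs_mul, abs_pow, abs_two, Int.natCast_natAbs, show (4 : ℤ) = 2 ^ 2 from rfl, ← pow_mul,
            mul_comm 2]
          refine mul_le_mul_of_nonneg_left (pow_le_pow_right₀ one_le_two (Nat.mul_le_mul_left _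
            (Nat.le_of_lt_succ ((Nat.div_lt_iff_lt_mul hK).2 ?_)))) (abs_nonneg _)
          have := mem_range.1 hj
          omega
        · positivity
    rw [Fintype.card_fin, nsmul_eq_mul, AbsoluteValue.abs_apply] at h3
    zify
    exact h3
  · let I : Ideal ℤ[X] := Ideal.span {p, X ^ K - C (2 ^ b : ℤ)}
    have h6 : (((b2a_M K b p).det : ℤ) : ℤ[X]) ∈ I := Ideal.Quotient.eq_zero_iff_mem.1 (b2a_det
      (Ideal.Quotient.eq_zero_iff_mem.2 (Ideal.subset_span (Set.mem_insert_of_mem _ rfl)))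
      (Ideal.Quotient.eq_zero_iff_mem.2 (Ideal.subset_span (Set.mem_insert _ _))))
    obtain ⟨v, w, e⟩ := Ideal.mem_span_pair.1 (show (((b2a_M K b p).det.natAbs : ℤ) : ℤ[X]) ∈ I by
      rcases Int.natAbs_eq (b2a_M K b p).det with h' | h'
      · rwa [← h']
      · rw [← neg_eq_iff_eq_neg.2 h', Int.cast_neg]
        exact I.neg_mem h6)
    exact ⟨v, w, by rw [e, Int.cast_natCast]⟩

end Pool.Agent.GT
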