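import Pool.Agent.Lib.MP_a01f70_lc.GT.MX

/-! Charts. -/

noncomputable section

namespace Pool.Agent.GT
open Finset Pool.Agent.GK

/-- `AddCommGroup.equiv_free_prod_directSum_zmod`: `Q ≃ (Fin r →₀ ℤ) × Φ` with `Φ` finite. Let `2 ^ k` be the
`2`-part of `Nat.card Φ` and `T` the range of `x ↦ 2 ^ k • x` on `Φ`; all its elements have odd order, so its
cardinality is odd (Cauchy, `exists_prime_addOrderOf_dvd_card`). -/
theorem exists_odd_part (Q : Type) [AddCommGroup Q] [AddGroup.FG Q] :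
    ∃ (r : ℕ) (T : Type) (_ : AddCommGroup T) (_ : Fintype T) (π : Q →+ (Fin r → ℤ) × T) (k : ℕ),
      Odd (Fintype.card T) ∧ ∀ q, π q = 0 → 2 ^ k • q = 0 := by
  obtain ⟨r, ι, _, p, hp, e, ⟨φ⟩⟩ := AddCommGroup.equiv_free_prod_directSum_zmod Q
  have : ∀ i, NeZero (p i ^ e i) := fun i => ⟨pow_ne_zero _ (hp i).ne_zero⟩
  have : Finite (DirectSum ι fun i => ZMod (p i ^ e i)) :=
    Finite.of_equiv _ DFinsupp.equivFunOnFintype.symm
  obtain ⟨k, u, hu, h⟩ := Nat.exists_eq_two_pow_mul_odd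
    (Nat.card_pos (α := DirectSum ι fun i => ZMod (p i ^ e i))).ne'
  let ψ : (DirectSum ι fun i => ZMod (p i ^ e i)) →+ _ := nsmulAddMonoidHom (2 ^ k)
  have := Fintype.ofFinite ψ.range
  refine ⟨r, ψ.range, inferInstance, this, ((Finsupp.addEquivFunOnFinite.toAddMonoidHom).prodMap
    ψ.rangeRestrict).comp φ.toAddMonoidHom, k, Nat.not_even_iff_odd.1 fun h2 => ?_, fun q hq => ?_⟩
  · obtain ⟨⟨x, y, rfl⟩, hx⟩ := exists_prime_addOrderOf_dvd_card 2 h2.two_dvd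
    refine Nat.not_even_iff_odd.2 hu (even_iff_two_dvd.2 ?_)
    rw [← hx, addOrderOf_dvd_iff_nsmul_eq_zero]
    refine Subtype.ext ?_
    change u • 2 ^ k • y = 0
    rw [smul_smul, mul_comm, ← h, card_nsmul_eq_zero']
  · have h1 : (φ q).1 = 0 := Finsupp.addEquivFunOnFinite.map_eq_zero_iff.1 (congrArg Prod.fst hq)
    have h2 : 2 ^ k • (φ q).2 = 0 := congrArg Subtype.val (congrArg Prod.snd hq)
    refine φ.map_eq_zero_iff.1 ?_
    rw [map_nsmul]
    exact Prod.ext (by simp [h1]) h2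

/-- extend `j • σ ↦ j` to `ℚ` and clear the denominators of the generators -/
theorem exists_height {Γ : Type} [AddCommGroup Γ] [AddGroup.FG Γ] {σ : Γ}
    (h : ∀ j : ℤ, j • σ = 0 → j = 0) : ∃ (m : ℕ) (f : Γ →+ ℤ), 0 < m ∧ f σ = m := by
  obtain ⟨r, T, _, _, π, k, hT, hπ⟩ := exists_odd_part Γ
  obtain ⟨j, hj⟩ : ∃ j, (π σ).1 j ≠ 0 := by
    by_contra hc
    push Not at hc
    have h1 := hπ (Fintype.card T • σ) (by
      rw [map_nsmul]
      exact Prod.ext (by funext j; simp [hc j]) card_nsmul_eq_zero)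
    rw [smul_smul, ← natCast_zsmul] at h1
    exact absurd (h _ h1) (by exact_mod_cast (Nat.mul_pos (by positivity) hT.pos).ne')
  refine ⟨((π σ).1 j * (π σ).1 j).natAbs, (π σ).1 j • ((Pi.evalAddMonoidHom _ j).comp
    ((AddMonoidHom.fst _ _).comp π)), Int.natAbs_pos.2 (mul_ne_zero hj hj), ?_⟩
  rw [Int.natAbs_of_nonneg (mul_self_nonneg _)]
  rfl

namespace Fr

variable {F : Fr}

/-- `Γ = closure (insert σ s)`, `Q = Γ ⧸ zmultiples σ`; `eq_zero_of_two_pow` -/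
theorem exists_chart (s : Finset F.G) : ∃ (m r : ℕ) (T : Type) (_ : AddCommGroup T) (_ : Fintype T)
    (c : F.Chart m r T), 0 < m ∧ Odd (Fintype.card T) ∧ ∀ γ ∈ s, γ ∈ c.Γ := by
  classical
  let Γ := AddSubgroup.closure ((insert F.σ s : Finset F.G) : Set F.G)
  have hσ : F.σ ∈ Γ := AddSubgroup.subset_closure (by simp)
  obtain ⟨m, f, hm, hf⟩ := exists_height (Γ := Γ) (σ := ⟨F.σ, hσ⟩) fun j h =>
    F.zsmul_σ_eq_zero (congrArg Subtype.val h)
  obtain ⟨r, T, _, _, π, k, hT, hπ⟩ :=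
    exists_odd_part (Γ ⧸ AddSubgroup.zmultiples (⟨F.σ, hσ⟩ : Γ))
  refine ⟨m, r, T, _, inferInstance, ⟨Γ, f.prod (π.comp (QuotientAddGroup.mk' _)), hσ,
    (injective_iff_map_eq_zero _).2 fun x hx => ?_, Prod.ext hf ?_⟩, hm, hT,
    fun γ h => AddSubgroup.subset_closure (by simp [h])⟩
  · have h1 := hπ _ (congrArg Prod.snd hx)
    rw [← map_nsmul] at h1
    obtain ⟨j, hj⟩ := (QuotientAddGroup.eq_zero_iff _).1 h1
    have h2 := congrArg f hj
    have h3 : f x = 0 := congrArg Prod.fst hx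
    rw [map_zsmul, map_nsmul, hf, h3, smul_zero, smul_eq_mul, mul_eq_zero] at h2
    obtain rfl := h2.resolve_right (by exact_mod_cast hm.ne')
    exact Subtype.ext (F.eq_zero_of_two_pow (k := k) (by simpa using congrArg Subtype.val hj.symm))
  · change π _ = 0
    rw [QuotientAddGroup.mk'_apply, (QuotientAddGroup.eq_zero_iff _).2
      (AddSubgroup.mem_zmultiples _), map_zero]

variable {m r : ℕ} [NeZero m] {T : Type} [AddCommGroup T] (c : F.Chart m r T)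

open Classical in
theorem Chart.ev_def (δ : ℤ × ((Fin r → ℤ) × T)) :
    c.ev (mon m δ) = if h : ∃ γ, c.κ γ = δ then F.mn (h.choose : c.Γ) else 0 := by
  refine chG_mon (fun δ => ?_) δ
  by_cases h : ∃ γ, c.κ γ = δ
  · have h' : ∃ γ, c.κ γ = δ + ((m : ℤ), 0) :=
      ⟨h.choose + ⟨F.σ, c.mem⟩, by rw [map_add, h.choose_spec, c.sig]⟩
    rw [dif_pos h, dif_pos h', ← mn_add_σ, c.inj (a₁ := h'.choose) (a₂ := h.choose + ⟨F.σ, c.mem⟩)
      (by rw [map_add, h.choose_spec, c.sig, h'.choose_spec])]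
    rfl
  · rw [dif_neg h, dif_neg fun ⟨γ, e⟩ => h ⟨γ - ⟨F.σ, c.mem⟩, by rw [map_sub, e, c.sig]; simp⟩,
      smul_zero]

theorem Chart.ev_mon (γ : c.Γ) : c.ev (mon m (c.κ γ)) = F.mn γ := by
  rw [c.ev_def, dif_pos ⟨γ, rfl⟩, c.inj (Exists.choose_spec (⟨γ, rfl⟩ : ∃ γ', c.κ γ' = c.κ γ))]

theorem Chart.ev_mon_of {δ : ℤ × ((Fin r → ℤ) × T)} (h : ∀ γ, c.κ γ ≠ δ) : c.ev (mon m δ) = 0 := by
  rw [c.ev_def, dif_neg fun ⟨γ, e⟩ => h γ e]

omit [NeZero m] in
theorem Chart.exists_rep {s : Finset F.G} (hs : ∀ γ ∈ s, γ ∈ c.Γ) (a : F.G → ℤ) :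
    ∃ f, c.Rep f (∑ γ ∈ s, a γ • F.mn γ) := by
  refine ⟨_, s.card, fun j => a (s.equivFin.symm j), fun j => ⟨_, hs _ (s.equivFin.symm j).2⟩, rfl, ?_⟩
  rw [← sum_coe_sort s]
  exact (Equiv.sum_comp s.equivFin.symm fun γ : s => a γ • F.mn γ).symm

variable {c}

theorem Chart.Rep.ev_mul {f : GR m ((Fin r → ℤ) × T)} {x : F.B} (h : c.Rep f x)
    (g : GR m ((Fin r → ℤ) × T)) : c.ev (f * g) = x * c.ev g := by
  obtain ⟨k, a, γ, rfl, rfl⟩ := h
  rw [sum_mul, sum_mul, map_sum]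
  refine sum_congr rfl fun j _ => ?_
  rw [smul_mul_assoc, smul_mul_assoc, map_zsmul]
  congr 1
  induction g using GR_induction with
  | h0 => simp
  | hm δ =>
    rw [← mon_add]
    by_cases h : ∃ γ', c.κ γ' = δ
    · obtain ⟨γ', rfl⟩ := h
      rw [← map_add, c.ev_mon, c.ev_mon, AddSubgroup.coe_add, mn_add]
    · rw [c.ev_mon_of fun γ' e => h ⟨γ', e⟩, c.ev_mon_of fun γ' e => h ⟨γ' - γ j, by simp [e]⟩,
        mul_zero]
  | ha x y hx hy => rw [mul_add, map_add, map_add, mul_add, hx, hy]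
  | hn x hx => rw [show mon m (c.κ (γ j)) * -x = -(mon m (c.κ (γ j)) * x) by ring, map_neg,
      map_neg, mul_neg, hx]

theorem Chart.co_ev (g : GR m ((Fin r → ℤ) × T)) : F.co (c.ev g) = (co0 m (g.coeff 0) : ℝ) := by
  classical
  induction g using GR_induction with
  | h0 => simp
  | hm δ =>
    have hσ : ∀ j : ℤ, c.κ (j • ⟨F.σ, c.mem⟩) = (j * m, 0) := fun j => by simp [c.sig]
    by_cases h : ∃ j : ℤ, δ = (j * m, 0)
    · obtain ⟨j, rfl⟩ := h
      rw [← hσ, c.ev_mon, hσ, AddSubgroup.coe_zsmul, co_mn_σ]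
      simp [mon, co0_tz, NeZero.ne m]
    · have h1 : co0 m ((mon m δ).coeff 0) = 0 := by
        rw [mon, AddMonoidAlgebra.coeff_single, Finsupp.single_apply]
        split_ifs with h2
        · rw [co0_tz, if_neg fun ⟨j, e⟩ => h ⟨j, Prod.ext (by rw [e, mul_comm]) h2⟩]
        · exact map_zero _
      rw [h1, Rat.cast_zero]
      by_cases h2 : ∃ γ, c.κ γ = δ
      · obtain ⟨γ, rfl⟩ := h2
        rw [c.ev_mon]
        exact F.co_mn_of_ne fun j e => h ⟨j, by rw [← hσ]; exact congrArg c.κ (Subtype.ext e)⟩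
      · rw [c.ev_mon_of fun γ e => h2 ⟨γ, e⟩, map_zero]
  | ha x y hx hy => simp [hx, hy]
  | hn x hx => simp [hx]

/-- If `g ≠ 0` some `mon δ * g` has `co0 (coeff 0) ≠ 0` (`exists_sum_classes`). -/
theorem Chart.Rep.nzd {f : GR m ((Fin r → ℤ) × T)} {x : F.B} (h : c.Rep f x)
    (hx : x ∈ nonZeroDivisors F.B) : f ∈ nonZeroDivisors (GR m ((Fin r → ℤ) × T)) := by
  refine mem_nonZeroDivisors_iff_left.2 fun g hg => ?_
  ext l
  have h1 : ∀ i : ℤ, co0 m (tz m i * g.coeff l) = 0 := fun i => by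
    have h2 := h.ev_mul (mon m (i, -l) * g)
    rw [mul_left_comm, hg, mul_zero, map_zero] at h2
    have h3 := Chart.co_ev (c := c) (mon m (i, -l) * g)
    rw [mem_nonZeroDivisors_iff_left.1 hx _ h2.symm, map_zero, mon,
      AddMonoidAlgebra.coeff_single_mul_apply] at h3
    simpa using h3.symm
  rw [co0_expand]
  simp [h1]

/-- Multiply by `mon (-γ₁)` and apply `ev`; each `ev (mon δ)` is a monomial or zero, the right side is not
zero, and `mn γ = mn (γ - σ) + mn (γ - σ)`. The left side is not zero since `1 + mn γ` is a non zero divisor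
(or: `isUnit_binom` in `MW`; here use `co`). -/
theorem Chart.Rep.formQ {f g : GR m ((Fin r → ℤ) × T)} {x y : F.B} (hf : c.Rep f x) (hg : c.Rep g y)
    (hx : x ∈ nonZeroDivisors F.B) (h : FormQ f g) :
    ∃ γ₁ γ₂ γ₃ γ₄, x * (F.mn γ₁ + F.mn γ₂) = y * (F.mn γ₃ + F.mn γ₄) := by
  have key : ∀ δ δ', c.ev (mon m δ + mon m δ') = 0 ∨
      ∃ γ γ', c.ev (mon m δ + mon m δ') = F.mn γ + F.mn γ' := by
    have h1 : ∀ δ, c.ev (mon m δ) = 0 ∨ ∃ γ, c.ev (mon m δ) = F.mn γ := fun δ => by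
      by_cases h : ∃ γ, c.κ γ = δ
      · obtain ⟨γ, rfl⟩ := h
        exact .inr ⟨_, c.ev_mon γ⟩
      · exact .inl (c.ev_mon_of fun γ e => h ⟨γ, e⟩)
    have h2 : ∀ γ, F.mn γ = F.mn (γ - F.σ) + F.mn (γ - F.σ) := fun γ => by
      rw [← two_nsmul, ← mn_add_σ, sub_add_cancel]
    intro δ δ'
    rw [map_add]
    rcases h1 δ with a | ⟨γ, a⟩ <;> rcases h1 δ' with b | ⟨γ', b⟩ <;> rw [a, b]
    · exact .inl (add_zero _)
    · exact .inr ⟨_, _, (zero_add _).trans (h2 _)⟩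
    · exact .inr ⟨_, _, (add_zero _).trans (h2 _)⟩
    · exact .inr ⟨_, _, rfl⟩
  obtain ⟨δ₁, δ₂, δ₃, δ₄, h⟩ := h
  have h1 := congrArg (fun z => c.ev (mon m (-δ₁) * z)) h
  simp only [mul_left_comm (mon m (-δ₁)), hf.ev_mul, hg.ev_mul, mul_add (mon m (-δ₁)),
    ← mon_add] at h1
  have h2 : c.ev (mon m (-δ₁ + δ₁) + mon m (-δ₁ + δ₂)) ≠ 0 := fun e => by
    have h3 := Chart.co_ev (c := c) (mon m (-δ₁ + δ₂))
    have h4 := c.ev_mon 0
    rw [map_zero, ZeroMemClass.coe_zero, mn_zero] at h4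
    rw [neg_add_cancel, map_add, h4] at e
    rw [eq_neg_of_add_eq_zero_right e, map_neg, co_one, mon, AddMonoidAlgebra.coeff_single] at h3
    classical
    rw [Finsupp.single_apply] at h3
    split_ifs at h3
    · rw [co0_tz] at h3
      split_ifs at h3
      · have : (0 : ℝ) < ((2 : ℚ) ^ ((-δ₁ + δ₂).1 / m) : ℚ) := by positivity
        linarith
      · simp at h3
    · simp at h3
  obtain ⟨γ₁, γ₂, a⟩ := (key _ _).resolve_left h2
  obtain ⟨γ₃, γ₄, b⟩ := (key (-δ₁ + δ₃) (-δ₁ + δ₄)).resolve_left fun e =>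
    h2 (mem_nonZeroDivisors_iff_left.1 hx _ (by rw [h1, e, mul_zero]))
  exact ⟨γ₁, γ₂, γ₃, γ₄, by rw [← a, ← b, h1]⟩

/-- `ev p` is a combination of monomials `mn γ` with `(κ γ).2.1 = v`; two such sites differ by `δ` with
`κ ((card T * m) • δ) = κ (e • σ)` -/
theorem Chart.ev_slice [Fintype T] {p : GR m ((Fin r → ℤ) × T)} {v : Fin r → ℤ}
    (h : ∀ l ∈ p.coeff.support, l.1 = v) : ∃ (γ : F.G) (p₀ : F.B), p₀ ∈ F.B00 ∧ c.ev p = F.mn γ * p₀ := by
  by_cases h0 : ∃ γ₀ : c.Γ, (c.κ γ₀).2.1 = v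
  swap
  · refine ⟨0, 0, zero_mem _, ?_⟩
    rw [mul_zero, ← p.sum_coeff_single, Finsupp.sum, map_sum]
    refine sum_eq_zero fun l hl => ?_
    generalize p.coeff l = z
    induction z using O_induction with
    | h0 => simp
    | hm e => exact c.ev_mon_of (δ := (e, l)) fun γ e' => h0 ⟨γ, by rw [e']; exact h l hl⟩
    | ha x y hx hy => rw [AddMonoidAlgebra.single_add, map_add, hx, hy, add_zero]
    | hn x hx => rw [AddMonoidAlgebra.single_neg, map_neg, hx, neg_zero]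
  obtain ⟨γ₀, h0⟩ := h0
  refine ⟨γ₀, F.mn (-γ₀) * c.ev p, ?_, by rw [← mul_assoc, mn_mul_neg, one_mul]⟩
  rw [← p.sum_coeff_single, Finsupp.sum, map_sum, mul_sum]
  refine sum_mem fun l hl => ?_
  generalize p.coeff l = z
  induction z using O_induction with
  | h0 => simp
  | hm e =>
    by_cases h1 : ∃ γ, c.κ γ = (e, l)
    · obtain ⟨γ, h1⟩ := h1
      have h2 := c.ev_mon γ
      rw [h1, mon] at h2
      rw [h2, ← mn_add]
      refine Subring.subset_closure ⟨_, ⟨Fintype.card T * m, Fintype.card T * (c.κ (-γ₀ + γ)).1,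
        Nat.mul_pos Fintype.card_pos (NeZero.pos m), ?_⟩, rfl⟩
      have h3 : c.κ ((Fintype.card T * m) • (-γ₀ + γ)) =
          c.κ ((Fintype.card T * (c.κ (-γ₀ + γ)).1) • ⟨F.σ, c.mem⟩) := by
        rw [map_nsmul, map_zsmul, c.sig]
        refine Prod.ext (by simp; ring) (Prod.ext ?_ ?_)
        · simp [h0, h1, h l hl]
        · simp [mul_comm (Fintype.card T), mul_smul]
      exact congrArg Subtype.val (c.inj h3)
    · have := c.ev_mon_of (δ := (e, l)) fun γ e' => h1 ⟨γ, e'⟩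
      rw [mon] at this
      rw [this, mul_zero]
      exact zero_mem _
  | ha x y hx hy =>
    rw [AddMonoidAlgebra.single_add, map_add, mul_add]
    exact add_mem hx hy
  | hn x hx =>
    rw [AddMonoidAlgebra.single_neg, map_neg, mul_neg]
    exact neg_mem hx

end Fr

end Pool.Agent.GT
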