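import Pool.Agent.Lib.MP_a01f70_lc.GT.Lab2
import Pool.Agent.Lib.MP_a01f70_lc.GT.MW
import Pool.Agent.Lib.MP_a01f70_lc.GK.Clim

/-! The criterion passes to a chart. -/

namespace Pool.Agent.GT
open Finset Filter Pool.Agent.GK

/-- `r = v.val % g`; for `t + L + K + 1 ≤ n` one has `2 ^ t r / (2 ^ n - 1) ≤ 2 ^ (-K)` -/
theorem exists_mul_near {n g L K : ℕ} (hn : n ≠ 0) (hg : 0 < g) (hL : g ≤ 2 ^ L)
    (v : ZMod (2 ^ n - 1)) : ∃ (w : ZMod (2 ^ n - 1)) (bad : Finset (ZMod n)),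
      bad.card ≤ L + K + 1 ∧ ∀ t : ZMod n, t ∉ bad →
        ‖cc (2 ^ n - 1) (2 ^ t.val * (v - g * w))‖ ≤ (1 / 2) ^ K := by
  have : NeZero n := ⟨hn⟩
  have : NeZero (2 ^ n - 1) := ⟨bas2_ne hn⟩
  refine ⟨(v.val / g : ℕ), (range (L + K + 1)).image fun j => ((n - 1 - j : ℕ) : ZMod n),
    card_image_le.trans (card_range _).le, fun t ht => ?_⟩
  have h1 : t.val + (L + K + 1) ≤ n := by
    by_contra h
    have := ZMod.val_lt t
    refine ht (mem_image.2 ⟨n - 1 - t.val, mem_range.2 (by omega), ?_⟩)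
    rw [show n - 1 - (n - 1 - t.val) = t.val by omega, ZMod.natCast_zmod_val]
  have h2 : 2 ^ t.val * (v - g * (v.val / g : ℕ)) =
      ((2 ^ t.val * (v.val % g) : ℕ) : ZMod (2 ^ n - 1)) := by
    have := congrArg (Nat.cast : ℕ → ZMod (2 ^ n - 1)) (Nat.div_add_mod v.val g)
    push_cast [ZMod.natCast_zmod_val] at this ⊢
    linear_combination -2 ^ t.val * this
  rw [h2, cc_natCast]
  refine (norm_coe_le _).trans ?_
  have h3 : (0 : ℝ) < (2 ^ n - 1 : ℕ) := Nat.cast_pos.2 (Nat.pos_of_ne_zero (bas2_ne hn))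
  rw [abs_of_nonneg (by positivity), div_le_iff₀ h3, one_div, inv_pow, inv_mul_eq_div,
    le_div_iff₀ (by positivity)]
  have h4 : 2 ^ t.val * (v.val % g) * 2 ^ K ≤ 2 ^ n - 1 := by
    have a1 : 2 ^ t.val * (v.val % g) * 2 ^ K ≤ 2 ^ t.val * 2 ^ L * 2 ^ K := by
      gcongr
      exact (Nat.mod_lt _ hg).le.trans hL
    have a2 : 2 ^ (t.val + L + K + 1) ≤ 2 ^ n := Nat.pow_le_pow_right two_pos (by omega)
    have a3 : 0 < 2 ^ (t.val + L + K) := by positivity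
    rw [← pow_add, ← pow_add] at a1
    rw [pow_succ] at a2
    omega
  exact_mod_cast h4

theorem Clim2_fin {G ι : Type} [AddCommGroup G] [Fintype G] [Fintype ι] (t : G → Tc) (τ : G)
    (ht : ∀ (j : ℕ) g, t (g + j • τ) = 2 ^ j • t g) (p : ι → G) (a b : ι → ℤ) {ε : ℝ}
    (hε : 0 < ε) : ∃ (K : ℕ) (η : ℝ), 0 < η ∧ ∀ n d : ℕ, n ≠ 0 → Dv n d →
      ∀ (x : ι → ZMod n) (lab : ZMod n → G) (bad : Finset ℕ) (g L : ℕ), 0 < g → g ≤ 2 ^ L →
        ((L + K + 1 : ℕ) : ℝ) ≤ η * n → (bad.card : ℝ) ≤ η * n →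
        (∀ s : ℕ, s < n → s ∉ bad → ∀ j, ∀ e < K,
          lab (s + (x j + (e : ℕ))) = lab s + (p j + e • τ)) →
        (g : ZMod (2 ^ n - 1)) * ((∑ j, a j • 2 ^ (x j).val) * d - ∑ j, b j • 2 ^ (x j).val) = 0 →
        (Fintype.card G : ℝ) / 2 ≤
          ∑ g, (rp (∑ j, a j • t (g + p j)) + rp (-∑ j, b j • t (g + p j))) + ε := by
  classical
  obtain ⟨c, hc, hcA, hcB⟩ : ∃ c : ℝ, 0 < c ∧ (∀ g, c ≤ rp (∑ j, a j • t (g + p j))) ∧
      ∀ g, c ≤ rp (-∑ j, b j • t (g + p j)) := by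
    obtain ⟨g₁, -, h₁⟩ := exists_min_image univ (fun g => rp (∑ j, a j • t (g + p j)))
      ⟨0, mem_univ _⟩
    obtain ⟨g₂, -, h₂⟩ := exists_min_image univ (fun g => rp (-∑ j, b j • t (g + p j)))
      ⟨0, mem_univ _⟩
    exact ⟨min _ _, lt_min (rp_pos _) (rp_pos _), fun g => (min_le_left _ _).trans
      (h₁ g (mem_univ _)), fun g => (min_le_right _ _).trans (h₂ g (mem_univ _))⟩
  have hG : (0 : ℝ) < Fintype.card G := Nat.cast_pos.2 Fintype.card_pos
  obtain ⟨D, hD⟩ : ∃ D : ℝ, D = Fintype.card ι := ⟨_, rfl⟩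
  have hD0 : 0 ≤ D := hD ▸ Nat.cast_nonneg _
  obtain ⟨η, hη, hηc, hηε⟩ : ∃ η : ℝ, 0 < η ∧ η < c ∧
      (4 + 2 * D) * η * Fintype.card G ≤ ε := by
    refine ⟨min (c / 2) (ε / ((4 + 2 * D) * Fintype.card G)), by positivity,
      (min_le_left _ _).trans_lt (by linarith), ?_⟩
    have := (le_div_iff₀ (by positivity)).1
      (min_le_right (c / 2) (ε / ((4 + 2 * D) * Fintype.card G)))
    linarith
  have hCA : 0 ≤ ∑ j, ‖a j‖ := sum_nonneg fun _ _ => norm_nonneg _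
  have hCB : 0 ≤ ∑ j, ‖b j‖ := sum_nonneg fun _ _ => norm_nonneg _
  obtain ⟨K, hK⟩ := exists_pow_lt_of_lt_one (x := η / (2 * ∑ j, ‖a j‖ + 2 * ∑ j, ‖b j‖ + 1))
    (y := (1 / 2 : ℝ)) (by positivity) (by norm_num)
  rw [lt_div_iff₀ (by positivity)] at hK
  have hδ : (0 : ℝ) < (1 / 2) ^ K := by positivity
  refine ⟨K, η, hη, fun n d hn hd x lab bad g L hg hL hLK hbad hlab hrel => ?_⟩
  have hn' : (0 : ℝ) < n := Nat.cast_pos.2 (Nat.pos_of_ne_zero hn)
  have : NeZero n := ⟨hn⟩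
  have main : ∀ g₀ : G, (n : ℝ) / 2 ≤ ∑ s ∈ range n, (rp (∑ j, a j • t (g₀ + lab s + p j)) +
      rp (-∑ j, b j • t (g₀ + lab s + p j))) + (4 + 2 * D) * η * n := by
    intro g₀
    obtain ⟨v, α, ha, ha1, ha2⟩ := Clim_word hn fun s => t (g₀ + lab s)
    obtain ⟨w, bad', hb', hw⟩ := exists_mul_near (K := K) hn hg hL v
    obtain ⟨bd, hbd, hbd1, hbd2⟩ : ∃ bd : Finset ℕ, (bd.card : ℝ) ≤ (1 + D) * η * n ∧
        (∀ s, s ∉ bd → s ∉ bad) ∧ ∀ s < n, s ∉ bd → ∀ j, (s : ZMod n) + x j ∉ bad' := by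
      refine ⟨bad ∪ (univ ×ˢ bad').image fun q : ι × ZMod n => (q.2 - x q.1).val, ?_,
        fun s h h' => h (mem_union_left _ h'), fun s hs h j h' => h (mem_union_right _
          (mem_image.2 ⟨(j, _), mem_product.2 ⟨mem_univ _, h'⟩, ?_⟩))⟩
      · have e1 := (card_union_le bad _).trans (Nat.add_le_add_left (card_image_le
          (s := univ ×ˢ bad') (f := fun q : ι × ZMod n => (q.2 - x q.1).val)) _)
        rw [card_product, card_univ] at e1
        have e2 : (bad'.card : ℝ) ≤ η * n := (Nat.cast_le.2 hb').trans hLK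
        refine (Nat.cast_le.2 e1).trans ?_
        rw [Nat.cast_add, Nat.cast_mul, ← hD]
        nlinarith
      · rw [add_sub_cancel_right, ZMod.val_cast_of_lt hs]
    have good : ∀ s < n, s ∉ bd → ∀ j,
        ‖cc (2 ^ n - 1) (2 ^ s * (2 ^ (x j).val * (g * w))) - t (g₀ + lab s + p j)‖
          ≤ 2 * (1 / 2) ^ K := by
      intro s hs hb j
      have e := Clim_close (y := t (g₀ + lab s + p j)) (L := K)
        (a := fun e => α (s + (x j).val + e)) (ha _).1 (ha _).2 fun e he => by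
          rw [← add_assoc, ha1, ← ht]
          simp only [Nat.cast_add, ZMod.natCast_zmod_val, add_assoc, hlab s hs (hbd1 s hb) j e he]
      have e1 : ‖cc (2 ^ n - 1) (2 ^ s * (2 ^ (x j).val * v)) - t (g₀ + lab s + p j)‖
          ≤ (1 / 2) ^ K := by
        rw [← mul_assoc, ← pow_add, ← ha2, ← coe_fr (t (g₀ + lab s + p j)), ← AddCircle.coe_sub]
        exact (norm_coe_le _).trans e
      have e2 := hw _ (hbd2 s hs hb j)
      rw [two_pow_val_add hn, two_pow_val_natCast, mul_assoc, mul_sub, mul_sub, map_sub] at e2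
      have e3 := norm_sub_le_of_le e1 e2
      rw [sub_sub_sub_cancel_left] at e3
      linarith
    have near : ∀ s < n, s ∉ bd → ∀ u : ι → ℤ,
        ‖cc (2 ^ n - 1) (2 ^ s * ((∑ j, u j • 2 ^ (x j).val) * (g * w))) -
          ∑ j, u j • t (g₀ + lab s + p j)‖ ≤ (∑ j, ‖u j‖) * (2 * (1 / 2) ^ K) := by
      intro s hs hb u
      rw [sum_mul, mul_sum, map_sum, ← sum_sub_distrib, sum_mul]
      refine norm_sum_le_of_le _ fun j _ => ?_
      rw [smul_mul_assoc, mul_smul_comm, map_zsmul, ← smul_sub]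
      exact (norm_zsmul_le _ _).trans (mul_le_mul_of_nonneg_left (good s hs hb j) (norm_nonneg _))
    have e := hd ((∑ j, a j • 2 ^ (x j).val) * (g * w))
    rw [show (d : ZMod (2 ^ n - 1)) * ((∑ j, a j • 2 ^ (x j).val) * (g * w)) =
      (∑ j, b j • 2 ^ (x j).val) * (g * w) by linear_combination w * hrel, W, W,
      ← sum_add_distrib] at e
    refine e.trans ?_
    have e3 : ∑ s ∈ range n, (if s ∈ bd then (2 : ℝ) else 0) ≤ 2 * ((1 + D) * η * n) := by
      rw [sum_ite_mem, sum_const, nsmul_eq_mul]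
      have : ((range n ∩ bd).card : ℝ) ≤ bd.card := Nat.cast_le.2 (card_le_card inter_subset_right)
      linarith
    have e4 : ∑ s ∈ range n, (2 * η) = 2 * η * n := by
      rw [sum_const, card_range, nsmul_eq_mul, mul_comm]
    refine le_trans (sum_le_sum (g := fun s : ℕ => (rp (∑ j, a j • t (g₀ + lab s + p j)) +
      rp (-∑ j, b j • t (g₀ + lab s + p j))) + (2 * η + if s ∈ bd then 2 else 0))
      fun s hs => ?_) ?_
    · split_ifs with hb
      · linarith [rp_le_one (cc (2 ^ n - 1) (2 ^ s * ((∑ j, a j • 2 ^ (x j).val) * (g * w)))),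
          rp_le_one (cc (2 ^ n - 1) (2 ^ s * -((∑ j, b j • 2 ^ (x j).val) * (g * w)))),
          hcA (g₀ + lab s), hcB (g₀ + lab s)]
      · have e1 := (near s (mem_range.1 hs) hb a).trans (show _ ≤ η by nlinarith)
        have e2 := (near s (mem_range.1 hs) hb b).trans (show _ ≤ η by nlinarith)
        rw [← norm_neg] at e2
        have f1 := rp_add_small (e1.trans_lt (hηc.trans_le (hcA (g₀ + lab s))))
        have f2 := rp_add_small (e2.trans_lt (hηc.trans_le (hcB (g₀ + lab s))))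
        rw [add_sub_cancel] at f1
        rw [← neg_add, add_sub_cancel] at f2
        rw [mul_neg, map_neg]
        linarith
    · rw [sum_add_distrib, sum_add_distrib (f := fun _ => 2 * η), e4]
      linarith
  have tot := sum_le_sum fun g (_ : g ∈ (univ : Finset G)) => main g
  have sh : ∀ y : G, ∑ g, (rp (∑ j, a j • t (g + y + p j)) + rp (-∑ j, b j • t (g + y + p j))) =
      ∑ g, (rp (∑ j, a j • t (g + p j)) + rp (-∑ j, b j • t (g + p j))) := fun y =>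
    Equiv.sum_comp (Equiv.addRight y) fun g =>
      rp (∑ j, a j • t (g + p j)) + rp (-∑ j, b j • t (g + p j))
  rw [sum_add_distrib, sum_comm, sum_const, sum_const, card_univ, nsmul_eq_mul, nsmul_eq_mul,
    sum_congr rfl fun s _ => sh _, sum_const, card_range, nsmul_eq_mul] at tot
  refine le_of_mul_le_mul_left ?_ hn'
  nlinarith

theorem Fr.Clim2_coe (F : Fr) {ι : Type} [Fintype ι] (a : ι → ℤ) (γ : ι → F.G) :
    ((∑ j, a j • F.mn (γ j) : F.B) : F.R) =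
      F.mkR fun i => ∑ j, a j • 2 ^ (F.og (γ j) i).val := by
  rw [show (fun i => ∑ j, a j • (2 : ZMod (2 ^ F.n i - 1)) ^ (F.og (γ j) i).val) =
    ∑ j, a j • fun i => (2 : ZMod (2 ^ F.n i - 1)) ^ (F.og (γ j) i).val by
      funext i; simp only [Finset.sum_apply, Pi.smul_apply], map_sum]
  refine (map_sum F.B.subtype _ _).trans (sum_congr rfl fun j _ => ?_)
  rw [map_zsmul, map_zsmul]
  rfl

theorem Fr.Chart.dd {F : Fr} {m r : ℕ} [NeZero m] {T : Type} [AddCommGroup T] {c : F.Chart m r T}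
    {d : ℕ → ℕ} (hd : ∀ i, Dv (F.n i) (d i)) {f g : GR m ((Fin r → ℤ) × T)} {A B : F.B}
    (hf : c.Rep f A) (hg : c.Rep g B) (h : F.Small (A * F.dR d - B)) : DD f g := by
  classical
  intro G _ _ π Z hZ
  obtain ⟨k, a, γ, hf, hA⟩ := hf
  obtain ⟨k', b, δ, hg, hB⟩ := hg
  have hm : ∀ g γ, Z g (mon m γ) = Z (g + π γ) 1 := fun g γ => by rw [← hZ, mul_one]
  have h2 : ∀ (j : ℕ) g, Z (g + j • π ((m : ℤ), 0)) 1 = 2 ^ j • Z g 1 := fun j g => by
    rw [← map_nsmul, ← hm, ← mon_pow, mon_sig, ← map_nsmul]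
    simp
  refine le_of_forall_pos_le_add fun ε hε => ?_
  obtain ⟨K, η, hη, H⟩ := Clim2_fin (fun g => Z g 1) _ h2 (fun j => π (c.κ (Sum.elim γ δ j)))
    (Sum.elim a 0) (Sum.elim 0 b) hε
  obtain ⟨u, hu, hu'⟩ := h (η / 2) (by positivity)
  have eA : A = ∑ j, Sum.elim a (0 : Fin k' → ℤ) j • F.mn (Sum.elim γ δ j : c.Γ) := by simp [hA]
  have eB : B = ∑ j, Sum.elim (0 : Fin k → ℤ) b j • F.mn (Sum.elim γ δ j : c.Γ) := by simp [hB]
  rw [eA, eB, F.Clim2_coe, F.Clim2_coe, Fr.dR, Fr.dR, ← map_mul, ← map_sub, ← map_mul,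
    ← map_zero F.mkR, F.mkR_eq] at hu'
  have ho : ∀ᶠ i in F.U, ∀ j, ∀ e ∈ range K, F.og (Sum.elim γ δ j + e • ⟨F.σ, c.mem⟩ : c.Γ) i =
      F.og (Sum.elim γ δ j : c.Γ) i + (e : ℕ) :=
    eventually_all.2 fun j => (eventually_all_finset _).2 fun e _ => by
      have : F.mkG (F.og (Sum.elim γ δ j + e • ⟨F.σ, c.mem⟩ : c.Γ)) =
          F.mkG (F.og (Sum.elim γ δ j : c.Γ) + e • 1) := by
        rw [map_add, map_nsmul, F.mkG_og, F.mkG_og]
        rfl
      simpa using F.mkG_eq.1 this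
  obtain ⟨n₀, hn₀⟩ := exists_nat_ge (2 * (K + 2) / η)
  obtain ⟨i, ⟨⟨⟨⟨a1, a2⟩, a3⟩, a4⟩, a5⟩, lab, bad, hbad, hlab⟩ :=
    ((((hu.and hu').and ho).and (F.big n₀)).and (F.label c.Γ G (π.comp c.κ)
      ((univ ×ˢ range K).image fun q => Sum.elim γ δ q.1 + q.2 • ⟨F.σ, c.mem⟩) hη)).exists
  have a6 : 2 * (K + 2) ≤ η * F.n i := by
    have := hn₀.trans (Nat.cast_le.2 a5)
    rwa [div_le_iff₀ hη, mul_comm _ η] at this
  have := H (F.n i) (d i) (by have := F.two i; omega) (hd i)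
    (fun j => F.og (Sum.elim γ δ j : c.Γ) i) lab bad (u i) ⌈η / 2 * F.n i⌉₊ a1 (by
      have := a2.trans (Real.rpow_le_rpow_of_exponent_le one_le_two (Nat.le_ceil _))
      rw [Real.rpow_natCast] at this
      exact_mod_cast this) (by
      have := Nat.ceil_lt_add_one (show 0 ≤ η / 2 * F.n i by positivity)
      push_cast
      linarith) hbad (fun s hs hb j e he => by
      have := hlab s hs hb _ (mem_image.2 ⟨(j, e), mem_product.2 ⟨mem_univ _, mem_range.2 he⟩, rfl⟩)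
      rw [a4 j e (mem_range.2 he)] at this
      rw [this, AddMonoidHom.comp_apply, map_add, map_nsmul, c.sig, map_add, map_nsmul]) a3
  simp only [hf, hg, map_sum, map_zsmul, hm]
  simpa using this

end Pool.Agent.GT
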