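import Pool.Agent.Lib.MP_a01f70_lc.GT.MX

/-! Compactness of the space of characters. -/

noncomputable section

namespace Pool.Agent.GT.Fr
open Finset Filter Topology Pool.Agent.GK

variable {F : Fr}

theorem cpt_supp {k : ℕ} (f : Fin k → F.B) : ∃ (s : Finset F.G) (c : Fin k → F.G → ℤ),
    ∀ j, f j = ∑ γ ∈ s, c j γ • F.mn γ := by
  classical
  choose s c h using fun j => F.exists_sum_mn (f j)
  refine ⟨univ.biUnion s, fun j γ => if γ ∈ s j then c j γ else 0, fun j => ?_⟩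
  simp only [ite_smul, zero_smul, sum_ite_mem, inter_eq_right.2 (subset_biUnion_of_mem s (mem_univ j)), h j]

theorem cpt_dep {θ θ' : F.Ch} {s : Finset F.G} {c : F.G → ℤ}
    (h : ∀ γ ∈ s, ∀ γ' ∈ s, γ - γ' ∈ F.G00 → θ.1 (γ - γ') = θ'.1 (γ - γ'))
    (h0 : F.chi θ (∑ γ ∈ s, c γ • F.mn γ) = 0) : F.chi θ' (∑ γ ∈ s, c γ • F.mn γ) = 0 := by
  classical
  have key : ∀ (θ : F.Ch) (t : Finset F.G) γ₀, ∑ γ ∈ t, c γ * F.xv θ γ =
      F.xv θ γ₀ * ∑ γ ∈ t, c γ * F.xv θ (γ - γ₀) := fun θ t γ₀ => by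
    rw [mul_sum]
    exact sum_congr rfl fun γ _ => by rw [mul_left_comm, ← F.xv_add, add_sub_cancel]
  refine chi_eq_zero.2 fun γ₀ h1 => ?_
  have h2 := chi_eq_zero.1 h0 γ₀ h1
  rw [key _ _ γ₀] at h2 ⊢
  rw [← sum_congr rfl fun γ hγ => ?_, (mul_eq_zero.1 h2).resolve_left (F.xv_ne θ _), mul_zero]
  rw [xv, xv, h γ (mem_filter.1 hγ).1 γ₀ h1 (mem_filter.1 hγ).2]

theorem cpt_fin {k : ℕ} {f : Fin k → F.B} {θ : F.Ch} (h : ∃ j, F.chi θ (f j) ≠ 0) :
    {N : ℕ | F.chi θ (∑ j : Fin k, N ^ (j : ℕ) • f j) = 0}.Finite := by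
  obtain ⟨j, hj⟩ := h
  obtain ⟨v, hv⟩ : ∃ v, (F.chi θ (f j)).coeff v ≠ 0 := by
    by_contra h1
    push Not at h1
    exact hj (AddMonoidAlgebra.ext (Finsupp.ext h1))
  have h1 : (∑ i : Fin k, Polynomial.monomial i.1 ((F.chi θ (f i)).coeff v)) ≠ 0 := fun e => by
    have h2 := congrArg (Polynomial.coeff · j.1) e
    simp only [Polynomial.finsetSum_coeff, Polynomial.coeff_monomial, Fin.val_inj] at h2
    exact hv (by simpa using h2)
  refine ((Polynomial.finite_setOfPred_isRoot h1).preimage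
    (Nat.cast_injective (R := ℂ)).injOn).subset fun N hN => ?_
  have h2 := congrArg (fun x => x.coeff v) (show F.chi θ _ = 0 from hN)
  simp only [map_sum, map_nsmul, AddMonoidAlgebra.coeff_sum, AddMonoidAlgebra.coeff_smul,
    Finsupp.finsetSum_apply, Finsupp.smul_apply] at h2
  simpa [Polynomial.eval_finsetSum, mul_comm] using h2

/-- Let `s` contain the supports of all `f j` (`exists_sum_mn`), `D` the finite set of the differences
`γ - γ'` in `G00`. If `M • δ = e • σ` then `M • θ δ = 0`, so `θ` has finitely many values on `D`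
(`AddCircle.finite_torsion` or `finite_setOf_addOrderOf_eq`). The vanishing of `chi θ` on a combination
of the `mn γ`, `γ ∈ s`, depends only on these values (`chi_eq_zero`, `xv θ γ = xv θ γ₀ * xv θ (γ - γ₀)`).
For fixed `θ` at most `k` numbers `N` have `∑ j, N ^ j * chi θ (f j) = 0` (a nonzero polynomial in one
coefficient). -/
theorem exists_comb {k : ℕ} (f : Fin k → F.B) (h : ∀ θ : F.Ch, ∃ j, F.chi θ (f j) ≠ 0) :
    ∃ N : ℕ, ∀ θ : F.Ch, F.chi θ (∑ j : Fin k, N ^ (j : ℕ) • f j) ≠ 0 := by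
  classical
  obtain ⟨s, c, hc⟩ := cpt_supp f
  let D : Finset F.G := {δ ∈ (s ×ˢ s).image fun x => x.1 - x.2 | δ ∈ F.G00}
  let ρ : F.Ch → D → Tc := fun θ δ => θ.1 δ
  choose M e hM he using fun δ : D => (mem_filter.1 δ.2).2
  have h1 : (Set.range ρ).Finite := (Set.Finite.pi' fun δ => AddCircle.finite_torsion 1 (hM δ)).subset (by
    rintro _ ⟨θ, rfl⟩ δ
    change M δ • θ.1 δ = 0
    rw [← map_nsmul, he, map_zsmul, θ.2, smul_zero])
  have h2 : ∀ N : ℕ, ∑ j : Fin k, N ^ (j : ℕ) • f j =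
      ∑ γ ∈ s, (∑ j : Fin k, N ^ (j : ℕ) • c j γ) • F.mn γ := fun N => by
    simp only [hc, smul_sum, sum_smul, smul_assoc]
    exact sum_comm
  have := h1.to_subtype
  obtain ⟨N, hN⟩ := (Set.finite_iUnion fun r : Set.range ρ => cpt_fin (h r.2.choose)).infinite_compl.nonempty
  refine ⟨N, fun θ h0 => hN (Set.mem_iUnion.2 ⟨⟨ρ θ, θ, rfl⟩, ?_⟩)⟩
  rw [Set.mem_ofPred_eq, h2] at *
  refine cpt_dep (fun γ hγ γ' hγ' h3 => ?_) h0
  exact (congrFun (Exists.choose_spec (⟨θ, rfl⟩ : ρ θ ∈ Set.range ρ))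
    ⟨γ - γ', mem_filter.2 ⟨mem_image.2 ⟨(γ, γ'), mem_product.2 ⟨hγ, hγ'⟩, rfl⟩, h3⟩⟩).symm

/-- The set of the additive `θ : F.G → Tc` with `θ σ = 0` is closed in the compact product space; the
vanishing of `chi θ f` is a closed condition (`chi_eq_zero`); `IsCompact.elim_finite_subfamily_closed`
or a finite subcover; `exists_comb`. -/
theorem cpt (L : AddSubgroup F.B) :
    (∃ θ : F.Ch, ∀ f ∈ L, F.chi θ f = 0) ∨ ∃ f ∈ L, ∀ θ : F.Ch, F.chi θ f ≠ 0 := by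
  classical
  refine or_iff_not_imp_right.2 fun h => ?_
  choose s c hc using F.exists_sum_mn
  let t : L → Set (F.G → Tc) := fun f => ⋂ γ₀ ∈ s f,
    {g | ∑ γ ∈ s f with γ - γ₀ ∈ F.G00, c f γ * ((((2 : ℝ) ^ F.ht γ : ℝ) : ℂ) * ee (g γ)) = 0}
  have ht : ∀ (θ : F.Ch) (f : L), ⇑θ.1 ∈ t f ↔ F.chi θ f = 0 := fun θ f => by
    conv_rhs => rw [hc f, chi_eq_zero]
    exact Set.mem_iInter₂
  have he : Continuous ee := continuous_subtype_val.comp AddCircle.continuous_toCircle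
  have hK : IsClosed ((⋂ a, ⋂ b, {g : F.G → Tc | g (a + b) = g a + g b}) ∩ {g | g F.σ = 0}) :=
    (isClosed_iInter fun a => isClosed_iInter fun b =>
      isClosed_eq (by fun_prop) (by fun_prop)).inter (isClosed_eq (by fun_prop) continuous_const)
  obtain ⟨g, ⟨h1, h2⟩, h3⟩ := hK.isCompact.inter_iInter_nonempty t
    (fun f => isClosed_biInter fun γ₀ _ => isClosed_eq (by fun_prop) continuous_const) fun u => by
      by_contra h1
      obtain ⟨N, hN⟩ := exists_comb (fun j => ((u.equivFin.symm j).1 : F.B)) fun θ => by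
        by_contra h2
        push Not at h2
        refine h1 ⟨θ.1, ⟨Set.mem_iInter₂.2 (map_add θ.1), θ.2⟩, Set.mem_iInter₂.2 fun f hf => (ht θ f).2 ?_⟩
        simpa using h2 (u.equivFin ⟨f, hf⟩)
      exact h ⟨_, sum_mem fun j _ => nsmul_mem (u.equivFin.symm j).1.2 _, hN⟩
  exact ⟨⟨AddMonoidHom.mk' g (Set.mem_iInter₂.1 h1), h2⟩, fun f hf =>
    (ht _ ⟨f, hf⟩).1 (Set.mem_iInter.1 h3 _)⟩

end Pool.Agent.GT.Fr
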