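import Pool.Agent.Lib.MP_a01f70_lc.GD.R1
import Pool.Agent.Lib.MP_a01f70_lc.GD.Lift

/-! Block D with torsion (interface). -/

namespace Pool.Agent.GT
open Pool.Agent.GK

theorem form_tors {m r : ℕ} [NeZero m] {T : Type} [AddCommGroup T] [Fintype T]
    (hT : Odd (Fintype.card T)) {A B : GR m ((Fin r → ℤ) × T)}
    (hA : A ∈ nonZeroDivisors (GR m ((Fin r → ℤ) × T)))
    (hB : B ∈ nonZeroDivisors (GR m ((Fin r → ℤ) × T))) (h : DD A B) :
    FormQ A B ∨ ∃ (v : Fin r → ℤ) (p : GR m ((Fin r → ℤ) × T)) (q : ℕ), 0 < q ∧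
      (∀ l ∈ p.coeff.support, l.1 = v) ∧ A * p = B * q := by
  rcases GD.form_lift_t (GD.nz_of_nzd hA) (GD.nz_of_nzd hB)
    (fun φ h1 h2 => GD.form_one hT h1 h2 (h.spec _)) with ⟨q, p, v, hq, hp, he⟩ | h1
  · exact .inr ⟨v, p, q, hq, fun l hl => by_contra fun h2 =>
      Finsupp.mem_support_iff.1 hl (hp l h2), he⟩
  · exact .inl h1

end Pool.Agent.GT
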