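import Pool.Agent.Lib.MP_a01f70_lc.GT.Van

/-! The kernel of `chi` is generated by cyclotomic values. -/

noncomputable section

namespace Pool.Agent.GT.Fr
open Finset Filter Topology Pool.Agent.GK Polynomial

variable {F : Fr}

/-- the order of `θ` at `n / c` -/
def oc (θ : F.Ch) (c : ℕ) : ℕ := addOrderOf (θ.1 (F.om c))

theorem oc_dvd (θ : F.Ch) {c : ℕ} (h : F.CC c) : oc θ c ∣ c :=
  (addOrderOf_map_dvd θ.1 _).trans h.order.dvd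

theorem prim_oc (θ : F.Ch) (c : ℕ) : IsPrimitiveRoot (ee (θ.1 (F.om c))) (oc θ c) :=
  ⟨by rw [← ee_nsmul, oc, addOrderOf_nsmul_eq_zero, ee_zero], fun l hl =>
    addOrderOf_dvd_of_nsmul_eq_zero (ee_eq_one.1 (by rwa [ee_nsmul]))⟩

/-- `cyclotomic_eq_minpoly`, `minpoly.isIntegrallyClosed_dvd` -/
theorem cyc_dvd (θ : F.Ch) {c : ℕ} (h : F.CC c) {p : ℤ[X]}
    (hp : aeval (ee (θ.1 (F.om c))) p = 0) : cyclotomic (oc θ c) ℤ ∣ p := by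
  have h0 := Nat.pos_of_dvd_of_pos (oc_dvd θ h) h.1
  rw [cyclotomic_eq_minpoly (prim_oc θ c) h0]
  exact minpoly.isIntegrallyClosed_dvd ((prim_oc θ c).isIntegral h0) hp

theorem coh (θ : F.Ch) {c c' : ℕ} (h : F.CC c') (hd : c ∣ c') :
    cyclotomic (oc θ c') ℤ ∣ expand ℤ (c' / c) (cyclotomic (oc θ c) ℤ) := by
  have hc : F.CC c := ⟨Nat.pos_of_dvd_of_pos hd h.1, h.2.mono fun i hi => hd.trans hi⟩
  refine cyc_dvd θ h ?_
  rw [expand_aeval, ← ee_nsmul, ← map_nsmul, ← h.om_eq hd,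
    cyclotomic_eq_minpoly (prim_oc θ c) (Nat.pos_of_dvd_of_pos (oc_dvd θ hc) hc.1), minpoly.aeval]

theorem p2_map {A B : Type} [CommRing A] [CommRing B] (φ : A →+* B) (x : A) (p : ℤ[X]) :
    φ (aeval x p) = aeval (φ x) p :=
  (aeval_algHom_apply φ.toIntAlgHom x p).symm

theorem p2_cls (θ : F.Ch) {c₀ : ℕ} (hc : F.CC c₀) {t : Finset F.G} {c : F.G → ℤ} {γ₀ : F.G}
    (h : ∀ γ ∈ t, ∃ (e : ℤ) (k : ℕ), γ - γ₀ = e • F.σ + k • F.om c₀)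
    (h0 : ∑ γ ∈ t, c γ * F.xv θ γ = 0) :
    aeval (F.mn (F.om c₀)) (cyclotomic (oc θ c₀) ℤ) ∣ ∑ γ ∈ t, c γ • F.mn γ := by
  choose! e k he using h
  obtain ⟨H, hH⟩ : ∃ H : ℕ, ∀ γ ∈ t, 0 ≤ e γ + H := ⟨t.sup fun i => (e i).natAbs, fun i hi => by
    have := le_sup (f := fun i => (e i).natAbs) hi
    omega⟩
  have h1 : ∑ γ ∈ t, c γ • F.mn γ = F.mn (γ₀ - H • F.σ) *
      aeval (F.mn (F.om c₀)) (∑ γ ∈ t, C (c γ * 2 ^ (e γ + H).toNat) * Polynomial.X ^ k γ) := by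
    rw [map_sum, mul_sum]
    refine sum_congr rfl fun γ hγ => ?_
    have h2 : γ = γ₀ - H • F.σ + ((e γ + H).toNat • F.σ + k γ • F.om c₀) := by
      rw [← natCast_zsmul _ (e γ + H).toNat, Int.toNat_of_nonneg (hH γ hγ), add_smul, natCast_zsmul,
        add_right_comm, ← he γ hγ]
      abel
    conv_lhs => enter [2]; rw [h2]
    simp only [F.mn_add, F.mn_nsmul, F.mn_σ, map_mul, map_pow, aeval_X, eq_intCast, map_intCast,
      zsmul_eq_mul, Int.cast_ofNat, map_ofNat]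
    ring
  have h2 := congrArg (F.X θ) h1
  have h3 := xv_G01 θ 0 hc.tor
  rw [zero_smul, zero_add, zpow_zero, one_mul] at h3
  rw [map_mul, p2_map, F.X_mn, F.X_mn, h3, map_sum] at h2
  simp only [map_zsmul, F.X_mn] at h2
  simp only [zsmul_eq_mul, h0] at h2
  rw [h1]
  exact (_root_.map_dvd _ (cyc_dvd θ hc ((mul_eq_zero.1 h2.symm).resolve_left (F.xv_ne θ _)))).mul_left _

/-- Write `f = ∑ c γ • mn γ` and group by classes modulo `G01`; take `c` from `exists_common` for all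
torsion parts of differences; the part in the class of `γ₀` is `mn (γ₀ - H • σ) * aeval (mn (om c)) p`,
and `aeval (ee (θ (om c))) p = 0` by `van`. -/
theorem p2 {θ : F.Ch} {f : F.B} (h : F.chi θ f = 0) :
    ∃ c, F.CC c ∧ aeval (F.mn (F.om c)) (cyclotomic (oc θ c) ℤ) ∣ f := by
  classical
  obtain ⟨s, c, rfl⟩ := F.exists_sum_mn f
  choose! e ω h1 h2 using fun δ (hδ : δ ∈ F.G01) => F.mem_G01.1 hδ
  obtain ⟨c₀, hc, h3⟩ := exists_common ({x ∈ s ×ˢ s | x.1 - x.2 ∈ F.G01}.image fun x => ω (x.1 - x.2))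
    (forall_mem_image.2 fun x hx => h1 _ (mem_filter.1 hx).2)
  refine ⟨c₀, hc, ?_⟩
  rw [← sum_fiberwise_of_maps_to (s := s) (g := fun γ => (γ : F.G ⧸ F.G01)) fun γ hγ => mem_image_of_mem _ hγ]
  refine dvd_sum fun q hq => ?_
  obtain ⟨γ₀, h0, rfl⟩ := mem_image.1 hq
  simp only [QuotientAddGroup.eq_iff_sub_mem]
  refine p2_cls θ hc (γ₀ := γ₀) (fun γ hγ => ?_) (van h γ₀)
  obtain ⟨h4, h5⟩ := mem_filter.1 hγ
  obtain ⟨k, hk⟩ := h3 _ (mem_image.2 ⟨(γ, γ₀), mem_filter.2 ⟨mem_product.2 ⟨h4, h0⟩, h5⟩, rfl⟩)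
  exact ⟨_, k, hk ▸ h2 _ h5⟩

/-- the same at finite level (`mR_om`, `mkR_eq`) -/
theorem p2_fin {θ : F.Ch} {f : F.B} (h : F.chi θ f = 0) {y : ∀ i, ZMod (2 ^ F.n i - 1)}
    (hy : (f : F.R) = F.mkR y) : ∃ c, F.CC c ∧ ∀ᶠ i in F.U,
      (((cyclotomic (oc θ c) ℤ).eval (2 ^ (F.n i / c)) : ℤ) : ZMod (2 ^ F.n i - 1)) ∣ y i := by
  obtain ⟨c, hc, g, rfl⟩ := p2 h
  obtain ⟨z, hz⟩ := F.mkR_surj g
  have h1 := p2_map F.B.subtype (F.mn (F.om c)) (cyclotomic (oc θ c) ℤ)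
  rw [show F.B.subtype (F.mn (F.om c)) = _ from mR_om c hc, ← p2_map, Subring.subtype_apply] at h1
  rw [Subring.coe_mul, h1, ← hz, ← map_mul, F.mkR_eq] at hy
  refine ⟨c, hc, hy.mono fun i hi => ⟨z i, ?_⟩⟩
  have h2 := p2_map (Pi.evalRingHom (fun i => ZMod (2 ^ F.n i - 1)) i) (fun i => 2 ^ (F.n i / c))
    (cyclotomic (oc θ c) ℤ)
  have h3 := p2_map (Int.castRingHom (ZMod (2 ^ F.n i - 1))) (2 ^ (F.n i / c)) (cyclotomic (oc θ c) ℤ)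
  simp only [Pi.evalRingHom_apply, coe_aeval_eq_eval, eq_intCast, Int.cast_pow, Int.cast_ofNat] at h2 h3
  rw [← hi, Pi.mul_apply, h2, h3]

end Pool.Agent.GT.Fr
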