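import Pool.Agent.Lib.MP_a01f70_lc.GT.MW
import Pool.Agent.Lib.MP_a01f70_lc.GT.P2
import Pool.Agent.Lib.MP_a01f70_lc.GT.AIf

/-! The diagonal argument. -/

namespace Pool.Agent.GT.Fr
open Filter Pool.Agent.GK Polynomial

variable {F : Fr} {d : ℕ → ℕ} {θ : F.Ch}

theorem exists_diag (p : ℕ → ℕ → Prop) (h : ∀ j, ∀ᶠ i in F.U, p j i) :
    ∃ j : ℕ → ℕ, (∀ᶠ i in F.U, p (j i) i) ∧ ∀ L, ∀ᶠ i in F.U, L ≤ j i := by
  classical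
  have h1 : ∀ L, ∀ᶠ i in F.U, ∀ j ≤ L, p j i := fun L =>
    (eventually_all_finite (Set.finite_Iic L)).2 fun j _ => h j
  refine ⟨fun i => Nat.findGreatest (fun L => ∀ j ≤ L, p j i) (F.n i), (h1 0).mono fun i hi =>
    Nat.findGreatest_spec (P := fun L => ∀ j ≤ L, p j i) (Nat.zero_le _) hi _ le_rfl, fun L => ?_⟩
  filter_upwards [h1 L, F.big L] with i h2 h3 using Nat.le_findGreatest h3 h2

theorem exists_tower : ∃ c : ℕ → ℕ, (∀ j, F.CC (c j)) ∧ ∀ c₀ j, F.CC c₀ → c₀ ≤ j → c₀ ∣ c j := by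
  classical
  refine ⟨fun j => ((Finset.range (j + 1)).filter F.CC).lcm id, fun j => ⟨Nat.pos_of_ne_zero
    (Finset.lcm_ne_zero_iff.2 fun c hc => (Finset.mem_filter.1 hc).2.1.ne'), ?_⟩,
    fun c₀ j h1 h2 => Finset.dvd_lcm (f := id)
      (Finset.mem_filter.2 ⟨Finset.mem_range.2 (Nat.lt_succ_of_le h2), h1⟩)⟩
  exact ((eventually_all_finset _).2 fun c hc => (Finset.mem_filter.1 hc).2.2).mono
    fun i hi => Finset.lcm_dvd hi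

theorem diag (hd : ∀ i, Dn (F.n i) (d i)) (hχ : ∀ η ∈ F.J d, F.chi θ η = 0)
    (hS : ∀ k, ∃ S : ℕ, ∀ a ∈ F.J d, F.WtB k a → F.WtB S (F.Dm d a)) : False := by
  obtain ⟨k₀, h0⟩ := bounded_mod
  obtain ⟨c, hc, hc'⟩ := exists_tower (F := F)
  obtain ⟨S, hS⟩ := hS k₀
  have key : ∀ (S' : ℕ) (η : ∀ i, ZMod (2 ^ F.n i - 1)), (∀ᶠ i in F.U, Wt k₀ (η i)) →
      (∀ᶠ i in F.U, Wt S' (η i * d i)) → ∃ x ∈ F.J d, (x : F.R) = F.mkR η ∧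
        ∀ᶠ i in F.U, Wt S (η i * d i) := fun S' η h1 h2 => by
    obtain ⟨x, h3, h4⟩ := exists_of_wt h1
    obtain ⟨y, h5, -⟩ := exists_of_wt h2
    have h6 : (x : F.R) * F.dR d = F.mkR fun i => η i * d i := by
      rw [h3, dR, ← map_mul]
      rfl
    have h7 : x ∈ F.J d := mem_J.2 (by rw [h6, ← h5]; exact y.2)
    exact ⟨x, h7, h3, (hS x h7 h4).wt ((Dm_of_J h7).symm.trans h6)⟩
  obtain ⟨j, h1, h2⟩ := exists_diag (F := F) (fun j i => ∃ η : ZMod (2 ^ F.n i - 1),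
    c j ∣ F.n i ∧ Wt k₀ η ∧ Wt S (η * d i) ∧ ¬ (((cyclotomic (oc θ (c j)) ℤ).eval
      (2 ^ (F.n i / c j)) : ℤ) : ZMod (2 ^ F.n i - 1)) ∣ η) fun j => by
    obtain ⟨S₀, n₀, h1⟩ := h0 (c j)
    obtain ⟨η, h2⟩ := skolem.1 (((F.big n₀).and (hc j).2).mono fun i hi =>
      h1 _ (d i) _ hi.1 (F.odd i) hi.2 (oc_dvd θ (hc j)) (hd i))
    obtain ⟨-, -, -, h3⟩ := key S₀ η (h2.mono fun i hi => hi.1) (h2.mono fun i hi => hi.2.1)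
    filter_upwards [h2, h3, (hc j).2] with i h4 h5 h6 using ⟨η i, h6, h4.1, h5, h4.2.2⟩
  obtain ⟨η, h3⟩ := skolem.1 h1
  obtain ⟨x, h4, h5, -⟩ := key S η (h3.mono fun i hi => hi.2.1) (h3.mono fun i hi => hi.2.2.1)
  obtain ⟨c₀, h6, h7⟩ := p2_fin (hχ x h4) h5
  obtain ⟨i, h8, h9, h10⟩ := (h3.and (h7.and (h2 c₀))).exists
  have h11 := hc' _ _ h6 h10
  have h12 := eval_dvd (x := 2 ^ (F.n i / c (j i))) (coh θ (hc (j i)) h11)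
  rw [expand_eval, ← pow_mul, Nat.div_mul_div h8.1 h11] at h12
  exact h8.2.2.2 ((Int.cast_dvd_cast _ _ h12).trans h9)

end Pool.Agent.GT.Fr
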