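import Pool.Agent.Lib.MP_a01f70_lc.GT.ERun
import Pool.Agent.Lib.MP_a01f70_lc.GK.EFb

/-! Responses on one line. -/

noncomputable section

namespace Pool.Agent.GT.Fr
open Finset Pool.Agent.GK

variable {F : Fr} {d : ℕ → ℕ}

/-- elements of `ℤ[1/2]` -/
def Dy (F : Fr) (η : F.B) : Prop := ∃ (H : ℕ) (K : ℤ), 2 ^ H * η = K

theorem dy_zero : F.Dy 0 := ⟨0, 0, by simp⟩

theorem Dy.add {x y : F.B} (h : F.Dy x) (h' : F.Dy y) : F.Dy (x + y) := by
  obtain ⟨H, K, h⟩ := h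
  obtain ⟨H', K', h'⟩ := h'
  refine ⟨H + H', 2 ^ H' * K + 2 ^ H * K', ?_⟩
  push_cast
  linear_combination 2 ^ H' * h + 2 ^ H * h'

theorem dy_mn (a j : ℤ) : F.Dy (a • F.mn (j • F.σ)) := by
  have e : ∀ k : ℕ, F.mn ((k : ℤ) • F.σ) = 2 ^ k := fun k => by
    rw [natCast_zsmul, F.mn_nsmul, F.mn_σ]
  obtain ⟨k, rfl | rfl⟩ := j.eq_nat_or_neg
  · exact ⟨0, a * 2 ^ k, by rw [e]; simp⟩
  · refine ⟨k, a, ?_⟩
    rw [neg_smul, ← e, mul_smul_comm, F.mn_mul_neg, zsmul_one]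

theorem co_int (K : ℤ) : F.co K = K := by
  rw [← zsmul_one K, map_zsmul, F.co_one, zsmul_one]

theorem co_two_pow (H : ℕ) (x : F.B) : F.co (2 ^ H * x) = 2 ^ H * F.co x := by
  have := map_nsmul F.co (2 ^ H) x
  rwa [nsmul_eq_mul, nsmul_eq_mul, Nat.cast_pow, Nat.cast_pow, Nat.cast_ofNat, Nat.cast_ofNat]
    at this

theorem co_mn_nonneg (γ : F.G) : 0 ≤ F.co (F.mn γ) := by
  by_cases h : ∃ j : ℤ, γ = j • F.σ
  · obtain ⟨j, rfl⟩ := h
    rw [F.co_mn_σ]
    positivity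
  · rw [F.co_mn_of_ne fun j e => h ⟨j, e⟩]

theorem co_sm_nonneg (P : Multiset F.G) : 0 ≤ F.co (F.sm P) := by
  rw [sm, map_multiset_sum, Multiset.map_map]
  refine Multiset.sum_nonneg fun x hx => ?_
  obtain ⟨γ, -, rfl⟩ := Multiset.mem_map.1 hx
  exact co_mn_nonneg γ

theorem sm_mem {P : Multiset F.G} {γ : F.G} (h : γ ∈ P) : ∃ S, F.mn (-γ) * F.sm P = 1 + F.sm S := by
  obtain ⟨P, rfl⟩ := Multiset.exists_cons_of_mem h
  refine ⟨P.map (-γ + ·), ?_⟩
  rw [← Multiset.singleton_add, F.sm_add, F.sm_single, mul_add, mul_comm, F.mn_mul_neg, F.mn_mul_sm]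

/-- two positive elements whose product is an integer live on one line each -/
theorem one_line {P U : Multiset F.G} {b : ℕ} (hb : 0 < b) (h : F.sm P * F.sm U = b) :
    ∃ (c : ℕ) (γ : F.G), 0 < c ∧ F.sm P = c * F.mn γ := by
  have h0 : (b : F.B) ≠ 0 := fun e => by
    have := co_int (F := F) b
    rw [Int.cast_natCast, e, map_zero, Int.cast_natCast] at this
    exact hb.ne (by exact_mod_cast this)
  obtain ⟨g, hg⟩ := Multiset.exists_mem_of_ne_zero (s := U) fun e => h0 (by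
    rw [← h, e, F.sm_zero, mul_zero])
  have h1 : ∀ γ ∈ P, ∃ j : ℤ, g + γ = j • F.σ := fun γ hγ => by
    by_contra hc
    obtain ⟨S, h2⟩ := sm_mem hγ
    obtain ⟨S', h3⟩ := sm_mem hg
    obtain ⟨S'', -, h4⟩ := F.sm_mul S S'
    have h5 : b • F.mn (-(g + γ)) = 1 + F.sm (S + S' + S'') := by
      rw [F.sm_add, F.sm_add, ← h4, neg_add, F.mn_add, nsmul_eq_mul, ← h]
      linear_combination (F.mn (-g) * F.sm U) * h2 + (1 + F.sm S) * h3
    have h6 := congrArg F.co h5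
    rw [map_nsmul, F.co_mn_of_ne fun j e => hc ⟨-j, by rw [neg_smul, ← e, neg_neg]⟩, smul_zero,
      map_add, F.co_one] at h6
    linarith [co_sm_nonneg (S + S' + S'')]
  obtain ⟨H, K, h2⟩ : F.Dy (F.mn g * F.sm P) := by
    rw [F.mn_mul_sm, sm]
    refine Multiset.sum_induction _ _ (fun _ _ => Dy.add) dy_zero fun x hx => ?_
    obtain ⟨_, hy, rfl⟩ := Multiset.mem_map.1 hx
    obtain ⟨γ, hγ, rfl⟩ := Multiset.mem_map.1 hy
    obtain ⟨j, hj⟩ := h1 γ hγ
    simpa [hj] using dy_mn (F := F) 1 j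
  have h3 : 0 ≤ K := by
    have h4 := congrArg F.co h2
    rw [co_two_pow, co_int, F.mn_mul_sm] at h4
    have h5 := co_sm_nonneg (P.map (g + ·))
    exact_mod_cast (show (0 : ℝ) ≤ K by rw [← h4]; positivity)
  obtain ⟨c, rfl⟩ := Int.eq_ofNat_of_zero_le h3
  have h4 : F.sm P = c * F.mn (-(g + H • F.σ)) := by
    have h5 := F.mn_mul_neg (g + H • F.σ)
    rw [mn_add_nat] at h5
    rw [Int.cast_natCast] at h2
    linear_combination F.mn (-(g + H • F.σ)) * h2 - F.sm P * h5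
  refine ⟨c, _, Nat.pos_of_ne_zero fun e => h0 ?_, h4⟩
  rw [← h, h4, e, Nat.cast_zero, zero_mul, zero_mul]

theorem exists_O : ∃ φ : O 1 →+* F.B, ∀ e, φ (tz 1 e) = F.mn (e • F.σ) := by
  obtain ⟨φ, h⟩ := exists_lift (m := 1) (S := F.B) (F.isUnit_mn F.σ).unit (by simp [F.mn_σ])
  refine ⟨φ, fun e => (h e).trans ?_⟩
  obtain ⟨k, rfl | rfl⟩ := e.eq_nat_or_neg
  · rw [zpow_natCast, natCast_zsmul, F.mn_nsmul, Units.val_pow_eq_pow_val, IsUnit.unit_spec]
  · rw [zpow_neg, zpow_natCast, neg_smul, natCast_zsmul]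
    refine Units.inv_eq_of_mul_eq_one_right ?_
    rw [Units.val_pow_eq_pow_val, IsUnit.unit_spec, ← F.mn_nsmul, F.mn_mul_neg]

theorem eline_cop (hd : ∀ i, Good (F.n i) (d i)) {a c : ℕ} (ha : 0 < a) (hc : 0 < c)
    (hac : Nat.Coprime a c) (γ : F.G) (hs : F.Small (er d a (c * F.mn γ)))
    (hni : F.NI (er d a (c * F.mn γ))) : False := by
  classical
  obtain ⟨φ, hφ⟩ := exists_O (F := F)
  by_cases h1 : ∃ j, (c : O 1) = tz 1 j * a
  · obtain ⟨j, hj⟩ := h1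
    have h2 := congrArg φ hj
    rw [map_mul, map_natCast, map_natCast, hφ] at h2
    refine nl hd (γ + j • F.σ) (Small.of_nat ha ?_)
    have e : (a : F.R) * (F.dR d - (F.mn (γ + j • F.σ) : F.R)) = er d a ((c : F.B) * F.mn γ) := by
      simp only [er, h2, F.mn_add]
      push_cast
      ring
    rwa [e]
  obtain ⟨S, P, Q, h2, h3⟩ := exists_gain (m := 1) (p := c) (q := a) (Nat.cast_ne_zero.2 hc.ne')
    (Nat.cast_ne_zero.2 ha.ne') fun j hj => h1 ⟨j, hj⟩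
  have e1 : ∀ P : Multiset ℤ, φ (so 1 P) = F.sm (P.map (· • F.σ)) := fun P => by
    rw [so, sm, map_multiset_sum, Multiset.map_map, Multiset.map_map]
    exact congrArg _ (Multiset.map_congr rfl fun e _ => hφ e)
  have h4 := congrArg φ h3
  rw [map_mul, map_mul, map_sub, map_sum, map_natCast, map_natCast, e1, e1, ← sum_coe_sort] at h4
  simp only [hφ] at h4
  obtain ⟨x, y, h5⟩ := (Nat.isCoprime_iff_coprime.2 hac).map (Int.castRingHom F.B)
  simp only [map_natCast] at h5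
  have hT : 0 ≤ ∑ j : S, (2 : ℝ) ^ (-j : ℤ) := sum_nonneg fun j _ => by positivity
  obtain ⟨ε, hε, hε'⟩ : ∃ ε : ℝ, 0 < ε ∧ ε * (1 + ∑ j : S, (2 : ℝ) ^ (-j : ℤ)) = 1 / 2 :=
    ⟨1 / 2 / (1 + ∑ j : S, (2 : ℝ) ^ (-j : ℤ)), by positivity, div_mul_cancel₀ _ (by positivity)⟩
  have eq : F.sm (Multiset.replicate a 0) = a := by rw [sm_replicate, F.mn_zero, mul_one]
  refine move (fun i => (hd i).dn) (J := S) (γ := fun j => γ + (j : ℤ) • F.σ)
    (θ := fun j => ε * 2 ^ (-j : ℤ)) (q := Multiset.replicate a 0) (Q := Q.map (· • F.σ))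
    (P := (P.map (· • F.σ)).map (γ + ·)) (p := c * F.mn γ)
    (fun i i' h => Subtype.ext (F.zsmul_σ_inj (add_left_cancel h))) (fun j => ⟨by positivity, ?_⟩)
    (Multiset.card_pos.1 (by simpa using ha)) (by simpa using h2) (by rwa [eq]) (by rwa [eq])
    (x * F.sm (Q.map (· • F.σ)) + y * (∑ j : S, F.mn ((j : ℤ) • F.σ) - F.sm (P.map (· • F.σ))) :
      F.B) ?_ fun ν hν => ?_
  · have := single_le_sum (f := fun j : S => (2 : ℝ) ^ (-j : ℤ)) (fun j _ => by positivity)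
      (mem_univ j)
    nlinarith
  · simp only [F.mn_add, ← mul_sum, ← F.mn_mul_sm, eq, ← mul_sub]
    generalize ∑ j : S, F.mn ((j : ℤ) • F.σ) - F.sm (P.map (· • F.σ)) = A at h4 ⊢
    have h6 := congrArg Subtype.val h4
    have h7 := congrArg Subtype.val h5
    push_cast at h6 h7 ⊢
    linear_combination -(F.dR d * y + x * F.mn γ) * h6 -
      (F.dR d * F.sm (Q.map (· • F.σ)) - F.mn γ * A) * h7
  · have h6 := (F.J d).mul_mem_left (F.mn γ) hν
    have h7 : F.mn γ * ∑ i : S, ν i • F.mn (-(γ + (i : ℤ) • F.σ)) =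
        ∑ i : S, ν i • F.mn ((-i : ℤ) • F.σ) := by
      rw [mul_sum]
      refine sum_congr rfl fun i _ => ?_
      rw [mul_smul_comm, ← F.mn_add, neg_add γ, add_neg_cancel_left, neg_smul]
    rw [h7] at h6
    obtain ⟨H, K, h8⟩ : F.Dy (∑ i : S, ν i • F.mn ((-i : ℤ) • F.σ)) :=
      sum_induction _ _ (fun _ _ => Dy.add) dy_zero fun i _ => dy_mn _ _
    have h9 := kill hs ((F.J d).mul_mem_left (2 ^ H) h6)
    rw [h8] at h9
    obtain rfl := hni.int h9
    have h10 := congrArg F.co h8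
    rw [co_two_pow, co_int, Int.cast_zero, mul_eq_zero, map_sum] at h10
    simp only [map_zsmul, F.co_mn_σ] at h10
    simp only [zsmul_eq_mul] at h10
    refine ⟨0, ?_⟩
    simp only [mul_left_comm _ ε, ← mul_sum]
    rw [h10.resolve_left (by positivity), mul_zero, Int.cast_zero]

theorem eline (hd : ∀ i, Good (F.n i) (d i)) {a c : ℕ} (ha : 0 < a) (hc : 0 < c) (γ : F.G)
    (hs : F.Small (er d a (c * F.mn γ))) (hni : F.NI (er d a (c * F.mn γ))) : False := by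
  obtain ⟨g, a', c', hg, h1, rfl, rfl⟩ := Nat.exists_coprime' (Nat.gcd_pos_of_pos_left c ha)
  have e : er d (a' * g : ℕ) (((c' * g : ℕ) : F.B) * F.mn γ) =
      (g : F.R) * er d a' ((c' : F.B) * F.mn γ) := by
    simp only [er]
    push_cast
    ring
  rw [e] at hs hni
  exact eline_cop hd (Nat.pos_of_mul_pos_right ha) (Nat.pos_of_mul_pos_right hc) h1 γ
    (hs.of_nat hg) (hni.of_mul _)

end Pool.Agent.GT.Fr
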