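import Pool.Agent.Lib.MP_a01f70_lc.GT.EMv

/-! A nonzero error is not killed by an integer. -/

noncomputable section

namespace Pool.Agent.GT
open Finset Filter Pool.Agent.GK

theorem eint_per (f : ℕ → ℝ) {o : ℕ} (h : ∀ j, f (o + j) = f j) (m : ℕ) :
    ∑ j ∈ range (o * m), f j = m * ∑ j ∈ range o, f j := by
  induction m with
  | zero => simp
  | succ m ih =>
    rw [mul_add_one, add_comm, sum_range_add]
    simp only [h]
    rw [ih]
    push_cast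
    ring

theorem eint_period {n a : ℕ} (hn : n ≠ 0) (ha : 0 < a) {v : ZMod (2 ^ n - 1)}
    (h : (a : ZMod (2 ^ n - 1)) * v = 0) : ∃ o : ℕ, o ≤ a ∧ o ∣ n ∧ 2 ^ o * v = v := by
  obtain ⟨k, b, hb, rfl⟩ := Nat.exists_eq_two_pow_mul_odd ha.ne'
  have h1 : (b : ZMod (2 ^ n - 1)) * v = 0 := by
    have h2 : (2 : ZMod (2 ^ n - 1)) ^ ((n - 1) * k) * 2 ^ k = 1 := by
      rw [← pow_add, ← add_one_mul, Nat.sub_add_cancel (by omega), pow_mul, two_pow_self, one_pow]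
    push_cast at h
    linear_combination 2 ^ ((n - 1) * k) * h - b * v * h2
  have h3 : (2 : ZMod (2 ^ n - 1)) ^ b.totient * v = v := by
    obtain ⟨c, hc⟩ := (Nat.modEq_iff_dvd' (Nat.one_le_two_pow)).1
      (Nat.ModEq.pow_totient (Nat.coprime_two_left.2 hb)).symm
    have h4 : 2 ^ b.totient = 1 + b * c := by
      have := @Nat.one_le_two_pow b.totient
      omega
    have h5 := congrArg (Nat.cast : ℕ → ZMod (2 ^ n - 1)) h4
    push_cast at h5
    rw [h5]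
    linear_combination c * h1
  have e : ∀ m : ℕ, Function.IsPeriodicPt (fun x : ZMod (2 ^ n - 1) => 2 * x) m v ↔
      2 ^ m * v = v := fun m => by
    rw [Function.IsPeriodicPt, Function.IsFixedPt, mul_left_iterate]
  refine ⟨Nat.gcd b.totient n, ?_, Nat.gcd_dvd_right _ _,
    (e _).1 (((e _).2 h3).gcd ((e _).2 (by rw [two_pow_self, one_mul])))⟩
  refine (Nat.gcd_le_left _ (Nat.totient_pos.2 hb.pos)).trans ((Nat.totient_le b).trans ?_)
  exact Nat.le_mul_of_pos_left _ (by positivity)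

theorem eint_light {n a : ℕ} (hn : Odd n) (ha : 0 < a) {v : ZMod (2 ^ n - 1)} (h0 : v ≠ 0)
    (h : (a : ZMod (2 ^ n - 1)) * v = 0) :
    W n v ≤ n / 2 - n / (2 * a) ∨ W n (-v) ≤ n / 2 - n / (2 * a) := by
  obtain ⟨o, h1, ⟨m, h2⟩, h3⟩ := eint_period hn.pos.ne' ha h
  have h4 := eint_per (fun j => dig (cc (2 ^ n - 1) (2 ^ j * v))) (o := o) (fun j => by
    rw [add_comm, pow_add, mul_assoc, h3]) m
  obtain ⟨w, hw⟩ : ∃ w : ℕ, ∑ j ∈ range o, dig (cc (2 ^ n - 1) (2 ^ j * v)) = w := by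
    refine sum_induction _ (fun r : ℝ => ∃ w : ℕ, r = w) ?_ ⟨0, by simp⟩ fun j _ => ?_
    · rintro _ _ ⟨x, rfl⟩ ⟨y, rfl⟩
      exact ⟨x + y, by simp⟩
    · rcases dig_cases (cc (2 ^ n - 1) (2 ^ j * v)) with e | e
      exacts [⟨0, by simp [e]⟩, ⟨1, by simp [e]⟩]
  rw [← h2, hw] at h4
  rw [W_neg, W_of_ne h0, h4]
  have ho : Odd o := (Nat.odd_mul.1 (h2 ▸ hn)).1
  have h5 : (n : ℝ) = o * m := by exact_mod_cast h2
  have h6 : (n : ℝ) / (2 * a) ≤ m / 2 := by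
    have : (o : ℝ) ≤ a := by exact_mod_cast h1
    rw [div_le_div_iff₀ (by positivity) two_pos, h5]
    nlinarith [Nat.cast_nonneg (α := ℝ) m]
  have hm := Nat.cast_nonneg (α := ℝ) m
  obtain ⟨t, rfl⟩ := ho
  push_cast at h5
  rcases le_or_gt w t with h7 | h7
  · have : (w : ℝ) ≤ t := by exact_mod_cast h7
    left
    nlinarith
  · have : (t : ℝ) + 1 ≤ w := by exact_mod_cast h7
    right
    nlinarith

theorem eint_rp {a : ℕ} (ha : 0 < a) {x : Tc} (h : a • x = 0) (y : Tc) :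
    rp (x + y) ≤ rp x + a * ‖y‖ := by
  have h1 : (1 : ℝ) ≤ a := by exact_mod_cast ha
  have h2 : 1 ≤ a * rp x := by
    rw [← coe_rp x, ← AddCircle.coe_nsmul, AddCircle.coe_eq_zero_iff] at h
    obtain ⟨z, hz⟩ := h
    rw [zsmul_one, nsmul_eq_mul] at hz
    have h3 : (0 : ℝ) < z := hz ▸ mul_pos (by linarith) (rp_pos x)
    rw [← hz]
    exact_mod_cast (Int.cast_pos.1 h3 : 0 < z)
  rcases lt_or_ge ‖y‖ (rp x) with h3 | h3
  · nlinarith [rp_add_small h3, norm_nonneg y]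
  · nlinarith [rp_le_one (x + y), rp_pos x]

theorem eint_norm {n : ℕ} (hn : n ≠ 0) (P : Multiset ℕ) :
    ∑ j ∈ range n, ‖cc (2 ^ n - 1) (2 ^ j * (P.map (2 ^ ·)).sum)‖ ≤ P.card := by
  by_cases h : P = 0
  · simp [h]
  · refine le_trans (sum_le_sum fun j _ => ?_) (W_multiset hn h)
    rw [← norm_neg]
    exact norm_le_one_sub_fr _

theorem eint_pert {n a k : ℕ} (hn : n ≠ 0) (ha : 0 < a) {v u : ZMod (2 ^ n - 1)}
    (h : (a : ZMod (2 ^ n - 1)) * v = 0) (hu : Wt k u) : W n (v + u) ≤ W n v + a * k := by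
  obtain ⟨P, Q, h1, rfl⟩ := hu
  have h2 : (P.card : ℝ) + Q.card ≤ k := by exact_mod_cast h1
  have h3 : ∀ j ∈ range n, rp (cc (2 ^ n - 1) (2 ^ j * (v + ((P.map (2 ^ ·)).sum -
      (Q.map (2 ^ ·)).sum)))) ≤ rp (cc (2 ^ n - 1) (2 ^ j * v)) +
      a * (‖cc (2 ^ n - 1) (2 ^ j * (P.map (2 ^ ·)).sum)‖ +
        ‖cc (2 ^ n - 1) (2 ^ j * (Q.map (2 ^ ·)).sum)‖) := fun j _ => by
    rw [mul_add, map_add, mul_sub, map_sub]
    refine (eint_rp ha ?_ _).trans (by gcongr; exact norm_sub_le _ _)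
    rw [← map_nsmul, nsmul_eq_mul, mul_left_comm, h, mul_zero, map_zero]
  refine (sum_le_sum h3).trans ?_
  rw [sum_add_distrib, ← mul_sum, sum_add_distrib, W]
  gcongr
  linarith [eint_norm hn P, eint_norm hn Q]

theorem eint_fin {n d a k : ℕ} (hn : Odd n) (hd : Dv n d) (ha : 0 < a) (P : Multiset ℕ)
    {p : ZMod (2 ^ n - 1)} (hp : Wt k p) (h0 : (d : ZMod (2 ^ n - 1)) * (P.map (2 ^ ·)).sum - p ≠ 0)
    (h : (a : ZMod (2 ^ n - 1)) * (d * (P.map (2 ^ ·)).sum - p) = 0) :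
    n ≤ 2 * a * (a * P.card + a * (a * k)) := by
  have key : ∀ (j : ℕ) (v : ZMod (2 ^ n - 1)), j ≤ a → (a : ZMod (2 ^ n - 1)) * v = 0 →
      v = -(j * (d * (P.map (2 ^ ·)).sum - p)) → W n v ≤ n / 2 - n / (2 * a) →
      n ≤ 2 * a * (a * P.card + a * (a * k)) := fun j v hj h1 h2 h3 => by
    have h4 := hd.multiset hn.pos.ne' (j • P)
    have h5 := eint_pert hn.pos.ne' ha h1 ((wt_intCast (j : ℤ)).mul hp).neg
    rw [Multiset.map_nsmul, Multiset.sum_nsmul, nsmul_eq_mul, Multiset.card_nsmul] at h4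
    rw [Int.natAbs_natCast, Int.cast_natCast, show v + -((j : ZMod (2 ^ n - 1)) * p) =
      -(d * (j * (P.map (2 ^ ·)).sum)) by rw [h2]; ring] at h5
    have h6 : (j : ℝ) ≤ a := by exact_mod_cast hj
    have h7 : (n : ℝ) / (2 * a) ≤ a * P.card + a * (a * k) := by
      push_cast at h4 h5
      have : (j : ℝ) * P.card ≤ a * P.card := by gcongr
      have : (a : ℝ) * (j * k) ≤ a * (a * k) := by gcongr
      linarith
    rw [div_le_iff₀ (by positivity), mul_comm] at h7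
    exact_mod_cast h7
  rcases eint_light hn ha h0 h with h1 | h1
  · refine key (a - 1) _ (Nat.sub_le _ _) h ?_ h1
    rw [Nat.cast_pred ha]
    linear_combination h
  · exact key 1 _ ha (by rw [mul_neg, h, neg_zero]) (by rw [Nat.cast_one, one_mul]) h1

theorem Fr.ni_of_ne {F : Fr} {d : ℕ → ℕ} (hd : ∀ i, Dv (F.n i) (d i)) (q : Multiset F.G) (p : F.B)
    (h : F.dR d * F.sm q - p ≠ 0) : F.NI (F.dR d * F.sm q - p) := by
  intro a ha h0
  obtain ⟨k, hk⟩ := Fr.exists_wtB p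
  obtain ⟨P, h1, h2⟩ := Fr.sm_rep q
  obtain ⟨y, hy⟩ := F.mkR_surj p
  have h3 := hk.wt hy.symm
  rw [h2, ← hy, Fr.dR, ← map_mul, ← map_sub] at h h0
  rw [← map_natCast F.mkR, ← map_mul, ← map_zero F.mkR, F.mkR_eq] at h0
  rw [Ne, ← map_zero F.mkR, F.mkR_eq, ← Ultrafilter.eventually_not] at h
  obtain ⟨i, ⟨⟨a1, a2⟩, a3⟩, a4⟩ :=
    (((h3.and h0).and h).and (F.big (2 * a * (a * q.card + a * (a * k)) + 1))).exists
  have := eint_fin (F.odd i) (hd i) ha (P i) a1 a3 a2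
  rw [h1] at this
  omega

end Pool.Agent.GT
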