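import Pool.Agent.Lib.MP_a01f70_lc.GT.EQ2
import Pool.Agent.Lib.MP_a01f70_lc.GT.EInt

/-! Quotients of binomials that are not of finite type. -/

noncomputable section

namespace Pool.Agent.GT.Fr
open Finset Pool.Agent.GK

variable {F : Fr} {α β : F.G}

/-- the normal form `p = γ (1 + α)`, `q = 1 + β` is impossible -/
def NoQ (F : Fr) (α β : F.G) : Prop :=
  ∀ (d : ℕ → ℕ) (γ : F.G), (∀ i, Good (F.n i) (d i)) →
    ¬ F.Small (er d (1 + F.mn β) (F.mn γ * (1 + F.mn α)))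

theorem eq3_inv (γ : F.G) : (F.mn γ : F.R) * F.mn (-γ) = 1 :=
  congrArg Subtype.val (F.mn_mul_neg γ)

theorem NoQ.symm (h : F.NoQ α β) : F.NoQ β α := by
  intro d γ hd hs
  obtain ⟨d', h2, h1⟩ := exists_inv hd
  refine h d' (-γ) h2 ?_
  have e : er d' (1 + F.mn β) (F.mn (-γ) * (1 + F.mn α)) =
      -(F.dR d' * (F.mn (-γ) : F.R)) * er d (1 + F.mn α) (F.mn γ * (1 + F.mn β)) := by
    simp only [er]
    push_cast
    linear_combination (F.mn (-γ) : F.R) * (1 + F.mn α) * h1 -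
      F.dR d' * (1 + F.mn β) * eq3_inv γ
  exact e ▸ hs.mul _

theorem NoQ.neg (h : F.NoQ (-α) β) : F.NoQ α β := by
  intro d γ hd hs
  refine h d (γ + α) hd ?_
  rwa [show F.mn (γ + α) * (1 + F.mn (-α)) = F.mn γ * (1 + F.mn α) by
    rw [F.mn_add]
    linear_combination F.mn γ * F.mn_mul_neg α]

theorem eq3_ni {d : ℕ → ℕ} (hd : ∀ i, Good (F.n i) (d i)) (γ α β : F.G) :
    F.NI (er d (1 + F.mn β) (F.mn γ * (1 + F.mn α))) := by
  have eq : F.sm {0, β} = 1 + F.mn β := by simp [sm, F.mn_zero]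
  have h1 := nq hd γ (γ + α) 0 β
  rw [F.mn_zero, F.mn_add, ← mul_one_add, ← sub_ne_zero, ← eq] at h1
  exact eq ▸ ni_of_ne (fun i => (hd i).dv) _ _ h1

theorem noQ_of (hβ : β ∉ F.G00) (α : F.G) : F.NoQ α β := by
  have z : ∀ {γ : F.G}, (γ : F.V) = 0 ↔ γ ∈ F.G00 := QuotientAddGroup.eq_zero_iff _
  have A : ∀ α β : F.G, β ∉ F.G00 → (∀ c : ℤ, (α : F.V) ≠ c • (β : F.V)) ∨
      ((α : F.V) = β ∧ α ≠ β) ∨ (α ∈ F.G00 ∧ α ≠ 0) → F.NoQ α β := fun α β hβ hα d γ hd hs =>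
    four_sites (fun i => (hd i).dn) hβ hα hs (eq3_ni hd γ α β)
  have B : ∀ α, α ≠ 0 → F.NoQ α 0 := fun α hα d γ hd hs => by
    have e : er d 1 (F.mn (-F.σ + γ) * (1 + F.mn α)) =
        (F.mn (-F.σ) : F.R) * er d (1 + F.mn 0) (F.mn γ * (1 + F.mn α)) := by
      have h3 := F.mn_mul_neg F.σ
      rw [F.mn_σ, ← one_add_one_eq_two] at h3
      have h4 := congrArg Subtype.val h3
      simp only [er, F.mn_add, F.mn_zero]
      push_cast at h4 ⊢
      linear_combination -F.dR d * h4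
    exact two_sites (fun i => (hd i).dn) hα (e ▸ hs.mul _)
      (e ▸ (eq3_ni hd γ α 0).unit_mul (isUnit_coe_mn _))
  have G : ∀ α β : F.G, β ∉ F.G00 → (α : F.V) = β → F.NoQ α β := fun α β hβ h => by
    by_cases h1 : α = β
    · subst h1
      intro d γ hd hs
      obtain ⟨u, hu⟩ := (isUnit_one_add α).exists_left_inv
      have e : F.dR d - (F.mn γ : F.R) = u * er d (1 + F.mn α) (F.mn γ * (1 + F.mn α)) := by
        simp only [er]
        rw [Subring.coe_mul]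
        linear_combination -(F.dR d - F.mn γ) * hu
      exact nl hd γ (e ▸ hs.mul _)
    · exact A α β hβ (.inr (.inl ⟨h, h1⟩))
  by_cases h0 : α ∈ F.G00
  · by_cases h1 : α = 0
    · exact h1 ▸ (B β fun h => hβ (h ▸ zero_mem _)).symm
    · exact A α β hβ (.inr (.inr ⟨h0, h1⟩))
  by_cases h1 : ∀ c : ℤ, (α : F.V) ≠ c • (β : F.V)
  · exact A α β hβ (.inl h1)
  by_cases h2 : ∀ c : ℤ, (β : F.V) ≠ c • (α : F.V)
  · exact (A β α h0 (.inl h2)).symm
  push Not at h1 h2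
  obtain ⟨c, hc⟩ := h1
  obtain ⟨c', hc'⟩ := h2
  have h3 : c * c' = 1 := by
    by_contra h3
    refine h0 (z.1 (F.V_tf (c * c' - 1).natAbs _ (Int.natAbs_pos.2 (sub_ne_zero.2 h3)) ?_))
    rw [natAbs_nsmul_eq_zero, sub_smul, mul_smul, ← hc', ← hc, one_smul, sub_self]
  rcases Int.eq_one_or_neg_one_of_mul_eq_one h3 with rfl | rfl
  · exact G α β hβ (hc.trans (one_smul _ _))
  · exact (G (-α) β hβ (by rw [QuotientAddGroup.mk_neg, hc, neg_one_smul, neg_neg])).neg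

/-- a quotient of binomials is of finite type up to a small error -/
theorem eq3_fin {d : ℕ → ℕ} (hd : ∀ i, Good (F.n i) (d i)) (γ₁ γ₂ γ₃ γ₄ : F.G)
    (hs : F.Small (F.dR d * (F.mn γ₃ + F.mn γ₄ : F.B) - (F.mn γ₁ + F.mn γ₂ : F.B))) :
    ∃ (a : ℕ) (γ : F.G) (p : F.B), 0 < a ∧ p ∈ F.B00 ∧
      F.Small (F.dR d * (a : F.B) - (F.mn γ * p : F.B)) := by
  have e : er d (1 + F.mn (-γ₃ + γ₄)) (F.mn (-γ₃ + γ₁) * (1 + F.mn (-γ₁ + γ₂))) =
      (F.mn (-γ₃) : F.R) * er d (F.mn γ₃ + F.mn γ₄) (F.mn γ₁ + F.mn γ₂) := by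
    simp only [er, F.mn_add]
    push_cast
    linear_combination -F.dR d * eq3_inv γ₃ - (F.mn (-γ₃) : F.R) * F.mn γ₂ * eq3_inv γ₁
  have h1 := e ▸ Small.mul (e := er d _ _) hs (F.mn (-γ₃))
  generalize -γ₃ + γ₄ = β at h1
  generalize -γ₃ + γ₁ = γ at h1
  generalize -γ₁ + γ₂ = α at h1
  have hβ : β ∈ F.G00 := by_contra fun h => noQ_of h α d γ hd h1
  have hα : α ∈ F.G00 := by_contra fun h => (noQ_of h β).symm d γ hd h1
  obtain ⟨u, a, h2, h3, h4⟩ := dvd_int (add_mem (one_mem _) (mn_mem_B00 hβ))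
    (mem_nonZeroDivisors_iff_right.2 fun w hw => eq1_cancel hw)
  refine ⟨a, γ, (1 + F.mn α) * u, h3, mul_mem (add_mem (one_mem _) (mn_mem_B00 hα)) h2, ?_⟩
  have e2 : er d a (F.mn γ * ((1 + F.mn α) * u)) =
      (u : F.R) * er d (1 + F.mn β) (F.mn γ * (1 + F.mn α)) := by
    simp only [er, ← h4]
    push_cast
    ring
  have h5 := h1.mul u
  rwa [← e2] at h5

end Pool.Agent.GT.Fr
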