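import Pool.Agent.Lib.MP_a01f70_lc.GT.B2
import Pool.Agent.Lib.MP_a01f70_lc.GT.EQ3
import Pool.Agent.Lib.MP_a01f70_lc.GT.ELine

/-! Block E in the global model. -/

namespace Pool.Agent.GT.Fr
open Pool.Agent.GK

variable {F : Fr} {d : ℕ → ℕ}

theorem eF (hd : ∀ i, Good (F.n i) (d i)) {a : ℕ} (ha : 0 < a) (γ : F.G) {p : F.B} (hp : p ∈ F.B00)
    (hs : F.Small (F.dR d * (a : F.B) - (F.mn γ * p : F.B))) : F.FinT d := by
  change F.Small (er d a (F.mn γ * p)) at hs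
  by_cases hni : F.NI (er d a (F.mn γ * p))
  swap
  · simp only [NI, not_forall, not_not] at hni
    obtain ⟨b, hb, h⟩ := hni
    refine ⟨b * a, γ, b * p, Nat.mul_pos hb ha, mul_mem (natCast_mem _ b) hp, ?_⟩
    simp only [er] at h
    push_cast at h ⊢
    linear_combination h
  exfalso
  obtain ⟨d', hd', h1⟩ := exists_inv hd
  obtain ⟨u, b, h2, hb, h3⟩ := dvd_int hp (mem_nonZeroDivisors_iff_right.2 fun w hw => by
    refine F.eq_zero_of_nsmul ha (Small.eq_zero ?_)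
    have h4 := congrArg Subtype.val hw
    have e : (((a : F.B) * w : F.B) : F.R) = F.dR d' * w * er d a (F.mn γ * p) := by
      simp only [er]
      push_cast at h4 ⊢
      linear_combination -(a : F.R) * w * h1 + F.dR d' * F.mn γ * h4
    exact e ▸ hs.mul _)
  have h4 := congrArg Subtype.val h3
  have e : er d' b (F.mn (-γ) * ((a : F.B) * u)) =
      -(F.dR d' * (F.mn (-γ) : F.R)) * u * er d a (F.mn γ * p) := by
    simp only [er]
    push_cast at h4 ⊢
    linear_combination (F.mn (-γ) : F.R) * a * u * h1 - F.dR d' * p * u * eq3_inv γ - F.dR d' * h4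
  have h5 : F.NI (er d' b (F.mn (-γ) * ((a : F.B) * u))) := fun c hc h => by
    refine hni (c * b) (Nat.mul_pos hc hb) ?_
    rw [e] at h
    push_cast at h4 ⊢
    linear_combination -(F.dR d * F.mn γ * p) * h - c * er d a (F.mn γ * p) * h4 -
      (c * er d a (F.mn γ * p) * p * u) * h1 -
      (c * er d a (F.mn γ * p) * p * u * F.dR d * F.dR d') * eq3_inv γ
  obtain ⟨P, rfl⟩ := erun (fun i => (hd i).dn) ha hp hs hni
  obtain ⟨U, hU⟩ := erun (fun i => (hd' i).dn) hb (mul_mem (natCast_mem _ a) h2) (e ▸ hs.mul _) h5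
  obtain ⟨c, g, hc, h6⟩ := one_line (P := P) (U := U) (Nat.mul_pos ha hb) (by
    rw [← hU, mul_left_comm, h3, Nat.cast_mul])
  rw [h6, mul_left_comm, ← F.mn_add] at hs hni
  exact eline hd ha hc _ hs hni

theorem eQ (hd : ∀ i, Good (F.n i) (d i)) (γ₁ γ₂ γ₃ γ₄ : F.G)
    (hs : F.Small (F.dR d * (F.mn γ₃ + F.mn γ₄ : F.B) - (F.mn γ₁ + F.mn γ₂ : F.B))) : F.FinT d := by
  obtain ⟨a, γ, p, h1, h2, h3⟩ := eq3_fin hd γ₁ γ₂ γ₃ γ₄ hs
  exact eF hd h1 γ h2 h3

end Pool.Agent.GT.Fr
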