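import Pool.Agent.Lib.MP_a01f70_lc.GK.EMain

/-! The finite form of the argument with moves, for a signed response. -/

namespace Pool.Agent.GE

open Finset ZMod Pool.Agent.Lib.MP_a01f70_lc.BA Pool.Agent.Lib.MP_a01f70_lc.SP

theorem em1_add {R : Type} [CommRing R] {a b : ℕ} {x y : R} (h : Wt a x) (h' : Wt b y) :
    Wt (a + b) (x + y) := by
  obtain ⟨P, M, h1, rfl⟩ := h
  obtain ⟨P', M', h2, rfl⟩ := h'
  refine ⟨P + P', M + M', by simp only [Multiset.card_add]; omega, ?_⟩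
  simp only [Multiset.map_add, Multiset.sum_add]
  ring

section

variable {N n : ℕ} [NeZero N] [NeZero n] {w : ℕ}

/-- The random point and its rotations. -/
def rq (d : ℕ) (x y : ZMod N) (θ : ZMod n × (Fin w → Fin n × Bool)) : ZMod N :=
  pw N θ.1 * (d * (jj θ.2 + x) + y)

theorem rq_small {d : ℕ} (hN : N + 1 = 2 ^ n) {T : ℕ} {η : ZMod N} (h : ¬Wt T (η * d)) (x y : ZMod N) :
    ‖∑ θ : ZMod n × (Fin w → Fin n × Bool), chr η (rq d x y θ)‖ ≤
      Real.exp (-(T * w / (8 * n))) * Fintype.card (ZMod n × (Fin w → Fin n × Bool)) := by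
  rw [Fintype.sum_prod_type, Fintype.card_prod, Nat.cast_mul, mul_left_comm]
  refine (norm_sum_le _ _).trans ((sum_le_card_nsmul _ _ _ fun k _ => ?_).trans
    (by rw [nsmul_eq_mul, card_univ]))
  refine le_trans (le_of_eq ?_) (walk (NeZero.pos n) hN (fun h' => h (wt_of_sparse h')) k.val)
  have e : ∀ ω : Fin w → Fin n × Bool, chr η (rq d x y (k, ω)) =
      chr η (2 ^ k.val * ((d * jj ω : ℕ) : ZMod N)) * stdAddChar (η * (2 ^ k.val * ((d : ZMod N) * x + y))) := by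
    intro ω
    rw [chr, chr, ← AddChar.map_add_eq_mul, rq, pw]
    congr 1
    push_cast
    ring
  simp only [e]
  rw [← sum_mul, norm_mul, norm_e, mul_one]

theorem rq_big {d : ℕ} (hN : N + 1 = 2 ^ n) {s c : ℕ} {η x y : ZMod N} (h : Wt s (η * d)) (h' : Wt s η)
    (hx : Ps 0 c x) (hy : Ps 0 c y) (hs : 7 * (s * (w + c) + s * c) ≤ n) :
    0 ≤ (∑ θ : ZMod n × (Fin w → Fin n × Bool), chr η (rq d x y θ)).re := by
  rw [Fintype.sum_prod_type_right, Complex.re_sum]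
  refine sum_nonneg fun ω _ => ?_
  have h1 := sum_ds hN (em1_add (wt_mul h ((ps_jj ω).add hx).wt) (wt_mul h' hy.wt))
  have h2 : (7 : ℝ) * (s * (w + c) + s * c : ℕ) ≤ n := by exact_mod_cast hs
  rw [← sum_zmod] at h1
  have h3 : ∀ k : ZMod n, 1 - ds (2 ^ k.val * (η * (d : ZMod N) * ((jj ω : ZMod N) + x) + η * y)) ≤ (chr η (rq d x y (k, ω))).re :=
    fun k => by
      have e : η * rq d x y (k, ω) = 2 ^ k.val * (η * (d : ZMod N) * ((jj ω : ZMod N) + x) + η * y) := by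
        rw [rq, pw]
        ring
      have := (abs_le.1 (Complex.abs_re_le_norm
        (stdAddChar (2 ^ k.val * (η * (d : ZMod N) * ((jj ω : ZMod N) + x) + η * y)) - 1))).1
      rw [Complex.sub_re, Complex.one_re] at this
      rw [chr, e, ds]
      linarith
  rw [Complex.re_sum]
  refine le_trans ?_ (sum_le_sum fun k _ => h3 k)
  rw [sum_sub_distrib, sum_const, card_univ, ZMod.card, nsmul_eq_mul]
  linarith

theorem move2 (hN : N + 1 = 2 ^ n) {d : ℕ} (hD : DD n d) {J : Type} [Fintype J] {r : J → ZMod n}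
    (hr : Function.Injective r) {a b c c₁ c₂ g L w : ℕ} (hab : a + b < Fintype.card J)
    {Q P q p₁ p₂ h x : ZMod N} (hQ : Ps 0 a Q) (hP : Ps 0 b P) (hq : Ps 1 c q) (hc₁ : c₁ + c₂ ≤ c)
    (hp : Ps 0 c₁ p₁) (hp' : Ps 0 c₂ p₂)
    (hrel : d * Q - (∑ j, pw N (-r j) - P) = h * (d * q - (p₁ - p₂))) (hg0 : 0 < g) (hg : g ≤ 2 ^ L)
    (hge : g * (d * q - (p₁ - p₂)) = 0) (hx : Ps 0 w x) (G : Finset (ZMod n))
    (hG : ∀ k ∈ G, ∀ j, sg (pw N (k + r j) * ((d : ZMod N) * (x + q * 2 ^ L) + p₂ * 2 ^ L)) = -1) :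
    Fintype.card J ^ 2 * n + 2 * G.card ≤ Fintype.card J ^ 2 * (2 * (w + 2 * c * (L + 1) +
      (univ.filter fun i : ZMod n => sg (pw N i * ((d : ZMod N) * (x + q * 2 ^ L) + p₂ * 2 ^ L)) = -1).card)) := by
  classical
  obtain ⟨K, hK, h1, h2⟩ := exists_sep G (fun k => univ.image fun j : J × J => k + r j.1 - r j.2)
    (D := Fintype.card J ^ 2) (fun k => card_image_le.trans (by simp [sq]))
    (fun k => mem_image.2 ⟨(Classical.choice (Fintype.card_pos_iff.1 (by omega)),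
      Classical.choice (Fintype.card_pos_iff.1 (by omega))), mem_univ _, add_sub_cancel_right _ _⟩)
    fun k l hl => by
      obtain ⟨j, -, rfl⟩ := mem_image.1 hl
      exact mem_image.2 ⟨j.swap, mem_univ _, by simp⟩
  have h3 := neg_dig hN ((d : ZMod N) * (x + q * 2 ^ L) + p₂ * 2 ^ L)
  set Z := univ.filter fun i : ZMod n => sg (pw N i * ((d : ZMod N) * (x + q * 2 ^ L) + p₂ * 2 ^ L)) = -1
  have hinj : Set.InjOn (fun j : ZMod n × J => j.1 + r j.2) (K ×ˢ univ : Finset (ZMod n × J)) := by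
    rintro ⟨k, j⟩ hk ⟨l, i⟩ hl e
    dsimp only at e
    obtain rfl : l = k := h1 k (mem_product.1 hk).1 l (mem_product.1 hl).1
      (mem_image.2 ⟨(j, i), mem_univ _, by rw [e, add_sub_cancel_right]⟩)
    rw [hr (add_left_cancel e)]
  have hsub : (K ×ˢ univ).image (fun j : ZMod n × J => j.1 + r j.2) ⊆ Z := fun i hi => by
    obtain ⟨j, hj, rfl⟩ := mem_image.1 hi
    exact mem_filter.2 ⟨mem_univ _, hG _ (hK (mem_product.1 hj).1) _⟩
  have hc := card_sdiff_add_card_eq_card hsub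
  rw [← sum_sdiff hsub, sum_image hinj, sum_product] at h3
  rw [card_image_of_injOn hinj, card_product, card_univ] at hc
  set H := ∑ k ∈ K, pw N (-1 - k)
  have h4 : ∑ k ∈ K, ∑ j, pw N (-1 - (k + r j)) = H * ∑ j, pw N (-r j) := by
    rw [sum_mul_sum]
    refine sum_congr rfl fun k _ => sum_congr rfl fun j _ => ?_
    rw [← pw_add hN]
    congr 1
    ring
  have hH : Ps 0 K.card H := by
    simpa using ps_sum K fun k _ => (ps_pw (N := N) (-1 - k)).mono (Nat.zero_le _) le_rfl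
  obtain ⟨z, hz, h5⟩ : ∃ z < g, (z : ZMod N) * (d * q - (p₁ - p₂)) = H * h * (d * q - (p₁ - p₂)) := by
    refine ⟨(H * h).val % g, Nat.mod_lt _ hg0, ?_⟩
    conv_rhs => rw [← natCast_zmod_val (H * h), ← Nat.mod_add_div (H * h).val g]
    push_cast
    linear_combination (-((H * h).val / g : ℕ) : ZMod N) * hge
  obtain ⟨y, hy⟩ : ∃ y, y + 1 + z = 2 ^ L := ⟨2 ^ L - 1 - z, by omega⟩
  have h6 : (y : ZMod N) + 2 ^ 0 + z = 2 ^ L := by exact_mod_cast congrArg (Nat.cast : ℕ → ZMod N) hy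
  have h7 := dd_ps hN hD
    (((hx.add (hq.mul ((ps_nat L y (by omega)).add (ps_pow 0)))).add (hH.mul hQ)).mono (by omega) le_rfl)
    ((((ps_sum (Z \ (K ×ˢ univ).image fun j : ZMod n × J => j.1 + r j.2) fun i _ =>
      (ps_pw (N := N) (-1 - i)).mono (Nat.zero_le _) le_rfl).add (hH.mul hP)).add
        (hp.mul (ps_nat L z (by omega)))).add (hp'.mul ((ps_nat L y (by omega)).add (ps_pow 0))))
    (by rw [h4] at h3; linear_combination -h3 + (d * q + p₂) * h6 + H * hrel - h5)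
  have h8 := Nat.mul_le_mul_left K.card hab
  have h10 := Nat.mul_le_mul_right (L + 1) hc₁
  have h9 : n + 2 * K.card ≤ 2 * (w + 2 * c * (L + 1) + Z.card) := by nlinarith
  nlinarith [Nat.mul_le_mul_left (Fintype.card J ^ 2) h9]

end

theorem fin_main2 {J : Type} [Fintype J] (θ : J → ℝ) (hθ : ∀ j, 0 < θ j ∧ θ j < 1 / 2) (c : ℕ) :
    ∃ M : ℕ, ∀ s : ℕ, ∃ T t n₀ : ℕ, 0 < t ∧ ∀ (n N d : ℕ) [NeZero N] [NeZero n], n₀ ≤ n →
      N + 1 = 2 ^ n → DD n d → ∀ r : J → ZMod n, Function.Injective r →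
      (∀ ν : J → ℤ, (∀ j, |ν j| ≤ M) →
        ((∃ z : ℤ, ∑ j, ν j * θ j = z) ∧ Wt s ((∑ j, (ν j : ZMod N) * pw N (r j)) * d) ∧
          Wt s (∑ j, (ν j : ZMod N) * pw N (r j))) ∨
          ¬Wt T ((∑ j, (ν j : ZMod N) * pw N (r j)) * d)) →
      (∀ a : ℤ, a ≠ 0 → |a| ≤ M → ¬Wt T ((a : ZMod N) * d)) →
      ∀ (a b g : ℕ) (Q P q p h : ZMod N), a + b < Fintype.card J → Ps 0 a Q → Ps 0 b P →
        Ps 1 c q → Wt c p → d * Q - (∑ j, pw N (-r j) - P) = h * (d * q - p) → 0 < g →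
        g ^ t ≤ 2 ^ n → g * (d * q - p) = 0 → False := by
  classical
  obtain ⟨M₀, γ, hγ, hM₀⟩ := many_good θ hθ
  set D : ℝ := (Fintype.card J : ℝ) ^ 2 with hD
  have hD0 : 0 ≤ D := sq_nonneg _
  obtain ⟨β, hβ, hβγ⟩ : ∃ β : ℝ, 0 < β ∧ β * (D + 1) = γ / 8 :=
    ⟨γ / 8 / (D + 1), by positivity, by field_simp⟩
  obtain ⟨M₁, N₀, hM₁⟩ := avg_sg hβ
  refine ⟨max M₀ M₁, fun s => ?_⟩
  obtain ⟨k, hk⟩ := exists_nat_ge (max (14 * s + 1 : ℝ) ((8 * c + 2) / β))
  have hk1 : 14 * s + 1 ≤ k := by exact_mod_cast (le_max_left _ _).trans hk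
  have hk2 : 8 * c + 2 ≤ k * β := (div_le_iff₀ hβ).1 ((le_max_right _ _).trans hk)
  obtain ⟨T, hT⟩ := exists_nat_ge (16 * k * ((4 * M₁ + 2) / β))
  refine ⟨T, k, max (N₀ + 1) (2 * k * (c + 1)), by omega, fun n N d _ _ hn hN hd r hr hν ha a b g Q P q p h
    hab hQ hP hq hp hrel hg0 hg hge => ?_⟩
  obtain ⟨c₁, c₂, p₁, p₂, hc₁, hp₁, hp₂, rfl⟩ := wt_iff.1 hp
  have hn1 : N₀ + 1 ≤ n := (le_max_left _ _).trans hn
  have hn2 : 2 * k * (c + 1) ≤ n := (le_max_right _ _).trans hn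
  have hk0 : 0 < k := by omega
  set w := n / k with hw
  have hw1 : k * w ≤ n := Nat.mul_div_le n k
  have hw2 : n < k * (w + 1) := Nat.lt_mul_div_succ n hk0
  have hw3 : 2 * (c + 1) ≤ w := (Nat.le_div_iff_mul_le hk0).2 (by linarith)
  have hg1 : g ≤ 2 ^ (w + 1) := by
    refine (Nat.pow_le_pow_iff_left hk0.ne').1 (hg.trans ?_)
    rw [← pow_mul]
    exact Nat.pow_le_pow_right two_pos (by linarith)
  have hx : Ps 0 c (q * 2 ^ (w + 1)) := (hq.mul (ps_pow _)).mono (Nat.zero_le _) (by omega)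
  have hy : Ps 0 c (p₂ * 2 ^ (w + 1)) := (hp₂.mul (ps_pow _)).mono (Nat.zero_le _) (by omega)
  set x := q * 2 ^ (w + 1) with hx'
  set y := p₂ * 2 ^ (w + 1) with hy'
  set ε := Real.exp (-(T * w / (8 * n))) with hε
  have hε0 : 0 < ε := Real.exp_pos _
  have hnr : (0 : ℝ) < n := Nat.cast_pos.2 (NeZero.pos n)
  have hkr : (0 : ℝ) < k := Nat.cast_pos.2 hk0
  have hε1 : (4 * M₁ + 2) * ε ≤ β := by
    have a1 : (n : ℝ) ≤ 2 * k * w := by exact_mod_cast (by nlinarith : n ≤ 2 * k * w)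
    have a2 : (4 * M₁ + 2) / β ≤ T * w / (8 * n) := by
      rw [le_div_iff₀ (by positivity)]
      have a3 : (0 : ℝ) ≤ (4 * M₁ + 2) / β := by positivity
      nlinarith [mul_le_mul_of_nonneg_right hT (Nat.cast_nonneg (α := ℝ) w),
        mul_le_mul_of_nonneg_left a1 a3]
    have a4 := Real.add_one_le_exp (T * w / (8 * n))
    rw [div_le_iff₀ hβ] at a2
    rw [hε, Real.exp_neg, ← div_eq_mul_inv, div_le_iff₀ (Real.exp_pos _)]
    nlinarith
  have h1 := hM₀ N (ZMod n × (Fin w → Fin n × Bool)) (rq d x y) (fun j => pw N (r j)) ε hε0.le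
    fun ν hν' => (hν ν fun j => (hν' j).trans (by exact_mod_cast le_max_left _ _)).imp
      (fun h => ⟨h.1, rq_big hN h.2.1 h.2.2 hx hy (by nlinarith)⟩) fun h => rq_small hN h x y
  have h2 := hM₁ N (by have := @Nat.lt_two_pow_self n; omega)
    (by rw [← Nat.not_even_iff_odd, ← Nat.even_add_one, hN]
        exact (Nat.even_pow.2 ⟨even_two, NeZero.ne n⟩))
    (ZMod n × (Fin w → Fin n × Bool)) (rq d x y) ε hε0.le fun a h0 h =>
      rq_small hN (ha a h0 (h.trans (by exact_mod_cast le_max_right _ _))) x y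
  have h3 := two_card (rq (n := n) (w := w) d x y)
  have h4 := sum_le_sum fun (ω : Fin w → Fin n × Bool) (_ : ω ∈ univ) =>
    move2 hN hd hr hab hQ hP hq hc₁ hp₁ hp₂ hrel hg0 hg1 hge (ps_jj ω)
      (univ.filter fun i => ∀ j, sg (pw N (r j) * rq d x y (i, ω)) = -1) fun i hi j => by
        rw [← (mem_filter.1 hi).2 j, rq, pw_add hN]
        congr 1
        ring
  rw [card_pairs] at h1 h3
  rw [Fintype.card_prod, ZMod.card, Nat.cast_mul] at h1 h2 h3
  simp only [sum_add_distrib, ← mul_sum, sum_const, card_univ, smul_eq_mul] at h4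
  have h5 := (Nat.cast_le (α := ℝ)).2 h4
  simp only [rq] at h1 h2 h3 h5
  set A := ∑ ω : Fin w → Fin n × Bool, (univ.filter fun i : ZMod n =>
    ∀ j, sg (pw N (r j) * (pw N i * ((d : ZMod N) * ((jj ω : ZMod N) + x) + y))) = -1).card
  set B := ∑ ω : Fin w → Fin n × Bool, (univ.filter fun i : ZMod n =>
    sg (pw N i * ((d : ZMod N) * ((jj ω : ZMod N) + x) + y)) = -1).card
  push_cast at h5
  rw [← hD] at h5
  set C : ℝ := (Fintype.card (Fin w → Fin n × Bool) : ℝ)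
  have hC : 0 < C := Nat.cast_pos.2 Fintype.card_pos
  have h6 : 2 * ((w : ℝ) + 2 * c * (w + 1 + 1)) ≤ β * n := by
    have a1 : (k : ℝ) * w ≤ n := by exact_mod_cast hw1
    have a2 : 2 * ((c : ℝ) + 1) ≤ w := by exact_mod_cast hw3
    have a3 : (0 : ℝ) ≤ c := Nat.cast_nonneg c
    nlinarith [mul_le_mul_of_nonneg_right hk2 (Nat.cast_nonneg (α := ℝ) w),
      mul_le_mul_of_nonneg_left a1 hβ.le]
  have h7 : 2 * (B : ℝ) ≤ (1 + 2 * β) * (n * C) := by
    nlinarith [mul_le_mul_of_nonneg_right hε1 (mul_pos hnr hC).le]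
  have h8 : ε ≤ β := by nlinarith [Nat.cast_nonneg (α := ℝ) M₁]
  have h9 : 2 * (A : ℝ) ≤ D * (3 * β * (n * C)) := by
    nlinarith [mul_le_mul_of_nonneg_left h7 hD0,
      mul_le_mul_of_nonneg_left (mul_le_mul_of_nonneg_left h6 hC.le) hD0]
  have h10 : 2 * (γ - ε) ≤ D * (3 * β) := le_of_mul_le_mul_right (by nlinarith) (mul_pos hnr hC)
  nlinarith [mul_nonneg hD0 hβ.le]

end Pool.Agent.GE
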