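import Pool.Agent.Lib.MP_a01f70_lc.GT.MW
import Pool.Agent.Lib.MP_a01f70_lc.GT.EM1

/-! Moves in the global model. -/

noncomputable section

namespace Pool.Agent.GT.Fr
open Finset Filter Pool.Agent.GK

variable {F : Fr} {d : ℕ → ℕ}

/-- no positive integer kills `e` -/
def NI (F : Fr) (e : F.R) : Prop := ∀ a : ℕ, 0 < a → (a : F.R) * e ≠ 0

theorem NI.ne {e : F.R} (h : F.NI e) : e ≠ 0 := by
  simpa using h 1 one_pos

theorem NI.int {e : F.R} (h : F.NI e) {a : ℤ} (ha : (a : F.R) * e = 0) : a = 0 := by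
  by_contra h0
  refine h a.natAbs (Int.natAbs_pos.2 h0) ?_
  rcases Int.natAbs_eq a with e1 | e1
  · rw [← Int.cast_natCast, ← e1, ha]
  · rw [← Int.cast_natCast, ← neg_eq_zero, ← neg_mul, ← Int.cast_neg, ← e1, ha]

theorem NI.of_mul {e : F.R} (u : F.R) (h : F.NI (u * e)) : F.NI e := fun a ha h0 =>
  h a ha (by rw [mul_left_comm, h0, mul_zero])

theorem NI.unit_mul {e u : F.R} (hu : IsUnit u) (h : F.NI e) : F.NI (u * e) := fun a ha h0 =>
  h a ha (hu.mul_right_eq_zero.1 (by rw [← mul_left_comm, h0]))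

theorem emv_ps (P : Multiset F.G) : ∃ y : ∀ i, ZMod (2 ^ F.n i - 1),
    (F.sm P : F.R) = F.mkR y ∧ ∀ i, GE.Ps P.card P.card (y i) := by
  obtain ⟨p, h1, h2⟩ := sm_rep P
  exact ⟨_, h2, fun i => ⟨p i, (h1 i).ge, (h1 i).le, rfl⟩⟩

theorem emv_dicho {ι : Type} (S : Finset ι) (η : ι → F.B) (y : ι → ∀ i, ZMod (2 ^ F.n i - 1))
    (hy : ∀ k, (η k : F.R) = F.mkR (y k)) : ∃ s : ℕ, ∀ T : ℕ, ∀ᶠ i in F.U, ∀ k ∈ S,
      (η k ∈ F.J d ∧ Wt s (y k i * d i) ∧ Wt s (y k i)) ∨ ¬ Wt T (y k i * d i) := by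
  have e : ∀ k, (η k : F.R) * F.dR d = F.mkR fun i => y k i * d i := fun k => by
    rw [hy, dR, ← map_mul]
    rfl
  have h : ∀ k, ∃ s : ℕ, η k ∈ F.J d → ∀ᶠ i in F.U, Wt s (y k i * d i) ∧ Wt s (y k i) := fun k => by
    by_cases hη : η k ∈ F.J d
    · obtain ⟨a, ha⟩ := exists_wtB (η k)
      obtain ⟨b, hb⟩ := exists_wtB (⟨_, mem_J.1 hη⟩ : F.B)
      exact ⟨max a b, fun _ => ((hb.wt (e k)).and (ha.wt (hy k))).mono fun i hi =>
        ⟨hi.1.mono (le_max_right _ _), hi.2.mono (le_max_left _ _)⟩⟩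
    · exact ⟨0, fun h => absurd h hη⟩
  choose s hs using h
  refine ⟨S.sup s, fun T => (eventually_all_finset S).2 fun k hk => ?_⟩
  by_cases h : η k ∈ F.J d
  · exact (hs k h).mono fun i hi => Or.inl ⟨h, hi.1.mono (le_sup hk), hi.2.mono (le_sup hk)⟩
  · exact (not_wt (fun h' => h (mem_J.2 (e k ▸ h'))) T).mono fun i hi => Or.inr hi

/-- The move: `p` is any element of bounded weight (its negative part is prepaid). -/
theorem move (hd : ∀ i, Dn (F.n i) (d i)) {J : Type} [Fintype J] {γ : J → F.G}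
    (hγ : Function.Injective γ) {θ : J → ℝ} (hθ : ∀ j, 0 < θ j ∧ θ j < 1 / 2)
    {q Q P : Multiset F.G} {p : F.B} (hq : q ≠ 0) (hc : Q.card + P.card < Fintype.card J)
    (hs : F.Small (F.dR d * F.sm q - p)) (hni : F.NI (F.dR d * F.sm q - p)) (h : F.R)
    (hrel : F.dR d * F.sm Q - (∑ j, F.mn (γ j) - F.sm P : F.B) = h * (F.dR d * F.sm q - p))
    (hL : ∀ ν : J → ℤ, ∑ j, ν j • F.mn (-γ j) ∈ F.J d → ∃ z : ℤ, ∑ j, ν j * θ j = z) :
    False := by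
  classical
  obtain ⟨k, hk⟩ := exists_wtB p
  obtain ⟨M, hM⟩ := GE.fin_main2 θ hθ (q.card + k)
  obtain ⟨s, h1⟩ := emv_dicho (d := d) (Fintype.piFinset fun _ : J => Icc (-M : ℤ) M)
    (fun ν => ∑ j, ν j • F.mn (-γ j))
    (fun ν i => ∑ j, (ν j : ZMod (2 ^ F.n i - 1)) * 2 ^ (F.og (-γ j) i).val) fun ν => by
      have e : (fun i => ∑ j, (ν j : ZMod (2 ^ F.n i - 1)) * 2 ^ (F.og (-γ j) i).val) =
          ∑ j, ν j • fun i => (2 : ZMod (2 ^ F.n i - 1)) ^ (F.og (-γ j) i).val := by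
        funext i
        simp
      rw [e, map_sum, AddSubmonoidClass.coe_finsetSum]
      exact sum_congr rfl fun j _ => by rw [map_zsmul]; rfl
  obtain ⟨T, t, n₀, ht, hM⟩ := hM s
  obtain ⟨s', h2⟩ := emv_dicho (d := d) ((Icc (-M : ℤ) M).erase 0) (fun a => (a : F.B))
    (fun a i => (a : ZMod (2 ^ F.n i - 1))) fun a => (map_intCast F.mkR a).symm
  have h3 : ∀ᶠ i in F.U, ∀ j j', j ≠ j' → F.og (-γ j) i ≠ F.og (-γ j') i :=
    eventually_all.2 fun j => eventually_all.2 fun j' => by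
      by_cases h : j = j'
      · exact Eventually.of_forall fun i h' => absurd h h'
      · refine (Ultrafilter.eventually_not.2 fun e => h (hγ (neg_injective ?_))).mono fun i hi _ => hi
        rw [← F.mkG_og (-γ j), ← F.mkG_og (-γ j')]
        exact F.mkG_eq.2 e
  obtain ⟨yq, e1, a1⟩ := emv_ps q
  obtain ⟨yQ, e2, a2⟩ := emv_ps Q
  obtain ⟨yP, e3, a3⟩ := emv_ps P
  obtain ⟨yp, e4⟩ := F.mkR_surj p
  obtain ⟨yh, rfl⟩ := F.mkR_surj h
  obtain ⟨g, a4, a5⟩ := hs.pow ht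
  have e5 : ((∑ j, F.mn (γ j) : F.B) : F.R) =
      F.mkR (∑ j, fun i => (2 : ZMod (2 ^ F.n i - 1)) ^ (-F.og (-γ j) i).val) := by
    rw [map_sum, AddSubmonoidClass.coe_finsetSum]
    refine sum_congr rfl fun j _ => ?_
    have := F.mR_mk (-F.og (-γ j))
    rw [map_neg, F.mkG_og, neg_neg] at this
    exact this
  have a6 := hk.wt e4.symm
  rw [AddSubgroupClass.coe_sub, e1, e2, e3, e5, ← e4, dR, ← map_mul, ← map_mul, ← map_sub, ← map_sub,
    ← map_sub, ← map_mul, F.mkR_eq] at hrel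
  rw [e1, ← e4, dR, dR, ← map_mul, ← map_sub, ← map_mul, ← map_zero F.mkR, F.mkR_eq] at a5
  obtain ⟨i, ⟨⟨⟨⟨⟨⟨⟨b1, b2⟩, b3⟩, b4⟩, b5⟩, b6⟩, b7⟩, b8⟩⟩ :=
    ((((((((h1 T).and (h2 T)).and h3).and (F.big n₀)).and a4).and a5).and a6).and hrel).exists
  have hn := F.two i
  have hp : 2 ≤ 2 ^ F.n i := le_trans hn Nat.lt_two_pow_self.le
  have : NeZero (F.n i) := ⟨by omega⟩
  have : NeZero (2 ^ F.n i - 1) := ⟨by omega⟩
  refine hM (F.n i) (2 ^ F.n i - 1) (d i) b4 (by omega) (hd i) (fun j => F.og (-γ j) i)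
    (fun j j' h => by_contra fun hj => b3 j j' hj h) (fun ν hν => ?_) (fun a h0 ha => ?_) _ _ (g i)
    (yQ i) (yP i) (yq i) (yp i) (yh i) hc ((a2 i).mono (Nat.zero_le _) le_rfl)
    ((a3 i).mono (Nat.zero_le _) le_rfl)
    ((a1 i).mono (Multiset.card_pos.2 hq) (Nat.le_add_right _ _))
    (b7.mono (Nat.le_add_left _ _)) ?_ b5.1 b5.2 b6
  · exact (b1 ν (Fintype.mem_piFinset.2 fun j => mem_Icc.2 (abs_le.1 (hν j)))).imp
      (fun h => ⟨hL ν h.1, h.2⟩) id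
  · refine (b2 a (mem_erase.2 ⟨h0, mem_Icc.2 (abs_le.1 ha)⟩)).resolve_left fun h => h0 ?_
    exact hni.int (kill hs h.1)
  · simpa [Pool.Agent.Lib.MP_a01f70_lc.BA.pw] using b8

end Pool.Agent.GT.Fr
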