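import Pool.Agent.Lib.MP_a01f70_lc.GT.MDefs
import Pool.Agent.Lib.MP_a01f70_lc.GK.Avg

/-! The global model: characters separate, non zero divisors. -/

noncomputable section

namespace Pool.Agent.GT.Fr
open Finset Filter Topology Pool.Agent.GK

variable {F : Fr}

open Classical in
theorem chi_coeff (θ : F.Ch) (s : Finset F.G) (c : F.G → ℤ) (γ₀ : F.G) :
    (F.chi θ (∑ γ ∈ s, c γ • F.mn γ)).coeff (γ₀ : F.V) =
      ∑ γ ∈ s with γ - γ₀ ∈ F.G00, c γ * F.xv θ γ := by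
  rw [map_sum, sum_filter, AddMonoidAlgebra.coeff_sum, Finsupp.finsetSum_apply]
  refine sum_congr rfl fun γ _ => ?_
  rw [map_zsmul, chi_mn, AddMonoidAlgebra.smul_single, AddMonoidAlgebra.coeff_single,
    Finsupp.single_apply, zsmul_eq_mul]
  exact if_congr QuotientAddGroup.eq_iff_sub_mem rfl rfl

open Classical in
theorem chi_eq_zero {θ : F.Ch} {s : Finset F.G} {c : F.G → ℤ} :
    F.chi θ (∑ γ ∈ s, c γ • F.mn γ) = 0 ↔
      ∀ γ₀ ∈ s, ∑ γ ∈ s with γ - γ₀ ∈ F.G00, c γ * F.xv θ γ = 0 := by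
  refine ⟨fun h γ₀ _ => by rw [← chi_coeff, h]; rfl, fun h => ?_⟩
  ext v
  obtain ⟨γ₀, rfl⟩ := QuotientAddGroup.mk_surjective v
  rw [chi_coeff]
  rcases (s.filter fun γ => γ - γ₀ ∈ F.G00).eq_empty_or_nonempty with e | ⟨γ₁, e⟩
  · rw [e]
    rfl
  · rw [mem_filter] at e
    refine Eq.trans (sum_congr (filter_congr fun γ _ => ?_) fun _ _ => rfl) (h γ₁ e.1)
    rw [← sub_add_sub_cancel γ γ₁ γ₀]
    exact F.G00.add_mem_cancel_right e.2

/-- `X θ` is `chi θ` followed by the augmentation -/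
theorem X_eq_zero {θ : F.Ch} {x : F.B} (h : F.chi θ x = 0) : F.X θ x = 0 := by
  have := DFunLike.congr_fun (F.B_ext (Z := (F.X θ).toAddMonoidHom)
    (Z' := ((Finsupp.liftAddHom fun _ => AddMonoidHom.id ℂ).comp
      AddMonoidAlgebra.coeffAddEquiv.toAddMonoidHom).comp (F.chi θ).toAddMonoidHom)
    fun γ => by simp [X_mn, chi_mn]) x
  simpa [h] using this

theorem B00_induction {q : F.B → Prop} (h0 : q 0) (hm : ∀ γ ∈ F.G00, q (F.mn γ))
    (ha : ∀ x y, q x → q y → q (x + y)) (hn : ∀ x, q x → q (-x)) {p : F.B} (h : p ∈ F.B00) :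
    q p := by
  replace h := Subring.mem_closure_iff.1 h
  induction h using AddSubgroup.closure_induction with
  | mem y hy =>
    obtain ⟨γ, h1, rfl⟩ : y ∈ F.mn '' F.G00 := by
      induction hy using Submonoid.closure_induction with
      | mem y hy => exact hy
      | one => exact ⟨0, zero_mem _, F.mn_zero⟩
      | mul y z _ _ a b =>
        obtain ⟨γ, h1, rfl⟩ := a
        obtain ⟨γ', h2, rfl⟩ := b
        exact ⟨_, add_mem h1 h2, F.mn_add _ _⟩
    exact hm γ h1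
  | zero => exact h0
  | add y z _ _ a b => exact ha _ _ a b
  | neg y _ a => exact hn _ a

theorem chi_B00 (θ : F.Ch) {p : F.B} (h : p ∈ F.B00) :
    F.chi θ p = AddMonoidAlgebra.single 0 (F.X θ p) := by
  refine B00_induction (q := fun p => F.chi θ p = AddMonoidAlgebra.single 0 (F.X θ p)) (by simp)
    (fun γ hγ => ?_) (fun x y a b => ?_) (fun x a => ?_) h
  · rw [chi_mn, X_mn, (QuotientAddGroup.eq_zero_iff _).2 hγ]
  · rw [map_add, map_add, a, b, AddMonoidAlgebra.single_add]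
  · rw [map_neg, map_neg, a, AddMonoidAlgebra.single_neg]

theorem MX_co {p : F.B} (h : p ∈ F.B00) {γ : F.G} (hγ : γ ∉ F.G00) : F.co (F.mn γ * p) = 0 := by
  refine B00_induction (q := fun p => F.co (F.mn γ * p) = 0) (by simp)
    (fun δ hδ => by_contra fun e => ?_) (fun x y a b => ?_) (fun x a => ?_) h
  · obtain ⟨j, rfl⟩ := F.MB_line e
    exact hγ (add_mem (neg_mem hδ) (zsmul_mem F.σ_mem_G00 j))
  · rw [mul_add, map_add, a, b, add_zero]
  · rw [mul_neg, map_neg, a, neg_zero]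

theorem mem_B00 {p : F.B} : p ∈ F.B00 ↔
    ∃ (s : Finset F.G) (c : F.G → ℤ), (∀ γ ∈ s, γ ∈ F.G00) ∧ p = ∑ γ ∈ s, c γ • F.mn γ := by
  classical
  refine ⟨fun h => ?_, fun ⟨s, c, h1, h2⟩ => h2 ▸ sum_mem fun γ hγ =>
    zsmul_mem (Subring.subset_closure (Set.mem_image_of_mem _ (h1 γ hγ))) _⟩
  obtain ⟨s, c, h1, h2⟩ := F.exists_sum_lines p
  refine ⟨s.filter (· ∈ F.G00), c, fun γ hγ => (mem_filter.1 hγ).2,
    h2.trans (sum_filter_of_ne fun γ hγ e => by_contra fun e' => e ?_).symm⟩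
  have := MX_co h (γ := -γ) fun a => e' (neg_mem_iff.1 a)
  rw [h2, F.co_sum_lines c h1 hγ, Int.cast_eq_zero] at this
  rw [this, zero_smul]

theorem co_B00 {p : F.B} (h : p ∈ F.B00) {γ : F.G} (hγ : F.co (F.mn γ * p) ≠ 0) : γ ∈ F.G00 := by
  exact by_contra fun e => hγ (MX_co h e)

/-- `exists_sum_lines`, `exists_avg` for the group `F.G ⧸ zmultiples σ` and the differences
`γ - γ₀`: `∑ i, ee (-θ i γ₀) * X (θ i) x = card * c γ₀ * 2 ^ ht γ₀`. -/
theorem sep {x : F.B} (h : x ≠ 0) : ∃ θ : F.Ch, F.X θ x ≠ 0 := by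
  classical
  obtain ⟨s, c, h1, rfl⟩ := F.exists_sum_lines x
  obtain ⟨γ₀, h2, h3⟩ := exists_ne_zero_of_sum_ne_zero h
  obtain ⟨ι, _, _, t, ht⟩ := exists_avg
    (s.image fun γ => ((γ - γ₀ : F.G) : F.G ⧸ AddSubgroup.zmultiples F.σ))
  by_contra hc
  push Not at hc
  let θ : ι → F.Ch := fun i => ⟨(t i).comp (QuotientAddGroup.mk' _), by
    rw [AddMonoidHom.comp_apply, QuotientAddGroup.mk'_apply,
      (QuotientAddGroup.eq_zero_iff _).2 (AddSubgroup.mem_zmultiples _), map_zero]⟩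
  have h4 : ∑ i, ee ((θ i).1 (-γ₀)) * F.X (θ i) (∑ γ ∈ s, c γ • F.mn γ) =
      ∑ γ ∈ s, c γ * ((2 : ℝ) ^ F.ht γ : ℝ) *
        ∑ i, (fourier 1 (t i ((γ - γ₀ : F.G) : F.G ⧸ AddSubgroup.zmultiples F.σ)) : ℂ) := by
    simp only [map_sum, mul_sum, map_zsmul, X_mn, xv]
    rw [sum_comm]
    refine sum_congr rfl fun γ _ => sum_congr rfl fun i _ => ?_
    have : (fourier 1 (t i ((γ - γ₀ : F.G) : F.G ⧸ AddSubgroup.zmultiples F.σ)) : ℂ) =
        ee ((θ i).1 (-γ₀ + γ)) := by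
      rw [fourier_one, neg_add_eq_sub]
      rfl
    rw [this, map_add, ee_add, zsmul_eq_mul]
    ring
  rw [sum_eq_zero fun i _ => by rw [hc, mul_zero], sum_eq_single γ₀ (fun γ hγ e => by
    rw [ht _ (mem_image_of_mem _ hγ), if_neg fun e' => e ?_, mul_zero]
    obtain ⟨j, hj⟩ := (QuotientAddGroup.eq_zero_iff _).1 e'
    exact h1 γ hγ γ₀ h2 j (by simp [hj])) fun e => absurd h2 e, ht _ (mem_image_of_mem _ h2),
    if_pos (by simp)] at h4
  exact mul_ne_zero (mul_ne_zero (Int.cast_ne_zero.2 (left_ne_zero_of_smul h3))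
    (Complex.ofReal_ne_zero.2 (by positivity))) (Nat.cast_ne_zero.2 Fintype.card_ne_zero) h4.symm

theorem nzd_of_chi {f : F.B} (h : ∀ θ : F.Ch, F.chi θ f ≠ 0) : f ∈ nonZeroDivisors F.B := by
  refine mem_nonZeroDivisors_iff_left.2 fun g hg => by_contra fun h0 => ?_
  obtain ⟨θ, hθ⟩ := sep h0
  exact mul_ne_zero (h θ) (fun e => hθ (X_eq_zero e)) (by rw [← map_mul, hg, map_zero])

/-- `p` is integral over `ℤ` after multiplication by a power of two
(`mn γ ^ M = 2 ^ e`); a monic equation of least degree has a nonzero constant term -/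
theorem dvd_int {p : F.B} (h : p ∈ F.B00) (h0 : p ∈ nonZeroDivisors F.B) :
    ∃ (u : F.B) (a : ℕ), u ∈ F.B00 ∧ 0 < a ∧ p * u = a := by
  have h2 : ∀ k : ℕ, IsIntegral ℤ ((2 : F.B) ^ k) := fun k => by
    simpa using isIntegral_algebraMap (R := ℤ) (A := F.B) (x := 2 ^ k)
  obtain ⟨H, hH⟩ : ∃ H : ℕ, IsIntegral ℤ (2 ^ H * p) := by
    refine B00_induction (q := fun p => ∃ H : ℕ, IsIntegral ℤ (2 ^ H * p))
      ⟨0, by simpa using isIntegral_zero⟩ (fun γ ⟨M, e, hM, a⟩ => ⟨e.natAbs, .of_pow hM ?_⟩)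
      (fun x y ⟨H, a⟩ ⟨H', b⟩ => ⟨H + H', ?_⟩) (fun x ⟨H, a⟩ => ⟨H, by simpa using a.neg⟩) h
    · obtain ⟨k, hk⟩ := Int.eq_ofNat_of_zero_le (a := M * e.natAbs + e) (by
        have : (e.natAbs : ℤ) ≤ M * e.natAbs := by exact_mod_cast Nat.le_mul_of_pos_left _ hM
        omega)
      rw [← mn_σ, ← mn_nsmul, ← mn_add, ← mn_nsmul, smul_add, a, smul_smul, ← natCast_zsmul,
        ← add_smul, Nat.cast_mul, hk, natCast_zsmul, mn_nsmul, mn_σ]
      exact h2 k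
    · rw [show 2 ^ (H + H') * (x + y) = 2 ^ H' * (2 ^ H * x) + 2 ^ H * (2 ^ H' * y) by ring]
      exact ((h2 H').mul a).add ((h2 H).mul b)
  have h3 : (2 : F.B) ^ H ∈ F.B00 := pow_mem (ofNat_mem _ 2) H
  obtain ⟨r, hr, u, hu⟩ := IsAlgebraic.exists_nonzero_dvd (R := ℤ)
    (s := (⟨2 ^ H * p, mul_mem h3 h⟩ : F.B00))
    ((isIntegral_algHom_iff F.B00.subtype.toIntAlgHom Subtype.val_injective).1 hH).isAlgebraic
    (mem_nonZeroDivisors_iff_left.2 fun x hx => Subtype.ext (mem_nonZeroDivisors_iff_left.1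
      (mul_mem (pow_mem (F.mn_σ ▸ (F.isUnit_mn _).mem_nonZeroDivisors) H) h0) _
      (congrArg Subtype.val hx)))
  have h4 : (r : F.B) = 2 ^ H * p * u := by simpa using congrArg Subtype.val hu
  refine ⟨r * (2 ^ H * u), (r * r).natAbs, mul_mem (intCast_mem _ r) (mul_mem h3 u.2),
    Int.natAbs_pos.2 (mul_ne_zero hr hr), ?_⟩
  rw [← Int.cast_natCast, Int.natAbs_of_nonneg (mul_self_nonneg r), Int.cast_mul]
  linear_combination -(r : F.B) * h4

end Pool.Agent.GT.Fr
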