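import Pool.Agent.Lib.MP_a01f70_lc.GT.MW
import Pool.Agent.Lib.MP_a01f70_lc.GT.MX

/-! Divisibility by a binomial, read through complex characters. -/

noncomputable section

namespace Pool.Agent.GT.Fr
open Finset Pool.Agent.GK

variable {F : Fr} {α β : F.G} {x y : ℤ}

theorem eq1_phi (θ : F.Ch) (o : F.V →+ ℝ) (z : ℂ) :
    ∃ φ : F.B →+* ℂ, ∀ γ, φ (F.mn γ) = F.xv θ γ * Complex.exp (o γ * z) := by
  refine F.exists_ringHom _ (by simp [F.xv_zero]) (fun γ γ' => ?_) ?_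
  · rw [F.xv_add, QuotientAddGroup.mk_add, map_add, Complex.ofReal_add, add_mul, Complex.exp_add]
    ring
  · rw [F.xv_σ, (QuotientAddGroup.eq_zero_iff _).2 F.σ_mem_G00]
    simp

/-- an element supported on `G00` and divisible by `1 + β` vanishes -/
theorem eq1_zero (hβ : β ∉ F.G00) {w : F.B} (hw : w ∈ F.B00) (h : 1 + F.mn β ∣ w) : w = 0 := by
  classical
  by_contra h0
  obtain ⟨θ, hθ⟩ := sep h0
  obtain ⟨o, ho⟩ := exists_ord F.V_tf {0, (β : F.V)}
  have h1 : (o β : ℂ) ≠ 0 := fun e => hβ ((QuotientAddGroup.eq_zero_iff _).1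
    (ho (by simp) (by simp) ((Complex.ofReal_eq_zero.1 e).trans (map_zero o).symm)))
  obtain ⟨φ, hφ⟩ := eq1_phi θ o (Complex.log (-(F.xv θ β)⁻¹) / o β)
  have h2 : φ (F.mn β) = -1 := by
    rw [hφ, mul_div_cancel₀ _ h1, Complex.exp_log (neg_ne_zero.2 (inv_ne_zero (F.xv_ne θ β))),
      mul_neg, mul_inv_cancel₀ (F.xv_ne θ β)]
  have h3 : φ w = F.X θ w := by
    refine RingHom.eqOn_set_closure ?_ hw
    rintro _ ⟨γ, hγ, rfl⟩
    rw [hφ, F.X_mn, (QuotientAddGroup.eq_zero_iff _).2 hγ]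
    simp
  obtain ⟨u, rfl⟩ := h
  rw [← h3, map_mul, map_add, map_one, h2, add_neg_cancel, zero_mul] at hθ
  exact hθ rfl

theorem isUnit_one_add (γ : F.G) : IsUnit ((1 + F.mn γ : F.B) : F.R) := by
  have := isUnit_binom (0 : F.G) γ
  rwa [F.mn_zero] at this

theorem eq1_cancel {w : F.B} (h : w * (1 + F.mn α) = 0) : w = 0 :=
  Subtype.ext ((isUnit_one_add α).mul_left_eq_zero.1 (congrArg Subtype.val h))

theorem mn_mem_B00 (h : α ∈ F.G00) : F.mn α ∈ F.B00 := Subring.subset_closure ⟨α, h, rfl⟩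

theorem xv_triv (γ : F.G) : F.xv ⟨0, rfl⟩ γ = (((2 : ℝ) ^ F.ht γ : ℝ) : ℂ) := by
  simp [xv, ee_zero]

theorem eq1_ht (h : x • F.mn α + y • F.mn β = 0) :
    x * (2 : ℝ) ^ F.ht α + y * (2 : ℝ) ^ F.ht β = 0 := by
  have h1 := congrArg (F.X ⟨0, rfl⟩) h
  rw [map_add, map_zsmul, map_zsmul, F.X_mn, F.X_mn, xv_triv, xv_triv, map_zero, zsmul_eq_mul,
    zsmul_eq_mul] at h1
  exact_mod_cast h1

theorem rho_gen (hβ : β ∉ F.G00) (hα : ∀ c : ℤ, (α : F.V) ≠ c • (β : F.V))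
    (h : 1 + F.mn β ∣ (x • F.mn α + y • F.mn β) * (1 + F.mn α)) : x = 0 ∧ y = 0 := by
  obtain ⟨o, h1, h2⟩ := exists_ord_ne F.V_tf
    (fun e => hβ ((QuotientAddGroup.eq_zero_iff _).1 e)) hα
  obtain ⟨φ, hφ⟩ := eq1_phi ⟨0, rfl⟩ o
    ((-Real.log ((2 : ℝ) ^ F.ht β) : ℝ) + Real.pi * Complex.I)
  have e3 : ∀ γ, φ (F.mn γ) =
      (((2 : ℝ) ^ F.ht γ * Real.exp (-(o γ * Real.log ((2 : ℝ) ^ F.ht β))) : ℝ) : ℂ) *
        Complex.exp ((o γ * Real.pi : ℝ) * Complex.I) := fun γ => by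
    rw [hφ, xv_triv, mul_add, Complex.exp_add]
    simp only [Complex.ofReal_mul, Complex.ofReal_exp, Complex.ofReal_neg, mul_neg, mul_assoc]
  have hp : ∀ γ, 0 < (2 : ℝ) ^ F.ht γ := fun γ => by positivity
  have e1 : φ (F.mn β) = -1 := by
    rw [e3, h1, one_mul, one_mul, Real.exp_neg, Real.exp_log (hp β), mul_inv_cancel₀ (hp β).ne',
      Complex.exp_pi_mul_I, Complex.ofReal_one, one_mul]
  have him : (φ (F.mn α)).im ≠ 0 := by
    rw [e3, Complex.im_ofReal_mul, Complex.exp_ofReal_mul_I_im]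
    refine mul_ne_zero (mul_pos (hp α) (Real.exp_pos _)).ne' fun e => ?_
    obtain ⟨n, hn⟩ := Real.sin_eq_zero_iff.1 e
    exact h2 n (mul_right_cancel₀ Real.pi_ne_zero hn).symm
  obtain ⟨u, hu⟩ := h
  have h3 := congrArg φ hu
  simp only [map_mul, map_add, map_intCast, map_one, e1, zsmul_eq_mul, add_neg_cancel,
    zero_mul] at h3
  have h4 := (mul_eq_zero.1 h3).resolve_right fun e => him (by simpa using congrArg Complex.im e)
  obtain rfl : x = 0 := by simpa [him] using congrArg Complex.im h4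
  simpa using h4

theorem eq1_sub (hα : α ≠ 0) (h : (x • F.mn α + y • 1) * (1 - F.mn α) = 0) :
    x • F.mn α + y • 1 = 0 := by
  by_cases h1 : ∃ j : ℤ, α = j • F.σ
  · obtain ⟨j, rfl⟩ := h1
    refine F.eq_zero_of_co fun γ => ?_
    generalize x • F.mn (j • F.σ) + y • 1 = w at h ⊢
    have h2 : F.mn (j • F.σ) * (F.mn γ * w) = F.mn γ * w := by linear_combination -F.mn γ * h
    have h3 := F.co_σ_mul j (F.mn γ * w)
    rw [h2] at h3
    by_contra h4
    have h5 : (2 : ℝ) ^ j = 1 := mul_right_cancel₀ h4 (by rw [one_mul, ← h3])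
    rw [zpow_eq_one_iff_right₀ (by norm_num) (by norm_num)] at h5
    exact hα (by rw [h5, zero_smul])
  have h2 : F.co (F.mn α) = 0 := F.co_mn_of_ne fun j e => h1 ⟨j, e⟩
  have h3 : F.co (F.mn (-α)) = 0 := F.co_mn_of_ne fun j e =>
    h1 ⟨-j, by rw [neg_smul, ← e, neg_neg]⟩
  have h4 : x • (1 : F.B) - x • F.mn α + y • F.mn (-α) - y • 1 = 0 := by
    simp only [zsmul_eq_mul] at h ⊢
    linear_combination F.mn (-α) * h - (x - x * F.mn α - y) * F.mn_mul_neg α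
  have h5 := congrArg F.co h4
  simp only [map_sub, map_add, map_zsmul, h2, h3, F.co_one, map_zero, smul_zero] at h5
  obtain rfl : x = y := by simpa [sub_eq_zero] using h5
  have h6 : x • (1 : F.B) - x • F.mn α = 0 := eq1_cancel (α := α) (by
    simp only [zsmul_eq_mul] at h ⊢
    linear_combination h)
  have h7 := congrArg F.co h6
  simp only [map_sub, map_zsmul, h2, F.co_one, map_zero, smul_zero] at h7
  obtain rfl : x = 0 := by simpa using h7
  simp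

theorem rho_same (hβ : β ∉ F.G00) (hα : (α : F.V) = β) (hne : α ≠ β)
    (h : 1 + F.mn β ∣ (x • F.mn α + y • F.mn β) * (1 + F.mn α)) :
    x • F.mn α + y • F.mn β = 0 := by
  obtain ⟨δ, rfl⟩ : ∃ δ, α = β + δ := ⟨α - β, by abel⟩
  have h1 : δ ∈ F.G00 := by simpa using hα
  have h2 := mn_mem_B00 h1
  have h3 := eq1_sub (x := x) (y := y) (α := δ) (by simpa using hne) (eq1_zero hβ
    (mul_mem (add_mem (zsmul_mem h2 _) (zsmul_mem (one_mem _) _)) (sub_mem (one_mem _) h2)) (by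
      obtain ⟨u, hu⟩ := h
      refine ⟨(x • F.mn δ + y • 1) * (1 + F.mn β * F.mn δ - F.mn δ) - u, ?_⟩
      simp only [zsmul_eq_mul, F.mn_add] at hu ⊢
      linear_combination -hu))
  simp only [zsmul_eq_mul, F.mn_add] at h3 ⊢
  linear_combination F.mn β * h3

theorem rho_fin (hβ : β ∉ F.G00) (hα : α ∈ F.G00)
    (h : 1 + F.mn β ∣ (x • F.mn α + y • 1) * (1 + F.mn α)) : x • F.mn α + y • 1 = 0 :=
  have h2 := mn_mem_B00 hα
  eq1_cancel (eq1_zero hβ
    (mul_mem (add_mem (zsmul_mem h2 _) (zsmul_mem (one_mem _) _)) (add_mem (one_mem _) h2)) h)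

end Pool.Agent.GT.Fr
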