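import Pool.Agent.Lib.MP_a01f70_lc.GT.EMv
import Pool.Agent.Lib.MP_a01f70_lc.GT.EQ1
import Pool.Agent.Lib.MP_a01f70_lc.GK.EQa

/-! Moves for quotients of binomials in the global model. -/

noncomputable section

namespace Pool.Agent.GT.Fr
open Finset Pool.Agent.GK

variable {F : Fr} {d : ℕ → ℕ} {γ α β : F.G}

/-- the error term `d q - p` -/
abbrev er (d : ℕ → ℕ) (q p : F.B) : F.R := F.dR d * q - p

theorem two_dim {e : F.R} (hni : F.NI e) (α : F.G) :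
    ∃ s s' : ℝ, (0 < s ∧ s < 1 / 2) ∧ (0 < s' ∧ s' < 1 / 2) ∧ ∀ a b : ℤ,
      ((a • F.mn α + b • 1 : F.B) : F.R) * e = 0 → ∃ z : ℤ, a * s + b * s' = z := by
  let f : ℤ × ℤ →+ F.R := AddMonoidHom.mk' (fun z => (z.1 * (F.mn α : F.R) + z.2) * e) fun a b => by
    simp only [Prod.fst_add, Prod.snd_add, Int.cast_add]
    ring
  have hS : ∀ a b : ℤ, (a, b) ∈ f.ker ↔ ((a : F.R) * (F.mn α : F.R) + b) * e = 0 := fun _ _ => Iff.rfl
  obtain ⟨s, s', h1, h2, h3⟩ := exists_two f.ker (fun a ha => by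
      rw [hS, Int.cast_zero, add_zero, mul_comm (a : F.R), mul_assoc] at ha
      exact hni.int ((isUnit_coe_mn α).mul_right_eq_zero.1 ha))
    (fun b hb => hni.int (by simpa [hS] using hb))
    (fun h => hni.ne ((isUnit_one_add α).mul_right_eq_zero.1 (by simpa [hS, add_comm] using h)))
  exact ⟨s, s', h1, h2, fun a b h => h3 a b ((hS a b).2 (by simpa using h))⟩

theorem two_sites (hd : ∀ i, Dn (F.n i) (d i)) (hα : α ≠ 0)
    (hs : F.Small (er d 1 (F.mn γ * (1 + F.mn α)))) (hni : F.NI (er d 1 (F.mn γ * (1 + F.mn α)))) :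
    False := by
  obtain ⟨s, s', h1, h2, h3⟩ := two_dim hni α
  have eq : F.sm {0} = 1 := by rw [F.sm_single, F.mn_zero]
  refine move hd (J := Fin 2) (γ := ![γ, γ + α]) (θ := ![s, s']) (q := {0})
    (p := F.mn γ * (1 + F.mn α)) (Q := {0}) (P := 0) ?_ ?_ (by simp) (by simp) (by rwa [eq])
    (by rwa [eq]) 1 ?_ ?_
  · intro a b hab
    fin_cases a <;> fin_cases b <;> simp_all
  · intro j
    fin_cases j
    · exact h1
    · exact h2
  · rw [eq, F.sm_zero, one_mul, sub_zero, Fin.sum_univ_two, mul_one_add, ← F.mn_add]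
    rfl
  · intro ν hν
    have h4 := (F.J d).mul_mem_left (F.mn (γ + α)) hν
    have h5 : F.mn (γ + α) * ∑ j, ν j • F.mn (-![γ, γ + α] j) = ν 0 • F.mn α + ν 1 • 1 := by
      rw [Fin.sum_univ_two, mul_add, mul_smul_comm, mul_smul_comm, ← F.mn_add, ← F.mn_add]
      simp [F.mn_zero]
    rw [h5] at h4
    obtain ⟨z, hz⟩ := h3 _ _ (kill hs h4)
    exact ⟨z, by rw [Fin.sum_univ_two]; exact hz⟩

theorem eq2_move (hd : ∀ i, Dn (F.n i) (d i)) (h1 : α ≠ 0) (h2 : β ≠ 0) (h3 : α ≠ β)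
    (h4 : α + β ≠ 0) (hs : F.Small (er d (1 + F.mn β) (F.mn γ * (1 + F.mn α))))
    (hni : F.NI (er d (1 + F.mn β) (F.mn γ * (1 + F.mn α))))
    {θ : Fin 4 → ℝ} (hθ : ∀ j, 0 < θ j ∧ θ j < 1 / 2)
    (hL : ∀ (ν : Fin 4 → ℤ) (η : F.B),
      η = ν 0 • (F.mn α * F.mn β) + ν 1 • F.mn α + ν 2 • F.mn β + ν 3 • 1 → η ∈ F.J d →
      1 + F.mn β ∣ η * (1 + F.mn α) → ∃ z : ℤ, ∑ j, ν j * θ j = z) : False := by
  have eq : F.sm {0, β} = 1 + F.mn β := by simp [sm, F.mn_zero]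
  have eQ : F.sm {0, β + F.σ, β + β} = (1 + F.mn β) ^ 2 := by
    simp only [sm, Multiset.insert_eq_cons, Multiset.map_cons, Multiset.map_singleton,
      Multiset.sum_cons, Multiset.sum_singleton, F.mn_zero, F.mn_add, F.mn_σ]
    ring
  have h3' : β ≠ α := h3.symm
  refine move hd (J := Fin 4) (γ := ![γ, γ + β, γ + α, γ + α + β]) (θ := θ) (q := {0, β})
    (p := F.mn γ * (1 + F.mn α)) (Q := {0, β + F.σ, β + β}) (P := 0) ?_ hθ (by simp) (by simp)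
    (by rwa [eq]) (by rwa [eq]) (1 + F.mn β : F.B) ?_ ?_
  · intro a b hab
    fin_cases a <;> fin_cases b <;> simp_all [add_assoc]
  · rw [eq, eQ, F.sm_zero, Fin.sum_univ_four]
    simp only [Matrix.cons_val_zero, Matrix.cons_val_one, Matrix.cons_val, F.mn_add]
    push_cast
    ring
  · intro ν hν
    have h5 := (F.J d).mul_mem_left (F.mn (γ + α + β)) hν
    have h6 : F.mn (γ + α + β) * ∑ j, ν j • F.mn (-![γ, γ + β, γ + α, γ + α + β] j) =
        ν 0 • (F.mn α * F.mn β) + ν 1 • F.mn α + ν 2 • F.mn β + ν 3 • 1 := by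
      rw [Fin.sum_univ_four]
      simp only [mul_add, mul_smul_comm, ← F.mn_add, Matrix.cons_val_zero, Matrix.cons_val_one,
        Matrix.cons_val]
      rw [← F.mn_zero]
      congr 4 <;> abel_nf
    rw [h6] at h5
    refine hL ν _ rfl h5 ?_
    have h7 := dvd_of_J hs h5
    rw [mul_left_comm] at h7
    exact (F.isUnit_mn γ).dvd_mul_left.1 h7

theorem eq2_kill {q p K : F.B} (hs : F.Small (er d q p)) (h : (1 + F.mn β) * K ∈ F.J d) :
    (K : F.R) * er d q p = 0 := by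
  have h1 := kill hs h
  rw [Subring.coe_mul, mul_assoc] at h1
  exact (isUnit_one_add β).mul_right_eq_zero.1 h1

theorem eq2_eps {s s' a b : ℝ} (h1 : 0 < s ∧ s < 1 / 2) (h2 : 0 < s' ∧ s' < 1 / 2) (ha : 0 < a)
    (hb : 0 < b) : ∃ ε : ℝ, (0 < ε * a ∧ ε * a < 1 / 2) ∧ (0 < ε * b ∧ ε * b < 1 / 2) ∧
      (0 < s - ε * a ∧ s - ε * a < 1 / 2) ∧ (0 < s' - ε * b ∧ s' - ε * b < 1 / 2) := by
  obtain ⟨ε, hε⟩ : ∃ ε : ℝ, ε = s * s' / (a + b) := ⟨_, rfl⟩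
  have e0 : 0 < ε := hε ▸ div_pos (mul_pos h1.1 h2.1) (add_pos ha hb)
  have e1 : ε * a + ε * b = s * s' := by
    rw [← mul_add, hε, div_mul_cancel₀ _ (add_pos ha hb).ne']
  have e2 := mul_pos e0 ha
  have e3 := mul_pos e0 hb
  have e4 : s * s' < s := by nlinarith [h1.1, h2.2]
  have e5 : s * s' < s' := by nlinarith [h2.1, h1.2]
  refine ⟨ε, ⟨e2, ?_⟩, ⟨e3, ?_⟩, ⟨?_, ?_⟩, ?_, ?_⟩ <;> linarith [h1.2, h2.2]

theorem eq2_rho (hd : ∀ i, Dn (F.n i) (d i)) (h1 : α ≠ 0) (h2 : β ≠ 0) (h3 : α ≠ β)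
    (h4 : α + β ≠ 0) (hs : F.Small (er d (1 + F.mn β) (F.mn γ * (1 + F.mn α))))
    (hni : F.NI (er d (1 + F.mn β) (F.mn γ * (1 + F.mn α))))
    (hρ : ∀ x y : ℤ, 1 + F.mn β ∣ (x • F.mn α + y • F.mn β) * (1 + F.mn α) →
      x • F.mn α + y • F.mn β = 0) : False := by
  obtain ⟨s, s', a1, a2, hz⟩ := two_dim hni α
  obtain ⟨ε, b1, b2, b3, b4⟩ := eq2_eps a1 a2 (Real.rpow_pos_of_pos two_pos (F.ht α))
    (Real.rpow_pos_of_pos two_pos (F.ht β))
  refine eq2_move hd h1 h2 h3 h4 hs hni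
    (θ := ![s - ε * 2 ^ F.ht α, ε * 2 ^ F.ht α, ε * 2 ^ F.ht β, s' - ε * 2 ^ F.ht β]) ?_ ?_
  · intro j
    fin_cases j
    exacts [b3, b1, b2, b4]
  · intro ν η hη hI hdv
    have c1 : η = (1 + F.mn β) * (ν 0 • F.mn α + ν 3 • 1) +
        ((ν 1 - ν 0) • F.mn α + (ν 2 - ν 3) • F.mn β) := by
      rw [hη]
      simp only [zsmul_eq_mul]
      push_cast
      ring
    have c2 := hρ (ν 1 - ν 0) (ν 2 - ν 3) (by
      rw [c1, add_mul, mul_assoc] at hdv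
      exact (dvd_add_right (dvd_mul_right _ _)).1 hdv)
    rw [c2, add_zero] at c1
    obtain ⟨z, c3⟩ := hz (ν 0) (ν 3) (eq2_kill hs (c1 ▸ hI))
    have c4 := eq1_ht c2
    push_cast at c4
    refine ⟨z, ?_⟩
    rw [Fin.sum_univ_four]
    simp only [Matrix.cons_val_zero, Matrix.cons_val_one, Matrix.cons_val]
    linear_combination c3 + ε * c4

theorem eq2_fin (hd : ∀ i, Dn (F.n i) (d i)) (hβ : β ∉ F.G00) (hα : α ∈ F.G00) (h1 : α ≠ 0)
    (hs : F.Small (er d (1 + F.mn β) (F.mn γ * (1 + F.mn α))))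
    (hni : F.NI (er d (1 + F.mn β) (F.mn γ * (1 + F.mn α)))) : False := by
  obtain ⟨s, s', a1, a2, hz⟩ := two_dim hni α
  obtain ⟨ε, b1, b2, b3, b4⟩ := eq2_eps a1 a2 (Real.rpow_pos_of_pos two_pos (F.ht α)) one_pos
  refine eq2_move (β := β) hd h1 (fun h => hβ (h ▸ zero_mem _)) (fun h => hβ (h ▸ hα))
    (fun h => hβ (eq_neg_of_add_eq_zero_right h ▸ neg_mem hα)) hs hni
    (θ := ![s - ε * 2 ^ F.ht α, ε * 2 ^ F.ht α, s' - ε * 1, ε * 1]) ?_ ?_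
  · intro j
    fin_cases j
    exacts [b3, b1, b4, b2]
  · intro ν η hη hI hdv
    have c1 : η = (1 + F.mn β) * (ν 0 • F.mn α + ν 2 • 1) +
        ((ν 1 - ν 0) • F.mn α + (ν 3 - ν 2) • 1) := by
      rw [hη]
      simp only [zsmul_eq_mul]
      push_cast
      ring
    have c2 := rho_fin (x := ν 1 - ν 0) (y := ν 3 - ν 2) hβ hα (by
      rw [c1, add_mul, mul_assoc] at hdv
      exact (dvd_add_right (dvd_mul_right _ _)).1 hdv)
    rw [c2, add_zero] at c1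
    obtain ⟨z, c3⟩ := hz (ν 0) (ν 2) (eq2_kill hs (c1 ▸ hI))
    rw [← F.mn_zero] at c2
    have c4 := eq1_ht c2
    rw [map_zero, Real.rpow_zero] at c4
    push_cast at c4
    refine ⟨z, ?_⟩
    rw [Fin.sum_univ_four]
    simp only [Matrix.cons_val_zero, Matrix.cons_val_one, Matrix.cons_val]
    linear_combination c3 + ε * c4

theorem four_sites (hd : ∀ i, Dn (F.n i) (d i)) (hβ : β ∉ F.G00)
    (hα : (∀ c : ℤ, (α : F.V) ≠ c • (β : F.V)) ∨ ((α : F.V) = β ∧ α ≠ β) ∨ (α ∈ F.G00 ∧ α ≠ 0))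
    (hs : F.Small (er d (1 + F.mn β) (F.mn γ * (1 + F.mn α))))
    (hni : F.NI (er d (1 + F.mn β) (F.mn γ * (1 + F.mn α)))) : False := by
  have h2 : β ≠ 0 := fun h => hβ (h ▸ zero_mem _)
  rcases hα with h | ⟨h, h'⟩ | ⟨h, h'⟩
  · refine eq2_rho hd (fun e => h 0 (by rw [e, zero_smul]; rfl)) h2
      (fun e => h 1 (by rw [e, one_smul])) (fun e => h (-1) ?_) hs hni fun x y hxy => ?_
    · rw [eq_neg_of_add_eq_zero_left e, neg_smul, one_smul]
      rfl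
    · obtain ⟨rfl, rfl⟩ := rho_gen hβ h hxy
      simp
  · refine eq2_rho hd (fun e => hβ ((QuotientAddGroup.eq_zero_iff _).1 (by rw [← h, e]; rfl))) h2 h'
      (fun e => hβ ((QuotientAddGroup.eq_zero_iff _).1 (F.V_tf 2 _ two_pos ?_))) hs hni
      fun x y hxy => rho_same hβ h h' hxy
    rw [two_smul]
    nth_rewrite 1 [← h]
    rw [← QuotientAddGroup.mk_add, e]
    rfl
  · exact eq2_fin hd hβ h h' hs hni

end Pool.Agent.GT.Fr
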