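import Pool.Agent.Lib.MP_a01f70_lc.GT.ERun1
import Pool.Agent.Lib.MP_a01f70_lc.GT.EQ2
import Pool.Agent.Lib.MP_a01f70_lc.GT.Cpt

/-! A negative coordinate of the response gives a long run of digits. -/

noncomputable section

namespace Pool.Agent.GT.Fr
open Finset Pool.Agent.GK

variable {F : Fr} {d : ℕ → ℕ}

theorem sm_replicate (a : ℕ) (γ : F.G) : F.sm (Multiset.replicate a γ) = a * F.mn γ := by
  rw [sm, Multiset.map_replicate, Multiset.sum_replicate, nsmul_eq_mul]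

theorem sm_of_nonneg (s : Finset F.G) {c : F.G → ℤ} (h : ∀ γ ∈ s, 0 ≤ c γ) :
    ∃ P, ∑ γ ∈ s, c γ • F.mn γ = F.sm P := by
  refine sum_induction _ (fun x => ∃ P, x = F.sm P) ?_ ⟨0, F.sm_zero.symm⟩ fun γ hγ => ?_
  · rintro _ _ ⟨P, rfl⟩ ⟨Q, rfl⟩
    exact ⟨P + Q, (F.sm_add P Q).symm⟩
  · obtain ⟨a, ha⟩ := Int.eq_ofNat_of_zero_le (h γ hγ)
    exact ⟨_, by rw [sm_replicate a, ha, zsmul_eq_mul, Int.cast_natCast]⟩

theorem mn_add_nat (γ : F.G) (j : ℕ) : F.mn (γ + j • F.σ) = 2 ^ j * F.mn γ := by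
  rw [F.mn_add, F.mn_nsmul, F.mn_σ, mul_comm]

theorem exists_killer {e : F.R} (hni : F.NI e) :
    ∃ θ : F.Ch, ∀ η ∈ F.B00, (η : F.R) * e = 0 → F.X θ η = 0 := by
  let L : AddSubgroup F.B :=
    { carrier := {η | η ∈ F.B00 ∧ (η : F.R) * e = 0}
      zero_mem' := ⟨zero_mem _, by simp⟩
      add_mem' := fun h h' => ⟨add_mem h.1 h'.1, by
        rw [Subring.coe_add, add_mul, h.2, h'.2, add_zero]⟩
      neg_mem' := fun h => ⟨neg_mem h.1, by rw [Subring.coe_neg, neg_mul, h.2, neg_zero]⟩ }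
  rcases cpt L with ⟨θ, h⟩ | ⟨f, ⟨h1, h2⟩, h⟩
  · exact ⟨θ, fun η h1 h2 => X_eq_zero (h η ⟨h1, h2⟩)⟩
  · obtain ⟨u, a, -, h3, h4⟩ := dvd_int h1 (nzd_of_chi h)
    refine absurd ?_ (hni a h3)
    have h5 : (f : F.R) * u = a := by exact_mod_cast congrArg Subtype.val h4
    rw [← h5, mul_right_comm, h2, zero_mul]

theorem erun (hd : ∀ i, Dn (F.n i) (d i)) {a : ℕ} (ha : 0 < a) {γ : F.G} {p : F.B}
    (hp : p ∈ F.B00) (hs : F.Small (er d a (F.mn γ * p))) (hni : F.NI (er d a (F.mn γ * p))) :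
    ∃ P, p = F.sm P := by
  classical
  obtain ⟨s, c, hl, hc⟩ := F.exists_sum_lines p
  by_cases h0 : ∀ g ∈ s, 0 ≤ c g
  · exact hc ▸ sm_of_nonneg s h0
  push Not at h0
  obtain ⟨g₀, hg₀, h0⟩ := h0
  exfalso
  have hG : ∀ g ∈ s, c g ≠ 0 → -g ∈ F.G00 := fun g hg h => co_B00 hp (by
    rw [hc, F.co_sum_lines c hl hg]
    exact_mod_cast h)
  obtain ⟨θ, hθ⟩ := exists_killer hni
  set S := s.filter fun g => 0 < c g with hS
  obtain ⟨f, hf, hj⟩ := erun_f (F.xv_ne θ (-g₀)) S (fun g => F.xv θ (-g)) (fun g hg r hr => by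
    have h1 := mem_filter.1 hg
    refine xv_rat (θ := θ) (sub_mem (hG g h1.1 h1.2.ne') (hG g₀ hg₀ h0.ne)) ?_
    refine mul_right_cancel₀ (F.xv_ne θ (-g₀)) ?_
    rw [← F.xv_add, sub_add_cancel, ← hr, Rat.smul_def]) (∑ g ∈ s, (c g).natAbs)
  choose! j hj z hz using hj
  obtain ⟨P₀, hP₀⟩ := sm_of_nonneg s (c := fun g => (if 0 < c g then 2 ^ j g else 0) - c g -
      if g = g₀ then 1 else 0) fun g hg => by
    by_cases h1 : 0 < c g
    · have h2 : (c g).natAbs < 2 ^ j g := lt_of_le_of_lt ((single_le_sum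
        (f := fun g => (c g).natAbs) (fun _ _ => Nat.zero_le _) hg).trans
        (hj g (mem_filter.2 ⟨hg, h1⟩))) Nat.lt_two_pow_self
      have h3 : ((2 ^ j g : ℕ) : ℤ) = 2 ^ j g := by push_cast; rfl
      rw [if_pos h1, if_neg fun e => by rw [e] at h1; omega]
      omega
    · rw [if_neg h1]
      split_ifs with h2
      · rw [h2]
        omega
      · omega
  have e1 : F.sm P₀ = ∑ g : S, F.mn (g + j g • F.σ) - p - F.mn g₀ := by
    rw [← hP₀, hc, sum_coe_sort S fun g => F.mn (g + j g • F.σ), hS, sum_filter]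
    simp only [sub_smul, sum_sub_distrib, ite_smul, zero_smul, one_smul, sum_ite_eq', if_pos hg₀,
      mn_add_nat, zsmul_eq_mul, Int.cast_pow, Int.cast_ofNat]
  set L := a + P₀.card + 2 with hL
  let b : Fin L ⊕ S → F.G := Sum.elim (fun _ => g₀) fun g => g
  let l : Fin L ⊕ S → ℕ := Sum.elim (fun t => t) fun g => j g
  let w : Fin L ⊕ S → ℤ := Sum.elim (fun _ => 0) fun g => z g
  have hb : ∀ i, b i ∈ s ∧ c (b i) ≠ 0 := by
    rintro (t | g)
    exacts [⟨hg₀, h0.ne⟩, ⟨(mem_filter.1 g.2).1, (mem_filter.1 g.2).2.ne'⟩]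
  have e2 : ∀ i, f (F.xv θ (-(b i + l i • F.σ))) = f (F.xv θ (-b i)) / 2 ^ l i := fun i => by
    have h1 : F.xv θ (-b i) = 2 ^ l i • F.xv θ (-(b i + l i • F.σ)) := by
      rw [← F.X_mn, ← F.X_mn, ← map_nsmul, nsmul_eq_mul, Nat.cast_pow, Nat.cast_ofNat, ← mn_add_nat]
      congr 2
      abel
    rw [h1, map_nsmul, nsmul_eq_mul, Nat.cast_pow, Nat.cast_ofNat,
      mul_div_cancel_left₀ _ (by positivity)]
  have eq : F.sm (Multiset.replicate a 0) = a := by rw [sm_replicate, F.mn_zero, mul_one]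
  refine move hd (γ := fun i => γ + (b i + l i • F.σ))
    (θ := fun i => f (F.xv θ (-(b i + l i • F.σ))) + w i) (q := Multiset.replicate a 0)
    (Q := Multiset.replicate a 0) (P := (P₀ + {g₀ + L • F.σ}).map (γ + ·)) (p := F.mn γ * p)
    (fun i i' h => ?_) (fun i => ?_) (Multiset.card_pos.1 (by simpa using ha)) (by simp; omega)
    (by rwa [eq]) (by rwa [eq]) 1 ?_ fun ν hν => ?_
  · have h1 := add_left_cancel h
    have h2 : b i = b i' := hl _ (hb i).1 _ (hb i').1 ((l i' : ℤ) - l i) (by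
      rw [sub_smul, natCast_zsmul, natCast_zsmul, ← add_sub_assoc, ← h1, add_sub_cancel_right])
    rw [h2, add_right_inj, ← natCast_zsmul, ← natCast_zsmul] at h1
    have h3 : l i = l i' := by exact_mod_cast F.zsmul_σ_inj h1
    have h4 : ∀ g : S, g₀ ≠ g := fun g e => by
      have := (mem_filter.1 g.2).2
      rw [← e] at this
      omega
    rcases i with t | g <;> rcases i' with t' | g'
    · exact congrArg _ (Fin.ext h3)
    · exact absurd h2 (h4 g')
    · exact absurd h2.symm (h4 g)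
    · exact congrArg _ (Subtype.ext h2)
  · rw [e2]
    rcases i with t | g
    · have h1 : (1 : ℝ) ≤ 2 ^ (t : ℕ) := one_le_pow₀ one_le_two
      simp only [b, l, w, Sum.elim_inl, hf, Int.cast_zero, add_zero]
      exact ⟨by positivity, by rw [div_lt_iff₀ (by positivity)]; linarith⟩
    · exact hz g g.2
  · have h1 := mul_geom_sum (2 : F.B) L
    rw [one_mul, eq, ← F.mn_mul_sm, F.sm_add, F.sm_single, e1, Fintype.sum_sum_type]
    simp only [b, l, Sum.elim_inl, Sum.elim_inr, F.mn_add γ, ← mul_sum, mn_add_nat g₀, ← sum_mul,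
      Fin.sum_univ_eq_sum_range fun t => (2 : F.B) ^ t]
    congr 2
    linear_combination F.mn γ * F.mn g₀ * h1
  · have h1 := (F.J d).mul_mem_left (F.mn γ) hν
    have h2 : F.mn γ * ∑ i, ν i • F.mn (-(γ + (b i + l i • F.σ))) =
        ∑ i, ν i • F.mn (-(b i + l i • F.σ)) := by
      rw [mul_sum]
      refine sum_congr rfl fun i _ => ?_
      rw [mul_smul_comm, ← F.mn_add, neg_add γ, add_neg_cancel_left]
    rw [h2] at h1
    have h3 := congrArg f (hθ _ (sum_mem fun i _ => zsmul_mem (mn_mem_B00 (by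
      rw [neg_add]
      exact add_mem (hG _ (hb i).1 (hb i).2) (neg_mem (nsmul_mem F.σ_mem_G00 _)))) _) (kill hs h1))
    simp only [map_sum, map_zsmul, F.X_mn, map_zero] at h3
    refine ⟨∑ i, ν i * w i, ?_⟩
    simp only [mul_add, sum_add_distrib, ← zsmul_eq_mul (f _), h3]
    simp

end Pool.Agent.GT.Fr
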