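import Pool.Agent.Lib.MP_a01f70_lc.GT.Van

/-! Additive real functionals on the complex numbers that place the sites of a move. -/

noncomputable section

namespace Pool.Agent.GT
open Finset Filter Pool.Agent.GK

theorem erun_level {y : ℝ} {j₀ : ℕ} (h : 0 < y ∨ (y < -2 ^ j₀ ∧ ∀ j : ℤ, y ≠ -2 ^ j)) :
    ∃ j : ℕ, j₀ ≤ j ∧ ∃ z : ℤ, 0 < y / 2 ^ j + z ∧ y / 2 ^ j + z < 1 / 2 := by
  rcases h with h | ⟨h, h'⟩
  · obtain ⟨n, hn⟩ := pow_unbounded_of_one_lt (2 * y) (one_lt_two (α := ℝ))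
    have h1 : (2 : ℝ) ^ n ≤ 2 ^ max n j₀ := pow_le_pow_right₀ one_le_two (le_max_left _ _)
    refine ⟨max n j₀, le_max_right _ _, 0, by rw [Int.cast_zero, add_zero]; positivity, ?_⟩
    rw [Int.cast_zero, add_zero, div_lt_iff₀ (by positivity)]
    linarith
  · have h0 : (0 : ℝ) < 2 ^ j₀ := by positivity
    obtain ⟨n, h1, h2⟩ := exists_mem_Ico_zpow (show 0 < -y by linarith) (one_lt_two (α := ℝ))
    have h3 : (j₀ : ℤ) < n + 1 := (zpow_lt_zpow_iff_right₀ (one_lt_two (α := ℝ))).1 (by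
      rw [zpow_natCast]
      linarith)
    obtain ⟨j, hj⟩ := Int.eq_ofNat_of_zero_le (show 0 ≤ n + 1 by omega)
    have h4 : (2 : ℝ) ^ n < -y := lt_of_le_of_ne h1 fun e => h' n (by linarith)
    have h5 : (2 : ℝ) ^ j = 2 ^ n * 2 := by rw [← zpow_natCast, ← hj, zpow_add_one₀ two_ne_zero]
    rw [hj, zpow_natCast] at h2
    have h6 : (0 : ℝ) < 2 ^ j := by positivity
    have h7 : -1 < y / 2 ^ j := by
      rw [lt_div_iff₀ h6]
      linarith
    have h8 : y / 2 ^ j < -(1 / 2) := by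
      rw [div_lt_iff₀ h6]
      linarith
    exact ⟨j, by omega, 1, by push_cast; linarith, by push_cast; linarith⟩

theorem erun_f {v₀ : ℂ} (h0 : v₀ ≠ 0) {ι : Type} (s : Finset ι) (v : ι → ℂ)
    (hpos : ∀ l ∈ s, ∀ r : ℚ, r • v₀ = v l → 0 < r) (j₀ : ℕ) :
    ∃ f : ℂ →+ ℝ, f v₀ = 1 / 4 ∧ ∀ l ∈ s, ∃ j : ℕ, j₀ ≤ j ∧ ∃ z : ℤ,
      0 < f (v l) / 2 ^ j + z ∧ f (v l) / 2 ^ j + z < 1 / 2 := by
  classical
  set S := Submodule.span ℚ {v₀}
  obtain ⟨o, ho⟩ := exists_ord (Q := ℂ ⧸ S) (fun M q hM h => by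
    rw [← Nat.cast_smul_eq_nsmul ℚ, smul_eq_zero] at h
    exact h.resolve_left (Nat.cast_ne_zero.2 hM.ne')) (insert 0 (s.image fun l => S.mkQ (v l)))
  let f₀ : ℂ →+ ℝ := AddMonoidHom.mk' (fun w => (w / v₀).re / 4) fun a b => by
    rw [add_div, Complex.add_re, add_div]
  let f₁ : ℂ →+ ℝ := o.comp S.mkQ.toAddMonoidHom
  have h1 : ∀ w ∈ S, f₁ w = 0 := fun w hw => by
    change o (S.mkQ w) = 0
    rw [Submodule.mkQ_apply, (Submodule.Quotient.mk_eq_zero S).2 hw, map_zero]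
  have h2 : ∀ l ∈ s, f₁ (v l) = 0 → v l ∈ S := fun l hl e => (Submodule.Quotient.mk_eq_zero S).1
    (ho (mem_coe.2 (mem_insert_of_mem (mem_image_of_mem _ hl))) (mem_coe.2 (mem_insert_self _ _))
      (e.trans (map_zero o).symm))
  have h3 : ∀ᶠ x : ℝ in atTop, ∀ l ∈ s, f₁ (v l) ≠ 0 →
      0 < f₀ (v l) + x * f₁ (v l) ∨ f₀ (v l) + x * f₁ (v l) < -2 ^ j₀ :=
    (eventually_all_finset s).2 fun l _ => by
      rcases lt_trichotomy (f₁ (v l)) 0 with h | h | h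
      · exact ((tendsto_atBot_add_const_left _ _ (tendsto_id.atTop_mul_const_of_neg h)).eventually
          (eventually_lt_atBot _)).mono fun x hx _ => Or.inr hx
      · exact Eventually.of_forall fun x hx => absurd h hx
      · exact ((tendsto_atTop_add_const_left _ _ (tendsto_id.atTop_mul_const h)).eventually
          (eventually_gt_atTop _)).mono fun x hx _ => Or.inl hx
  obtain ⟨X, hX⟩ := eventually_atTop.1 h3
  obtain ⟨x, h4, h5⟩ := ((Set.countable_range fun p : s × ℤ =>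
    (-2 ^ p.2 - f₀ (v p.1)) / f₁ (v p.1)).dense_compl ℝ).exists_mem_open isOpen_Ioi
    (Set.nonempty_Ioi (a := X))
  refine ⟨f₀ + x • f₁, ?_, fun l hl => erun_level ?_⟩
  · rw [AddMonoidHom.add_apply, AddMonoidHom.smul_apply, h1 _ (Submodule.mem_span_singleton_self _),
      smul_zero, add_zero]
    simp [f₀, h0]
  rw [AddMonoidHom.add_apply, AddMonoidHom.smul_apply, smul_eq_mul]
  by_cases h6 : f₁ (v l) = 0
  · obtain ⟨r, hr⟩ := Submodule.mem_span_singleton.1 (h2 l hl h6)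
    have h7 : (0 : ℝ) < r := by exact_mod_cast hpos l hl r hr
    left
    rw [h6, mul_zero, add_zero, ← hr]
    simpa [f₀, Rat.smul_def, h0] using h7
  · refine (hX x (le_of_lt h5) l hl h6).imp id fun h => ⟨h, fun j e => h4 ⟨(⟨l, hl⟩, j), ?_⟩⟩
    rw [div_eq_iff h6]
    linarith

/-- a rational value of a character on `G00` is positive -/
theorem Fr.xv_rat {F : Fr} {θ : F.Ch} {δ : F.G} (h : δ ∈ F.G00) {r : ℚ} (hr : F.xv θ δ = r) :
    0 < r := by
  by_contra h0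
  have h1 : r ≠ 0 := fun e => F.xv_ne θ δ (by rw [hr, e, Rat.cast_zero])
  have h2 : r.num < 0 := Rat.num_neg.2 (lt_of_le_of_ne (not_lt.1 h0) h1)
  obtain ⟨i, a, ha, e1⟩ := Nat.exists_eq_two_pow_mul_odd (Int.natAbs_ne_zero.2 h2.ne)
  obtain ⟨k, b, hb, e2⟩ := Nat.exists_eq_two_pow_mul_odd r.den_nz
  have e3 : ∀ j : ℕ, F.xv θ (j • F.σ) = 2 ^ j := fun j => by
    induction j with
    | zero => rw [zero_smul, F.xv_zero, pow_zero]
    | succ j ih => rw [succ_nsmul, F.xv_add, ih, F.xv_σ, pow_succ]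
  have e4 : ∀ j : ℕ, j • F.σ ∈ F.G00 := fun j => nsmul_mem F.σ_mem_G00 j
  have e5 : (r.num : ℂ) = -(2 ^ i * a) := by
    have : r.num = -((2 ^ i * a : ℕ) : ℤ) := by omega
    rw [this]
    push_cast
    rfl
  have e6 : (r : ℂ) * (2 ^ k * b) = -(2 ^ i * a) := by
    rw [← e5, ← Rat.cast_intCast, ← Rat.mul_den_eq_num, e2]
    push_cast
    rfl
  have h3 := (Fr.pf (θ := θ) (a := b) (a' := -a) (γ := δ + k • F.σ) (γ' := i • F.σ)
    (Odd.natCast hb) (Odd.natCast ha).neg (by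
      rw [map_sub, map_zsmul, map_zsmul, F.chi_mn, F.chi_mn,
        (QuotientAddGroup.eq_zero_iff _).2 (add_mem h (e4 k)),
        (QuotientAddGroup.eq_zero_iff _).2 (e4 i), AddMonoidAlgebra.smul_single,
        AddMonoidAlgebra.smul_single, ← AddMonoidAlgebra.single_sub, F.xv_add, e3, e3, hr,
        AddMonoidAlgebra.single_eq_zero, zsmul_eq_mul, zsmul_eq_mul]
      push_cast
      linear_combination e6)).1
  have := hb.pos
  omega

end Pool.Agent.GT
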