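import Pool.Agent.Lib.MP_a01f70_lc.GT.KA2

/-! Almost invariant functions on a torsion group are almost constant. -/

noncomputable section

namespace Pool.Agent.GT
open Finset Pool.Agent.GK

variable {K : Type} [AddCommGroup K] {C : ℝ} {c : K → ℝ}

theorem KA_two (j₀ : ℤ) (i : ℕ) (a : ℝ) :
    2 • ((2 ^ (j₀ - (i + 1 : ℕ)) * a : ℝ) : Tc) = ((2 ^ (j₀ - i) * a : ℝ) : Tc) := by
  rw [← AddCircle.coe_nsmul, nsmul_eq_mul]
  congr 1
  have h : j₀ - i = j₀ - (i + 1 : ℕ) + 1 := by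
    push_cast
    ring
  rw [h, zpow_add_one₀ two_ne_zero]
  push_cast
  ring

theorem KA_re (d : Tc) : (ee d - 1).re ≤ 0 := by
  have h := Complex.re_le_norm (ee d)
  rw [norm_ee] at h
  rw [Complex.sub_re, Complex.one_re]
  linarith

theorem KA_half {d : Tc} (h0 : d ≠ 0) (h2 : 2 • d = 0) : (ee d - 1).re = -2 := by
  have h : ee d ^ 2 = 1 := by rw [← ee_nsmul, h2, ee_zero]
  rcases sq_eq_one_iff.1 h with h | h
  · exact absurd (ee_eq_one.1 h) h0
  · rw [h]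
    norm_num

/-- the exceptional sets of the successive levels -/
theorem Alm.levels [Infinite K] (ht : ∀ x : K, IsOfFinAddOrder x) (h : Alm C c) {j₀ : ℤ}
    (h0 : ∀ x, ((2 ^ j₀ * c x : ℝ) : Tc) = ((2 ^ j₀ * c 0 : ℝ) : Tc)) :
    ∃ E : ℕ → Finset K, E 0 = ∅ ∧ (∀ i, E i ⊆ E (i + 1)) ∧
      (∀ (i : ℕ) x y, x ∉ E i → (y ∉ E i ↔
        ((2 ^ (j₀ - i) * c y : ℝ) : Tc) = ((2 ^ (j₀ - i) * c x : ℝ) : Tc))) ∧
      ∀ i, 2 * ((E (i + 1)).card - (E i).card : ℝ) ≤ √(2 * C) := by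
  classical
  have hex : ∀ i : ℕ, ∃ t : Tc, {x | ((2 ^ (j₀ - i) * c x : ℝ) : Tc) ≠ t}.Finite := fun i => by
    induction i with
    | zero =>
      refine ⟨((2 ^ j₀ * c 0 : ℝ) : Tc), Set.finite_empty.subset fun x hx => hx ?_⟩
      rw [Nat.cast_zero, sub_zero]
      exact h0 x
    | succ i ih =>
      obtain ⟨t, hf⟩ := ih
      have e : j₀ - i = j₀ - (i + 1 : ℕ) + 1 := by
        push_cast
        ring
      rw [e] at hf
      obtain ⟨t', -, h'⟩ := h.step ht hf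
      exact ⟨t', h'⟩
  choose t hf using hex
  have hE : ∀ (i : ℕ) x, x ∉ (hf i).toFinset ↔ ((2 ^ (j₀ - i) * c x : ℝ) : Tc) = t i :=
    fun i x => by rw [Set.Finite.mem_toFinset, Set.mem_ofPred_eq, not_not]
  generalize hEE : (fun i => (hf i).toFinset) = E
  replace hE : ∀ (i : ℕ) x, x ∉ E i ↔ ((2 ^ (j₀ - i) * c x : ℝ) : Tc) = t i := hEE ▸ hE
  have ht2 : ∀ i, 2 • t (i + 1) = t i := fun i => by
    obtain ⟨x, hx⟩ := Infinite.exists_notMem_finset (E i ∪ E (i + 1))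
    rw [notMem_union] at hx
    rw [← (hE _ x).1 hx.1, ← (hE _ x).1 hx.2, KA_two]
  have hE0 : E 0 = ∅ := by
    obtain ⟨y, hy⟩ := Infinite.exists_notMem_finset (E 0)
    refine eq_empty_of_forall_notMem fun x => (hE 0 x).2 ?_
    rw [← (hE 0 y).1 hy, Nat.cast_zero, sub_zero, h0 x, h0 y]
  have hsub : ∀ i, E i ⊆ E (i + 1) := fun i x hx => by
    by_contra hx'
    exact (hE i x).2 (by rw [← KA_two, (hE _ x).1 hx', ht2]) hx
  have hd : ∀ (i : ℕ) x, 2 • (((2 ^ (j₀ - (i + 1 : ℕ)) * c x : ℝ) : Tc) - t (i + 1)) =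
      ((2 ^ (j₀ - i) * c x : ℝ) : Tc) - t i := fun i x => by rw [nsmul_sub, KA_two, ht2]
  have hF : ∀ i : ℕ, ‖∑ x ∈ E i, (ee (((2 ^ (j₀ - i) * c x : ℝ) : Tc) - t i) - 1)‖ ≤ √(2 * C) :=
    fun i => by
    induction i with
    | zero =>
      rw [hE0, sum_empty, norm_zero]
      exact Real.sqrt_nonneg _
    | succ i ih =>
      have h1 := h.recur (j := j₀ - (i + 1 : ℕ)) (t := t (i + 1)) (E (i + 1)) fun x hx => by
        by_contra hx'
        exact hx ((hE _ x).1 hx')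
      simp only [hd] at h1
      rw [← sum_subset (f := fun x => ee (((2 ^ (j₀ - i) * c x : ℝ) : Tc) - t i) - 1) (hsub i)
        fun x _ hx => by rw [(hE i x).1 hx, sub_self, ee_zero, sub_self]] at h1
      have h2 := (norm_sub_norm_le _ _).trans h1
      rw [norm_mul, Complex.norm_two] at h2
      linarith
  refine ⟨E, hE0, hsub, fun i x y hx => by rw [hE, (hE i x).1 hx], fun i => ?_⟩
  have h1 := (neg_le_abs _).trans ((Complex.abs_re_le_norm _).trans (hF (i + 1)))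
  rw [Complex.re_sum, ← sum_sdiff (hsub i)] at h1
  have h2 : ∑ x ∈ E (i + 1) \ E i,
      (ee (((2 ^ (j₀ - (i + 1 : ℕ)) * c x : ℝ) : Tc) - t (i + 1)) - 1).re =
        ∑ x ∈ E (i + 1) \ E i, (-2 : ℝ) := sum_congr rfl fun x hx => by
    rw [mem_sdiff] at hx
    refine KA_half (fun h3 => (hE _ x).2 (sub_eq_zero.1 h3) hx.1) ?_
    rw [hd, (hE i x).1 hx.2, sub_self]
  have h3 : ∑ x ∈ E i, (ee (((2 ^ (j₀ - (i + 1 : ℕ)) * c x : ℝ) : Tc) - t (i + 1)) - 1).re ≤ 0 :=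
    sum_nonpos fun x _ => KA_re _
  have h4 : (((E (i + 1) \ E i).card : ℕ) : ℝ) + (E i).card = (E (i + 1)).card := by
    exact_mod_cast card_sdiff_add_card_eq_card (hsub i)
  rw [h2, sum_const, nsmul_eq_mul] at h1
  linarith

/-- a real number all of whose halves are integers vanishes -/
theorem eq_of_levels {a b : ℝ} {j₀ : ℤ}
    (h : ∀ i : ℕ, ((2 ^ (j₀ - i) * a : ℝ) : Tc) = ((2 ^ (j₀ - i) * b : ℝ) : Tc)) : a = b := by
  obtain ⟨i, hi⟩ := pow_unbounded_of_one_lt (2 ^ j₀ * |a - b|) (one_lt_two (α := ℝ))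
  have h1 := sub_eq_zero.2 (h i)
  rw [← AddCircle.coe_sub, AddCircle.coe_eq_zero_iff] at h1
  obtain ⟨n, hn⟩ := h1
  rw [zsmul_eq_mul, mul_one, ← mul_sub] at hn
  have h2 : (0 : ℝ) < 2 ^ (j₀ - i) := zpow_pos two_pos _
  have h3 : |(n : ℝ)| < 1 := by
    rw [hn, abs_mul, abs_of_pos h2, zpow_sub₀ two_ne_zero, zpow_natCast, div_mul_eq_mul_div,
      div_lt_one (pow_pos two_pos i)]
    exact hi
  have h4 : n = 0 := Int.abs_lt_one_iff.1 (by exact_mod_cast h3)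
  rw [h4, Int.cast_zero] at hn
  exact sub_eq_zero.1 ((mul_eq_zero.1 hn.symm).resolve_left h2.ne')

/-- two points at which `c` is invariant under a large finite subgroup have the same value -/
theorem KA_main [Infinite K] (ht : ∀ x : K, IsOfFinAddOrder x) (h : Alm C c) (K₁ : AddSubgroup K)
    [Finite K₁] (hK : 6 * C + 1 + √(2 * C) < Nat.card K₁) {x y : K}
    (hx : ∀ ω ∈ K₁, c (x + ω) = c x) (hy : ∀ ω ∈ K₁, c (y + ω) = c y) : c x = c y := by
  classical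
  have hC := h.nonneg
  have hs := Real.sqrt_nonneg (2 * C)
  choose j hj using h.high
  obtain ⟨j₁, hj₁⟩ := (Set.finite_range fun ω : K₁ => j ω).bddAbove
  obtain ⟨E, hE0, hsub, hE, hc⟩ := h.levels ht (j₀ := j₁) (h.top K₁ (by nlinarith)
    fun ω hω => hj ω j₁ (hj₁ ⟨⟨ω, hω⟩, rfl⟩))
  have key : ∀ z, (∀ ω ∈ K₁, c (z + ω) = c z) → ∀ i, z ∉ E i := fun z hz i => by
    induction i with
    | zero => exact hE0 ▸ notMem_empty z
    | succ i ih =>
      intro hz'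
      have h1 : Nat.card K₁ ≤ Nat.card (E (i + 1) \ E i : Finset K) := by
        refine Nat.card_le_card_of_injective (fun ω => ⟨z + ω, mem_sdiff.2 ⟨?_, ?_⟩⟩)
          fun a b hab => Subtype.ext (add_left_cancel (congrArg Subtype.val hab))
        · by_contra h2
          exact (hE _ _ z h2).2 (by rw [hz _ ω.2]) hz'
        · exact (hE _ z _ ih).2 (by rw [hz _ ω.2])
      rw [Nat.card_eq_finsetCard] at h1
      have h2 : (Nat.card K₁ : ℝ) + (E i).card ≤ (E (i + 1)).card := by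
        rw [← card_sdiff_add_card_eq_card (hsub i)]
        exact_mod_cast Nat.add_le_add_right h1 _
      have h3 := hc i
      linarith
  exact eq_of_levels (j₀ := j₁) fun i => (hE i y x (key y hy i)).1 (key x hx i)

/-- almost invariant functions are almost constant -/
theorem alm_const (C : ℝ) : ∃ κ₀ : ℕ, ∀ (K : Type) [AddCommGroup K] [Infinite K] (c : K → ℝ),
    (∀ x : K, IsOfFinAddOrder x) → Alm C c → (∃ c₀, {x | c x ≠ c₀}.Finite) ∧
      ∀ K₁ : AddSubgroup K, Finite K₁ → κ₀ < Nat.card K₁ → (∀ ω ∈ K₁, ∀ x, c (x + ω) = c x) →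
        ∀ x, c x = c 0 := by
  refine ⟨⌈6 * C + 1 + √(2 * C)⌉₊, fun K _ _ c ht h => ⟨?_, fun K₁ _ hK hinv x =>
    KA_main ht h K₁ (Nat.lt_of_ceil_lt hK) (fun ω hω => hinv ω hω x) fun ω hω => hinv ω hω 0⟩⟩
  obtain ⟨K₁, hfin, hK, -⟩ := exists_finite_sub ht ∅ (⌈6 * C + 1 + √(2 * C)⌉₊ + 1)
  have hX : (⋃ ω : K₁, {x | c (x + ω) ≠ c x}).Finite := Set.finite_iUnion fun ω => h.fin ω
  have hinv : ∀ x, x ∉ ⋃ ω : K₁, {x | c (x + ω) ≠ c x} → ∀ ω ∈ K₁, c (x + ω) = c x :=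
    fun x hx ω hω => by_contra fun h' => hx (Set.mem_iUnion.2 ⟨⟨ω, hω⟩, h'⟩)
  obtain ⟨y, hy⟩ := hX.infinite_compl.nonempty
  refine ⟨c y, hX.subset fun x hx => by_contra fun h' => hx ?_⟩
  exact KA_main ht h K₁ (Nat.lt_of_ceil_lt hK) (hinv x h') (hinv y hy)

end Pool.Agent.GT
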