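import Pool.Agent.Lib.MP_a01f70_lc.GK.Bas

/-! Almost invariant functions on a torsion group: the top level. -/

noncomputable section

namespace Pool.Agent.GT
open Finset Pool.Agent.GK
open scoped ComplexConjugate

/-- the hypotheses on an almost invariant dyadic function -/
structure Alm {K : Type} [AddCommGroup K] (C : ℝ) (c : K → ℝ) : Prop where
  dy : ∀ x, ∃ (k : ℕ) (z : ℤ), c x * 2 ^ k = z
  fin : ∀ ω, {x | c (x + ω) ≠ c x}.Finite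
  bd : ∀ (ω : K) (j : ℤ) (ν : ℕ) (s : Finset K), 1 ≤ ν → (∀ x, c (x + ω) ≠ c x → x ∈ s) →
    ‖∑ x ∈ s, (ee ((2 ^ j * ((ν - 1) * c x + c (x + ω)) : ℝ) : Tc) -
      ee ((2 ^ j * (ν * c x) : ℝ) : Tc))‖ ^ 2 ≤ C * ν

theorem ka1_gram {ι κ : Type} (s : Finset ι) (r : Finset κ) (a : κ → ι → ℂ) :
    ∑ ν ∈ r, ∑ ν' ∈ r, ‖∑ x ∈ s, a ν x * conj (a ν' x)‖ ^ 2 =
      ∑ x ∈ s, ∑ y ∈ s, ‖∑ ν ∈ r, a ν x * conj (a ν y)‖ ^ 2 := by
  refine Complex.ofReal_injective ?_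
  push_cast
  simp only [← Complex.mul_conj', map_sum, map_mul, Complex.conj_conj, sum_mul_sum]
  refine (sum_congr rfl fun _ _ => sum_comm).trans (sum_comm.trans (sum_congr rfl fun x _ => ?_))
  refine (sum_congr rfl fun _ _ => sum_comm).trans (sum_comm.trans (sum_congr rfl fun y _ => ?_))
  exact sum_congr rfl fun _ _ => sum_congr rfl fun _ _ => by ring

theorem fejer {K : Type} (s : Finset K) (t : K → Tc) {C : ℝ} (hC : 0 ≤ C)
    (h : ∀ ν : ℕ, 1 ≤ ν → ‖∑ x ∈ s, ee (ν • t x)‖ ^ 2 ≤ C * ν) {κ : ℕ}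
    (hκ : ∀ x ∈ s, ∃ u ⊆ s, κ ≤ u.card ∧ ∀ y ∈ u, t y = t x) {R : ℕ} (hR : 0 < R) :
    (R : ℝ) * s.card * κ ≤ s.card ^ 2 + C * R ^ 2 := by
  have h1 := ka1_gram s (range R) fun ν x => ee (ν • t x)
  have hu : ∀ a : Tc, ee a * conj (ee a) = 1 := fun a => by
    rw [← ee_neg, ← ee_add, add_neg_cancel, ee_zero]
  have h2 : ∀ ν ν' : ℕ, ν' < ν → ν < R →
      ‖∑ x ∈ s, ee (ν • t x) * conj (ee (ν' • t x))‖ ^ 2 ≤ C * R := fun ν ν' h3 h4 => by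
    obtain ⟨k, rfl⟩ := Nat.exists_eq_add_of_le' h3.le
    simp only [add_nsmul, ee_add, mul_assoc, hu, mul_one]
    exact (h k (by omega)).trans (mul_le_mul_of_nonneg_left (Nat.cast_le.2 (by omega)) hC)
  have h3 : ∀ ν ∈ range R, ∑ ν' ∈ range R, ‖∑ x ∈ s, ee (ν • t x) * conj (ee (ν' • t x))‖ ^ 2 ≤
      s.card ^ 2 + C * R ^ 2 := fun ν hν => by
    refine (sum_le_sum (g := fun ν' => (if ν = ν' then (s.card : ℝ) ^ 2 else 0) + C * R)
      fun ν' hν' => ?_).trans (le_of_eq ?_)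
    · rcases lt_trichotomy ν ν' with h4 | rfl | h4
      · rw [if_neg h4.ne, zero_add, ← Complex.norm_conj]
        simp only [map_sum, map_mul, Complex.conj_conj, mul_comm (conj _)]
        exact h2 _ _ h4 (mem_range.1 hν')
      · simp only [hu, if_true, sum_const, nsmul_eq_mul, mul_one, Complex.norm_natCast]
        exact le_add_of_nonneg_right (by positivity)
      · rw [if_neg h4.ne', zero_add]
        exact h2 _ _ h4 (mem_range.1 hν)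
    · rw [sum_add_distrib, sum_ite_eq, if_pos hν, sum_const, card_range, nsmul_eq_mul]
      ring
  have h4 : ∀ x ∈ s, (κ : ℝ) * R ^ 2 ≤
      ∑ y ∈ s, ‖∑ ν ∈ range R, ee (ν • t x) * conj (ee (ν • t y))‖ ^ 2 := fun x hx => by
    obtain ⟨u, h5, h6, h7⟩ := hκ x hx
    refine le_trans ?_ (sum_le_sum_of_subset_of_nonneg h5 fun _ _ _ => by positivity)
    rw [sum_congr rfl (g := fun _ => (R : ℝ) ^ 2) fun y hy => by simp [h7 y hy, hu], sum_const,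
      nsmul_eq_mul]
    exact mul_le_mul_of_nonneg_right (Nat.cast_le.2 h6) (by positivity)
  have h5 := (card_nsmul_le_sum _ _ _ h4).trans (h1.ge.trans (sum_le_card_nsmul _ _ _ h3))
  rw [card_range, nsmul_eq_mul, nsmul_eq_mul] at h5
  refine le_of_mul_le_mul_left ?_ (Nat.cast_pos.2 hR)
  linarith

theorem fejer' {K : Type} (s : Finset K) (hs : s.Nonempty) (t : K → Tc) {C : ℝ} (hC : 0 ≤ C)
    (h : ∀ ν : ℕ, 1 ≤ ν → ‖∑ x ∈ s, ee (ν • t x)‖ ^ 2 ≤ C * ν) {κ : ℕ}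
    (hκ : ∀ x ∈ s, ∃ u ⊆ s, κ ≤ u.card ∧ ∀ y ∈ u, t y = t x) : (κ : ℝ) ^ 2 ≤ 6 * C := by
  rcases Nat.eq_zero_or_pos κ with rfl | h0
  · simpa using hC
  obtain ⟨x, hx⟩ := hs
  obtain ⟨u, h1, h2, -⟩ := hκ x hx
  have h3 := h2.trans (card_le_card h1)
  have h4 := fejer s t hC h hκ (Nat.succ_pos (2 * s.card / κ))
  have h5 : 2 * s.card ≤ (2 * s.card / κ).succ * κ :=
    (Nat.lt_mul_div_succ _ h0).le.trans_eq (mul_comm _ _)
  have h6 : (2 * s.card / κ).succ * κ ≤ 3 * s.card := by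
    have := Nat.div_mul_le_self (2 * s.card) κ
    rw [Nat.succ_mul]
    omega
  generalize (2 * s.card / κ).succ = R at h4 h5 h6
  have h7 : (2 : ℝ) * s.card ≤ R * κ := by exact_mod_cast h5
  have h8 : (R : ℝ) * κ ≤ 3 * s.card := by exact_mod_cast h6
  have h9 : (0 : ℝ) < s.card := Nat.cast_pos.2 (h0.trans_le h3)
  have h10 : 0 < (R * κ - s.card : ℝ) * s.card := mul_pos (by linarith) h9
  have h11 : ((R : ℝ) * κ) ^ 2 ≤ 6 * ((R * κ - s.card) * s.card) := by nlinarith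
  refine le_of_mul_le_mul_right ?_ h10
  nlinarith [mul_le_mul_of_nonneg_left h4 (sq_nonneg (κ : ℝ)), mul_le_mul_of_nonneg_left h11 hC]

theorem ka1_pow (j : ℤ) (m : ℕ) (r : ℝ) :
    ((2 ^ (j + m) * r : ℝ) : Tc) = 2 ^ m • ((2 ^ j * r : ℝ) : Tc) := by
  rw [← AddCircle.coe_nsmul, nsmul_eq_mul, zpow_add₀ two_ne_zero, zpow_natCast]
  congr 1
  push_cast
  ring

variable {K : Type} [AddCommGroup K] {C : ℝ} {c : K → ℝ}

theorem Alm.nonneg (h : Alm C c) : 0 ≤ C := by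
  simpa using h.bd 0 0 1 ∅ le_rfl (by simp)

theorem Alm.high (h : Alm C c) (ω : K) :
    ∃ j₀ : ℤ, ∀ j, j₀ ≤ j → ∀ x, ((2 ^ j * c (x + ω) : ℝ) : Tc) = ((2 ^ j * c x : ℝ) : Tc) := by
  have h1 : ∀ x, ∀ᶠ j : ℤ in Filter.atTop, ((2 ^ j * c x : ℝ) : Tc) = 0 := fun x => by
    obtain ⟨k, z, e⟩ := h.dy x
    filter_upwards [Filter.eventually_ge_atTop (k : ℤ)] with j hj
    obtain ⟨m, rfl⟩ := Int.le.dest hj
    rw [ka1_pow, zpow_natCast, mul_comm, e, (AddCircle.coe_eq_zero_iff (1 : ℝ)).2 ⟨z, by simp⟩,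
      smul_zero]
  obtain ⟨j₀, h2⟩ := Filter.eventually_atTop.1 ((Filter.eventually_all_finite (h.fin ω)).2
    fun x _ => (h1 x).and (h1 (x + ω)))
  refine ⟨j₀, fun j hj x => ?_⟩
  by_cases e : c (x + ω) = c x
  · rw [e]
  · exact (h2 j hj x e).2.trans (h2 j hj x e).1.symm

theorem Alm.top (h : Alm C c) (K₁ : AddSubgroup K) [Finite K₁] (hK : 6 * C < (Nat.card K₁ : ℝ) ^ 2)
    {j₁ : ℤ} (h1 : ∀ ω ∈ K₁, ∀ x, ((2 ^ j₁ * c (x + ω) : ℝ) : Tc) = ((2 ^ j₁ * c x : ℝ) : Tc))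
    (x : K) : ((2 ^ j₁ * c x : ℝ) : Tc) = ((2 ^ j₁ * c 0 : ℝ) : Tc) := by
  classical
  by_contra hx
  obtain ⟨j₀, h0⟩ := h.high x
  obtain ⟨j, ⟨h2, y₀, h3⟩, h4⟩ := Int.exists_greatest_of_bdd (P := fun j => j₁ ≤ j ∧
    ∃ y, ((2 ^ j * c (y + x) : ℝ) : Tc) ≠ ((2 ^ j * c y : ℝ) : Tc))
    ⟨j₀, fun j ⟨_, y, hy⟩ => (not_le.1 fun e => hy (h0 j e y)).le⟩
    ⟨j₁, le_rfl, 0, by rwa [zero_add]⟩
  obtain ⟨ρ, hρ⟩ : ∃ ρ : K → Tc, ∀ y, ((2 ^ j * c y : ℝ) : Tc) = ρ y := ⟨_, fun _ => rfl⟩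
  have h5 : ∀ ω ∈ K₁, ∀ y, ρ (y + ω) = ρ y := fun ω hω y => by
    obtain ⟨m, rfl⟩ := Int.le.dest h2
    rw [← hρ, ← hρ, ka1_pow, ka1_pow, h1 ω hω]
  have h6 : ∀ y, ρ (y + x) ≠ ρ y → ee (ρ (y + x) - ρ y) = -1 := fun y hy => by
    have h7 : ((2 ^ (j + (1 : ℕ)) * c (y + x) : ℝ) : Tc) = ((2 ^ (j + (1 : ℕ)) * c y : ℝ) : Tc) := by
      by_contra e
      have := h4 _ ⟨by omega, y, e⟩
      omega
    rw [ka1_pow, ka1_pow, hρ, hρ, pow_one, ← sub_eq_zero, ← nsmul_sub, ← ee_eq_one, ee_nsmul,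
      sq_eq_one_iff] at h7
    exact h7.resolve_left fun e => hy (sub_eq_zero.1 (ee_eq_one.1 e))
  have hs : ∀ y, y ∈ (h.fin x).toFinset.filter (fun y => ρ (y + x) ≠ ρ y) ↔ ρ (y + x) ≠ ρ y :=
    fun y => ⟨fun e => (mem_filter.1 e).2, fun e => mem_filter.2 ⟨(h.fin x).mem_toFinset.2
      fun e' => e (by rw [← hρ, ← hρ, e']), e⟩⟩
  have := Fintype.ofFinite K₁
  refine hK.not_ge (fejer' _ ⟨y₀, (hs _).2 (by rwa [← hρ, ← hρ])⟩ ρ h.nonneg (fun ν hν => ?_)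
    fun y hy => ⟨univ.image fun ω : K₁ => y + ω, fun z hz => ?_, ?_, fun z hz => ?_⟩)
  · have h7 := h.bd x j ν _ hν fun y hy => (h.fin x).mem_toFinset.2 hy
    have h8 : ∀ y, ee ((2 ^ j * ((ν - 1) * c y + c (y + x)) : ℝ) : Tc) -
        ee ((2 ^ j * (ν * c y) : ℝ) : Tc) =
        if ρ (y + x) ≠ ρ y then -2 * ee (ν • ρ y) else 0 := fun y => by
      have e1 : ((2 ^ j * (ν * c y) : ℝ) : Tc) = ν • ρ y := by
        rw [← hρ, ← AddCircle.coe_nsmul, nsmul_eq_mul, mul_left_comm]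
      have e2 : ((2 ^ j * ((ν - 1) * c y + c (y + x)) : ℝ) : Tc) =
          ν • ρ y + (ρ (y + x) - ρ y) := by
        rw [← e1, ← hρ, ← hρ, ← AddCircle.coe_sub, ← AddCircle.coe_add]
        congr 1
        ring
      rw [e1, e2, ee_add]
      split_ifs with e
      · rw [h6 y e]
        ring
      · rw [not_not.1 e, sub_self, ee_zero, mul_one, sub_self]
    simp only [h8] at h7
    rw [← sum_filter, ← mul_sum, norm_mul, mul_pow, norm_neg, Complex.norm_two] at h7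
    exact le_trans (le_mul_of_one_le_left (by positivity) (by norm_num)) h7
  · obtain ⟨ω, -, rfl⟩ := mem_image.1 hz
    rw [hs, add_right_comm, h5 _ ω.2, h5 _ ω.2]
    exact (hs y).1 hy
  · rw [card_image_of_injective _ fun a b e => Subtype.ext (add_left_cancel e), card_univ,
      Nat.card_eq_fintype_card]
  · obtain ⟨ω, -, rfl⟩ := mem_image.1 hz
    exact h5 _ ω.2 y

theorem exists_finite_sub [Infinite K] (ht : ∀ x : K, IsOfFinAddOrder x) (s : Finset K) (L : ℕ) :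
    ∃ K₁ : AddSubgroup K, Finite K₁ ∧ L ≤ Nat.card K₁ ∧ ∀ x ∈ s, x ∈ K₁ := by
  classical
  obtain ⟨t, rfl⟩ := Infinite.exists_subset_card_eq K L
  have h1 : Finite (AddSubgroup.closure ((s ∪ t : Finset K) : Set K)) :=
    AddCommGroup.finite_of_fg_isAddTorsion _ fun x => by
      rw [← (AddSubgroup.subtype_injective _).isOfFinAddOrder_iff]
      exact ht _
  refine ⟨_, h1, ?_, fun x hx => AddSubgroup.subset_closure (mem_union_left _ hx)⟩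
  rw [← Nat.card_eq_finsetCard]
  exact Nat.card_mono h1 fun x hx => AddSubgroup.subset_closure (mem_union_right _ hx)

end Pool.Agent.GT
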