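import Pool.Agent.Lib.MP_a01f70_lc.GT.KA1

/-! Almost invariant functions on a torsion group: finite exceptional sets. -/

noncomputable section

namespace Pool.Agent.GT
open Finset Pool.Agent.GK

variable {K : Type} [AddCommGroup K] {C : ℝ} {c : K → ℝ}

/-- If `N` and its complement are infinite take `X ⊆ N`, `Y ⊆ Nᶜ` of size `L > 2 A` in a finite subgroup `K₁`;
`∑ ω ∈ K₁, #{x ∈ K₁ | exactly one of x, x + ω in N} = 2 |N ∩ K₁| |K₁ \ N| ≥ L |K₁|`. -/
theorem finite_or_cofinite [Infinite K] (ht : ∀ x : K, IsOfFinAddOrder x) (N : Set K) (A : ℝ)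
    (h : ∀ (ω : K) (s : Finset K), (∀ x ∈ s, Xor' (x ∈ N) (x + ω ∈ N)) → (s.card : ℝ) ≤ A) :
    N.Finite ∨ Nᶜ.Finite := by
  classical
  by_contra! hn
  have h0 : 0 ≤ A := by simpa using h 0 ∅ (by simp)
  obtain ⟨L, hL⟩ := exists_nat_gt (2 * A)
  obtain ⟨X, hX, eX⟩ := hn.1.exists_subset_card_eq L
  obtain ⟨Y, hY, eY⟩ := hn.2.exists_subset_card_eq L
  obtain ⟨K₁, hK, -, h1⟩ := exists_finite_sub ht (X ∪ Y) 0
  obtain ⟨S, hS⟩ : ∃ S : Finset K, ∀ x, x ∈ S ↔ x ∈ K₁ :=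
    ⟨(K₁ : Set K).toFinite.toFinset, fun _ => Set.Finite.mem_toFinset _⟩
  have h2 : (L : ℝ) ≤ #{x ∈ S | x ∈ N} := Nat.cast_le.2 (eX ▸ card_le_card fun x hx =>
    mem_filter.2 ⟨(hS x).2 (h1 x (mem_union_left _ hx)), hX hx⟩)
  have h3 : (L : ℝ) ≤ #{x ∈ S | x ∉ N} := Nat.cast_le.2 (eY ▸ card_le_card fun x hx =>
    mem_filter.2 ⟨(hS x).2 (h1 x (mem_union_right _ hx)), hY hx⟩)
  have h4 := sum_le_card_nsmul S _ _ fun ω _ => h ω {x ∈ {x ∈ S | x ∈ N} | x + ω ∉ N}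
    fun x hx => Or.inl ⟨(mem_filter.1 (mem_filter.1 hx).1).2, (mem_filter.1 hx).2⟩
  have h5 : ∑ ω ∈ S, #{x ∈ {x ∈ S | x ∈ N} | x + ω ∉ N} = #{x ∈ S | x ∈ N} * #{x ∈ S | x ∉ N} := by
    rw [sum_congr rfl fun ω _ => card_filter (fun x => x + ω ∉ N) _, sum_comm, ← smul_eq_mul,
      ← sum_const]
    refine sum_congr rfl fun x hx => (card_filter _ _).symm.trans ?_
    have := (hS x).1 (mem_filter.1 hx).1
    exact card_nbij' (x + ·) (· - x) (fun y => by simp +contextual [hS, add_mem, this])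
      (fun y => by simp +contextual [hS, sub_mem, this]) (fun y _ => by simp) fun y _ => by simp
  rw [← Nat.cast_sum, h5, ← card_filter_add_card_filter_not (s := S) (· ∈ N), nsmul_eq_mul] at h4
  push_cast at h4
  nlinarith

theorem ka2_half {x : Tc} (h : 2 • x = 0) : x = 0 ∨ x = ((1 / 2 : ℝ) : Tc) := by
  have h1 := two_fr x
  rw [h, fr_zero] at h1
  refine (dig_cases x).imp (fun e => fr_eq_zero.1 (by linarith)) fun e => ?_
  rw [← coe_fr x, show fr x = 1 / 2 by linarith]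

theorem ka2_bd (h : Alm C c) (ω : K) (j : ℤ) {s : Finset K} (hs : ∀ x, c (x + ω) ≠ c x → x ∈ s) :
    ‖∑ x ∈ s, (ee ((2 ^ j * c x : ℝ) : Tc) * ee ((2 ^ j * c (x + ω) : ℝ) : Tc) -
      ee ((2 ^ j * c x : ℝ) : Tc) ^ 2)‖ ≤ √(2 * C) := by
  refine Real.le_sqrt_of_sq_le (le_of_eq_of_le ?_ ((h.bd ω j 2 s one_le_two hs).trans_eq
    (by rw [mul_comm, Nat.cast_ofNat])))
  congr 2
  refine sum_congr rfl fun x _ => ?_
  rw [sq, ← ee_add, ← ee_add, ← AddCircle.coe_add, ← AddCircle.coe_add]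
  congr 3 <;> push_cast <;> ring

/-- Choose `t'` with `2 • t' = t`; off `E` the value is `t'` or `t' + 1 / 2`. Let
`N = {x | ρ j x = t' + 1 / 2}`. In `bd` for `ν = 2` the terms with `x, x + ω ∉ E` are `-2 ee t` or `0`, the others
have norm at most `2`; so at most `√(2 C) / 2 + 4 |E|` points have exactly one of `x`, `x + ω` in `N`. -/
theorem Alm.step [Infinite K] (ht : ∀ x : K, IsOfFinAddOrder x) (h : Alm C c) {j : ℤ} {t : Tc}
    (h1 : {x | ((2 ^ (j + 1) * c x : ℝ) : Tc) ≠ t}.Finite) :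
    ∃ t' : Tc, 2 • t' = t ∧ {x | ((2 ^ j * c x : ℝ) : Tc) ≠ t'}.Finite := by
  classical
  obtain ⟨t', rfl⟩ : ∃ t' : Tc, 2 • t' = t := ⟨((fr t / 2 : ℝ) : Tc), by
    rw [two_nsmul, ← AddCircle.coe_add, add_halves, coe_fr]⟩
  obtain ⟨E, hE⟩ : ∃ E : Finset K, ∀ x ∉ E, ((2 ^ j * c x : ℝ) : Tc) = t' ∨
      ((2 ^ j * c x : ℝ) : Tc) = t' + ((1 / 2 : ℝ) : Tc) := ⟨h1.toFinset, fun x hx => by
    rw [← sub_eq_zero, ← sub_eq_iff_eq_add']
    refine ka2_half ?_
    rw [smul_sub, ← not_not.1 (mt h1.mem_toFinset.2 hx), two_nsmul, ← AddCircle.coe_add,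
      zpow_add_one₀ two_ne_zero, sub_eq_zero]
    congr 1
    ring⟩
  obtain h2 | h2 := finite_or_cofinite ht {x | ((2 ^ j * c x : ℝ) : Tc) = t' + ((1 / 2 : ℝ) : Tc)}
    (√(2 * C) / 2 + 4 * E.card) fun ω s hs => by
      have h3 := ka2_bd h ω j fun x => (h.fin ω).mem_toFinset.2
      have h4 : s ⊆ {x ∈ (h.fin ω).toFinset | Xor' (((2 ^ j * c x : ℝ) : Tc) = t' + ((1 / 2 : ℝ) : Tc))
          (((2 ^ j * c (x + ω) : ℝ) : Tc) = t' + ((1 / 2 : ℝ) : Tc))} := fun x hx =>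
        mem_filter.2 ⟨(h.fin ω).mem_toFinset.2 fun e => by simpa [e, Xor', Xor] using hs x hx, hs x hx⟩
      generalize (h.fin ω).toFinset = S at h3 h4
      replace h4 : (s.card : ℝ) ≤ _ := Nat.cast_le.2 (card_le_card h4)
      obtain ⟨ρ, hρ⟩ : ∃ ρ : K → Tc, ∀ x, ((2 ^ j * c x : ℝ) : Tc) = ρ x := ⟨_, fun _ => rfl⟩
      simp only [hρ] at h3 h4 hE
      have h5 : ∀ x ∈ S, ‖ee (ρ x) * ee (ρ (x + ω)) - ee (ρ x) ^ 2 + 2 * ee t' ^ 2 *
          if Xor' (ρ x = t' + ((1 / 2 : ℝ) : Tc)) (ρ (x + ω) = t' + ((1 / 2 : ℝ) : Tc)) then 1 else 0‖ ≤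
          if x ∈ E ∪ E.image (· - ω) then 4 else 0 := fun x _ => by
        by_cases e : x ∈ E ∪ E.image (· - ω)
        · refine ((norm_add_le _ _).trans (add_le_add (norm_sub_le _ _) le_rfl)).trans ?_
          rw [if_pos e]
          split_ifs <;> norm_num [norm_ee]
        · have h6 : ((1 / 2 : ℝ) : Tc) ≠ 0 := fun e => by
            have := ee_half
            rw [e, ee_zero] at this
            norm_num at this
          rw [if_neg e, norm_le_zero_iff]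
          obtain e1 | e1 := hE x (notMem_union.1 e).1 <;>
            obtain e2 | e2 := hE (x + ω) fun e' => (notMem_union.1 e).2
              (mem_image.2 ⟨_, e', add_sub_cancel_right _ _⟩) <;>
            simp only [e1, e2, ee_add, ee_half, left_eq_add, h6, Xor', Xor] <;> simp <;> ring
      have h6 := norm_sum_le_of_le S h5
      rw [sum_add_distrib, ← mul_sum, sum_boole, sum_ite_mem, sum_const, nsmul_eq_mul] at h6
      have h7 := norm_le_add_norm_add' _ _ |>.trans (add_le_add h6 h3)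
      have h8 : (#(S ∩ (E ∪ E.image (· - ω))) : ℝ) ≤ E.card + E.card := by
        exact_mod_cast (card_le_card inter_subset_right).trans
          ((card_union_le _ _).trans (Nat.add_le_add_left card_image_le _))
      simp only [norm_mul, norm_pow, norm_ee, Complex.norm_ofNat, Complex.norm_natCast] at h7
      linarith
  · exact ⟨t', rfl, (E.finite_toSet.union h2).subset fun x hx =>
      or_iff_not_imp_left.2 fun e => (hE x e).resolve_left hx⟩
  · refine ⟨_, ?_, h2⟩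
    rw [smul_add, two_nsmul ((1 / 2 : ℝ) : Tc), ← AddCircle.coe_add, add_halves, AddCircle.coe_period,
      add_zero]

/-- Take `ω` outside the finite set `E - E`; the sum in `bd` for `ν = 2` is `ee (2 • t)` times this number (only
`x ∈ E` and `x + ω ∈ E` contribute). -/
theorem Alm.recur [Infinite K] (h : Alm C c) {j : ℤ} {t : Tc} (E : Finset K)
    (h1 : ∀ x, ((2 ^ j * c x : ℝ) : Tc) ≠ t → x ∈ E) :
    ‖2 * ∑ x ∈ E, (ee (((2 ^ j * c x : ℝ) : Tc) - t) - 1) -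
      ∑ x ∈ E, (ee (2 • (((2 ^ j * c x : ℝ) : Tc) - t)) - 1)‖ ≤ √(2 * C) := by
  classical
  obtain ⟨ω, hω⟩ := Infinite.exists_notMem_finset (image₂ (· - ·) E E)
  have h2 := ka2_bd h ω j (s := (h.fin ω).toFinset ∪ (E ∪ E.image (· - ω)))
    fun x hx => mem_union_left _ ((h.fin ω).mem_toFinset.2 hx)
  obtain ⟨h3, h4⟩ := union_subset_iff.1
    (subset_union_right (s₁ := (h.fin ω).toFinset) (s₂ := E ∪ E.image (· - ω)))
  generalize (h.fin ω).toFinset ∪ (E ∪ E.image (· - ω)) = S at h2 h3 h4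
  obtain ⟨u, hu⟩ : ∃ u : K → ℂ, ∀ x, ee (((2 ^ j * c x : ℝ) : Tc) - t) = u x := ⟨_, fun _ => rfl⟩
  have h5 : ∀ x ∉ E, u x = 1 := fun x hx => by
    rw [← hu, not_not.1 (mt (h1 x) hx), sub_self, ee_zero]
  have h6 : ∀ x, ee ((2 ^ j * c x : ℝ) : Tc) = ee t * u x := fun x => by
    rw [← hu, ← ee_add, add_sub_cancel]
  have h7 : ∀ x, ee t * u x * (ee t * u (x + ω)) - (ee t * u x) ^ 2 =
      ee t ^ 2 * ((u x - 1) + (u (x + ω) - 1) - (u x ^ 2 - 1)) := fun x => by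
    by_cases e : x ∈ E
    · rw [h5 (x + ω) fun e' => hω (mem_image₂.2 ⟨_, e', _, e, add_sub_cancel_left _ _⟩)]
      ring
    · rw [h5 x e]
      ring
  simp only [h6, h7, ← mul_sum, norm_mul, norm_pow, norm_ee, one_pow, one_mul] at h2
  rw [sum_sub_distrib, sum_add_distrib, ← sum_subset h3 fun x _ e => by rw [h5 x e, sub_self],
    ← sum_subset h3 (f := fun x => u x ^ 2 - 1) fun x _ e => by rw [h5 x e, one_pow, sub_self],
    ← sum_subset h4 fun x _ e => by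
      rw [h5 _ fun e' => e (mem_image.2 ⟨_, e', add_sub_cancel_right _ _⟩), sub_self],
    sum_image fun _ _ _ _ e => sub_left_injective e] at h2
  simpa only [ee_nsmul, hu, sub_add_cancel, two_mul] using h2

end Pool.Agent.GT
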