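import Pool.Agent.Lib.MP_a01f70_lc.GT.KDC2

/-! The construction of Davenport and Cohen. -/

noncomputable section

namespace Pool.Agent.GT
open Finset Pool.Agent.GK

/-- the data of the construction -/
structure DCd (e : ℕ) {A : Type} [AddCommGroup A] (X : Set A) (o : A →+ ℝ) (s : A → ℂ)
    (V : Finset ℝ) (big : Finset A) : Prop where
  cl : ∀ p ∈ X, ∀ f ∈ X, ∀ f' ∈ X, p + f - f' ∈ X
  val : ∀ f ∈ X, s f ≠ 0 → o f ∈ V
  mem : ∀ f ∈ big, f ∈ X ∧ 1 ≤ ‖s f‖
  inj : Set.InjOn o big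
  few : (V \ big.image o).card ≤ e

theorem dc_ind {r : ℕ} (hr : 3 ≤ r) (e k : ℕ) : ∃ n T : ℕ, ∀ (A : Type) [AddCommGroup A] (X : Set A)
    (o : A →+ ℝ) (s : A → ℂ) (V : Finset ℝ) (big : Finset A), DCd e X o s V big → T ≤ big.card →
      ∃ (μ : ℝ) (ι : Type) (t : Finset ι) (G : ι → ℂ) (f : ι → A), Bdd t G f ∧ t.card ≤ n ∧
        (∀ i ∈ t, f i ∈ X ∧ μ ≤ o (f i)) ∧ (big.filter fun a => μ ≤ o a).card ≤ T ∧
        (fun x : ℝ => (1 - 2 / (r : ℝ) ^ 2) * x + 1 / (r * √(r : ℝ)))^[k] 0 ≤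
          (∑ i ∈ t, G i * s (f i)).re := by
  classical
  induction k with
  | zero =>
    refine ⟨0, 0, fun A _ X o s V big _ _ => ?_⟩
    obtain ⟨μ, hμ⟩ := (big.image o).exists_le
    refine ⟨μ + 1, Unit, ∅, fun _ => 0, fun _ => 0, fun Θ => by simp, le_rfl, by simp, ?_, by simp⟩
    rw [filter_false_of_mem fun a ha => by linarith [hμ _ (mem_image_of_mem o ha)], card_empty]
  | succ k ih =>
    obtain ⟨n, T, ih⟩ := ih
    refine ⟨n * (1 + r ^ 2) + r, T + r * (2 * ((e + T) * n) + 1), fun A _ X o s V big h hT => ?_⟩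
    obtain ⟨μ, ι, t, G, f, h1, h2, h3, h4, h5⟩ := ih A X o s V big h (by omega)
    have h6 := card_filter_add_card_filter_not (s := big) fun a => μ ≤ o a
    obtain ⟨a₀, h7, h8⟩ := exists_top (big.filter fun a => ¬ μ ≤ o a) o
      (h.inj.mono (coe_subset.2 (filter_subset _ _))) (M := r * (2 * ((e + T) * n) + 1))
      (by positivity) (by omega)
    have h9 : (V.filter (μ ≤ ·)).card ≤ e + T := by
      have : V.filter (μ ≤ ·) ⊆ V \ big.image o ∪ (big.filter fun a => μ ≤ o a).image o := by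
        intro v hv
        obtain ⟨hv1, hv2⟩ := mem_filter.1 hv
        refine mem_union.2 (or_iff_not_imp_left.2 fun hv3 => ?_)
        obtain ⟨a, ha, rfl⟩ := mem_image.1 (by simpa only [mem_sdiff, hv1, true_and, not_not] using hv3)
        exact mem_image_of_mem _ (mem_filter.2 ⟨ha, hv2⟩)
      exact (card_le_card this).trans ((card_union_le _ _).trans
        (add_le_add h.few (card_image_le.trans h4)))
    set D := (V.filter (μ ≤ ·) ×ˢ t).image fun p => p.1 - o (f p.2) with hD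
    have h10 : D.card ≤ (e + T) * n := card_image_le.trans (by
      rw [card_product]
      exact Nat.mul_le_mul h9 h2)
    obtain ⟨u, h11, h12, h13⟩ := exists_indep o D r
      ((big.filter fun a => ¬ μ ≤ o a).filter fun a => o a₀ ≤ o a)
      (h.inj.mono (coe_subset.2 ((filter_subset _ _).trans (filter_subset _ _))))
      (by rw [h8]; gcongr)
    have h14 : ∀ a ∈ u, a ∈ big ∧ o a₀ ≤ o a := fun a ha =>
      ⟨(mem_filter.1 (mem_filter.1 (h11 ha)).1).1, (mem_filter.1 (h11 ha)).2⟩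
    have h15 : o a₀ < μ := not_le.1 (mem_filter.1 h7).2
    have h16 : ∀ i ∈ t, ∀ a ∈ u, ∀ a' ∈ u, f i + a - a' ∈ X := fun i hi a ha a' ha' =>
      h.cl _ (h3 i hi).1 _ (h.mem _ (h14 a ha).1).1 _ (h.mem _ (h14 a' ha').1).1
    obtain ⟨ι', t', G', f', k1, k2, k3, k4⟩ := dc_step o s h1 (h12 ▸ hr)
      (h.inj.mono fun a ha => (h14 a ha).1) (fun a ha => (h.mem a (h14 a ha).1).2)
      fun i hi a ha a' ha' hlt => by
        by_contra h0
        refine h13 a ha a' ha' (by rintro rfl; exact lt_irrefl _ hlt) (mem_image.2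
          ⟨(o (f i + a - a'), i), mem_product.2 ⟨mem_filter.2 ⟨h.val _ (h16 i hi a ha a' ha') h0, ?_⟩,
            hi⟩, ?_⟩)
        · rw [map_sub, map_add]
          linarith [(h3 i hi).2]
        · simp only [map_sub, map_add]
          ring
    rw [h12] at k2 k4
    refine ⟨o a₀, ι', t', G', f', k1, k2.trans (by gcongr), fun i' hi' => ?_, ?_, ?_⟩
    · rcases k3 i' hi' with ⟨i, hi, e1⟩ | ⟨i, hi, a, ha, a', ha', hlt, e1⟩ | ha
      · exact e1 ▸ ⟨(h3 i hi).1, h15.le.trans (h3 i hi).2⟩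
      · refine e1 ▸ ⟨h16 i hi a ha a' ha', ?_⟩
        rw [map_sub, map_add]
        linarith [(h3 i hi).2]
      · exact ⟨(h.mem _ (h14 _ ha).1).1, (h14 _ ha).2⟩
    · have k5 := card_filter_add_card_filter_not (s := big.filter fun a => o a₀ ≤ o a)
        fun a => μ ≤ o a
      have k6 : ((big.filter fun a => o a₀ ≤ o a).filter fun a => μ ≤ o a).card ≤ T :=
        (card_le_card (filter_subset_filter _ (filter_subset _ _))).trans h4
      rw [filter_comm] at h8
      omega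
    · rw [Function.iterate_succ_apply']
      refine le_trans (add_le_add (mul_le_mul_of_nonneg_left h5 ?_) le_rfl) k4
      have : (3 : ℝ) ≤ r := by exact_mod_cast hr
      rw [sub_nonneg, div_le_one (by positivity)]
      nlinarith

theorem dc (C : ℝ) (e : ℕ) : ∃ T : ℕ, ∀ (A : Type) [AddCommGroup A] (X : Set A) (o : A →+ ℝ)
    (s : A → ℂ) (V : Finset ℝ) (big : Finset A), DCd e X o s V big →
      (∀ (ι : Type) (t : Finset ι) (G : ι → ℂ) (f : ι → A), (∀ i ∈ t, f i ∈ X) → Bdd t G f →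
        (∑ i ∈ t, G i * s (f i)).re ≤ C) → big.card ≤ T := by
  obtain ⟨r, hr⟩ := exists_nat_gt (max 3 ((3 * C) ^ 2))
  have h3 : 3 ≤ r := by exact_mod_cast ((le_max_left _ _).trans_lt hr).le
  obtain ⟨n, T, h⟩ := dc_ind h3 e (r ^ 2)
  refine ⟨T, fun A _ X o s V big h1 h2 => ?_⟩
  by_contra h4
  obtain ⟨μ, ι, t, G, f, h5, -, h6, -, h7⟩ := h A X o s V big h1 (by omega)
  have h8 := (dc_iter h3).trans (h7.trans (h2 ι t G f (fun i hi => (h6 i hi).1) h5))
  have h9 := Real.lt_sqrt_of_sq_lt ((le_max_right _ _).trans_lt hr)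
  linarith

end Pool.Agent.GT
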