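import Pool.Agent.Lib.MP_a01f70_lc.GT.MDefs

/-! The construction of Davenport and Cohen: inequalities and selection. -/

noncomputable section

namespace Pool.Agent.GT
open Finset Pool.Agent.GK

theorem dc_swap {ι M : Type} [AddCommMonoid M] (s : Finset ι) (o : ι → ℝ) (h : ι × ι → M) :
    ∑ p ∈ (s ×ˢ s).filter fun p => o p.1 < o p.2, h p =
      ∑ p ∈ (s ×ˢ s).filter fun p => o p.2 < o p.1, h p.swap :=
  sum_equiv (Equiv.prodComm ι ι) (fun p => by simp [and_comm]) fun p _ => by simp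

theorem dc_sq {ι : Type} (s : Finset ι) (o : ι → ℝ) (ho : Set.InjOn o s) (g : ι → ℂ)
    (hg : ∀ i ∈ s, ‖g i‖ = 1) : ‖∑ i ∈ s, g i‖ ^ 2 = s.card +
      2 * (∑ p ∈ (s ×ˢ s).filter fun p => o p.2 < o p.1, g p.1 * (starRingEnd ℂ) (g p.2)).re := by
  classical
  have h1 : ‖∑ i ∈ s, g i‖ ^ 2 = ∑ p ∈ s ×ˢ s, (g p.1 * (starRingEnd ℂ) (g p.2)).re := by
    rw [← Complex.re_sum, sum_product' (f := fun a b => g a * (starRingEnd ℂ) (g b)),
      ← sum_mul_sum, ← map_sum, Complex.mul_conj, Complex.ofReal_re, Complex.sq_norm]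
  have h2 : ∀ p ∈ s ×ˢ s, (g p.1 * (starRingEnd ℂ) (g p.2)).re =
      (if p.1 = p.2 then 1 else 0) +
        ((if o p.2 < o p.1 then (g p.1 * (starRingEnd ℂ) (g p.2)).re else 0) +
          if o p.1 < o p.2 then (g p.2 * (starRingEnd ℂ) (g p.1)).re else 0) := by
    rintro ⟨a, b⟩ hp
    obtain ⟨ha, hb⟩ := mem_product.1 hp
    rcases lt_trichotomy (o a) (o b) with h | h | h
    · have : a ≠ b := by
        rintro rfl
        exact lt_irrefl _ h
      simp [this, h, h.not_gt, mul_comm]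
    · obtain rfl : a = b := ho ha hb h
      simp [Complex.mul_conj, Complex.normSq_eq_norm_sq, hg a ha]
    · have : a ≠ b := by
        rintro rfl
        exact lt_irrefl _ h
      simp [this, h, h.not_gt]
  rw [h1, sum_congr rfl h2, sum_add_distrib, sum_add_distrib, ← sum_filter, ← sum_filter,
    ← sum_filter, dc_swap, Complex.re_sum, two_mul]
  congr 1
  rw [sum_filter, sum_product]
  simp

theorem dc_card {ι : Type} (s : Finset ι) (o : ι → ℝ) :
    2 * ((s ×ˢ s).filter fun p => o p.2 < o p.1).card ≤ s.card ^ 2 := by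
  classical
  have h1 := dc_swap s o fun _ => (1 : ℕ)
  simp only [← card_eq_sum_ones] at h1
  have h2 : Disjoint ((s ×ˢ s).filter fun p => o p.1 < o p.2)
      ((s ×ˢ s).filter fun p => o p.2 < o p.1) :=
    disjoint_filter.2 fun p _ h => h.not_gt
  have h3 := card_le_card (union_subset (filter_subset (fun p => o p.1 < o p.2) (s ×ˢ s))
    (filter_subset (fun p => o p.2 < o p.1) (s ×ˢ s)))
  rw [card_union_of_disjoint h2, card_product, h1] at h3
  rw [sq]
  omega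

theorem dc_num {r t : ℝ} (hr : 3 ≤ r) {z : ℂ} (hz : 2 * ‖z‖ ≤ r ^ 2) (ht : t ^ 2 = r + 2 * z.re) :
    ‖(1 - 2 / r ^ 2 : ℝ) - (1 / r ^ 3 : ℝ) * z‖ + 1 / (r ^ 2 * √r) * t ≤ 1 := by
  have h0 : 0 < r := by linarith
  obtain ⟨w, hw⟩ : ∃ w, w = 1 / r := ⟨_, rfl⟩
  have hw0 : 0 < w := by rw [hw]; positivity
  have hw1 : w * r = 1 := by rw [hw]; field_simp
  have hw3 : w ≤ 1 / 3 := by rw [hw]; exact one_div_le_one_div_of_le (by norm_num) hr
  have e1 : 2 / r ^ 2 = 2 * w ^ 2 := by rw [hw]; field_simp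
  have e2 : 1 / r ^ 3 = w ^ 3 := by rw [hw]; field_simp
  have hs := Real.sq_sqrt h0.le
  have hs0 := Real.sqrt_pos.2 h0
  have b : ∀ x : ℝ, |x| ≤ ‖z‖ → |w ^ 3 * x| ≤ w / 2 := fun x hx => by
    rw [abs_mul, abs_of_pos (by positivity)]
    calc w ^ 3 * |x| ≤ w ^ 3 * (r ^ 2 / 2) := by gcongr; linarith
      _ = w / 2 * (w * r) ^ 2 := by ring
      _ = w / 2 := by rw [hw1]; ring
  have b1 := abs_le.1 (b _ (Complex.abs_re_le_norm z))
  have b2 := sq_le_sq' (abs_le.1 (b _ (Complex.abs_im_le_norm z))).1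
    (abs_le.1 (b _ (Complex.abs_im_le_norm z))).2
  have h1 : ‖(1 - 2 / r ^ 2 : ℝ) - (1 / r ^ 3 : ℝ) * z‖ ≤
      1 - 2 * w ^ 2 - w ^ 3 * z.re + w ^ 2 / 4 := by
    have h3 : 1 / 2 ≤ 1 - 2 * w ^ 2 - w ^ 3 * z.re := by nlinarith
    refine le_of_sq_le_sq ?_ (by positivity)
    rw [e1, e2, Complex.sq_norm, Complex.normSq_apply]
    simp only [Complex.sub_re, Complex.sub_im, Complex.ofReal_re, Complex.ofReal_im,
      Complex.re_ofReal_mul, Complex.im_ofReal_mul]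
    nlinarith [mul_le_mul_of_nonneg_right h3 (sq_nonneg w), sq_nonneg (w ^ 2)]
  have h2 : 1 / (r ^ 2 * √r) * t ≤ w ^ 2 + w ^ 3 * z.re := by
    have e3 : 1 / (r ^ 2 * √r) * t = w * (w ^ 2 * √r * t) := by
      rw [hw]
      field_simp
      rw [hs]
    have e4 : (w ^ 2 * √r * t) ^ 2 = w ^ 2 + 2 * (w ^ 3 * z.re) := by
      rw [mul_pow, mul_pow, hs, ht]
      linear_combination (w ^ 2 * (w * r + 1) + 2 * w ^ 3 * z.re) * hw1
    rw [e3]
    nlinarith [sq_nonneg (w - w ^ 2 * √r * t)]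
  nlinarith [sq_nonneg w]

theorem dc_norm {ι : Type} (s : Finset ι) (hs : 3 ≤ s.card) (o : ι → ℝ) (ho : Set.InjOn o s)
    (g : ι → ℂ) (hg : ∀ i ∈ s, ‖g i‖ = 1) {φ : ℂ} (hφ : ‖φ‖ ≤ 1) :
    ‖φ * ((1 - 2 / (s.card : ℝ) ^ 2 : ℝ) - (1 / (s.card : ℝ) ^ 3 : ℝ) *
      ∑ p ∈ (s ×ˢ s).filter fun p => o p.2 < o p.1, g p.1 * (starRingEnd ℂ) (g p.2)) +
        (1 / ((s.card : ℝ) ^ 2 * √(s.card : ℝ)) : ℝ) * ∑ i ∈ s, g i‖ ≤ 1 := by
  have h1 : ‖∑ p ∈ (s ×ˢ s).filter fun p => o p.2 < o p.1, g p.1 * (starRingEnd ℂ) (g p.2)‖ ≤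
      ((s ×ˢ s).filter fun p => o p.2 < o p.1).card := by
    refine (norm_sum_le _ _).trans ((sum_le_card_nsmul _ _ 1 fun p hp => ?_).trans (by simp))
    obtain ⟨ha, hb⟩ := mem_product.1 (mem_filter.1 hp).1
    rw [norm_mul, Complex.norm_conj, hg _ ha, hg _ hb, mul_one]
  have h2 : (2 * ((s ×ˢ s).filter fun p => o p.2 < o p.1).card : ℝ) ≤ (s.card : ℝ) ^ 2 := by
    exact_mod_cast dc_card s o
  have h3 := dc_num (by exact_mod_cast hs) (by linarith) (dc_sq s o ho g hg)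
  refine (norm_add_le _ _).trans (le_trans (add_le_add ?_ ?_) h3)
  · rw [norm_mul]
    exact mul_le_of_le_one_left (norm_nonneg _) hφ
  · rw [norm_mul, Complex.norm_real, Real.norm_of_nonneg (by positivity)]

theorem dc_iter {r : ℕ} (hr : 3 ≤ r) :
    √(r : ℝ) / 3 ≤ (fun x : ℝ => (1 - 2 / (r : ℝ) ^ 2) * x + 1 / (r * √(r : ℝ)))^[r ^ 2] 0 := by
  have h3 : (3 : ℝ) ≤ r := by exact_mod_cast hr
  have h0 : (0 : ℝ) < r := by linarith
  have hs := Real.sq_sqrt h0.le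
  have hs0 := Real.sqrt_pos.2 h0
  have h1 : ∀ k, (fun x : ℝ => (1 - 2 / (r : ℝ) ^ 2) * x + 1 / (r * √(r : ℝ)))^[k] 0 =
      √(r : ℝ) / 2 * (1 - (1 - 2 / (r : ℝ) ^ 2) ^ k) := by
    intro k
    induction k with
    | zero => simp
    | succ k ih =>
      have e : 1 / (r * √(r : ℝ)) = √(r : ℝ) / (r : ℝ) ^ 2 := by
        field_simp
        rw [hs]
      rw [Function.iterate_succ_apply', ih, e]
      ring
  have h2 : (1 - 2 / (r : ℝ) ^ 2) ^ (r ^ 2) ≤ Real.exp (-2) := by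
    have h4 : 0 ≤ 1 - 2 / (r : ℝ) ^ 2 := by
      rw [sub_nonneg, div_le_one (by positivity)]
      nlinarith
    have h5 := Real.add_one_le_exp (-(2 / (r : ℝ) ^ 2))
    refine (pow_le_pow_left₀ h4 (b := Real.exp (-(2 / (r : ℝ) ^ 2))) (by linarith) _).trans_eq ?_
    rw [← Real.exp_nat_mul]
    congr 1
    push_cast
    field_simp
  have h4 : Real.exp (-2) ≤ 1 / 3 := by
    rw [Real.exp_neg, ← one_div]
    exact one_div_le_one_div_of_le (by norm_num) (by linarith [Real.add_one_le_exp 2])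
  rw [h1]
  nlinarith

theorem exists_top {ι : Type} (s : Finset ι) (o : ι → ℝ) (ho : Set.InjOn o s) {M : ℕ} (hM : 0 < M)
    (h : M ≤ s.card) : ∃ i₀ ∈ s, (s.filter fun i => o i₀ ≤ o i).card = M := by
  classical
  induction s using Finset.strongInduction with
  | H s ih =>
    obtain ⟨i₀, h0, h1⟩ := exists_min_image s o (card_pos.1 (by omega))
    rcases h.eq_or_lt with h | h
    · exact ⟨i₀, h0, by rw [filter_true_of_mem h1, h]⟩
    obtain ⟨i₁, h2, h3⟩ := ih (s.erase i₀) (erase_ssubset h0)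
      (ho.mono (coe_subset.2 (erase_subset _ _))) (by rw [card_erase_of_mem h0]; omega)
    obtain ⟨h4, h5⟩ := mem_erase.1 h2
    refine ⟨i₁, h5, ?_⟩
    rw [← h3, filter_erase, erase_eq_of_notMem]
    exact fun h6 => h4 (ho h5 h0 (le_antisymm (mem_filter.1 h6).2 (h1 _ h5)))

theorem exists_indep {ι : Type} (o : ι → ℝ) (D : Finset ℝ) (r : ℕ) (s : Finset ι)
    (ho : Set.InjOn o s) (h : r * (2 * D.card + 1) ≤ s.card) :
    ∃ t ⊆ s, t.card = r ∧ ∀ i ∈ t, ∀ i' ∈ t, i ≠ i' → o i - o i' ∉ D := by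
  classical
  induction r generalizing s with
  | zero => exact ⟨∅, empty_subset _, rfl, by simp⟩
  | succ r ih =>
    obtain ⟨i₀, h0⟩ := card_pos.1 (show 0 < s.card by nlinarith)
    have h1 : (s.filter fun i => o i₀ - o i ∈ D).card ≤ D.card :=
      card_le_card_of_injOn (fun i => o i₀ - o i) (fun i hi => (mem_filter.1 (mem_coe.1 hi)).2)
        fun i hi i' hi' e => ho (mem_filter.1 (mem_coe.1 hi)).1 (mem_filter.1 (mem_coe.1 hi')).1
          (sub_right_injective e)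
    have h2 : (s.filter fun i => o i - o i₀ ∈ D).card ≤ D.card :=
      card_le_card_of_injOn (fun i => o i - o i₀) (fun i hi => (mem_filter.1 (mem_coe.1 hi)).2)
        fun i hi i' hi' e => ho (mem_filter.1 (mem_coe.1 hi)).1 (mem_filter.1 (mem_coe.1 hi')).1
          (sub_left_injective e)
    set X := insert i₀ ((s.filter fun i => o i₀ - o i ∈ D) ∪ s.filter fun i => o i - o i₀ ∈ D)
      with hX
    have h3 : X.card ≤ 2 * D.card + 1 :=
      (card_insert_le _ _).trans (Nat.succ_le_succ ((card_union_le _ _).trans (by omega)))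
    have h4 := card_le_card_sdiff_add_card (s := s) (t := X)
    obtain ⟨t, h5, h6, h7⟩ := ih (s \ X) (ho.mono (coe_subset.2 sdiff_subset)) (by nlinarith)
    have h8 : ∀ i ∈ t, i ≠ i₀ ∧ o i₀ - o i ∉ D ∧ o i - o i₀ ∉ D := fun i hi => by
      have := mem_sdiff.1 (h5 hi)
      simpa [hX, this.1, not_or] using this.2
    refine ⟨insert i₀ t, insert_subset h0 (h5.trans sdiff_subset), ?_, fun i hi i' hi' hne => ?_⟩
    · rw [card_insert_of_notMem fun h9 => (h8 _ h9).1 rfl, h6]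
    · rcases mem_insert.1 hi with e | h9 <;> rcases mem_insert.1 hi' with e' | h9'
      · exact absurd (e.trans e'.symm) hne
      · exact e ▸ (h8 _ h9').2.1
      · exact e' ▸ (h8 _ h9).2.2
      · exact h7 i h9 i' h9' hne

end Pool.Agent.GT
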