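import Pool.Agent.Lib.MP_a01f70_lc.GT.KDC1

/-! The construction of Davenport and Cohen: one step. -/

noncomputable section

namespace Pool.Agent.GT
open Finset Pool.Agent.GK

theorem exists_unit {z : ℂ} (hz : z ≠ 0) : ∃ c : ℂ, ‖c‖ = 1 ∧ c * z = (‖z‖ : ℝ) := by
  have h : (‖z‖ : ℂ) ≠ 0 := by exact_mod_cast norm_ne_zero_iff.2 hz
  refine ⟨‖z‖ / z, ?_, div_mul_cancel₀ _ hz⟩
  rw [norm_div, Complex.norm_real, norm_norm, div_self (norm_ne_zero_iff.2 hz)]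

theorem dc_step {A ι : Type} [AddCommGroup A] (o : A → ℝ) (s : A → ℂ) {t : Finset ι} {G : ι → ℂ}
    {f : ι → A} (hb : Bdd t G f) {u : Finset A} (hu : 3 ≤ u.card) (ho : Set.InjOn o u)
    (h1 : ∀ a ∈ u, 1 ≤ ‖s a‖)
    (h0 : ∀ i ∈ t, ∀ a ∈ u, ∀ a' ∈ u, o a' < o a → s (f i + a - a') = 0) :
    ∃ (ι' : Type) (t' : Finset ι') (G' : ι' → ℂ) (f' : ι' → A), Bdd t' G' f' ∧
      t'.card ≤ t.card * (1 + u.card ^ 2) + u.card ∧
      (∀ i' ∈ t', (∃ i ∈ t, f' i' = f i) ∨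
        (∃ i ∈ t, ∃ a ∈ u, ∃ a' ∈ u, o a' < o a ∧ f' i' = f i + a - a') ∨ f' i' ∈ u) ∧
      (1 - 2 / (u.card : ℝ) ^ 2) * (∑ i ∈ t, G i * s (f i)).re + 1 / (u.card * √(u.card : ℝ)) ≤
        (∑ i ∈ t', G' i * s (f' i)).re := by
  choose! c hc1 hc2 using fun a (ha : a ∈ u) =>
    exists_unit (norm_pos_iff.1 (one_pos.trans_le (h1 a ha)))
  have hr : (0 : ℝ) < u.card := by exact_mod_cast (by omega : 0 < u.card)
  have hP : ∀ p ∈ t ×ˢ ((u ×ˢ u).filter fun p => o p.2 < o p.1),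
      p.1 ∈ t ∧ p.2.1 ∈ u ∧ p.2.2 ∈ u ∧ o p.2.2 < o p.2.1 := fun p hp => by
    simpa [and_assoc] using hp
  refine ⟨ι ⊕ (ι × A × A) ⊕ A,
    t.disjSum ((t ×ˢ ((u ×ˢ u).filter fun p => o p.2 < o p.1)).disjSum u),
    Sum.elim (fun i => (1 - 2 / (u.card : ℝ) ^ 2 : ℝ) * G i) (Sum.elim
      (fun p => -((1 / (u.card : ℝ) ^ 3 : ℝ) * (G p.1 * (c p.2.1 * (starRingEnd ℂ) (c p.2.2)))))
      fun a => (1 / ((u.card : ℝ) ^ 2 * √(u.card : ℝ)) : ℝ) * c a),
    Sum.elim f (Sum.elim (fun p => f p.1 + p.2.1 - p.2.2) id), fun Θ => ?_, ?_, ?_, ?_⟩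
  · refine le_trans (le_of_eq ?_) (dc_norm u hu o ho (fun a => c a * ee (Θ a))
      (fun a ha => by rw [norm_mul, hc1 a ha, norm_ee, mul_one]) (hb Θ))
    congr 1
    simp only [sum_disjSum, Sum.elim_inl, Sum.elim_inr, id, sum_product]
    rw [mul_sub, mul_left_comm, sum_mul_sum, sum_mul, mul_sum, mul_sum,
      sub_eq_add_neg (∑ i ∈ t, _), add_assoc, ← sum_neg_distrib]
    refine congrArg₂ _ (sum_congr rfl fun i _ => by ring) (congrArg₂ _
      (sum_congr rfl fun i _ => ?_) (sum_congr rfl fun i _ => by ring))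
    rw [mul_sum, ← sum_neg_distrib]
    refine sum_congr rfl fun p _ => ?_
    rw [sub_eq_add_neg, map_add, map_add, map_neg, ee_add, ee_add, ee_neg, map_mul]
    ring
  · have h2 := card_filter_le (u ×ˢ u) fun p => o p.2 < o p.1
    rw [card_product, ← sq] at h2
    rw [card_disjSum, card_disjSum, card_product]
    nlinarith [Nat.mul_le_mul_left t.card h2]
  · rintro (i | p | a) hi
    · exact Or.inl ⟨i, by simpa using hi, rfl⟩
    · obtain ⟨h2, h3, h4, h5⟩ := hP p (by simpa only [inr_mem_disjSum, inl_mem_disjSum] using hi)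
      exact Or.inr (Or.inl ⟨p.1, h2, p.2.1, h3, p.2.2, h4, h5, rfl⟩)
    · exact Or.inr (Or.inr (by simpa using hi))
  · simp only [sum_disjSum, Sum.elim_inl, Sum.elim_inr, id, mul_assoc]
    rw [sum_eq_zero (s := t ×ˢ _) fun p hp => by
      obtain ⟨h2, h3, h4, h5⟩ := hP p hp
      rw [h0 _ h2 _ h3 _ h4 h5, mul_zero], zero_add, ← mul_sum, ← mul_sum, sum_congr rfl hc2,
      Complex.add_re, Complex.re_ofReal_mul, Complex.re_ofReal_mul, ← Complex.ofReal_sum,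
      Complex.ofReal_re]
    have h2 := card_nsmul_le_sum u _ 1 h1
    rw [nsmul_one] at h2
    refine add_le_add le_rfl (le_trans (le_of_eq ?_) (mul_le_mul_of_nonneg_left h2 (by positivity)))
    field_simp

end Pool.Agent.GT
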