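import Pool.Agent.Lib.MP_a01f70_lc.GT.U1
import Pool.Agent.Lib.MP_a01f70_lc.GT.KDC

/-! Finitely many trivial torsion elements: the active classes and one step down. -/

namespace Pool.Agent.GT.Fr
open Finset Pool.Agent.GK

variable {F : Fr} {d : ℕ → ℕ} {θ : F.Ch} {κ : ℂ} {Ω : Finset F.G} {ν : ℕ}

theorem kf_half {x : Tc} (h0 : x ≠ 0) (h2 : 2 • x = 0) : ‖x‖ = 1 / 2 := by
  obtain ⟨r, rfl, hr⟩ := exists_coe_norm x
  have h3 := AddCircle.norm_le_half_period (1 : ℝ) (x := (r : Tc)) one_ne_zero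
  rw [← AddCircle.coe_nsmul, AddCircle.coe_eq_zero_iff] at h2
  obtain ⟨n, hn⟩ := h2
  rw [zsmul_one, nsmul_eq_mul, Nat.cast_ofNat] at hn
  have h4 : n ≠ 0 := by
    rintro rfl
    refine h0 ?_
    rw [show r = 0 by push_cast at hn; linarith]
    rfl
  have h5 : (1 : ℝ) ≤ |(n : ℝ)| := by exact_mod_cast Int.one_le_abs h4
  rw [hn, abs_mul, abs_two] at h5
  rw [abs_one] at h3
  linarith

theorem db_σ (γ : F.G) (b : F.B) : F.db (F.mn (γ + F.σ) * b) = 2 • F.db (F.mn γ * b) := by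
  rw [mn_add_σ, smul_mul_assoc, map_nsmul]

theorem co_ne_of_db {x : F.B} (h : F.db x ≠ 0) : F.co x ≠ 0 := fun h0 => h (by
  rw [db_eq, h0]
  rfl)

theorem kf_norm (hχ : ∀ η ∈ F.J2 d, F.chi θ η = 0)
    (htf : ∀ (m : ℕ) (η : F.B), 0 < m → m • η ∈ F.J2 d → η ∈ F.J2 d)
    (hΩ : ∀ ω, ω ∈ Ω ↔ ω ∈ F.KI (F.J2 d)) (u b f : F.B) (a : ℤ) (ha : Odd a) :
    ‖F.SS d (F.J2 d) u b f a‖ ≤ 2 * Ω.card := by
  classical
  by_cases h : ∀ γ, f + a • F.mn γ ∉ F.J2 d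
  · rw [SS_zero h, norm_zero]
    positivity
  push Not at h
  obtain ⟨γ₀, h0⟩ := h
  rw [SS_eq_sum (Ω.image (γ₀ + ·)) ?_ ?_]
  · refine (norm_sum_le _ _).trans ((sum_le_card_nsmul _ _ 2 fun γ _ => ?_).trans ?_)
    · rw [norm_mul, norm_ee, one_mul]
      refine (norm_sub_le _ _).trans ?_
      rw [norm_ee, norm_one, one_add_one_eq_two]
    · rw [nsmul_eq_mul, mul_comm]
      exact mul_le_mul_of_nonneg_left (Nat.cast_le.2 card_image_le) zero_le_two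
  · intro γ hγ
    obtain ⟨ω, hω, rfl⟩ := mem_image.1 hγ
    have := add_mem h0 (Ideal.mul_mem_left _ (a • F.mn γ₀) ((hΩ ω).1 hω).2)
    convert this using 1
    rw [mn_add]
    simp only [zsmul_eq_mul]
    ring
  · intro γ hγ _
    refine mem_image.2 ⟨γ - γ₀, (hΩ _).2 ((mem_iff_KI hχ).1 ?_), add_sub_cancel _ _⟩
    have h1 : a • (-F.mn γ₀ + (1 : ℤ) • F.mn γ) ∈ F.J2 d := by
      convert sub_mem hγ h0 using 1
      simp only [zsmul_eq_mul]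
      push_cast
      ring
    have h2 : a ≠ 0 := by
      rintro rfl
      exact absurd ha (by decide)
    refine htf a.natAbs _ (Int.natAbs_pos.2 h2) ?_
    rw [← natCast_zsmul, Int.natCast_natAbs]
    rcases abs_choice a with h3 | h3
    · rwa [h3]
    · rw [h3, neg_smul]
      exact neg_mem h1

theorem kf_classes (hκ : 1 / 2 ≤ ‖κ‖) (hχ : ∀ η ∈ F.J2 d, F.chi θ η = 0)
    (htf : ∀ (m : ℕ) (η : F.B), 0 < m → m • η ∈ F.J2 d → η ∈ F.J2 d)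
    (hΩ : ∀ ω, ω ∈ Ω ↔ ω ∈ F.KI (F.J2 d)) (hν : ∀ ω ∈ Ω, F.WtB ν (F.xi d ω)) (C : ℝ) (k : ℕ) :
    ∃ M : ℕ, ∀ u b : F.B, F.WtB k u → MF (F.SS d (F.J2 d) u b) κ C → ∀ t : Finset F.G,
      (∀ γ ∈ t, ∀ γ' ∈ t, γ - γ' ∈ F.K0 θ → γ = γ') →
      (∀ γ ∈ t, 1 / 4 ≤ ‖F.db (F.mn γ * b)‖) → t.card ≤ M := by
  classical
  obtain ⟨M, hM⟩ := rs C (2 * Ω.card) (c₀ := 1 / 4) (by norm_num)
  set τ : ℝ := 1 / (52 * (Ω.card + 1)) with hτ
  have hτ0 : 0 < τ := by positivity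
  obtain ⟨B₀, hB₀⟩ := exists_nat_ge (Ω.card * ((ν * k : ℕ) / τ))
  refine ⟨M + B₀, fun u b hu h t h1 h2 => ?_⟩
  have hbad := card_bad Ω (fun ω => F.xi d ω * u) (fun ω hω => (hν ω hω).mul hu) hτ0 t
  have hgood := hM F d θ _ κ u b hκ le_rfl hχ h (kf_norm hχ htf hΩ u b)
    (t.filter fun γ => ∀ ω ∈ Ω, ‖F.db (F.mn γ * (F.xi d ω * u))‖ ≤ τ)
    (fun γ hγ γ' hγ' => h1 γ (mem_filter.1 hγ).1 γ' (mem_filter.1 hγ').1) ?_
  · have h3 := card_filter_add_card_filter_not (s := t)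
      fun γ => ∀ ω ∈ Ω, ‖F.db (F.mn γ * (F.xi d ω * u))‖ ≤ τ
    have h4 := Nat.cast_le.1 (hbad.trans hB₀)
    omega
  · intro γ hγ
    obtain ⟨h3, h4⟩ := mem_filter.1 hγ
    refine le_trans ?_ (SS_lower le_rfl hχ u b γ Ω (fun ω hω => (hΩ ω).1 hω)
      (fun ω hω _ => (hΩ ω).2 hω) hτ0.le h4)
    have h5 := pow_le_pow_left₀ (by norm_num) (h2 γ h3) 2
    have h6 : 13 * τ * Ω.card ≤ 1 / 4 := by
      rw [hτ, le_div_iff₀ (by norm_num)]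
      field_simp
      linarith
    linarith

open Classical in
theorem kf_phase (hν : ∀ ω ∈ Ω, F.WtB ν (F.xi d ω)) {k : ℕ} {u : F.B} (hu : F.WtB k u)
    (A : Finset F.G) (hA : ∀ γ ∈ A, ∀ γ' ∈ A, γ - γ' ∈ F.Tor) :
    (A.filter fun γ => ¬ ∀ ω ∈ Ω, F.db (F.mn γ * (F.xi d ω * u)) = 0).card ≤ Ω.card * (ν * k) := by
  have h1 : (A.filter fun γ => ¬ ∀ ω ∈ Ω, F.db (F.mn γ * (F.xi d ω * u)) = 0) ⊆
      Ω.biUnion fun ω => A.filter fun γ => F.co (F.mn γ * (F.xi d ω * u)) ≠ 0 := by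
    intro γ hγ
    obtain ⟨h2, h3⟩ := mem_filter.1 hγ
    push Not at h3
    obtain ⟨ω, h4, h5⟩ := h3
    exact mem_biUnion.2 ⟨ω, h4, mem_filter.2 ⟨h2, co_ne_of_db h5⟩⟩
  refine (card_le_card h1).trans (card_biUnion_le_card_mul _ _ _ fun ω hω => ?_)
  obtain ⟨s, hs, h2⟩ := ((hν ω hω).mul hu).co_lines
  exact (card_coset h2 _ (fun γ hγ => (mem_filter.1 hγ).2) fun γ hγ γ' hγ' =>
    hA γ (mem_filter.1 hγ).1 γ' (mem_filter.1 hγ').1).trans hs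

open Classical in
theorem kf_step (hκ : 1 / 2 ≤ ‖κ‖) (hχ : ∀ η ∈ F.J2 d, F.chi θ η = 0)
    (htf : ∀ (m : ℕ) (η : F.B), 0 < m → m • η ∈ F.J2 d → η ∈ F.J2 d)
    (hΩ : ∀ ω, ω ∈ Ω ↔ ω ∈ F.KI (F.J2 d)) (hν : ∀ ω ∈ Ω, F.WtB ν (F.xi d ω)) (C : ℝ) (k e : ℕ) :
    ∃ T : ℕ, ∀ u b : F.B, F.WtB k u → MF (F.SS d (F.J2 d) u b) κ C → ∀ (γ : F.G) (A : Finset F.G),
      (∀ γ', γ' ∈ A ↔ γ' - γ ∈ F.K0 θ ∧ F.db (F.mn γ' * b) ≠ 0) →
      (A.filter fun γ' => F.db (F.mn (γ' + F.σ) * b) ≠ 0).card ≤ e → A.card ≤ T := by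
  obtain ⟨T, hT⟩ := dc C (e + Ω.card * (ν * k))
  refine ⟨Ω.card * (e + Ω.card * (ν * k) + T), fun u b hu h γ A hA he => ?_⟩
  obtain ⟨o', ho'⟩ := exists_ord (Q := F.B ⧸ F.J2 d) (fun M q hM hq => by
    obtain ⟨η, rfl⟩ := Ideal.Quotient.mk_surjective q
    rw [← map_nsmul, Ideal.Quotient.eq_zero_iff_mem] at hq
    exact Ideal.Quotient.eq_zero_iff_mem.2 (htf M η hM hq))
    (A.image fun γ' => Ideal.Quotient.mk (F.J2 d) (-F.mn γ'))
  set o : F.B →+ ℝ := o'.comp (Ideal.Quotient.mk (F.J2 d)).toAddMonoidHom with ho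
  have ho1 : ∀ x, o x = o' (Ideal.Quotient.mk (F.J2 d) x) := fun x => rfl
  set A₁ := A.filter fun γ' => F.db (F.mn (γ' + F.σ) * b) = 0 ∧
    ∀ ω ∈ Ω, F.db (F.mn γ' * (F.xi d ω * u)) = 0 with hA₁
  obtain ⟨big, hb1, hb2, hb3⟩ := exists_subset_injOn_image_eq_of_surjOn (f := o)
    ((fun γ' => -F.mn γ') '' (A₁ : Set F.G)) (A₁.image fun γ' => o (-F.mn γ')) (by
      intro v hv
      obtain ⟨γ', h1, rfl⟩ := mem_image.1 (mem_coe.1 hv)
      exact ⟨_, ⟨γ', mem_coe.2 h1, rfl⟩, rfl⟩)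
  have hfew : ((A.image fun γ' => o (-F.mn γ')) \ big.image o).card ≤ e + Ω.card * (ν * k) := by
    have h1 : (A.image fun γ' => o (-F.mn γ')) \ big.image o ⊆
        ((A.filter fun γ' => F.db (F.mn (γ' + F.σ) * b) ≠ 0) ∪
          A.filter fun γ' => ¬ ∀ ω ∈ Ω, F.db (F.mn γ' * (F.xi d ω * u)) = 0).image
            fun γ' => o (-F.mn γ') := by
      intro v hv
      obtain ⟨h2, h3⟩ := mem_sdiff.1 hv
      obtain ⟨γ', h4, rfl⟩ := mem_image.1 h2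
      refine mem_image_of_mem _ (mem_union.2 ?_)
      by_contra h5
      simp only [mem_filter, h4, true_and, not_or, not_not] at h5
      exact h3 (hb3 ▸ mem_image_of_mem _ (mem_filter.2 ⟨h4, h5⟩))
    refine (card_le_card h1).trans (card_image_le.trans ((card_union_le _ _).trans
      (add_le_add he (kf_phase hν hu A fun a ha a' ha' => ?_))))
    have := F.Tor.sub_mem ((hA a).1 ha).1.1 ((hA a').1 ha').1.1
    rwa [sub_sub_sub_cancel_right] at this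
  have hbig := hT F.B {f | F.chi θ f = F.chi θ (-F.mn γ)} o
    (fun f => κ * F.SS d (F.J2 d) u b f 1) (A.image fun γ' => o (-F.mn γ')) big
    ⟨fun p hp f hf f' hf' => ?_, fun f hf h0 => ?_, fun f hf => ?_, hb2, hfew⟩
    fun ι t G f hf hb => ?_
  · have h1 := card_le_card_sdiff_add_card (s := A.image fun γ' => o (-F.mn γ'))
      (t := big.image o)
    have h2 := card_image_le (s := big) (f := o)
    refine (card_le_mul_card_image (f := fun γ' => o (-F.mn γ')) A Ω.card fun v hv => ?_).trans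
      (Nat.mul_le_mul_left _ (by omega))
    obtain ⟨γ₁, h3, rfl⟩ := mem_image.1 hv
    refine (card_le_card (t := Ω.image (γ₁ + ·)) fun γ₂ h4 => ?_).trans card_image_le
    obtain ⟨h5, h6⟩ := mem_filter.1 h4
    have h7 := ho' (mem_coe.2 (mem_image_of_mem _ h3)) (mem_coe.2 (mem_image_of_mem _ h5)) h6.symm
    refine mem_image.2 ⟨γ₂ - γ₁, (hΩ _).2 ((mem_iff_KI hχ).1 ?_), add_sub_cancel _ _⟩
    rw [one_smul, ← sub_neg_eq_add]
    exact Ideal.Quotient.eq.1 h7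
  · simp only [Set.mem_ofPred_eq] at hp hf hf' ⊢
    rw [map_sub, map_add, hp, hf, hf', add_sub_cancel_right]
  · obtain ⟨γ', h1, h2⟩ := SS_ne (right_ne_zero_of_mul h0)
    have h3 := hχ _ h1
    rw [map_add, show F.chi θ f = _ from hf, ← map_add, add_comm, ← sub_eq_add_neg,
      ← one_smul ℤ (F.mn γ)] at h3
    refine mem_image.2 ⟨γ', (hA γ').2 ⟨(pf odd_one odd_one h3).2, h2⟩, ?_⟩
    have h4 : f - -F.mn γ' ∈ F.J2 d := by rwa [sub_neg_eq_add, ← one_smul ℤ (F.mn γ')]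
    rw [ho1, ho1, Ideal.Quotient.eq.2 h4]
  · obtain ⟨γ', h1, rfl⟩ := hb1 (mem_coe.2 hf)
    obtain ⟨h2, h3, h4⟩ := mem_filter.1 (mem_coe.1 h1)
    obtain ⟨h5, h6⟩ := (hA γ').1 h2
    refine ⟨by simp only [Set.mem_ofPred_eq, map_neg, chi_mn_eq h5], ?_⟩
    have h7 := SS_lower le_rfl hχ u b γ' Ω (fun ω hω => (hΩ ω).1 hω)
      (fun ω hω _ => (hΩ ω).2 hω) le_rfl fun ω hω => by rw [h4 ω hω, norm_zero]
    rw [kf_half h6 (by rwa [db_σ] at h3)] at h7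
    rw [norm_mul]
    nlinarith
  · have h1 := h ι t G f (fun _ => 0) hb (fun _ _ => le_rfl) fun i hi a ha h3 => by
      rw [SS_other hχ u b (hf i hi) ha (by rintro rfl; simp at h3), norm_zero, zero_mul]
    rw [sum_congr rfl fun i hi => by
      rw [SS_other hχ u b (hf i hi) odd_neg_one (by decide), mul_zero, add_zero]] at h1
    simpa using h1

end Pool.Agent.GT.Fr
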