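import Pool.Agent.Lib.MP_a01f70_lc.GT.Kf1

/-! The case of finitely many trivial torsion elements: uniform bound for the weight. -/

namespace Pool.Agent.GT.Fr
open Finset Pool.Agent.GK

variable {F : Fr} {d : ℕ → ℕ} {θ : F.Ch} {κ : ℂ} {C₀ : ℝ}

theorem kf_iter (Ψ : ℕ → ℕ) : ∃ p : ℕ → ℕ, Monotone p ∧ ∀ (n : ℕ → ℕ) (act : ℕ → Prop)
    [DecidablePred act], n 0 = 0 → (∀ i e, n i ≤ e → n (i + 1) ≤ Ψ e) →
      (∀ i, ¬ act i → n (i + 1) ≤ n i) → ∀ i, n i ≤ p (Nat.count act i) := by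
  refine ⟨fun j => (fun x => max x (Ψ x))^[j] 0, monotone_nat_of_le_succ fun j => ?_,
    fun n act _ h0 h1 h2 i => ?_⟩
  · rw [Function.iterate_succ_apply']
    exact le_max_left _ _
  · induction i with
    | zero => exact h0.le.trans (Nat.zero_le _)
    | succ i ih =>
      rw [Nat.count_succ]
      split_ifs with h
      · simp only [Function.iterate_succ_apply']
        exact (h1 i _ ih).trans (le_max_right _ _)
      · exact (h2 i h).trans ih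

theorem kf_set (θ : F.Ch) (b : F.B) (γ : F.G) :
    ∃ A : Finset F.G, ∀ γ', γ' ∈ A ↔ γ' - γ ∈ F.K0 θ ∧ F.db (F.mn γ' * b) ≠ 0 := by
  have h : {γ' | γ' - γ ∈ F.K0 θ ∧ F.db (F.mn γ' * b) ≠ 0}.Finite :=
    ((finite_coset b γ).image (γ + ·)).subset fun γ' h => ⟨γ' - γ, ⟨h.1.1, by
      rw [add_sub_cancel]
      exact co_ne_of_db h.2⟩, add_sub_cancel _ _⟩
  exact ⟨h.toFinset, fun γ' => h.mem_toFinset⟩

theorem kf_high (b : F.B) (γ : F.G) :
    ∃ H : ℕ, ∀ γ', γ' - (γ + (H : ℤ) • F.σ) ∈ F.Tor → F.db (F.mn γ' * b) = 0 := by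
  choose H hH using fun ω => F.db_high (F.mn (γ + ω) * b)
  refine ⟨(finite_coset b γ).toFinset.sup H, fun γ' h => ?_⟩
  generalize hL : (finite_coset b γ).toFinset.sup H = L at h
  obtain ⟨ω, rfl⟩ : ∃ ω, γ' = γ + ω + (L : ℤ) • F.σ := ⟨γ' - (γ + (L : ℤ) • F.σ), by abel⟩
  rw [show γ + ω + (L : ℤ) • F.σ - (γ + (L : ℤ) • F.σ) = ω by abel] at h
  by_cases h0 : F.co (F.mn (γ + ω) * b) = 0
  · rw [db_eq, co_shift, h0, mul_zero]
    rfl
  · rw [mn_add, natCast_zsmul, mn_nsmul, mn_σ, mul_right_comm, mul_comm]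
    exact hH ω L (hL ▸ le_sup ((Set.Finite.mem_toFinset _).2 ⟨h, h0⟩))

theorem kfin (hκ : 1 / 2 ≤ ‖κ‖) (hκ' : ‖κ‖ ≤ 1) (hχ : ∀ η ∈ F.J2 d, F.chi θ η = 0)
    (htf : ∀ (m : ℕ) (η : F.B), 0 < m → m • η ∈ F.J2 d → η ∈ F.J2 d)
    (h : F.MFall κ C₀ d (F.J2 d)) [Finite (F.KI (F.J2 d))] (k : ℕ) :
    ∃ S : ℕ, ∀ a ∈ F.J d, F.WtB k a → F.WtB S (F.Dm d a) := by
  classical
  obtain ⟨Ω, hΩ⟩ : ∃ Ω : Finset F.G, ∀ ω, ω ∈ Ω ↔ ω ∈ F.KI (F.J2 d) :=
    ⟨(Set.toFinite (F.KI (F.J2 d) : Set F.G)).toFinset, fun ω => Set.Finite.mem_toFinset _⟩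
  obtain ⟨ν, hν⟩ := exists_wt_all Ω (F.xi d)
  obtain ⟨M, hM⟩ := kf_classes hκ hχ htf hΩ hν (C₀ * k) k
  choose Ψ hΨ using kf_step hκ hχ htf hΩ hν (C₀ * k) k
  obtain ⟨p, hp, hit⟩ := kf_iter Ψ
  refine ⟨p M * M, ?_⟩
  rintro _ ha ⟨P, Q, hk, rfl⟩
  have hMF := h k P Q _ hk (Dm_of_J ha)
  have hu : F.WtB k (F.sm Q) := (wtB_sm Q).mono (by omega)
  generalize F.Dm d (F.sm P - F.sm Q) = b at hMF
  obtain ⟨Act, hAct⟩ : ∃ s : Finset F.G, ∀ γ, γ ∈ s ↔ 1 / 4 ≤ ‖F.db (F.mn γ * b)‖ :=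
    ⟨(finite_big b (by norm_num)).toFinset, fun γ => Set.Finite.mem_toFinset _⟩
  set q : F.G → F.G ⧸ F.K0 θ := QuotientAddGroup.mk with hq
  have hq' : ∀ γ γ', q γ = q γ' ↔ γ - γ' ∈ F.K0 θ := fun γ γ' => QuotientAddGroup.eq_iff_sub_mem
  have hcl : (Act.image q).card ≤ M := by
    obtain ⟨t, h1, h2, h3⟩ := exists_subset_injOn_image_eq_of_surjOn (f := q) (Act : Set F.G)
      (Act.image q) (by rw [coe_image]; exact Set.surjOn_image _ _)
    rw [← h3, card_image_of_injOn h2]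
    exact hM _ b hu hMF t (fun γ hγ γ' hγ' h4 => h2 hγ hγ' ((hq' _ _).2 h4))
      fun γ hγ => (hAct γ).1 (h1 hγ)
  choose A hA using kf_set θ b
  have hold : ∀ γ, ((A γ).filter fun γ' => F.db (F.mn (γ' + F.σ) * b) ≠ 0).card ≤
      (A (γ + F.σ)).card := fun γ =>
    card_le_card_of_injOn (· + F.σ) (fun γ' h1 => by
      obtain ⟨h2, h3⟩ := mem_filter.1 (mem_coe.1 h1)
      exact mem_coe.2 ((hA _ _).2 ⟨by simpa using ((hA _ _).1 h2).1, h3⟩))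
      (add_left_injective _).injOn
  have hA' : ∀ γ, (A γ).card ≤ p M := by
    intro γ
    obtain ⟨H, hH⟩ := kf_high b γ
    have hs : ∀ i : ℕ, γ + ((H : ℤ) - (i + 1 : ℕ)) • F.σ + F.σ = γ + ((H : ℤ) - i) • F.σ := by
      intro i
      rw [add_assoc, ← add_one_zsmul]
      congr 2
      push_cast
      ring
    have h1 := hit (fun i => (A (γ + ((H : ℤ) - i) • F.σ)).card)
      (fun i => q (γ + ((H : ℤ) - (i + 1 : ℕ)) • F.σ) ∈ Act.image q) ?_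
      (fun i e hi => hΨ e _ b hu hMF _ _ (hA _) ((hold _).trans (by rwa [hs])))
      (fun i hi => ?_) H
    · simp only [sub_self, zero_smul, add_zero] at h1
      refine h1.trans (hp (le_trans ?_ hcl))
      rw [Nat.count_eq_card_filter_range]
      refine card_le_card_of_injOn (fun i : ℕ => q (γ + ((H : ℤ) - (i + 1 : ℕ)) • F.σ))
        (fun i hi => mem_coe.2 (mem_filter.1 (mem_coe.1 hi)).2) fun i _ i' _ h2 => ?_
      have h3 := ((hq' _ _).1 h2).1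
      rw [add_sub_add_left_eq_sub, ← sub_smul] at h3
      have := F.eq_zero_of_tor h3
      omega
    · refine card_eq_zero.2 (eq_empty_of_forall_notMem fun γ' h2 => ?_)
      obtain ⟨h3, h4⟩ := (hA _ _).1 h2
      exact h4 (hH γ' (by simpa using h3.1))
    · have h1 := hold (γ + ((H : ℤ) - (i + 1 : ℕ)) • F.σ)
      rw [hs] at h1
      refine le_trans (card_le_card fun γ' h2 => ?_) h1
      rw [mem_filter]
      refine ⟨h2, fun h3 => hi ?_⟩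
      obtain ⟨h4, h5⟩ := (hA _ _).1 h2
      refine mem_image.2 ⟨γ', (hAct _).2 ?_, (hq' _ _).2 h4⟩
      rw [kf_half h5 (by rwa [db_σ] at h3)]
      norm_num
  refine (wtB_of_active Act fun γ => (hAct γ).2).mono ?_
  refine (card_le_mul_card_image (f := q) Act (p M) fun v hv => ?_).trans
    (Nat.mul_le_mul_left _ hcl)
  obtain ⟨γ, -, rfl⟩ := mem_image.1 hv
  refine (card_le_card fun γ' h1 => ?_).trans (hA' γ)
  obtain ⟨h2, h3⟩ := mem_filter.1 h1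
  refine (hA _ _).2 ⟨(hq' _ _).1 h3, fun h4 => ?_⟩
  have := (hAct _).1 h2
  rw [h4, norm_zero] at this
  linarith

end Pool.Agent.GT.Fr
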