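import Pool.Agent.Lib.MP_a01f70_lc.GT.MS
import Pool.Agent.Lib.MP_a01f70_lc.GT.KA

/-! The case of infinitely many trivial torsion elements: the cocycle is a coboundary. -/

noncomputable section

namespace Pool.Agent.GT.Fr
open Finset Filter Pool.Agent.GK

variable {F : Fr} {d : ℕ → ℕ} {θ : F.Ch} {κ : ℂ} {C₀ : ℝ}

theorem Kinf_high (s : Finset F.B) {m : ℕ} (hm : Odd m) :
    ∃ H u : ℕ, 2 ^ H = 1 + m * u ∧ ∀ y ∈ s, F.db (2 ^ H * y) = 0 := by
  choose H₀ hH using F.db_high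
  have h1 := Nat.ModEq.pow_totient (Nat.coprime_two_left.2 hm)
  have h2 := h1.pow (s.sup H₀)
  rw [← pow_mul, one_pow] at h2
  obtain ⟨u, hu⟩ := (Nat.modEq_iff_dvd' Nat.one_le_two_pow).1 h2.symm
  refine ⟨_, u, by rw [← hu, Nat.add_sub_cancel' Nat.one_le_two_pow], fun y hy => hH y _ ?_⟩
  exact (le_sup hy).trans (Nat.le_mul_of_pos_left _ (Nat.totient_pos.2 hm.pos))

theorem Kinf_log {ν : ℕ} (h : 1 ≤ ν) : (4 * (Nat.log 2 ν + 1) + 2) ^ 2 ≤ 100 * ν := by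
  refine le_trans ?_ (Nat.mul_le_mul_left _ (Nat.pow_log_le_self 2 (by omega)))
  induction Nat.log 2 ν with
  | zero => norm_num
  | succ k ih =>
    have : k + 1 ≤ 2 ^ k := Nat.lt_two_pow_self
    rw [pow_succ 2 k]
    nlinarith

theorem Kinf_add (γ : F.G) (x y : F.KI (F.J2 d)) :
    F.mn γ * F.xi d (x + y : F.KI (F.J2 d)) = F.mn (γ + x) * F.xi d y + F.mn γ * F.xi d x := by
  rw [AddSubgroup.coe_add, xi_add x.2 y.2, mn_add]
  ring

theorem Kinf_fin (x : F.B) (γ : F.G) :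
    {y : F.KI (F.J2 d) | F.co (F.mn (γ + y) * x) ≠ 0}.Finite :=
  ((finite_coset x γ).preimage Subtype.val_injective.injOn).subset fun y hy => ⟨y.2.1, hy⟩

theorem alm_xi (hκ : 1 / 2 ≤ ‖κ‖) (_hC : 0 ≤ C₀) (hχ : ∀ η ∈ F.J2 d, F.chi θ η = 0)
    (h : F.MFall κ C₀ d (F.J2 d)) (γ : F.G) :
    Alm (400 * C₀ ^ 2) fun x : F.KI (F.J2 d) => F.co (F.mn γ * F.xi d x) := by
  classical
  refine ⟨fun x => F.co_dyadic _, fun ω => (Kinf_fin (F.xi d ω) γ).subset fun x hx h0 => hx ?_,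
    fun ω j ν s hν hs => ?_⟩
  · rw [Kinf_add, map_add, h0, zero_add]
  obtain ⟨g, hg⟩ : ∃ g, g = j • F.σ + γ := ⟨_, rfl⟩
  have hc : ∀ δ y, F.co (F.mn (g + δ) * y) = 2 ^ j * F.co (F.mn (γ + δ) * y) := fun δ y => by
    rw [hg, add_assoc, mn_add, mul_assoc, co_σ_mul]
  have hρ : ∀ y, F.db (F.mn g * y) = ((2 ^ j * F.co (F.mn γ * y) : ℝ) : Tc) := fun y => by
    have := hc 0 y
    rw [add_zero, add_zero] at this
    rw [db_eq, this]
  obtain ⟨m, hm, hm'⟩ := Dm_spec ω.2.2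
  obtain ⟨H, u, hu, hH⟩ := Kinf_high ((s.image fun x : F.KI (F.J2 d) => F.mn g * F.xi d x * (ν : F.B)) ∪
    s.image fun x : F.KI (F.J2 d) => F.mn (g + x) * F.xi d ω) hm
  have hL := Nat.lt_pow_succ_log_self one_lt_two ν
  obtain ⟨P₁, c1, e1⟩ := F.exists_sm_nat hL
  obtain ⟨P₂, c2, e2⟩ := F.exists_sm_nat ((Nat.sub_le ν 1).trans_lt hL)
  rw [Nat.cast_sub hν, Nat.cast_one] at e2
  have e3 : ∀ P, F.sm (P.map (H • F.σ + ·)) = 2 ^ H * F.sm P := fun P => by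
    rw [← mn_mul_sm, mn_nsmul, mn_σ]
  have eQ : F.sm (P₁.map (H • F.σ + ·) + (P₂ + {(ω : F.G)})) = 2 ^ H * ν + (ν - 1 + F.mn ω) := by
    rw [sm_add, sm_add, e3, sm_single, ← e1, ← e2]
  have hM := h (4 * (Nat.log 2 ν + 1) + 2) ((P₂ + {(ω : F.G)}).map (H • F.σ + ·) + P₁)
    (P₁.map (H • F.σ + ·) + (P₂ + {(ω : F.G)})) ((2 ^ H - 1) * F.xi d ω) (by simp; omega) (by
      rw [eQ, sm_add, e3, sm_add, sm_single, ← e1, ← e2]
      have hu' : (2 : F.R) ^ H = 1 + m * u := by exact_mod_cast congrArg (Nat.cast : ℕ → F.R) hu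
      have h2 : ((2 : F.B) : F.R) = 2 := rfl
      rw [xi]
      push_cast at hm' ⊢
      rw [h2, hu']
      linear_combination (u : F.R) * hm')
  have hS := MF.single hM hκ hχ g
  rw [SS_main le_rfl hχ _ _ g (s.map (Function.Embedding.subtype _))
    (fun x hx => by
      obtain ⟨y, -, rfl⟩ := mem_map.1 hx
      exact y.2)
    (fun x hx h0 => mem_map.2 ⟨⟨x, hx⟩, hs _ fun h1 => h0 (by
      rw [Kinf_add, map_add, add_eq_right] at h1
      have h2 := hc x (F.xi d ω)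
      rw [h1, mul_zero] at h2
      have h3 : F.mn (g + x) * ((2 ^ H - 1) * F.xi d ω) =
          ((2 ^ H - 1 : ℤ)) • (F.mn (g + x) * F.xi d ω) := by
        rw [zsmul_eq_mul]
        push_cast
        ring
      rw [db_eq, h3, map_zsmul, h2, smul_zero]
      rfl), rfl⟩), sum_map, eQ] at hS
  have key : ∀ x ∈ s, ee (F.db (F.mn g * (F.xi d x * (2 ^ H * ν + (ν - 1 + F.mn ω))))) *
      (ee (F.db (F.mn (g + x) * ((2 ^ H - 1) * F.xi d ω))) - 1) =
      -ee (-F.db (F.mn g * F.xi d ω)) *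
        (ee ((2 ^ j * ((ν - 1) * F.co (F.mn γ * F.xi d x) +
          F.co (F.mn γ * F.xi d (x + ω : F.KI (F.J2 d)))) : ℝ) : Tc) -
        ee ((2 ^ j * (ν * F.co (F.mn γ * F.xi d x)) : ℝ) : Tc)) := by
    intro x hx
    have a1 := hH _ (mem_union_left _ (mem_image_of_mem _ hx))
    have a2 := hH _ (mem_union_right _ (mem_image_of_mem _ hx))
    have a3 := Kinf_add g x ω
    have a4 := Kinf_add g ω x
    rw [add_comm ω x, mn_add] at a4
    have a5 : F.mn g * (F.xi d x * (2 ^ H * ν + (ν - 1 + F.mn ω))) =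
        2 ^ H * (F.mn g * F.xi d x * ν) + (F.mn g * (ν • F.xi d x - F.xi d x +
          F.xi d (x + ω : F.KI (F.J2 d))) + -(F.mn g * F.xi d ω)) := by
      rw [nsmul_eq_mul]
      linear_combination -a4
    have a6 : F.mn (g + x) * ((2 ^ H - 1) * F.xi d ω) = 2 ^ H * (F.mn (g + x) * F.xi d ω) +
        (F.mn g * (ν • F.xi d x) - F.mn g * (ν • F.xi d x - F.xi d x +
          F.xi d (x + ω : F.KI (F.J2 d)))) := by
      linear_combination a3
    have a7 : F.co (F.mn γ * (ν • F.xi d x)) = ν * F.co (F.mn γ * F.xi d x) := by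
      rw [mul_smul_comm, map_nsmul, nsmul_eq_mul]
    have a8 : F.co (F.mn γ * (ν • F.xi d x - F.xi d x + F.xi d (x + ω : F.KI (F.J2 d)))) =
        (ν - 1) * F.co (F.mn γ * F.xi d x) + F.co (F.mn γ * F.xi d (x + ω : F.KI (F.J2 d))) := by
      rw [mul_add, mul_sub, map_add, map_sub, a7]
      ring
    rw [a5, a6, map_add, map_add, map_add, map_sub, a1, a2, zero_add, zero_add, map_neg, ← a7, ← a8,
      ← hρ, ← hρ, ee_add]
    have a9 := ee_add (F.db (F.mn g * (ν • F.xi d x - F.xi d x + F.xi d (x + ω : F.KI (F.J2 d)))))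
      (F.db (F.mn g * (ν • F.xi d x)) -
        F.db (F.mn g * (ν • F.xi d x - F.xi d x + F.xi d (x + ω : F.KI (F.J2 d)))))
    rw [add_sub_cancel] at a9
    linear_combination -ee (-F.db (F.mn g * F.xi d ω)) * a9
  erw [sum_congr rfl key] at hS
  rw [← mul_sum, norm_mul, norm_neg, norm_ee, one_mul] at hS
  refine (pow_le_pow_left₀ (norm_nonneg _) hS 2).trans ?_
  have : ((4 * (Nat.log 2 ν + 1) + 2 : ℕ) : ℝ) ^ 2 ≤ 100 * ν := by exact_mod_cast Kinf_log hν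
  nlinarith [sq_nonneg C₀]

theorem exists_cob [Infinite (F.KI (F.J2 d))] {C : ℝ}
    (h : ∀ γ, Alm C fun x : F.KI (F.J2 d) => F.co (F.mn γ * F.xi d x)) :
    ∃ r : F.B, ∀ ω ∈ F.KI (F.J2 d), F.xi d ω = (F.mn ω - 1) * r := by
  classical
  have ht : ∀ x : F.KI (F.J2 d), IsOfFinAddOrder x := fun x =>
    (AddSubgroup.subtype_injective _).isOfFinAddOrder_iff.1 x.2.1
  obtain ⟨κ₀, hκ⟩ := alm_const C
  choose v hv using fun γ => (hκ _ _ ht (h γ)).1
  have ev : ∀ γ, ∀ᶠ x : F.KI (F.J2 d) in cofinite, F.co (F.mn γ * F.xi d x) = v γ := hv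
  have h1 : ∀ γ, v (γ + F.σ) = 2 * v γ := fun γ => by
    obtain ⟨x, a1, a2⟩ := ((ev γ).and (ev (γ + F.σ))).exists
    rw [← a1, ← a2, mn_add_σ, smul_mul_assoc, map_nsmul, nsmul_eq_mul, Nat.cast_ofNat]
  have h2 : ∀ γ (y : F.KI (F.J2 d)), v (γ + y) = v γ - F.co (F.mn γ * F.xi d y) := fun γ y => by
    obtain ⟨x, a1, a2⟩ := ((ev (γ + y)).and
      ((add_right_injective y).tendsto_cofinite.eventually (ev γ))).exists
    rw [Kinf_add, map_add] at a2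
    linarith
  obtain ⟨K₁, hK, hK', -⟩ := exists_finite_sub ht ∅ (κ₀ + 1)
  have := Fintype.ofFinite K₁
  choose t ht' using F.co_lines
  obtain ⟨r, hr⟩ := F.exists_of_profile (fun γ => -v γ) (fun γ => by rw [h1]; ring) (fun γ => by
      obtain ⟨x, a1⟩ := (ev γ).exists
      obtain ⟨k, z, hz⟩ := F.co_dyadic (F.mn γ * F.xi d x)
      exact ⟨k, -z, by rw [← a1, neg_mul, hz, Int.cast_neg]⟩)
    ((univ.biUnion fun ω : K₁ => t (F.xi d (ω : F.KI (F.J2 d)))).biUnion fun γ₀ =>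
      (hv γ₀).toFinset.image fun y : F.KI (F.J2 d) => γ₀ + y) (fun γ hγ => by
      have a1 : ¬ ∀ ω ∈ K₁, ∀ x : F.KI (F.J2 d), F.co (F.mn γ * F.xi d (x + ω : F.KI (F.J2 d))) =
          F.co (F.mn γ * F.xi d x) := fun a => by
        obtain ⟨x, a1⟩ := (ev γ).exists
        have := (hκ _ _ ht (h γ)).2 K₁ hK hK' a x
        rw [a1] at this
        exact hγ (by simp [this, xi_zero])
      push Not at a1
      obtain ⟨ω, hω, x, a1⟩ := a1
      rw [Kinf_add, map_add, Ne, add_eq_right] at a1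
      obtain ⟨γ₀, a2, j, a3⟩ := ht' _ _ a1
      have a4 : γ = γ₀ + (-x : F.KI (F.J2 d)) + j • F.σ := by
        rw [AddSubgroup.coe_neg, add_right_comm, ← a3, add_neg_cancel_right]
      refine ⟨γ₀ + (-x : F.KI (F.J2 d)), mem_biUnion.2 ⟨γ₀, mem_biUnion.2 ⟨⟨ω, hω⟩, mem_univ _, a2⟩,
        mem_image_of_mem _ ((hv γ₀).mem_toFinset.2 fun a5 => hγ ?_)⟩, j, a4⟩
      obtain ⟨y, b1, b2⟩ := ((ev γ).and (ev (γ₀ + (-x : F.KI (F.J2 d))))).exists
      rw [h2, a5, sub_self] at b2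
      rw [← b1, a4, add_comm, mn_add, mul_assoc, co_σ_mul, b2, mul_zero, neg_zero])
  refine ⟨r, fun ω hω => sub_eq_zero.1 (F.eq_zero_of_co fun γ => ?_)⟩
  have := h2 γ ⟨ω, hω⟩
  rw [mul_sub, sub_mul, one_mul, mul_sub, ← mul_assoc, ← mn_add, map_sub, map_sub, hr, hr]
  linarith

theorem small_of_cob [Infinite (F.KI (F.J2 d))] {r : F.B}
    (h : ∀ ω ∈ F.KI (F.J2 d), F.xi d ω = (F.mn ω - 1) * r) : F.Small (F.dR d - r) := by
  intro ε hε
  obtain ⟨L, hL⟩ := exists_nat_ge (2 / ε)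
  obtain ⟨ω, hω, hc⟩ := exists_large_order (F.KI (F.J2 d)) (fun x hx => hx.1) L
  obtain ⟨u, hu⟩ := om_mem hω.1
  have hC := (exists_om hω.1).1
  generalize addOrderOf ω = c at *
  have h1 : F.om c ∈ F.KI (F.J2 d) := hu ▸ nsmul_mem hω u
  obtain ⟨m, hm, hm'⟩ := Dm_spec h1.2
  obtain ⟨n₀, hn₀⟩ := exists_nat_ge (2 * m / ε)
  refine ⟨(fun _ => m) * fun i => 2 ^ (F.n i / c) - 1, (hC.2.and (F.big n₀)).mono fun i hi => ?_, ?_⟩
  · obtain ⟨⟨k, hk⟩, a2⟩ := hi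
    have a3 : F.n i / c = k := by rw [hk, Nat.mul_div_cancel_left _ hC.1]
    have a4 : k ≠ 0 := fun e => by have := F.two i; simp [e] at hk; omega
    have a5 : 2 ≤ 2 ^ k := by simpa using Nat.pow_le_pow_right two_pos (Nat.pos_of_ne_zero a4)
    simp only [Pi.mul_apply, a3]
    refine ⟨Nat.mul_pos hm.pos (by omega), ?_⟩
    have b1 : m * (2 ^ k - 1) ≤ 2 ^ (m + k) := by
      rw [pow_add]
      exact Nat.mul_le_mul Nat.lt_two_pow_self.le (Nat.sub_le _ _)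
    refine (Nat.cast_le.2 b1).trans ?_
    rw [Nat.cast_pow, Nat.cast_ofNat, ← Real.rpow_natCast]
    refine Real.rpow_le_rpow_of_exponent_le one_le_two ?_
    have b2 := hn₀.trans (Nat.cast_le.2 a2)
    have b3 : (L : ℝ) ≤ c := Nat.cast_le.2 hc
    have b4 := hL.trans b3
    rw [div_le_iff₀ hε] at b2 b4
    have b5 : (F.n i : ℝ) = c * k := by exact_mod_cast hk
    push_cast
    nlinarith [(Nat.cast_nonneg k : (0 : ℝ) ≤ k)]
  · have a1 : F.dR (fun i => 2 ^ (F.n i / c) - 1) = (F.mn (F.om c) - 1 : F.B) := by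
      have : ((F.mn (F.om c) - 1 : F.B) : F.R) = F.mR (F.om c) - 1 := rfl
      rw [this, mR_om c hC, ← map_one F.mkR, ← map_sub, dR]
      congr 1
      funext i
      simp [Nat.cast_sub Nat.one_le_two_pow]
    have a2 := h _ h1
    rw [xi] at a2
    rw [dR_mul, dR_const, a1]
    rw [a2] at hm'
    push_cast at hm' ⊢
    linear_combination hm'

theorem kinf (hκ : 1 / 2 ≤ ‖κ‖) (hC : 0 ≤ C₀) (hχ : ∀ η ∈ F.J2 d, F.chi θ η = 0)
    (h : F.MFall κ C₀ d (F.J2 d)) [Infinite (F.KI (F.J2 d))] :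
    ∃ r : F.B, F.Small (F.dR d - r) := by
  obtain ⟨r, hr⟩ := exists_cob fun γ => alm_xi hκ hC hχ h γ
  exact ⟨r, small_of_cob hr⟩

end Pool.Agent.GT.Fr
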