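import Pool.Agent.Lib.MP_a01f70_lc.GT.MA
import Pool.Agent.Lib.MP_a01f70_lc.GK.Lab

/-! Approximately equivariant labellings in the presence of torsion. -/

namespace Pool.Agent.GT
open Finset Filter Pool.Agent.GK

/-- as `lab_kappa` in `GK/Lab.lean`: a short relation has mean `1 ≥ -c` -/
theorem lab_kappa' (k : ℕ) {η : ℝ} (hη : 0 < η) : ∃ M : ℕ, ∀ (N : ℕ) [NeZero N]
    (Φ : (Fin k → ℤ) →+ ZMod N) (t : Fin k → Tc),
    (∀ v : Fin k → ℤ, (∀ j, |v j| ≤ M) → Φ v = 0 → ∑ j, v j • t j = 0) →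
      ∃ κ : ZMod N, ∀ l, ‖cc N (κ * Φ (Pi.single l 1)) - t l‖ < η := by
  obtain ⟨M, c, hc, h⟩ := kernel k hη
  refine ⟨M, fun N _ Φ t hΦ => ?_⟩
  have hN : (N : ℝ) ≠ 0 := Nat.cast_ne_zero.2 (NeZero.ne N)
  have h1 := h (ZMod N) (fun _ => (N : ℝ)⁻¹) (fun κ l => cc N (κ * Φ (Pi.single l 1)) - t l)
    (fun _ => by positivity) (by rw [sum_const, card_univ, ZMod.card, nsmul_eq_mul,
      mul_inv_cancel₀ hN]) fun v hv hM => by
      have e : ∀ κ : ZMod N, ∑ j, v j • (cc N (κ * Φ (Pi.single j 1)) - t j) =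
          cc N (κ * Φ v) + -∑ j, v j • t j := fun κ => by
        rw [lab_sum Φ v, mul_sum, map_sum, ← sub_eq_add_neg, ← sum_sub_distrib]
        exact sum_congr rfl fun j _ => by rw [smul_sub, mul_smul_comm, map_zsmul]
      simp only [e, ee_add]
      rw [← mul_sum, ← Complex.re_sum, ← sum_mul, sum_ee_cc]
      split_ifs with h0
      · rw [hΦ v hM h0, neg_zero, ee_zero, mul_one, Complex.natCast_re, inv_mul_cancel₀ hN]
        linarith
      · rw [zero_mul, Complex.zero_re, mul_zero]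
        linarith
  by_contra h0
  push Not at h0
  rw [sum_eq_zero fun κ _ => if_neg fun h2 => by
    obtain ⟨l, hl⟩ := h0 κ
    exact absurd (h2 l) (not_lt.2 hl)] at h1
  linarith

/-- the cyclic case: `lab s = ⌊q * fr (cc (κ s) + shift)⌋` (`lab_floor`, `lab_step`, `lab_shift`), `t l = cc q (π l)` -/
theorem lab_cyc (k q : ℕ) [NeZero q] (π : (Fin k → ℤ) →+ ZMod q) (S : Finset (Fin k → ℤ)) {ε : ℝ}
    (hε : 0 < ε) : ∃ M : ℕ, ∀ (N : ℕ) [NeZero N] (Φ : (Fin k → ℤ) →+ ZMod N),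
      (∀ v : Fin k → ℤ, (∀ j, |v j| ≤ M) → Φ v = 0 → π v = 0) →
      ∃ (lab : ZMod N → ZMod q) (bad : Finset ℕ), (bad.card : ℝ) ≤ ε * N ∧
        ∀ s : ℕ, s < N → s ∉ bad → ∀ γ ∈ S, lab (s + Φ γ) = lab s + π γ := by
  obtain ⟨R, hR⟩ := exists_nat_gt (1 / ε)
  have hR' : (0 : ℝ) < R := lt_of_le_of_lt (by positivity) hR
  have hq := NeZero.pos q
  have hq' : (0 : ℝ) < q := Nat.cast_pos.2 hq
  obtain ⟨B, hB, hS⟩ : ∃ B : ℝ, 0 < B ∧ ∀ γ ∈ S, ∑ l, |(γ l : ℝ)| ≤ B :=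
    ⟨∑ γ ∈ S, ∑ l, |(γ l : ℝ)| + 1, by positivity, fun γ hγ =>
      (single_le_sum (f := fun γ : Fin k → ℤ => ∑ l, |(γ l : ℝ)|) (fun _ _ => by positivity)
        hγ).trans (le_add_of_nonneg_right zero_le_one)⟩
  obtain ⟨M, hM⟩ := lab_kappa' k (η := (4 * R * q * B)⁻¹) (by positivity)
  refine ⟨M, fun N _ Φ hΦ => ?_⟩
  have hc : ∀ v, ∑ j, v j • cc q (π (Pi.single j 1)) = cc q (π v) := fun v => by
    rw [lab_sum π v, map_sum]
    simp only [map_zsmul]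
  obtain ⟨κ, hκ⟩ := hM N Φ (fun l => cc q (π (Pi.single l 1))) fun v h1 h2 => by
    rw [hc, hΦ v h1 h2, map_zero]
  obtain ⟨a, T, h1, h2⟩ := lab_shift N (Nat.cast_pos.1 hR') fun s => q • cc N (κ * s)
  refine ⟨fun x => ⌊q * fr (cc N (κ * x) + ((a / R / q : ℝ) : Tc))⌋ • (1 : ZMod q), T, h1.trans ?_,
    fun s hs hb γ hγ => ?_⟩
  · rw [div_le_iff₀ hR']
    rw [div_lt_iff₀ hε] at hR
    nlinarith [(Nat.cast_nonneg N : (0 : ℝ) ≤ N)]
  · have e : cc N (κ * (s + Φ γ)) + ((a / R / q : ℝ) : Tc) =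
        cc N (κ * s) + ((a / R / q : ℝ) : Tc) + (∑ l, γ l • (cc N (κ * Φ (Pi.single l 1)) -
          cc q (π (Pi.single l 1))) + ((π γ).val : ℤ) • (((q : ℝ)⁻¹ : ℝ) : Tc)) := by
      have e1 : ((π γ).val : ℤ) • (((q : ℝ)⁻¹ : ℝ) : Tc) = cc q (π γ) := by
        conv_rhs => rw [← ZMod.natCast_zmod_val (π γ), cc_natCast]
        rw [← AddCircle.coe_zsmul, zsmul_eq_mul, Int.cast_natCast, div_eq_mul_inv]
      simp only [smul_sub, sum_sub_distrib]
      rw [e1, hc, sub_add_cancel, mul_add, map_add, lab_sum Φ γ, mul_sum, map_sum, add_right_comm]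
      simp only [mul_smul_comm, map_zsmul]
    simp only [e]
    refine (lab_step hq (by simp) _ ?_).trans (by simp)
    rw [smul_add, ← AddCircle.coe_nsmul, nsmul_eq_mul (q : ℕ) (a / R / q : ℝ),
      mul_div_cancel₀ _ hq'.ne']
    refine lt_of_le_of_lt ?_ (h2 s hs hb)
    calc _ ≤ (q : ℝ) * ∑ l, |(γ l : ℝ)| * (4 * R * q * B)⁻¹ := by
          refine mul_le_mul_of_nonneg_left ((norm_sum_le _ _).trans (sum_le_sum fun l _ =>
            (norm_zsmul_le _ _).trans ?_)) hq'.le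
          exact mul_le_mul_of_nonneg_left (hκ l).le (abs_nonneg _)
      _ ≤ q * (B * (4 * R * q * B)⁻¹) := by
          rw [← sum_mul]
          gcongr
          exact hS γ hγ
      _ = _ := by field_simp

/-- `AddCommGroup.equiv_directSum_zmod_of_finite'`, union of the bad sets -/
theorem lab_core' (k : ℕ) (G : Type) [AddCommGroup G] [Fintype G] (π : (Fin k → ℤ) →+ G)
    (S : Finset (Fin k → ℤ)) {ε : ℝ} (hε : 0 < ε) : ∃ M : ℕ, ∀ (N : ℕ) [NeZero N]
      (Φ : (Fin k → ℤ) →+ ZMod N), (∀ v : Fin k → ℤ, (∀ j, |v j| ≤ M) → Φ v = 0 → π v = 0) →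
      ∃ (lab : ZMod N → G) (bad : Finset ℕ), (bad.card : ℝ) ≤ ε * N ∧
        ∀ s : ℕ, s < N → s ∉ bad → ∀ γ ∈ S, lab (s + Φ γ) = lab s + π γ := by
  classical
  obtain ⟨ι, _, q, hq, ⟨e₀⟩⟩ := AddCommGroup.equiv_directSum_zmod_of_finite' G
  have : ∀ i, NeZero (q i) := fun i => ⟨by have := hq i; omega⟩
  let e := e₀.trans (DirectSum.addEquivProd _)
  choose M hM using fun i => lab_cyc k (q i) ((Pi.evalAddMonoidHom _ i).comp
    (e.toAddMonoidHom.comp π)) S (ε := ε / (Fintype.card ι + 1)) (by positivity)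
  refine ⟨univ.sup M, fun N _ Φ hΦ => ?_⟩
  choose lab bad h1 h2 using fun i => hM i N Φ fun v a b => by
    simp [hΦ v (fun j => (a j).trans (Nat.cast_le.2 (le_sup (mem_univ i)))) b]
  refine ⟨fun x => e.symm fun i => lab i x, univ.biUnion bad, ?_, fun s hs hb γ hγ =>
    e.injective (funext fun i => ?_)⟩
  · calc ((univ.biUnion bad).card : ℝ) ≤ ∑ j, ((bad j).card : ℝ) := by
          exact_mod_cast card_biUnion_le
      _ ≤ ∑ _j : ι, ε / (Fintype.card ι + 1) * N := sum_le_sum fun j _ => h1 j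
      _ ≤ ε * N := by
        rw [sum_const, card_univ, nsmul_eq_mul, ← mul_assoc, ← mul_div_assoc]
        gcongr
        rw [div_le_iff₀ (by positivity)]
        linarith
  · simpa using h2 i s hs (fun h => hb (mem_biUnion.2 ⟨i, mem_univ i, h⟩)) γ hγ

/-- enumerate `S` by `g : Fin k → Γ`, `Φ i v = ∑ j, v j • og (g j) i`; for each of the finitely many short `v`
either `∑ v j • g j = 0` or `Φ i v ≠ 0` almost everywhere (`mkG_eq`, `mkG_og`) -/
theorem Fr.label (F : Fr) (Γ : AddSubgroup F.G) (G : Type) [AddCommGroup G] [Fintype G] (π : Γ →+ G)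
    (S : Finset Γ) {ε : ℝ} (hε : 0 < ε) :
    ∀ᶠ i in F.U, ∃ (lab : ZMod (F.n i) → G) (bad : Finset ℕ), (bad.card : ℝ) ≤ ε * F.n i ∧
      ∀ s : ℕ, s < F.n i → s ∉ bad → ∀ γ ∈ S, lab (s + F.og γ i) = lab s + π γ := by
  classical
  let g : Fin S.card → Γ := fun j => S.equivFin.symm j
  let φ : (Fin S.card → ℤ) →+ Γ := (Fintype.linearCombination ℤ g).toAddMonoidHom
  let Φ : (Fin S.card → ℤ) →+ ∀ i, ZMod (F.n i) :=
    (Fintype.linearCombination ℤ fun j => F.og (g j)).toAddMonoidHom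
  obtain ⟨M, hM⟩ := lab_core' S.card G (π.comp φ) (univ.image fun j => Pi.single j 1) hε
  have h1 : ∀ᶠ i in F.U, ∀ v ∈ Fintype.piFinset fun _ : Fin S.card => Icc (-M : ℤ) M,
      Φ v i = 0 → φ v = 0 := (eventually_all_finset _).2 fun v _ => by
    by_cases h : φ v = 0
    · exact .of_forall fun _ _ => h
    · refine (Ultrafilter.eventually_not.2 fun e => h (Subtype.ext ?_)).mono fun i a b => absurd b a
      have : F.mkG (Φ v) = F.mkG 0 := F.mkG_eq.2 e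
      simpa [Φ, φ, Fintype.linearCombination_apply, F.mkG_og, -zsmul_eq_mul] using this
  filter_upwards [h1] with i hi
  have : NeZero (F.n i) := ⟨by have := F.two i; omega⟩
  obtain ⟨lab, bad, h2, h3⟩ := hM (F.n i) ((Pi.evalAddMonoidHom _ i).comp Φ) fun v a b => by
    rw [AddMonoidHom.comp_apply, hi v (Fintype.mem_piFinset.2 fun j => mem_Icc.2 (abs_le.1 (a j))) b,
      map_zero]
  refine ⟨lab, bad, h2, fun s hs hb γ hγ => ?_⟩
  simpa [Φ, φ, g] using h3 s hs hb _ (mem_image_of_mem _ (mem_univ (S.equivFin ⟨γ, hγ⟩)))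

end Pool.Agent.GT
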