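import Pool.Agent.Lib.MP_a01f70_lc.GT.MDef0

/-! The global model: monomials, the limit on the circle, weights. -/

noncomputable section

namespace Pool.Agent.GT.Fr
open Finset Filter Topology Pool.Agent.GK

variable (F : Fr)

theorem mR_mk (x : ∀ i, ZMod (F.n i)) : F.mR (F.mkG x) = F.mkR fun i => 2 ^ (x i).val := by
  refine F.mkR_eq.2 ((F.mkG_eq.1 (F.mkG_og (F.mkG x))).mono fun i hi => ?_)
  rw [hi]

/-- `two_pow_val_add` -/
theorem mn_add (γ γ' : F.G) : F.mn (γ + γ') = F.mn γ * F.mn γ' := by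
  obtain ⟨x, rfl⟩ := F.mkG_surj γ
  obtain ⟨y, rfl⟩ := F.mkG_surj γ'
  refine Subtype.ext ?_
  change F.mR _ = F.mR _ * F.mR _
  rw [← map_add, mR_mk, mR_mk, mR_mk, ← map_mul]
  congr 1
  funext i
  exact two_pow_val_add (by have := F.two i; omega) _ _

theorem mn_zero : F.mn 0 = 1 := by
  refine Subtype.ext ?_
  change F.mR _ = 1
  rw [← map_zero F.mkG, mR_mk, ← map_one F.mkR]
  congr 1
  funext i
  simp

theorem mn_σ : F.mn F.σ = 2 := by
  refine Subtype.ext ?_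
  change F.mR _ = 2
  rw [σ, mR_mk, ← map_ofNat F.mkR]
  congr 1
  funext i
  have := two_pow_val_natCast (F.n i) 1
  rwa [Nat.cast_one, pow_one] at this

theorem mn_mul_neg (γ : F.G) : F.mn γ * F.mn (-γ) = 1 := by
  rw [← mn_add, add_neg_cancel, mn_zero]

theorem isUnit_mn (γ : F.G) : IsUnit (F.mn γ) := by
  exact IsUnit.of_mul_eq_one _ (F.mn_mul_neg γ)

theorem mn_nsmul (k : ℕ) (γ : F.G) : F.mn (k • γ) = F.mn γ ^ k := by
  induction k with
  | zero => rw [zero_smul, mn_zero, pow_zero]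
  | succ k ih => rw [succ_nsmul, mn_add, ih, pow_succ]

theorem mn_add_σ (γ : F.G) : F.mn (γ + F.σ) = 2 • F.mn γ := by
  rw [mn_add, mn_σ, two_nsmul, mul_two]

/-- `|j| < n i` almost everywhere (`big`) -/
theorem zsmul_σ_eq_zero {j : ℤ} (h : j • F.σ = 0) : j = 0 := by
  rw [σ, ← map_zsmul, ← map_zero F.mkG, mkG_eq] at h
  obtain ⟨i, h1, h2⟩ := (h.and (F.big (j.natAbs + 1))).exists
  rw [Pi.smul_apply, Pi.one_apply, zsmul_one, Pi.zero_apply,
    ZMod.intCast_zmod_eq_zero_iff_dvd] at h1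
  exact Int.eq_zero_of_dvd_of_natAbs_lt_natAbs h1 (by simpa using h2)

theorem zsmul_σ_inj {j j' : ℤ} (h : j • F.σ = j' • F.σ) : j = j' := by
  exact sub_eq_zero.1 (F.zsmul_σ_eq_zero (by rw [sub_smul, h, sub_self]))

theorem B_induction {p : F.B → Prop} (h0 : p 0) (hm : ∀ γ, p (F.mn γ))
    (ha : ∀ x y, p x → p y → p (x + y)) (hn : ∀ x, p x → p (-x)) (x : F.B) : p x := by
  have key : ∀ γ x, x ∈ AddSubgroup.closure (Set.range F.mn) →
      F.mn γ * x ∈ AddSubgroup.closure (Set.range F.mn) := fun γ x hx => by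
    induction hx using AddSubgroup.closure_induction with
    | mem y hy =>
      obtain ⟨δ, rfl⟩ := hy
      exact AddSubgroup.subset_closure ⟨_, F.mn_add γ δ⟩
    | zero => simp
    | add y z _ _ a b => exact mul_add (F.mn γ) y z ▸ add_mem a b
    | neg y _ a => exact mul_neg (F.mn γ) y ▸ neg_mem a
  have h1 : x ∈ AddSubgroup.closure (Set.range F.mn) := by
    obtain ⟨x, hx⟩ := x
    induction hx using Subring.closure_induction with
    | mem y hy =>
      obtain ⟨δ, rfl⟩ := hy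
      exact AddSubgroup.subset_closure ⟨δ, rfl⟩
    | zero => exact zero_mem _
    | one => exact AddSubgroup.subset_closure ⟨0, F.mn_zero⟩
    | add y z _ _ a b => exact add_mem a b
    | neg y _ a => exact neg_mem a
    | mul y z hy hz a b =>
      change (⟨y, hy⟩ * ⟨z, hz⟩ : F.B) ∈ _
      generalize (⟨y, hy⟩ : F.B) = y at a
      induction a using AddSubgroup.closure_induction with
      | mem y hy =>
        obtain ⟨δ, rfl⟩ := hy
        exact key _ _ b
      | zero => simp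
      | add y w _ _ a a' => exact add_mul y w _ ▸ add_mem a a'
      | neg y _ a => exact neg_mul y _ ▸ neg_mem a
  induction h1 using AddSubgroup.closure_induction with
  | mem y hy =>
    obtain ⟨δ, rfl⟩ := hy
    exact hm δ
  | zero => exact h0
  | add y z _ _ a b => exact ha _ _ a b
  | neg y _ a => exact hn _ a

theorem B_ext {S : Type} [AddCommGroup S] {Z Z' : F.B →+ S}
    (h : ∀ γ, Z (F.mn γ) = Z' (F.mn γ)) : Z = Z' := by
  ext x
  induction x using F.B_induction with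
  | h0 => simp
  | hm γ => exact h γ
  | ha x y a b => rw [map_add, map_add, a, b]
  | hn x a => rw [map_neg, map_neg, a]

theorem exists_sum_mn (x : F.B) :
    ∃ (s : Finset F.G) (c : F.G → ℤ), x = ∑ γ ∈ s, c γ • F.mn γ := by
  suffices h : ∃ c : F.G →₀ ℤ, x = c.sum fun γ a => a • F.mn γ from
    h.elim fun c hc => ⟨c.support, c, hc⟩
  induction x using F.B_induction with
  | h0 => exact ⟨0, by simp⟩
  | hm γ => exact ⟨Finsupp.single γ 1, by simp⟩
  | ha x y a b =>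
    obtain ⟨c, rfl⟩ := a
    obtain ⟨c', rfl⟩ := b
    exact ⟨c + c', (Finsupp.sum_add_index' (by simp) fun _ _ _ => add_smul _ _ _).symm⟩
  | hn x a =>
    obtain ⟨c, rfl⟩ := a
    exact ⟨-c, by rw [Finsupp.sum_neg_index (by simp)]; simp⟩

/-- The circle is compact Hausdorff: `Ultrafilter.lim`, `isCompact_univ.ultrafilter_le_nhds`,
`tendsto_nhds_unique`; additive by `Tendsto.add`; it kills `nulR`
(`QuotientAddGroup.lift` or `Ideal.Quotient` as an additive quotient). -/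
theorem dl_mk (x : ∀ i, ZMod (2 ^ F.n i - 1)) :
    Tendsto (fun i => cc (2 ^ F.n i - 1) (x i)) F.U (𝓝 (F.dl (F.mkR x))) := by
  have h : ∃ Z : F.R →+ Tc, ∀ x, Tendsto (fun i => cc (2 ^ F.n i - 1) (x i)) F.U
      (𝓝 (Z (F.mkR x))) := by
    have h1 : ∀ x : ∀ i, ZMod (2 ^ F.n i - 1), ∃ z,
        Tendsto (fun i => cc (2 ^ F.n i - 1) (x i)) F.U (𝓝 z) := fun x =>
      ⟨_, (F.U.map fun i => cc (2 ^ F.n i - 1) (x i)).le_nhds_lim⟩
    choose z hz using h1
    have h2 : ∀ x y, F.mkR x = F.mkR y → z x = z y := fun x y e => tendsto_nhds_unique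
      ((hz x).congr' ((F.mkR_eq.1 e).mono fun i hi => by simp only [hi])) (hz y)
    choose s hs using F.mkR_surj
    refine ⟨AddMonoidHom.mk' (fun r => z (s r)) fun a b => ?_, fun x => ?_⟩
    · rw [h2 (s (a + b)) (s a + s b) (by rw [map_add, hs, hs, hs])]
      exact tendsto_nhds_unique (hz _) (by simpa using (hz (s a)).add (hz (s b)))
    · rw [AddMonoidHom.mk'_apply, h2 _ _ (hs _)]
      exact hz x
  rw [dl, dif_pos h]
  exact h.choose_spec x

theorem MA_db (x : ∀ i, ZMod (F.n i)) : Tendsto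
    (fun i => ((2 ^ (x i).val / (2 ^ F.n i - 1) : ℝ) : Tc)) F.U (𝓝 (F.db (F.mn (F.mkG x)))) := by
  have := F.dl_mk fun i => 2 ^ (x i).val
  rw [← mR_mk] at this
  refine this.congr fun i => ?_
  rw [← bas2_cast, ← Nat.cast_ofNat (R := ℝ), ← Nat.cast_pow, ← cc_natCast, Nat.cast_pow,
    Nat.cast_ofNat]

theorem MA_inv : Tendsto (fun i => ((2 : ℝ) ^ F.n i - 1)⁻¹) F.U (𝓝 0) :=
  tendsto_inv_atTop_zero.comp (tendsto_atTop_add_const_right _ _
    ((tendsto_pow_atTop_atTop_of_one_lt one_lt_two).comp (tendsto_atTop.2 F.big)))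

/-- For `j ≥ 0` the value `2 ^ j / (2 ^ n - 1)` tends to `0`, and `2 ^ j` is an integer. For `j < 0`
the site is `n - |j|` and `2 ^ (n - |j|) / (2 ^ n - 1)` tends to `2 ^ j`. -/
theorem db_mn_σ (j : ℤ) : F.db (F.mn (j • F.σ)) = (((2 : ℝ) ^ j : ℝ) : Tc) := by
  have h1 : Tendsto (fun i => (((2 : ℝ) ^ j * ((2 : ℝ) ^ F.n i - 1)⁻¹ : ℝ) : Tc)) F.U (𝓝 0) := by
    have := ((AddCircle.continuous_mk' (1 : ℝ)).tendsto _).comp (F.MA_inv.const_mul ((2 : ℝ) ^ j))
    rwa [mul_zero] at this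
  rw [σ, ← map_zsmul]
  refine tendsto_nhds_unique (F.MA_db _) ?_
  obtain ⟨k, rfl | rfl⟩ := j.eq_nat_or_neg
  · rw [show (((2 : ℝ) ^ (k : ℤ) : ℝ) : Tc) = 0 from
      (AddCircle.coe_eq_zero_iff 1).2 ⟨2 ^ k, by simp⟩]
    refine h1.congr' ((F.big (k + 1)).mono fun i hi => ?_)
    simp [ZMod.val_cast_of_lt hi, div_eq_mul_inv]
  · rcases k.eq_zero_or_pos with rfl | hk
    · rw [show (((2 : ℝ) ^ (-(0 : ℕ) : ℤ) : ℝ) : Tc) = 0 by simp]
      simpa using h1
    have h2 := h1.const_add (((2 : ℝ) ^ (-k : ℤ) : ℝ) : Tc)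
    rw [add_zero] at h2
    refine h2.congr' ((F.big (k + 1)).mono fun i hi => ?_)
    obtain ⟨l, hl⟩ : ∃ l, F.n i = k + l := Nat.exists_eq_add_of_le (Nat.le_of_succ_le hi)
    have h3 : ((-(k : ℤ)) • (1 : ∀ i, ZMod (F.n i))) i = (l : ℕ) := by
      have : ((k + l : ℕ) : ZMod (F.n i)) = 0 := by rw [← hl, ZMod.natCast_self]
      simpa [neg_eq_iff_add_eq_zero] using this
    have h4 : (2 : ℝ) ^ F.n i - 1 ≠ 0 := by
      rw [← bas2_cast]
      exact Nat.cast_ne_zero.2 (bas2_ne (by omega))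
    simp only [h3, ZMod.val_cast_of_lt (show l < F.n i by omega), ← AddCircle.coe_add]
    congr 1
    rw [hl] at h4 ⊢
    rw [zpow_neg, zpow_natCast]
    field_simp
    ring

/-- For every `L` almost all `i` have `val + L ≤ n i` (else `val = n - j` with a fixed `j ≤ L` almost
everywhere: `Ultrafilter.eventually_exists_mem_iff` or `finite_biUnion_mem_iff`), so the value is at
most `2 ^ (1 - L)`. -/
theorem db_mn_of_ne {γ : F.G} (h : ∀ j : ℤ, γ ≠ j • F.σ) : F.db (F.mn γ) = 0 := by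
  obtain ⟨x, rfl⟩ := F.mkG_surj γ
  refine tendsto_nhds_unique (F.MA_db x) (tendsto_zero_iff_norm_tendsto_zero.2
    (Metric.tendsto_nhds.2 fun ε hε => ?_))
  obtain ⟨L, hL⟩ := exists_pow_lt_of_lt_one hε (show (1 / 2 : ℝ) < 1 by norm_num)
  have h1 : ∀ᶠ i in F.U, ∀ j ∈ range (L + 1), x i ≠ ((-(j : ℤ)) • (1 : ∀ i, ZMod (F.n i))) i :=
    (eventually_all_finset _).2 fun j _ => Ultrafilter.eventually_not.2 fun e =>
      h (-j) (by rw [σ, ← map_zsmul]; exact F.mkG_eq.2 e)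
  refine h1.mono fun i hi => ?_
  have h2 := F.two i
  have : NeZero (F.n i) := ⟨by omega⟩
  have h3 : (x i).val + L + 1 ≤ F.n i := by
    by_contra hc
    have h4 := (x i).val_lt
    refine hi (F.n i - (x i).val) (mem_range.2 (by omega)) ?_
    simp [Nat.cast_sub h4.le]
  have h4 : (2 : ℝ) ^ ((x i).val + L + 1) ≤ 2 ^ F.n i := pow_le_pow_right₀ one_le_two h3
  have h5 : (1 : ℝ) ≤ 2 ^ ((x i).val + L) := one_le_pow₀ one_le_two
  rw [pow_succ] at h4
  rw [dist_zero_right, norm_norm]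
  refine (norm_coe_le _).trans_lt (lt_of_le_of_lt ?_ hL)
  rw [abs_of_nonneg (div_nonneg (by positivity) (by linarith)), div_le_iff₀ (by linarith), one_div,
    inv_pow, inv_mul_eq_div, le_div_iff₀ (by positivity), ← pow_add]
  linarith

theorem sm_zero : F.sm 0 = 0 := by
  simp [sm]

theorem sm_add (P Q : Multiset F.G) : F.sm (P + Q) = F.sm P + F.sm Q := by
  simp [sm]

theorem sm_single (γ : F.G) : F.sm {γ} = F.mn γ := by
  simp [sm]

theorem mn_mul_sm (γ : F.G) (P : Multiset F.G) : F.mn γ * F.sm P = F.sm (P.map (γ + ·)) := by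
  simp [sm, ← Multiset.sum_map_mul_left, mn_add]

theorem sm_mul (P Q : Multiset F.G) :
    ∃ S : Multiset F.G, S.card = P.card * Q.card ∧ F.sm P * F.sm Q = F.sm S := by
  induction P using Multiset.induction_on with
  | empty => exact ⟨0, by simp, by simp [sm]⟩
  | cons a P ih =>
    obtain ⟨S, h1, h2⟩ := ih
    refine ⟨Q.map (a + ·) + S, by simp [h1, add_mul, add_comm], ?_⟩
    rw [← Multiset.singleton_add, sm_add, sm_add, sm_single, add_mul, mn_mul_sm, h2]

/-- binary digits -/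
theorem exists_sm_nat {z L : ℕ} (h : z < 2 ^ L) :
    ∃ P : Multiset F.G, P.card ≤ L ∧ (z : F.B) = F.sm P := by
  induction L generalizing z with
  | zero => exact ⟨0, le_rfl, by simp [show z = 0 by omega, sm]⟩
  | succ L ih =>
    obtain ⟨P, h1, h2⟩ := ih (z := z / 2) (by omega)
    have h3 : ((2 * (z / 2) : ℕ) : F.B) = F.sm (P.map (F.σ + ·)) := by
      rw [← mn_mul_sm, mn_σ, ← h2, Nat.cast_mul, Nat.cast_ofNat]
    rcases Nat.mod_two_eq_zero_or_one z with e | e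
    · exact ⟨P.map (F.σ + ·), by simpa using h1.trans (Nat.le_succ _), by rw [← h3]; congr 1; omega⟩
    · refine ⟨P.map (F.σ + ·) + {0}, by simpa using h1, ?_⟩
      rw [sm_add, sm_single, mn_zero, ← h3, ← Nat.cast_add_one]
      congr 1
      omega

variable {F}

theorem WtB.mono {k k' : ℕ} {x : F.B} (h : F.WtB k x) (hk : k ≤ k') : F.WtB k' x := by
  obtain ⟨P, Q, h1, h2⟩ := h
  exact ⟨P, Q, h1.trans hk, h2⟩

theorem WtB.neg {k : ℕ} {x : F.B} (h : F.WtB k x) : F.WtB k (-x) := by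
  obtain ⟨P, Q, h1, h2⟩ := h
  exact ⟨Q, P, by omega, by rw [h2, neg_sub]⟩

theorem WtB.add {k k' : ℕ} {x y : F.B} (h : F.WtB k x) (h' : F.WtB k' y) :
    F.WtB (k + k') (x + y) := by
  obtain ⟨P, Q, h1, rfl⟩ := h
  obtain ⟨P', Q', h2, rfl⟩ := h'
  exact ⟨P + P', Q + Q', by simp; omega, by rw [sm_add, sm_add]; ring⟩

theorem WtB.mul {k k' : ℕ} {x y : F.B} (h : F.WtB k x) (h' : F.WtB k' y) :
    F.WtB (k * k') (x * y) := by
  obtain ⟨P, Q, h1, rfl⟩ := h
  obtain ⟨P', Q', h2, rfl⟩ := h'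
  obtain ⟨S₁, a1, b1⟩ := F.sm_mul P P'
  obtain ⟨S₂, a2, b2⟩ := F.sm_mul Q Q'
  obtain ⟨S₃, a3, b3⟩ := F.sm_mul P Q'
  obtain ⟨S₄, a4, b4⟩ := F.sm_mul Q P'
  refine ⟨S₁ + S₂, S₃ + S₄, le_trans (le_of_eq ?_) (Nat.mul_le_mul h1 h2), ?_⟩
  · simp only [Multiset.card_add, a1, a2, a3, a4]
    ring
  · rw [sm_add, sm_add, ← b1, ← b2, ← b3, ← b4]
    ring

theorem wtB_mn (γ : F.G) : F.WtB 1 (F.mn γ) := by
  exact ⟨{γ}, 0, by simp, by simp [sm]⟩

theorem wtB_sm (P : Multiset F.G) : F.WtB P.card (F.sm P) := by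
  exact ⟨P, 0, by simp, by simp [sm]⟩

theorem exists_wtB (x : F.B) : ∃ k, F.WtB k x := by
  induction x using F.B_induction with
  | h0 => exact ⟨0, 0, 0, le_rfl, by simp⟩
  | hm γ => exact ⟨1, wtB_mn γ⟩
  | ha x y a b => exact a.elim fun _ a => b.elim fun _ b => ⟨_, a.add b⟩
  | hn x a => exact a.imp fun _ a => a.neg

end Pool.Agent.GT.Fr
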