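import Pool.Agent.Lib.MP_a01f70_lc.GT.MA

/-! The global model: the universal property of `B` and its coordinates. -/

noncomputable section

namespace Pool.Agent.GT.Fr
open Finset Filter Topology Pool.Agent.GK

variable (F : Fr)

theorem MB_group (s : Finset F.G) (c : F.G → ℤ) : ∃ (s' : Finset F.G) (c' : F.G → ℤ),
    (∀ γ ∈ s', ∀ γ' ∈ s', ∀ j : ℤ, γ = γ' + j • F.σ → γ = γ') ∧
    ∀ (S : Type) [AddCommGroup S] (θ : F.G → S), (∀ γ, θ (γ + F.σ) = 2 • θ γ) →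
      ∑ γ ∈ s, c γ • θ γ = ∑ γ ∈ s', c' γ • θ γ := by
  classical
  have h1 : ∀ γ : F.G, ∃ j : ℤ, γ = (γ : F.G ⧸ AddSubgroup.zmultiples F.σ).out + j • F.σ :=
    fun γ => by
      obtain ⟨⟨_, j, rfl⟩, h⟩ := QuotientAddGroup.mk_out_eq_add (AddSubgroup.zmultiples F.σ) γ
      exact ⟨-j, by rw [h]; simp⟩
  choose j hj using h1
  obtain ⟨H, hH⟩ : ∃ H : ℕ, ∀ γ ∈ s, (j γ).natAbs ≤ H :=
    ⟨s.sup fun γ => (j γ).natAbs, fun γ h => le_sup (f := fun γ => (j γ).natAbs) h⟩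
  let b : F.G → F.G := fun γ => (γ : F.G ⧸ AddSubgroup.zmultiples F.σ).out - H • F.σ
  refine ⟨s.image b, fun δ => ∑ γ ∈ s with b γ = δ, c γ * 2 ^ (j γ + H).toNat, ?_,
    fun S _ θ h => ?_⟩
  · simp only [mem_image]
    rintro _ ⟨γ, -, rfl⟩ _ ⟨γ', -, rfl⟩ k e
    have : (γ : F.G ⧸ AddSubgroup.zmultiples F.σ) = γ' := by
      refine (QuotientAddGroup.out_eq' _).symm.trans (Eq.trans (QuotientAddGroup.eq.2
        (AddSubgroup.mem_zmultiples_iff.2 ⟨k, ?_⟩)).symm (QuotientAddGroup.out_eq' _))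
      simp only [b] at e
      rw [sub_eq_iff_eq_add.1 e]
      abel
    simp only [b, this]
  · have h2 : ∀ (k : ℕ) γ, θ (γ + k • F.σ) = 2 ^ k • θ γ := fun k γ => by
      induction k with
      | zero => simp
      | succ k ih => rw [succ_nsmul, ← add_assoc, h, ih, pow_succ', mul_smul]
    rw [← sum_fiberwise_of_maps_to (g := b) fun γ h => mem_image_of_mem b h]
    refine sum_congr rfl fun δ _ => ?_
    rw [sum_smul]
    refine sum_congr rfl fun γ hγ => ?_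
    obtain ⟨a1, rfl⟩ := mem_filter.1 hγ
    have := h2 (j γ + H).toNat (b γ)
    rw [← natCast_zsmul, Int.toNat_of_nonneg (by have := hH γ a1; omega), add_smul, natCast_zsmul,
      show b γ + (j γ • F.σ + H • F.σ) = γ by
        conv_rhs => rw [hj γ]
        simp only [b]
        abel] at this
    rw [this, mul_smul, ← natCast_zsmul, Nat.cast_pow, Nat.cast_ofNat]

/-- A vanishing sum of monomials vanishes on each line. For the line of `γ₀` let
`c = ∑ c γ * 2 ^ j γ` over the `γ = γ₀ + j γ • σ` in `s`; apply `db` to the sum times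
`mn (-γ₀ - H • σ)` (`db_mn_σ`, `db_mn_of_ne`): `c / 2 ^ H` is an integer for all `H`, so `c = 0`.
On that line `θ (γ₀ + j • σ) = 2 ^ (j - j₀) • θ (γ₀ + j₀ • σ)` with `j₀` the least exponent.
Group the sum by the class in `F.G ⧸ AddSubgroup.zmultiples F.σ` (`Finset.sum_fiberwise_of_maps_to`),
or induct on the number of lines. -/
theorem sum_eq_zero_of {S : Type} [AddCommGroup S] {θ : F.G → S}
    (h : ∀ γ, θ (γ + F.σ) = 2 • θ γ) {s : Finset F.G} {c : F.G → ℤ}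
    (h0 : ∑ γ ∈ s, c γ • F.mn γ = 0) : ∑ γ ∈ s, c γ • θ γ = 0 := by
  obtain ⟨s', c', h1, h2⟩ := F.MB_group s c
  rw [h2 _ _ F.mn_add_σ] at h0
  rw [h2 _ _ h]
  refine sum_eq_zero fun δ hδ => ?_
  have h3 : ∀ H : ℕ, ((c' δ / 2 ^ H : ℝ) : Tc) = 0 := fun H => by
    have h4 := congrArg (fun x => F.db (F.mn ((-H : ℤ) • F.σ - δ) * x)) h0
    simp only [mul_sum, map_sum, mul_smul_comm, map_zsmul, ← mn_add, mul_zero, map_zero] at h4
    rw [sum_eq_single δ (fun γ hγ e => by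
      rw [F.db_mn_of_ne fun j e' => e (h1 γ hγ δ hδ (j + H) (by
        rw [add_smul, ← e', neg_smul]; abel)), smul_zero]) fun e => absurd hδ e, sub_add_cancel,
      db_mn_σ, ← AddCircle.coe_zsmul] at h4
    rwa [zsmul_eq_mul, zpow_neg, zpow_natCast, ← div_eq_mul_inv] at h4
  obtain ⟨z, hz⟩ := (AddCircle.coe_eq_zero_iff 1).1 (h3 (c' δ).natAbs)
  rw [zsmul_one, eq_div_iff (by positivity)] at hz
  rw [Int.eq_zero_of_dvd_of_natAbs_lt_natAbs (n := c' δ) (d := 2 ^ (c' δ).natAbs)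
    ⟨z, by rw [mul_comm]; exact_mod_cast hz.symm⟩ (by simpa using Nat.lt_two_pow_self), zero_smul]

/-- The map `(F.G →₀ ℤ) →+ F.B` is onto (`exists_sum_mn`), its kernel is killed by the lift of `θ`
(`AddMonoidHom.liftOfSurjective` or `QuotientAddGroup.quotientKerEquivOfSurjective`). -/
theorem chB_mn {S : Type} [AddCommGroup S] {θ : F.G → S} (h : ∀ γ, θ (γ + F.σ) = 2 • θ γ)
    (γ : F.G) : F.chB θ (F.mn γ) = θ γ := by
  have : ∃ Z : F.B →+ S, ∀ γ, Z (F.mn γ) = θ γ := by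
    let φ : (F.G →₀ ℤ) →+ F.B := Finsupp.liftAddHom fun γ => zmultiplesHom _ (F.mn γ)
    let ψ : (F.G →₀ ℤ) →+ S := Finsupp.liftAddHom fun γ => zmultiplesHom _ (θ γ)
    have h1 : ∀ a b, φ a = φ b → ψ a = ψ b := fun a b e => by
      rw [← sub_eq_zero, ← map_sub] at e ⊢
      exact F.sum_eq_zero_of h e
    have h2 : ∀ γ, φ (Finsupp.single γ 1) = F.mn γ := fun γ => by simp [φ]
    have h3 : ∀ x, ∃ a, φ a = x := fun x => by
      induction x using F.B_induction with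
      | h0 => exact ⟨0, map_zero _⟩
      | hm γ => exact ⟨_, h2 γ⟩
      | ha x y a b => exact a.elim fun a e => b.elim fun b e' => ⟨a + b, by rw [map_add, e, e']⟩
      | hn x a => exact a.elim fun a e => ⟨-a, by rw [map_neg, e]⟩
    choose t ht using h3
    refine ⟨AddMonoidHom.mk' (fun x => ψ (t x)) fun a b => ?_, fun γ => ?_⟩
    · rw [← map_add]
      exact h1 _ _ (by rw [map_add, ht, ht, ht])
    · rw [AddMonoidHom.mk'_apply, h1 _ (Finsupp.single γ 1) (by rw [ht, h2])]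
      simp [ψ]
  rw [chB, dif_pos this]
  exact this.choose_spec γ

/-- `chB φ` is multiplicative (`B_induction` twice, or `AddMonoidHom.map_mul_iff` with `B_ext`). -/
theorem exists_ringHom {S : Type} [CommRing S] (φ : F.G → S) (h0 : φ 0 = 1)
    (h1 : ∀ γ γ', φ (γ + γ') = φ γ * φ γ') (h2 : φ F.σ = 2) :
    ∃ f : F.B →+* S, ∀ γ, f (F.mn γ) = φ γ := by
  have h3 := F.chB_mn (θ := φ) fun γ => by rw [h1, h2, two_nsmul, mul_two]
  refine ⟨{ F.chB φ with map_one' := ?_, map_mul' := ?_ }, h3⟩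
  · exact F.mn_zero ▸ (h3 0).trans h0
  · refine (AddMonoidHom.map_mul_iff _).2 (F.B_ext fun γ => F.B_ext fun γ' => ?_)
    simp [← mn_add, h3, h1]

open Classical in
theorem MB_co (γ : F.G) :
    F.co (F.mn γ) = if h : ∃ j : ℤ, γ = j • F.σ then (2 : ℝ) ^ h.choose else 0 := by
  refine F.chB_mn (fun γ => ?_) γ
  by_cases h : ∃ j : ℤ, γ = j • F.σ
  · have e : γ + F.σ = (h.choose + 1) • F.σ := by rw [add_smul, ← h.choose_spec, one_smul]
    have h' : ∃ j : ℤ, γ + F.σ = j • F.σ := ⟨_, e⟩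
    rw [dif_pos h, dif_pos h', F.zsmul_σ_inj (h'.choose_spec.symm.trans e),
      zpow_add_one₀ two_ne_zero, nsmul_eq_mul, mul_comm, Nat.cast_ofNat]
  · rw [dif_neg h, dif_neg fun ⟨j, e⟩ => h ⟨j - 1, by rw [sub_smul, ← e]; simp⟩, smul_zero]

theorem co_mn_σ (j : ℤ) : F.co (F.mn (j • F.σ)) = (2 : ℝ) ^ j := by
  have h : ∃ j' : ℤ, j • F.σ = j' • F.σ := ⟨j, rfl⟩
  rw [MB_co, dif_pos h, ← F.zsmul_σ_inj h.choose_spec]

theorem co_mn_of_ne {γ : F.G} (h : ∀ j : ℤ, γ ≠ j • F.σ) : F.co (F.mn γ) = 0 := by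
  rw [MB_co, dif_neg fun ⟨j, e⟩ => h j e]

theorem co_one : F.co 1 = 1 := by
  simpa [mn_zero] using F.co_mn_σ 0

theorem db_eq (x : F.B) : F.db x = ((F.co x : ℝ) : Tc) := by
  refine DFunLike.congr_fun (F.B_ext (Z' := (QuotientAddGroup.mk' _).comp F.co) fun γ => ?_) x
  change _ = ((F.co _ : ℝ) : Tc)
  by_cases h : ∃ j : ℤ, γ = j • F.σ
  · obtain ⟨j, rfl⟩ := h
    rw [db_mn_σ, co_mn_σ]
  · push Not at h
    rw [F.db_mn_of_ne h, F.co_mn_of_ne h, AddCircle.coe_zero]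

theorem co_σ_mul (j : ℤ) (x : F.B) : F.co (F.mn (j • F.σ) * x) = (2 : ℝ) ^ j * F.co x := by
  induction x using F.B_induction with
  | h0 => simp
  | hm γ =>
    rw [← mn_add]
    by_cases h : ∃ j : ℤ, γ = j • F.σ
    · obtain ⟨k, rfl⟩ := h
      rw [← add_smul, co_mn_σ, co_mn_σ, zpow_add₀ two_ne_zero]
    · push Not at h
      rw [F.co_mn_of_ne h, F.co_mn_of_ne fun k e => h (k - j) (by rw [sub_smul, ← e]; simp),
        mul_zero]
  | ha x y a b => rw [mul_add, map_add, map_add, a, b, mul_add]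
  | hn x a => rw [mul_neg, map_neg, map_neg, a, mul_neg]

theorem co_dyadic (x : F.B) : ∃ (k : ℕ) (z : ℤ), F.co x * 2 ^ k = z := by
  induction x using F.B_induction with
  | h0 => exact ⟨0, 0, by simp⟩
  | hm γ =>
    by_cases h : ∃ j : ℤ, γ = j • F.σ
    · obtain ⟨j, rfl⟩ := h
      obtain ⟨k, rfl | rfl⟩ := j.eq_nat_or_neg
      · exact ⟨0, 2 ^ k, by rw [co_mn_σ]; simp⟩
      · exact ⟨k, 1, by rw [co_mn_σ]; simp⟩
    · push Not at h
      exact ⟨0, 0, by simp [F.co_mn_of_ne h]⟩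
  | ha x y a b =>
    obtain ⟨k, z, a⟩ := a
    obtain ⟨k', z', b⟩ := b
    refine ⟨k + k', z * 2 ^ k' + z' * 2 ^ k, ?_⟩
    push_cast
    rw [map_add, ← a, ← b]
    ring
  | hn x a =>
    obtain ⟨k, z, a⟩ := a
    exact ⟨k, -z, by rw [map_neg, neg_mul, a, Int.cast_neg]⟩

theorem MB_line {δ γ : F.G} (h : F.co (F.mn γ * F.mn δ) ≠ 0) : ∃ j : ℤ, γ = -δ + j • F.σ := by
  by_contra hc
  rw [← mn_add] at h
  exact h (F.co_mn_of_ne fun j e => hc ⟨j, by rw [← e]; abel⟩)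

/-- the coordinates live on finitely many lines -/
theorem co_lines (x : F.B) : ∃ s : Finset F.G, ∀ γ, F.co (F.mn γ * x) ≠ 0 →
    ∃ γ₀ ∈ s, ∃ j : ℤ, γ = γ₀ + j • F.σ := by
  classical
  obtain ⟨s, c, rfl⟩ := F.exists_sum_mn x
  refine ⟨s.image (-·), fun γ h => ?_⟩
  rw [mul_sum, map_sum] at h
  obtain ⟨δ, h1, h2⟩ := exists_ne_zero_of_sum_ne_zero h
  rw [mul_smul_comm, map_zsmul] at h2
  exact ⟨_, mem_image_of_mem _ h1, F.MB_line (right_ne_zero_of_smul h2)⟩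

theorem WtB.co_lines {F : Fr} {k : ℕ} {x : F.B} (h : F.WtB k x) : ∃ s : Finset F.G, s.card ≤ k ∧
    ∀ γ, F.co (F.mn γ * x) ≠ 0 → ∃ γ₀ ∈ s, ∃ j : ℤ, γ = γ₀ + j • F.σ := by
  classical
  obtain ⟨P, Q, h1, rfl⟩ := h
  have key : ∀ (P : Multiset F.G) γ, F.co (F.mn γ * F.sm P) ≠ 0 →
      ∃ δ ∈ P, ∃ j : ℤ, γ = -δ + j • F.σ := fun P γ h => by
    by_contra hc
    refine h ?_
    rw [sm, ← Multiset.sum_map_mul_left, map_multiset_sum, Multiset.map_map]
    refine Multiset.sum_eq_zero fun y hy => ?_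
    obtain ⟨δ, a, rfl⟩ := Multiset.mem_map.1 hy
    by_contra b
    exact hc ⟨δ, a, F.MB_line b⟩
  refine ⟨(P + Q).toFinset.image (-·), card_image_le.trans ((Multiset.toFinset_card_le _).trans
    (by simpa using h1)), fun γ h => ?_⟩
  rw [mul_sub, map_sub] at h
  by_cases h2 : F.co (F.mn γ * F.sm P) = 0
  · obtain ⟨δ, a, b⟩ := key Q γ fun e => h (by rw [h2, e, sub_self])
    exact ⟨_, mem_image_of_mem _ (by simp [a]), b⟩
  · obtain ⟨δ, a, b⟩ := key P γ h2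
    exact ⟨_, mem_image_of_mem _ (by simp [a]), b⟩

/-- a representation with one monomial on each line (merge two terms on one line, induction on the
number of terms) -/
theorem exists_sum_lines (x : F.B) : ∃ (s : Finset F.G) (c : F.G → ℤ),
    (∀ γ ∈ s, ∀ γ' ∈ s, ∀ j : ℤ, γ = γ' + j • F.σ → γ = γ') ∧ x = ∑ γ ∈ s, c γ • F.mn γ := by
  obtain ⟨s, c, rfl⟩ := F.exists_sum_mn x
  obtain ⟨s', c', h1, h2⟩ := F.MB_group s c
  exact ⟨s', c', h1, h2 _ _ F.mn_add_σ⟩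

theorem co_sum_lines {s : Finset F.G} (c : F.G → ℤ)
    (h : ∀ γ ∈ s, ∀ γ' ∈ s, ∀ j : ℤ, γ = γ' + j • F.σ → γ = γ') {γ₀ : F.G} (h0 : γ₀ ∈ s) :
    F.co (F.mn (-γ₀) * ∑ γ ∈ s, c γ • F.mn γ) = c γ₀ := by
  rw [mul_sum, map_sum, sum_eq_single γ₀ (fun γ hγ e => ?_) fun e => absurd h0 e, mul_smul_comm,
    mul_comm, mn_mul_neg, map_zsmul, co_one, zsmul_one]
  rw [mul_smul_comm, map_zsmul, ← mn_add,
    F.co_mn_of_ne fun j e' => e (h γ hγ γ₀ h0 j (by rw [← e']; abel)), smul_zero]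

theorem eq_zero_of_co {x : F.B} (h : ∀ γ, F.co (F.mn γ * x) = 0) : x = 0 := by
  obtain ⟨s, c, h1, rfl⟩ := F.exists_sum_lines x
  refine sum_eq_zero fun γ hγ => ?_
  have := (F.co_sum_lines c h1 hγ).symm.trans (h _)
  rw [Int.cast_eq_zero.1 this, zero_smul]

theorem eq_zero_of_nsmul {m : ℕ} (hm : 0 < m) {x : F.B} (h : (m : F.B) * x = 0) : x = 0 := by
  refine F.eq_zero_of_co fun γ => ?_
  have := congrArg (fun y => F.co (F.mn γ * y)) h
  simp only [mul_smul_comm, ← nsmul_eq_mul, map_nsmul, mul_zero, map_zero] at this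
  exact (smul_eq_zero.1 this).resolve_left hm.ne'

theorem mn_injective : Function.Injective F.mn := by
  intro γ γ' h
  have h1 : F.co (F.mn (-γ') * F.mn γ) = 1 := by rw [h, mul_comm, mn_mul_neg, co_one]
  obtain ⟨j, e⟩ := F.MB_line (h1.trans_ne one_ne_zero)
  rw [e, ← mn_add, add_right_comm, neg_add_cancel, zero_add, co_mn_σ] at h1
  obtain rfl := (zpow_eq_one_iff_right₀ zero_le_two (by norm_num)).1 h1
  simpa using e.symm

/-- every dyadic profile on finitely many lines is attained: choose one site on each line, so high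
that the value is an integer -/
theorem exists_of_profile (ρ : F.G → ℝ) (h1 : ∀ γ, ρ (γ + F.σ) = 2 * ρ γ)
    (h2 : ∀ γ, ∃ (k : ℕ) (z : ℤ), ρ γ * 2 ^ k = z) (s : Finset F.G)
    (h3 : ∀ γ, ρ γ ≠ 0 → ∃ γ₀ ∈ s, ∃ j : ℤ, γ = γ₀ + j • F.σ) :
    ∃ r : F.B, ∀ γ, F.co (F.mn γ * r) = ρ γ := by
  classical
  have h4 : ∀ (k : ℕ) γ, ρ (γ + k • F.σ) = 2 ^ k * ρ γ := fun k γ => by
    induction k with
    | zero => simp
    | succ k ih => rw [succ_nsmul, ← add_assoc, h1, ih, pow_succ', mul_assoc]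
  have h5 : ∀ (j : ℤ) γ, ρ (γ + j • F.σ) = 2 ^ j * ρ γ := fun j γ => by
    obtain ⟨k, rfl | rfl⟩ := j.eq_nat_or_neg
    · simp [h4]
    · have := h4 k (γ + (-k : ℤ) • F.σ)
      rw [neg_smul, natCast_zsmul, neg_add_cancel_right] at this
      rw [this, neg_smul, natCast_zsmul, ← this, zpow_neg, zpow_natCast, this]
      field_simp
  induction s using Finset.induction_on generalizing ρ with
  | empty => exact ⟨0, fun γ => by_contra fun e => by simpa using h3 γ fun e' => e (by simp [e'])⟩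
  | insert δ s _ ih =>
    obtain ⟨k, z, hz⟩ := h2 δ
    obtain ⟨y, hy⟩ : ∃ y, y = z • F.mn (-(δ + k • F.σ)) := ⟨_, rfl⟩
    have h6 : ∀ j : ℤ, F.co (F.mn (δ + j • F.σ) * y) = ρ (δ + j • F.σ) := fun j => by
      rw [hy, mul_smul_comm, map_zsmul, ← mn_add, show δ + j • F.σ + -(δ + k • F.σ) =
        (j - k) • F.σ by rw [sub_smul, natCast_zsmul]; abel, co_mn_σ, h5, zsmul_eq_mul, ← hz,
        zpow_sub₀ two_ne_zero, zpow_natCast]
      field_simp
    have h7 : ∀ γ, (∀ j : ℤ, γ ≠ δ + j • F.σ) → F.co (F.mn γ * y) = 0 := fun γ h => by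
      by_contra e
      rw [hy, mul_smul_comm, map_zsmul] at e
      obtain ⟨j, e⟩ := F.MB_line (right_ne_zero_of_smul e)
      exact h (k + j) (by rw [e, add_smul, natCast_zsmul]; abel)
    have h8 : ∀ γ, F.co (F.mn (γ + F.σ) * y) = 2 * F.co (F.mn γ * y) := fun γ => by
      rw [mn_add_σ, smul_mul_assoc, map_nsmul, nsmul_eq_mul, Nat.cast_ofNat]
    have h9 : ∀ (j : ℤ) γ, F.co (F.mn (γ + j • F.σ) * y) = 2 ^ j * F.co (F.mn γ * y) :=
      fun j γ => by rw [add_comm, mn_add, mul_assoc, co_σ_mul]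
    obtain ⟨r, hr⟩ := ih (fun γ => ρ γ - F.co (F.mn γ * y)) (fun γ => by rw [h1, h8]; ring)
      (fun γ => by
        obtain ⟨k, z, a⟩ := h2 γ
        obtain ⟨k', z', b⟩ := F.co_dyadic (F.mn γ * y)
        refine ⟨k + k', z * 2 ^ k' - z' * 2 ^ k, ?_⟩
        push_cast
        rw [← a, ← b]
        ring)
      (fun γ h => by
        have a : ∀ j : ℤ, γ ≠ δ + j • F.σ := fun j e => h (by rw [e, h6, sub_self])
        rw [h7 γ a, sub_zero] at h
        obtain ⟨γ₀, b, j, e⟩ := h3 γ h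
        exact ⟨γ₀, (mem_insert.1 b).resolve_left fun e' => a j (e' ▸ e), j, e⟩)
      (fun k γ => by rw [h4, ← natCast_zsmul, h9, zpow_natCast]; ring)
      (fun k γ => by rw [h5, h9]; ring)
    exact ⟨r + y, fun γ => by rw [mul_add, map_add, hr, sub_add_cancel]⟩

/-- divisibility by an odd number is read on the coordinates (`exists_of_profile` for
`co (mn γ * x) / m`, `eq_zero_of_co`) -/
theorem exists_div {m : ℕ} (hm : 0 < m) {x : F.B}
    (h : ∀ γ, ∃ (k : ℕ) (z : ℤ), F.co (F.mn γ * x) * 2 ^ k = m * z) :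
    ∃ y : F.B, x = m * y := by
  have h0 : (m : ℝ) ≠ 0 := Nat.cast_ne_zero.2 hm.ne'
  obtain ⟨s, hs⟩ := F.co_lines x
  obtain ⟨y, hy⟩ := F.exists_of_profile (fun γ => F.co (F.mn γ * x) / m) (fun γ => by
      rw [mn_add_σ, smul_mul_assoc, map_nsmul, nsmul_eq_mul, Nat.cast_ofNat, mul_div_assoc])
    (fun γ => by
      obtain ⟨k, z, e⟩ := h γ
      exact ⟨k, z, by rw [div_mul_eq_mul_div, e, mul_div_cancel_left₀ _ h0]⟩)
    s fun γ e => hs γ fun e' => e (by simp [e'])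
  refine ⟨y, sub_eq_zero.1 (F.eq_zero_of_co fun γ => ?_)⟩
  rw [mul_sub, map_sub, mul_left_comm, ← nsmul_eq_mul, map_nsmul, hy, nsmul_eq_mul,
    mul_div_cancel₀ _ h0, sub_self]

theorem db_high (x : F.B) : ∃ H₀ : ℕ, ∀ H, H₀ ≤ H → F.db (2 ^ H * x) = 0 := by
  obtain ⟨k, z, h⟩ := F.co_dyadic x
  refine ⟨k, fun H hH => ?_⟩
  obtain ⟨l, rfl⟩ := Nat.exists_eq_add_of_le hH
  rw [db_eq, ← Nat.cast_ofNat, ← Nat.cast_pow, ← nsmul_eq_mul, map_nsmul]
  refine (AddCircle.coe_eq_zero_iff 1).2 ⟨z * 2 ^ l, ?_⟩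
  simp only [zsmul_eq_mul, nsmul_eq_mul]
  push_cast
  rw [← h]
  ring

end Pool.Agent.GT.Fr
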