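import Pool.Agent.Lib.MP_a01f70_lc.GT.MA

/-! The global model: the structure of the group of sites. -/

noncomputable section

namespace Pool.Agent.GT.Fr
open Finset Filter Topology Pool.Agent.GK

theorem MC_ext {Q ι : Type} [AddCommGroup Q] [Fintype ι] {u : ι → Q} (h : LinearIndependent ℤ u)
    (t : ι → ℝ) : ∃ o : Q →+ ℝ, ∀ i, o (u i) = t i := by
  classical
  obtain ⟨o, ho⟩ := (Module.Baer.of_divisible ℝ).extension_property_addMonoidHom
    (Fintype.linearCombination ℤ u).toAddMonoidHom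
    h.fintypeLinearCombination_injective (Fintype.linearCombination ℤ t).toAddMonoidHom
  exact ⟨o, fun i => by simpa using DFunLike.congr_fun ho (Pi.single i 1)⟩

theorem MC_one {Q : Type} [AddCommGroup Q] (u : Q) (h : ∀ j : ℤ, j • u = 0 → j = 0) :
    ∃ o : Q →+ ℝ, o u = 1 :=
  (MC_ext (u := fun _ : Unit => u) (Fintype.linearIndependent_iff.2 fun g e _ =>
    h _ (by simpa using e)) fun _ => 1).imp fun _ e => e ()

theorem MC_int {Q : Type} [AddCommGroup Q] (h : ∀ (M : ℕ) (q : Q), 0 < M → M • q = 0 → q = 0)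
    {j : ℤ} (hj : j ≠ 0) {q : Q} (e : j • q = 0) : q = 0 :=
  h _ q (Int.natAbs_pos.2 hj) (natAbs_nsmul_eq_zero.2 e)

theorem MC_sep {Q : Type} [AddCommGroup Q] (h : ∀ (M : ℕ) (q : Q), 0 < M → M • q = 0 → q = 0)
    {u : Q} (hu : u ≠ 0) : ∃ o : Q →+ ℝ, o u = 1 :=
  MC_one u fun _ e => by_contra fun hj => hu (MC_int h hj e)

variable (F : Fr)

/-- `2` is a unit of `ZMod n` for odd `n` -/
theorem eq_zero_of_two_pow {k : ℕ} {γ : F.G} (h : 2 ^ k • γ = 0) : γ = 0 := by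
  obtain ⟨x, rfl⟩ := F.mkG_surj γ
  rw [← map_nsmul, ← map_zero F.mkG, mkG_eq] at h
  rw [← map_zero F.mkG, mkG_eq]
  refine h.mono fun i hi => ?_
  rw [Pi.smul_apply, nsmul_eq_mul] at hi
  exact ((ZMod.isUnit_iff_coprime _ _).2
    ((Nat.coprime_two_left.2 (F.odd i)).pow_left k)).mul_right_eq_zero.1 hi

theorem odd_addOrderOf {ω : F.G} (h : ω ∈ F.Tor) : Odd (addOrderOf ω) := by
  refine Nat.not_even_iff_odd.1 fun ⟨k, hk⟩ => ?_
  have h1 := IsOfFinAddOrder.addOrderOf_pos h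
  refine nsmul_ne_zero_of_lt_addOrderOf (x := ω) (n := k) (by omega) (by omega)
    (F.eq_zero_of_two_pow (k := 1) ?_)
  rw [pow_one, two_nsmul, ← add_nsmul, ← hk, addOrderOf_nsmul_eq_zero]

theorem eq_zero_of_tor {j : ℤ} (h : j • F.σ ∈ F.Tor) : j = 0 := by
  obtain ⟨c, hc, h⟩ := isOfFinAddOrder_iff_nsmul_eq_zero.1 h
  rw [← natCast_zsmul, smul_smul] at h
  exact (mul_eq_zero.1 (F.zsmul_σ_eq_zero h)).resolve_left (by exact_mod_cast hc.ne')

/-- extend `j • σ ↦ j` (`Module.Baer.of_divisible`, `extension_property_addMonoidHom`) -/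
theorem ht_σ : F.ht F.σ = 1 := by
  have h := MC_one F.σ fun j => F.zsmul_σ_eq_zero
  rw [ht, dif_pos h]
  exact h.choose_spec

theorem ht_tor {ω : F.G} (h : ω ∈ F.Tor) : F.ht ω = 0 := by
  exact (isOfFinAddOrder_iff_eq_zero _).1 (F.ht.isOfFinAddOrder h)

theorem σ_mem_G00 : F.σ ∈ F.G00 := by
  exact ⟨1, 1, one_pos, by simp⟩

theorem tor_le_G00 : F.Tor ≤ F.G00 := by
  intro ω h
  obtain ⟨c, hc, h⟩ := isOfFinAddOrder_iff_nsmul_eq_zero.1 h
  exact ⟨c, 0, hc, by simpa using h⟩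

theorem G01_le_G00 : F.G01 ≤ F.G00 := by
  exact sup_le (AddSubgroup.zmultiples_le_of_mem F.σ_mem_G00) F.tor_le_G00

theorem mem_G01 {γ : F.G} : γ ∈ F.G01 ↔ ∃ (j : ℤ) (ω : F.G), ω ∈ F.Tor ∧ γ = j • F.σ + ω := by
  rw [G01, AddSubgroup.mem_sup]
  exact ⟨fun ⟨_, ⟨j, hj⟩, ω, h, e⟩ => ⟨j, ω, h, by rw [← e, ← hj]⟩,
    fun ⟨j, ω, h, e⟩ => ⟨_, ⟨j, rfl⟩, ω, h, e.symm⟩⟩

theorem ht_G00 {γ : F.G} {M : ℕ} {e : ℤ} (h : M • γ = e • F.σ) : M * F.ht γ = e := by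
  simpa [ht_σ] using congrArg F.ht h

theorem tor_of_ht {γ : F.G} (h : γ ∈ F.G00) (h0 : F.ht γ = 0) : γ ∈ F.Tor := by
  obtain ⟨M, e, hM, h⟩ := h
  have h1 := F.ht_G00 h
  rw [h0, mul_zero, eq_comm, Int.cast_eq_zero] at h1
  exact isOfFinAddOrder_iff_nsmul_eq_zero.2 ⟨M, hM, by simpa [h1] using h⟩

theorem G01_of_ht {γ : F.G} (h : γ ∈ F.G00) {j : ℤ} (h0 : F.ht γ = j) : γ ∈ F.G01 := by
  exact F.mem_G01.2 ⟨j, γ - j • F.σ, F.tor_of_ht (sub_mem h (zsmul_mem F.σ_mem_G00 j))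
    (by simp [h0, ht_σ]), by simp⟩

theorem G00_of_nsmul {γ : F.G} {M : ℕ} (hM : 0 < M) (h : M • γ ∈ F.G00) : γ ∈ F.G00 := by
  obtain ⟨M', e, hM', h⟩ := h
  exact ⟨M' * M, e, Nat.mul_pos hM' hM, by rwa [mul_smul]⟩

theorem MC_tf (M : ℕ) (v : F.V) (hM : 0 < M) (h : M • v = 0) : v = 0 := by
  obtain ⟨γ, rfl⟩ := QuotientAddGroup.mk_surjective v
  rw [← QuotientAddGroup.mk_nsmul, QuotientAddGroup.eq_zero_iff] at h
  exact (QuotientAddGroup.eq_zero_iff _).2 (F.G00_of_nsmul hM h)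

/-- The group `V` is torsion free, so it has unique sums: two finite sets lie in a finitely generated
torsion free subgroup (instance in `Mathlib/Algebra/AffineMonoid/UniqueSums.lean`,
`UniqueAdd.of_addHom_image` or `TwoUniqueSums.of_injective_addHom` into `ℚ ⊗[ℤ] V`). -/
instance : TwoUniqueSums F.V := by
  refine TwoUniqueSums.of_injective_addHom (G := (F.V →+ ℝ) → ℝ)
    ⟨fun v o => o v, fun a b => funext fun o => map_add o a b⟩ (fun a b h => ?_) inferInstance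
  by_contra hc
  obtain ⟨o, ho⟩ := MC_sep F.MC_tf (sub_ne_zero.2 hc)
  have : o a = o b := congrFun h o
  simp [this] at ho

/-- real characters separate the points of a torsion free group: for `q ≠ 0` extend `k • q ↦ k`;
then take `∑ t ^ i • o i` with `t` not a root of finitely many nonzero polynomials -/
theorem _root_.Pool.Agent.GT.exists_ord {Q : Type} [AddCommGroup Q]
    (h : ∀ (M : ℕ) (q : Q), 0 < M → M • q = 0 → q = 0) (S : Finset Q) :
    ∃ o : Q →+ ℝ, Set.InjOn o S := by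
  obtain ⟨o, ho⟩ := Module.Dual.exists_forall_ne_zero_of_forall_exists
    (fun p : {p : S × S // p.1 ≠ p.2} => (⟨⟨fun o : Q →+ ℝ => o (p.1.1 - p.1.2), fun _ _ => rfl⟩,
      fun _ _ => rfl⟩ : Module.Dual ℝ (Q →+ ℝ))) fun p => by
    obtain ⟨o, ho⟩ := MC_sep h (sub_ne_zero.2 (Subtype.coe_ne_coe.2 p.2))
    exact ⟨o, ho.trans_ne one_ne_zero⟩
  refine ⟨o, fun a ha b hb e => by_contra fun hc => ho ⟨(⟨a, ha⟩, ⟨b, hb⟩), by simpa using hc⟩ ?_⟩
  exact (map_sub o a b).trans (sub_eq_zero.2 e)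

/-- two independent directions: extend from `ℤ u` or `ℤ u + ℤ v` (if `a • v = b • u` with `a ≠ 0`
then `o v = b / a` is not an integer) -/
theorem _root_.Pool.Agent.GT.exists_ord_ne {Q : Type} [AddCommGroup Q]
    (h : ∀ (M : ℕ) (q : Q), 0 < M → M • q = 0 → q = 0) {u v : Q} (hu : u ≠ 0)
    (hv : ∀ c : ℤ, v ≠ c • u) : ∃ o : Q →+ ℝ, o u = 1 ∧ ∀ c : ℤ, o v ≠ c := by
  by_cases h1 : LinearIndependent ℤ ![u, v]
  · obtain ⟨o, ho⟩ := MC_ext h1 ![1, 1 / 2]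
    refine ⟨o, ho 0, fun c e => ?_⟩
    have h2 : (1 : ℝ) = 2 * c := by
      have : o v = 1 / 2 := ho 1
      linarith
    have : (1 : ℤ) = 2 * c := by exact_mod_cast h2
    omega
  · obtain ⟨o, ho⟩ := MC_sep h hu
    refine ⟨o, ho, fun c e => h1 (LinearIndependent.pair_iff.2 fun a b h2 => ?_)⟩
    have h3 := congrArg o h2
    rw [map_add, map_zsmul, map_zsmul, ho, e, map_zero, zsmul_one, zsmul_eq_mul] at h3
    obtain rfl : a = -(b * c) := eq_neg_of_add_eq_zero_left (by exact_mod_cast h3)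
    have h4 : b = 0 := by
      by_contra hb
      refine hv c (sub_eq_zero.1 (MC_int h hb ?_))
      rw [smul_sub, ← h2, smul_smul, neg_smul]
      abel
    simp [h4]

theorem V_tf (M : ℕ) (v : F.V) (hM : 0 < M) (h : M • v = 0) : v = 0 := by
  exact F.MC_tf M v hM h

variable {F}

theorem CC.odd {c : ℕ} (h : F.CC c) : Odd c := by
  obtain ⟨i, hi⟩ := h.2.exists
  exact (F.odd i).of_dvd_nat hi

theorem CC.lcm {c c' : ℕ} (h : F.CC c) (h' : F.CC c') : F.CC (Nat.lcm c c') := by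
  exact ⟨Nat.lcm_pos h.1 h'.1, (h.2.and h'.2).mono fun i hi => Nat.lcm_dvd hi.1 hi.2⟩

theorem cc_one : F.CC 1 := by
  exact ⟨one_pos, .of_forall fun _ => one_dvd _⟩

theorem CC.order {c : ℕ} (h : F.CC c) : addOrderOf (F.om c) = c := by
  have key : ∀ k : ℕ, k • F.om c = 0 ↔ c ∣ k := fun k => by
    rw [om, ← map_nsmul, ← map_zero F.mkG, mkG_eq]
    have : ∀ᶠ i in F.U, ((k • fun i => ((F.n i / c : ℕ) : ZMod (F.n i))) i =
        (0 : ∀ i, ZMod (F.n i)) i ↔ c ∣ k) := h.2.mono fun i ⟨l, hl⟩ => by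
      have h1 : 0 < l := Nat.pos_of_ne_zero fun e => by have := F.two i; simp [e] at hl; omega
      rw [Pi.smul_apply, Pi.zero_apply, nsmul_eq_mul, ← Nat.cast_mul, ZMod.natCast_eq_zero_iff, hl,
        Nat.mul_div_cancel_left _ h.1, Nat.mul_dvd_mul_iff_right h1]
    exact (eventually_congr this).trans eventually_const
  exact Nat.dvd_antisymm (addOrderOf_dvd_of_nsmul_eq_zero ((key c).2 dvd_rfl))
    ((key _).1 (addOrderOf_nsmul_eq_zero _))

theorem CC.tor {c : ℕ} (h : F.CC c) : F.om c ∈ F.Tor := by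
  exact addOrderOf_pos_iff.1 (h.order.symm ▸ h.1)

theorem CC.om_eq {c c' : ℕ} (h : F.CC c') (hd : c ∣ c') : F.om c = (c' / c) • F.om c' := by
  obtain ⟨k, rfl⟩ := hd
  have h1 := Nat.pos_of_mul_pos_right h.1
  rw [om, om, ← map_nsmul, mkG_eq, Nat.mul_div_cancel_left _ h1]
  refine h.2.mono fun i ⟨l, hl⟩ => ?_
  rw [Pi.smul_apply, nsmul_eq_mul, ← Nat.cast_mul]
  congr 1
  rw [hl, Nat.mul_div_cancel_left _ h.1, mul_assoc, Nat.mul_div_cancel_left _ h1]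

/-- Let `c = addOrderOf ω`. Almost everywhere `c * ω i = 0`; `gcd c (n i)` is a fixed `c₁` almost
everywhere and `ω i = t * (n i / c₁)` with a fixed `t < c₁`; then `c₁ • ω = 0` gives `c₁ = c`. -/
theorem exists_om {ω : F.G} (h : ω ∈ F.Tor) :
    F.CC (addOrderOf ω) ∧ ∃ t : ℕ, ω = t • F.om (addOrderOf ω) := by
  obtain ⟨x, rfl⟩ := F.mkG_surj ω
  have h0 := IsOfFinAddOrder.addOrderOf_pos h
  have h1 := addOrderOf_nsmul_eq_zero (F.mkG x)
  have h2 : ∀ k, k • F.mkG x = 0 → addOrderOf (F.mkG x) ∣ k := fun k =>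
    addOrderOf_dvd_of_nsmul_eq_zero
  generalize addOrderOf (F.mkG x) = c at *
  rw [← map_nsmul, ← map_zero F.mkG, mkG_eq] at h1
  have h3 : ∀ᶠ i in F.U, ∃ p ∈ Set.Iic c ×ˢ Set.Iic c,
      p.1 ∣ c ∧ p.1 ∣ F.n i ∧ x i = (p.2 • (F.n i / p.1 : ℕ) : ZMod (F.n i)) := h1.mono fun i hi => by
    have h4 := F.two i
    have : NeZero (F.n i) := ⟨by omega⟩
    rw [Pi.smul_apply, Pi.zero_apply, nsmul_eq_mul, ← ZMod.natCast_zmod_val (x i), ← Nat.cast_mul,
      ZMod.natCast_eq_zero_iff] at hi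
    have h5 := Nat.gcd_pos_of_pos_left (F.n i) h0
    obtain ⟨t, ht⟩ : F.n i / c.gcd (F.n i) ∣ (x i).val := by
      refine (Nat.coprime_div_gcd_div_gcd h5).symm.dvd_of_dvd_mul_left
        (Nat.dvd_of_mul_dvd_mul_right h5 ?_)
      rwa [Nat.div_mul_cancel (Nat.gcd_dvd_right _ _), mul_right_comm,
        Nat.div_mul_cancel (Nat.gcd_dvd_left _ _)]
    have h6 : t < c.gcd (F.n i) := Nat.lt_of_mul_lt_mul_left (a := F.n i / c.gcd (F.n i)) (by
      rw [← ht, Nat.div_mul_cancel (Nat.gcd_dvd_right _ _)]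
      exact ZMod.val_lt _)
    refine ⟨(c.gcd (F.n i), t), ⟨Nat.gcd_le_left _ h0, h6.le.trans (Nat.gcd_le_left _ h0)⟩,
      Nat.gcd_dvd_left _ _, Nat.gcd_dvd_right _ _, ?_⟩
    rw [nsmul_eq_mul, ← Nat.cast_mul, mul_comm, ← ht, ZMod.natCast_zmod_val]
  obtain ⟨⟨c₁, t⟩, -, h4⟩ := (Ultrafilter.eventually_exists_mem_iff
    ((Set.finite_Iic c).prod (Set.finite_Iic c))).1 h3
  obtain ⟨i, h5, -⟩ := h4.exists
  have h6 : F.CC c₁ := ⟨Nat.pos_of_dvd_of_pos h5 h0, h4.mono fun i hi => hi.2.1⟩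
  have h7 : F.mkG x = t • F.om c₁ := by
    rw [om, ← map_nsmul, mkG_eq]
    exact h4.mono fun i hi => hi.2.2
  obtain rfl : c = c₁ := Nat.dvd_antisymm (h2 _ (by
    rw [h7, smul_comm, addOrderOf_dvd_iff_nsmul_eq_zero.1 h6.order.dvd, smul_zero])) h5
  exact ⟨h6, t, h7⟩

/-- `ω` has the same order as `om c` and lies in the cyclic group it generates -/
theorem om_mem {ω : F.G} (h : ω ∈ F.Tor) : ∃ u : ℕ, F.om (addOrderOf ω) = u • ω := by
  obtain ⟨h1, t, h2⟩ := exists_om h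
  have h3 := congrArg addOrderOf h2
  rw [h1.tor.addOrderOf_nsmul, h1.order, eq_comm, Nat.div_eq_self] at h3
  obtain ⟨u, hu⟩ := exists_nsmul_eq_self_of_coprime (x := F.om (addOrderOf ω)) (n := t)
    (by rw [h1.order]; exact Nat.Coprime.symm (h3.resolve_left h1.1.ne'))
  exact ⟨u, by rw [← h2] at hu; exact hu.symm⟩

theorem exists_common (s : Finset F.G) (h : ∀ ω ∈ s, ω ∈ F.Tor) :
    ∃ c, F.CC c ∧ ∀ ω ∈ s, ∃ t : ℕ, ω = t • F.om c := by
  classical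
  induction s using Finset.induction_on with
  | empty => exact ⟨1, cc_one, by simp⟩
  | insert a s _ ih =>
    obtain ⟨c, h1, h2⟩ := ih fun ω hω => h ω (mem_insert_of_mem hω)
    obtain ⟨h3, t, h4⟩ := exists_om (h a (mem_insert_self _ _))
    refine ⟨_, h1.lcm h3, fun ω hω => ?_⟩
    rcases mem_insert.1 hω with rfl | hω
    · exact ⟨_, by rw [mul_smul, ← (h1.lcm h3).om_eq (Nat.dvd_lcm_right _ _), ← h4]⟩
    · obtain ⟨t, e⟩ := h2 ω hω
      exact ⟨_, by rw [mul_smul, ← (h1.lcm h3).om_eq (Nat.dvd_lcm_left _ _), ← e]⟩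

/-- at most `c` elements have order `c` -/
theorem exists_large_order (K : AddSubgroup F.G) (hK : K ≤ F.Tor) [Infinite K] (L : ℕ) :
    ∃ ω ∈ K, L ≤ addOrderOf ω := by
  by_contra hc
  push Not at hc
  refine Set.infinite_coe_iff.1 ‹Infinite K› ((((Set.finite_Iio L).prod (Set.finite_Iio L)).image
    fun p => p.2 • F.om p.1).subset fun ω hω => ?_)
  obtain ⟨h1, t, h2⟩ := exists_om (hK hω)
  refine ⟨(addOrderOf ω, t % addOrderOf ω), ⟨hc ω hω, (Nat.mod_lt _ h1.1).trans (hc ω hω)⟩, ?_⟩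
  have := mod_addOrderOf_nsmul (F.om (addOrderOf ω)) t
  rw [h1.order] at this
  exact this.trans h2.symm

theorem mR_om (c : ℕ) (_h : F.CC c) : F.mR (F.om c) = F.mkR fun i => 2 ^ (F.n i / c) := by
  rw [om, mR_mk]
  exact congrArg _ (funext fun i => two_pow_val_natCast _ _)

end Pool.Agent.GT.Fr
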