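import Pool.Agent.Lib.MP_a01f70_lc.GK.D1Defs

/-!
The global model: ultraproducts of the cycles `ZMod n` and of the rings `ZMod (2 ^ n - 1)`.
-/

noncomputable section

namespace Pool.Agent.GT
open Finset Filter Topology Pool.Agent.GK

/-- a sequence of odd lengths tending to infinity along an ultrafilter -/
structure Fr where
  U : Ultrafilter ℕ
  n : ℕ → ℕ
  two : ∀ i, 2 ≤ n i
  odd : ∀ i, Odd (n i)
  big : ∀ c : ℕ, ∀ᶠ i in U, c ≤ n i

namespace Fr

variable (F : Fr)

/-- sequences of sites that vanish almost everywhere -/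
def nulG : AddSubgroup (∀ i, ZMod (F.n i)) where
  carrier := {x | ∀ᶠ i in F.U, x i = 0}
  zero_mem' := Eventually.of_forall fun _ => rfl
  add_mem' := fun h h' => (h.and h').mono fun i hi => by simp [hi.1, hi.2]
  neg_mem' := fun h => h.mono fun i hi => by simp [hi]

/-- sequences of residues that vanish almost everywhere -/
def nulR : Ideal (∀ i, ZMod (2 ^ F.n i - 1)) where
  carrier := {x | ∀ᶠ i in F.U, x i = 0}
  zero_mem' := Eventually.of_forall fun _ => rfl
  add_mem' := fun h h' => (h.and h').mono fun i hi => by simp [hi.1, hi.2]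
  smul_mem' := fun _ _ h => h.mono fun i hi => by simp [hi]

/-- the group of sites -/
def G : Type := (∀ i, ZMod (F.n i)) ⧸ F.nulG

instance : AddCommGroup F.G := inferInstanceAs (AddCommGroup ((∀ i, ZMod (F.n i)) ⧸ F.nulG))

/-- the ring of residues -/
def R : Type := (∀ i, ZMod (2 ^ F.n i - 1)) ⧸ F.nulR

instance : CommRing F.R := inferInstanceAs (CommRing ((∀ i, ZMod (2 ^ F.n i - 1)) ⧸ F.nulR))

/-- the class of a sequence of sites -/
def mkG : (∀ i, ZMod (F.n i)) →+ F.G := QuotientAddGroup.mk' F.nulG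

/-- the class of a sequence of residues -/
def mkR : (∀ i, ZMod (2 ^ F.n i - 1)) →+* F.R := Ideal.Quotient.mk F.nulR

theorem mkG_surj : Function.Surjective F.mkG := QuotientAddGroup.mk'_surjective _

theorem mkR_surj : Function.Surjective F.mkR := Ideal.Quotient.mk_surjective

theorem mkG_eq {x y : ∀ i, ZMod (F.n i)} : F.mkG x = F.mkG y ↔ ∀ᶠ i in F.U, x i = y i := by
  rw [← sub_eq_zero, ← map_sub]
  refine (QuotientAddGroup.eq_zero_iff _).trans ?_
  exact eventually_congr (Eventually.of_forall fun i => sub_eq_zero)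

theorem mkR_eq {x y : ∀ i, ZMod (2 ^ F.n i - 1)} :
    F.mkR x = F.mkR y ↔ ∀ᶠ i in F.U, x i = y i := by
  refine Ideal.Quotient.eq.trans ?_
  exact eventually_congr (Eventually.of_forall fun i => sub_eq_zero)

/-- a representative of a site -/
def og (γ : F.G) : ∀ i, ZMod (F.n i) := (F.mkG_surj γ).choose

theorem mkG_og (γ : F.G) : F.mkG (F.og γ) = γ := (F.mkG_surj γ).choose_spec

/-- the shift by one -/
def σ : F.G := F.mkG 1

/-- the power of two attached to a site -/
def mR (γ : F.G) : F.R := F.mkR fun i => 2 ^ (F.og γ i).val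

/-- the ring of elements of bounded weight -/
def B : Subring F.R := Subring.closure (Set.range F.mR)

/-- the power of two attached to a site, as an element of `B` -/
def mn (γ : F.G) : F.B := ⟨F.mR γ, Subring.subset_closure ⟨γ, rfl⟩⟩

/-- the class of a sequence of natural numbers -/
def dR (d : ℕ → ℕ) : F.R := F.mkR fun i => (d i : ZMod (2 ^ F.n i - 1))

open Classical in
/-- the limit of `x i / (2 ^ n i - 1)` on the circle -/
def dl : F.R →+ Tc :=
  if h : ∃ Z : F.R →+ Tc, ∀ x, Tendsto (fun i => cc (2 ^ F.n i - 1) (x i)) F.U (𝓝 (Z (F.mkR x)))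
  then h.choose else 0

/-- the same on `B` -/
def db : F.B →+ Tc := F.dl.comp F.B.subtype.toAddMonoidHom

open Classical in
/-- the additive map on `B` with prescribed values on the monomials (if there is one) -/
def chB {S : Type} [AddCommGroup S] (θ : F.G → S) : F.B →+ S :=
  if h : ∃ Z : F.B →+ S, ∀ γ, Z (F.mn γ) = θ γ then h.choose else 0

open Classical in
/-- the coordinate on the line of the origin -/
def co : F.B →+ ℝ := F.chB fun γ => if h : ∃ j : ℤ, γ = j • F.σ then (2 : ℝ) ^ h.choose else 0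

/-- a sum of monomials -/
def sm (P : Multiset F.G) : F.B := (P.map F.mn).sum

/-- a signed sum of at most `k` monomials -/
def WtB (k : ℕ) (x : F.B) : Prop :=
  ∃ P Q : Multiset F.G, P.card + Q.card ≤ k ∧ x = F.sm P - F.sm Q

/-- `e` has additive order `2 ^ o(n)` -/
def Small (e : F.R) : Prop :=
  ∀ ε : ℝ, 0 < ε → ∃ g : ℕ → ℕ, (∀ᶠ i in F.U, 0 < g i ∧ (g i : ℝ) ≤ 2 ^ (ε * F.n i)) ∧
    F.dR g * e = 0

/-- the saturation of the line of the origin -/
def G00 : AddSubgroup F.G where
  carrier := {γ | ∃ (M : ℕ) (e : ℤ), 0 < M ∧ M • γ = e • F.σ}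
  zero_mem' := ⟨1, 0, one_pos, by simp⟩
  add_mem' := by
    rintro a b ⟨M, e, hM, h⟩ ⟨M', e', hM', h'⟩
    refine ⟨M * M', M' * e + M * e', Nat.mul_pos hM hM', ?_⟩
    rw [smul_add, mul_comm M M', mul_smul, h, mul_comm M' M, mul_smul, h', add_smul, mul_smul,
      mul_smul, natCast_zsmul, natCast_zsmul]
  neg_mem' := by
    rintro a ⟨M, e, hM, h⟩
    exact ⟨M, -e, hM, by rw [smul_neg, h, neg_smul]⟩

/-- the torsion subgroup -/
abbrev Tor : AddSubgroup F.G := AddCommGroup.torsion F.G

/-- the line of the origin and its translates by torsion elements -/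
def G01 : AddSubgroup F.G := AddSubgroup.zmultiples F.σ ⊔ F.Tor

/-- the elements supported on `G00` -/
def B00 : Subring F.B := Subring.closure (F.mn '' F.G00)

/-- `c` divides almost all lengths -/
def CC (c : ℕ) : Prop := 0 < c ∧ ∀ᶠ i in F.U, c ∣ F.n i

/-- the torsion element `n / c` -/
def om (c : ℕ) : F.G := F.mkG fun i => ((F.n i / c : ℕ) : ZMod (F.n i))

open Classical in
/-- a height function -/
def ht : F.G →+ ℝ := if h : ∃ f : F.G →+ ℝ, f F.σ = 1 then h.choose else 0

/-- characters of the group of lines -/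
abbrev Ch : Type := {θ : F.G →+ Tc // θ F.σ = 0}

/-- the group of sites modulo `G00` -/
abbrev V : Type := F.G ⧸ F.G00

end Fr

end Pool.Agent.GT
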