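import Pool.Agent.Lib.MP_a01f70_lc.GT.MB
import Pool.Agent.Lib.MP_a01f70_lc.GT.MC

/-! The global model: characters, the ideals `J` and `J2`, the mean field functional, charts. -/

noncomputable section

namespace Pool.Agent.GT
open Finset Filter Topology Pool.Agent.GK

/-- a trigonometric polynomial on the dual of `A` that is bounded by one -/
def Bdd {A ι : Type} [AddCommGroup A] (s : Finset ι) (G : ι → ℂ) (f : ι → A) : Prop :=
  ∀ Θ : A →+ Tc, ‖∑ i ∈ s, G i * ee (Θ (f i))‖ ≤ 1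

/-- the mean field inequality for the coefficients `S` -/
def MF {A : Type} [AddCommGroup A] (S : A → ℤ → ℂ) (κ : ℂ) (C : ℝ) : Prop :=
  ∀ (ι : Type) (s : Finset ι) (G : ι → ℂ) (f : ι → A) (E : ι → ℝ), Bdd s G f →
    (∀ i ∈ s, 0 ≤ E i) →
    (∀ i ∈ s, ∀ a : ℤ, Odd a → 3 ≤ |a| → ‖S (f i) a‖ ≤ E i * |(a : ℝ)|) →
    (∑ i ∈ s, G i * (κ * S (f i) 1 + (starRingEnd ℂ) κ * S (f i) (-1))).re ≤
      C + ∑ i ∈ s, ‖G i‖ * E i

/-- `e` is a bounded sum of powers of two at nearly rational places, divided by a bounded number -/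
def Str0 (C n e : ℕ) : Prop :=
  ∃ (a M : ℕ) (P Q : Multiset ℕ), 0 < a ∧ a ≤ C ∧ 0 < M ∧ M ≤ C ∧ (P + Q).card ≤ C ∧
    (∀ s ∈ P + Q, ∃ b : ℤ, |b| ≤ C ∧ (M : ℤ) * s ≡ b [ZMOD n]) ∧
    (a : ℤ) * e ≡ (P.map fun s => (2 : ℤ) ^ s).sum - (Q.map fun s => (2 : ℤ) ^ s).sum
      [ZMOD 2 ^ n - 1]

/-- `d` is a cyclotomic shift of such an exponent -/
def Str1 (C n d : ℕ) : Prop := ∃ e i : ℕ, Str0 C n e ∧ d ≡ 2 ^ i * e [MOD 2 ^ n - 1]

namespace Fr

variable (F : Fr)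

/-- the value of the character `θ` at a site -/
def xv (θ : F.Ch) (γ : F.G) : ℂ := (((2 : ℝ) ^ F.ht γ : ℝ) : ℂ) * ee (θ.1 γ)

theorem xv_zero (θ : F.Ch) : F.xv θ 0 = 1 := by simp [xv, ee_zero]

theorem xv_add (θ : F.Ch) (γ γ' : F.G) : F.xv θ (γ + γ') = F.xv θ γ * F.xv θ γ' := by
  simp only [xv, map_add, ee_add, Real.rpow_add two_pos, Complex.ofReal_mul]
  ring

theorem xv_σ (θ : F.Ch) : F.xv θ F.σ = 2 := by simp [xv, ht_σ, θ.2, ee_zero]

theorem norm_xv (θ : F.Ch) (γ : F.G) : ‖F.xv θ γ‖ = (2 : ℝ) ^ F.ht γ := by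
  rw [xv, norm_mul, norm_ee, mul_one, Complex.norm_real, Real.norm_of_nonneg (by positivity)]

theorem xv_ne (θ : F.Ch) (γ : F.G) : F.xv θ γ ≠ 0 := by
  rw [← norm_pos_iff, norm_xv]
  positivity

/-- the complex character of `B` attached to `θ` -/
def X (θ : F.Ch) : F.B →+* ℂ :=
  (F.exists_ringHom (F.xv θ) (F.xv_zero θ) (F.xv_add θ) (F.xv_σ θ)).choose

theorem X_mn (θ : F.Ch) (γ : F.G) : F.X θ (F.mn γ) = F.xv θ γ :=
  (F.exists_ringHom (F.xv θ) (F.xv_zero θ) (F.xv_add θ) (F.xv_σ θ)).choose_spec γ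

theorem exists_chi (θ : F.Ch) : ∃ f : F.B →+* AddMonoidAlgebra ℂ F.V,
    ∀ γ, f (F.mn γ) = AddMonoidAlgebra.single (γ : F.V) (F.xv θ γ) := by
  refine F.exists_ringHom _ ?_ (fun γ γ' => ?_) ?_
  · rw [xv_zero]
    rfl
  · rw [xv_add, AddMonoidAlgebra.single_mul_single]
    rfl
  · rw [xv_σ, (QuotientAddGroup.eq_zero_iff _).2 F.σ_mem_G00, ← one_add_one_eq_two,
      AddMonoidAlgebra.single_add, ← AddMonoidAlgebra.one_def, one_add_one_eq_two]

/-- the component of `B` attached to `θ` -/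
def chi (θ : F.Ch) : F.B →+* AddMonoidAlgebra ℂ F.V := (F.exists_chi θ).choose

theorem chi_mn (θ : F.Ch) (γ : F.G) :
    F.chi θ (F.mn γ) = AddMonoidAlgebra.single (γ : F.V) (F.xv θ γ) :=
  (F.exists_chi θ).choose_spec γ

/-- the torsion elements killed by `θ` -/
def K0 (θ : F.Ch) : AddSubgroup F.G := F.Tor ⊓ θ.1.ker

/-- `η d` has bounded weight -/
def J (d : ℕ → ℕ) : Ideal F.B where
  carrier := {η | (η : F.R) * F.dR d ∈ F.B}
  zero_mem' := by simp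
  add_mem' := fun {a b} h h' => by
    have := F.B.add_mem h h'
    simpa [add_mul] using this
  smul_mem' := fun c x h => by
    have := F.B.mul_mem c.2 h
    simpa [mul_assoc] using this

/-- `η d` has bounded weight up to an element of finite order -/
def J2 (d : ℕ → ℕ) : Ideal F.B where
  carrier := {η | ∃ (m : ℕ) (ξ : F.B), 0 < m ∧ (m : F.R) * (η * F.dR d - ξ) = 0}
  zero_mem' := ⟨1, 0, one_pos, by simp⟩
  add_mem' := by
    rintro a b ⟨m, ξ, hm, h⟩ ⟨m', ξ', hm', h'⟩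
    refine ⟨m * m', ξ + ξ', Nat.mul_pos hm hm', ?_⟩
    push_cast
    linear_combination (m' : F.R) * h + (m : F.R) * h'
  smul_mem' := by
    rintro c x ⟨m, ξ, hm, h⟩
    refine ⟨m, c * ξ, hm, ?_⟩
    simp only [smul_eq_mul]
    push_cast
    linear_combination (c : F.R) * h

open Classical in
/-- the part of bounded weight of `η d` -/
def Dm (d : ℕ → ℕ) (η : F.B) : F.B :=
  if h : ∃ ξ : F.B, ∃ m : ℕ, 0 < m ∧ (m : F.R) * (η * F.dR d - ξ) = 0 then h.choose else 0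

/-- the torsion elements that act trivially modulo `I` -/
def KI (I : Ideal F.B) : AddSubgroup F.G where
  carrier := {ω | ω ∈ F.Tor ∧ F.mn ω - 1 ∈ I}
  zero_mem' := ⟨zero_mem _, by simp [mn_zero]⟩
  add_mem' := by
    rintro a b ⟨h1, h2⟩ ⟨h3, h4⟩
    refine ⟨add_mem h1 h3, ?_⟩
    have := I.add_mem (I.mul_mem_left (F.mn a) h4) h2
    rwa [show F.mn a * (F.mn b - 1) + (F.mn a - 1) = F.mn (a + b) - 1 by
      rw [mn_add]; ring] at this
  neg_mem' := by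
    rintro a ⟨h1, h2⟩
    refine ⟨neg_mem h1, ?_⟩
    have := I.mul_mem_left (-F.mn (-a)) h2
    rwa [show -F.mn (-a) * (F.mn a - 1) = F.mn (-a) - 1 by
      linear_combination -F.mn_mul_neg a] at this

/-- the cocycle -/
def xi (d : ℕ → ℕ) (ω : F.G) : F.B := F.Dm d (F.mn ω - 1)

/-- every finite set of frequencies splits into near and far ones -/
def Dich (d : ℕ → ℕ) (I : Ideal F.B) : Prop :=
  ∀ s : Finset F.B, ∃ m : ℕ, 0 < m ∧ ∀ η ∈ s,
    (η ∈ I → (m : F.R) * (η * F.dR d - F.Dm d η) = 0) ∧ (η ∉ I → (m : F.R) * η * F.dR d ∉ F.B)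

open Classical in
/-- the mean field coefficients of the move with prepaid part `u` and response `b` -/
def SS (d : ℕ → ℕ) (I : Ideal F.B) (u b f : F.B) (a : ℤ) : ℂ :=
  ∑ᶠ γ, if f + a • F.mn γ ∈ I then
    ee (F.db (F.Dm d (f + a • F.mn γ) * u)) * (ee (a • F.db (F.mn γ * b)) - 1) else 0

/-- the mean field inequality for all moves -/
def MFall (κ : ℂ) (C₀ : ℝ) (d : ℕ → ℕ) (I : Ideal F.B) : Prop :=
  ∀ (k : ℕ) (P Q : Multiset F.G) (b : F.B), P.card + Q.card ≤ k →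
    ((F.sm P - F.sm Q : F.B) : F.R) * F.dR d = b → MF (F.SS d I (F.sm Q) b) κ (C₀ * k)

/-- relations among the sites `g` have a large odd coefficient -/
def Lac (θ : F.Ch) {r : ℕ} (g : Fin r → F.G) (D : ℕ) : Prop :=
  ∀ s ∈ Sg r, (∃ k k', k ≠ k' ∧ s k ≠ 0 ∧ s k' ≠ 0) → ∀ (a : ℤ) (γ : F.G), Odd a →
    F.chi θ (∑ k, s k • F.mn (g k) + a • F.mn γ) = 0 → (D : ℤ) ≤ |a|

/-- `d` is of finite type -/
def FinT (d : ℕ → ℕ) : Prop :=
  ∃ (a : ℕ) (γ : F.G) (p : F.B), 0 < a ∧ p ∈ F.B00 ∧ (a : F.R) * F.dR d = (F.mn γ * p : F.B)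

/-- coordinates on a finitely generated group of sites -/
structure Chart (m r : ℕ) (T : Type) [AddCommGroup T] where
  Γ : AddSubgroup F.G
  κ : Γ →+ ℤ × ((Fin r → ℤ) × T)
  mem : F.σ ∈ Γ
  inj : Function.Injective κ
  sig : κ ⟨F.σ, mem⟩ = ((m : ℤ), 0)

variable {F}

open Classical in
/-- evaluation of the group ring of a chart -/
def Chart.ev {m r : ℕ} {T : Type} [AddCommGroup T] (c : F.Chart m r T) :
    GR m ((Fin r → ℤ) × T) →+ F.B :=
  chG m fun δ => if h : ∃ γ, c.κ γ = δ then F.mn (h.choose : c.Γ) else 0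

/-- `f` represents `x` in the chart -/
def Chart.Rep {m r : ℕ} {T : Type} [AddCommGroup T] (c : F.Chart m r T)
    (f : GR m ((Fin r → ℤ) × T)) (x : F.B) : Prop :=
  ∃ (k : ℕ) (a : Fin k → ℤ) (γ : Fin k → c.Γ),
    f = ∑ j, a j • mon m (c.κ (γ j)) ∧ x = ∑ j, a j • F.mn (γ j)

end Fr

end Pool.Agent.GT
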