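import Pool.Agent.Lib.MP_a01f70_lc.GT.MfB

/-! Mean field lemma: the limit along the ultrafilter. -/

noncomputable section

namespace Pool.Agent.GT
open Finset Filter Topology Pool.Agent.GK Pool.Agent.Lib.MP_a01f70_lc

namespace Fr

variable {F : Fr} {d : ℕ → ℕ} {θ : F.Ch} {I : Ideal F.B} {ι : Type}

theorem MfD_mul (x y : ∀ i, ZMod (2 ^ F.n i - 1)) :
    F.mkR (fun i => x i * y i) = F.mkR x * F.mkR y := map_mul F.mkR x y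

theorem MfD_add (x y : ∀ i, ZMod (2 ^ F.n i - 1)) :
    F.mkR (fun i => x i + y i) = F.mkR x + F.mkR y := map_add F.mkR x y

theorem MfD_sub (x y : ∀ i, ZMod (2 ^ F.n i - 1)) :
    F.mkR (fun i => x i - y i) = F.mkR x - F.mkR y := map_sub F.mkR x y

theorem MfD_int (a : ℤ) : F.mkR (fun i => (a : ZMod (2 ^ F.n i - 1))) = a := map_intCast F.mkR a

theorem MfD_nat (a : ℕ) : F.mkR (fun i => (a : ZMod (2 ^ F.n i - 1))) = a := map_natCast F.mkR a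

/-- Take `m` from `Dich` for the finite set of all `f φ + a • mn γ` (`φ ∈ s`, `γ ∈ Γ`, `a ∈ A`) and all
`a • mn 0`, `a ∈ A = (Icc (-M) M).erase 0`. Representatives: `p`, `p'` from `sm_rep` for `P`, `Q`,
`rr (f φ)`, `ξ γ t = rr (Dm d (f t.1 + t.2 • mn γ))`; `rr b i = (P' - Q') * d i` almost everywhere
(`mkR_eq`). Almost every `i` satisfies the hypotheses of `GA.level` with `G / 2`, `g = (og · i)`,
`Z = ZZ I s f M`, `W = Γ.card * ∑ ‖G‖`: `bdd_ev`, `og_injOn`, `WtB.wt`, `mkR_eq`, `mn_pw` (near),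
`not_wt` (far; integers by `not_int`), `sum_ZZ`; `Filter.eventually_all_finset`. -/
theorem lev_ev (hd : ∀ i, Dn (F.n i) (d i)) (hχ : ∀ η ∈ I, F.chi θ η = 0) (hD : F.Dich d I)
    {k : ℕ} {P Q : Multiset F.G} {b : F.B} (hk : P.card + Q.card ≤ k)
    (hb : ((F.sm P - F.sm Q : F.B) : F.R) * F.dR d = b) {s : Finset ι} {G : ι → ℂ} {f : ι → F.B}
    (hG : Bdd s G f) {c : ℤ → ℂ} {M : ℕ} {μ : ℝ} (hc : BA.Mino c M μ) (Γ : Finset F.G) {ε : ℝ}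
    (hR : ∀ᶠ i in F.U, ∑ j ∈ (Γ.image fun γ => F.og γ i)ᶜ, ‖BA.ww (F.rr b i) j‖ ≤ ε) {w : ℕ}
    (hw : ∀ γ ∈ Γ, ∀ t ∈ ZZ I s f M γ, F.WtB w (F.Dm d (f t.1 + t.2 • F.mn γ))) {q : ℝ}
    (hq0 : 0 ≤ q) (hq1 : q ≤ 1) : ∃ m : ℕ, ∀ (ρ : ℝ) (T : ℕ), 0 ≤ ρ → ρ ≤ 1 / 2 → ∀ᶠ i in F.U,
      q / 2 * (∑ γ ∈ Γ, ∑ t ∈ ZZ I s f M γ, G t.1 / 2 * c t.2 *
        (BA.ee ((t.2 : ZMod (2 ^ F.n i - 1)) * (BA.pw _ (F.og γ i) * F.rr b i)) - 1) *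
          BA.ee (F.rr (F.Dm d (f t.1 + t.2 • F.mn γ)) i * F.rr (F.sm Q) i)).re ≤
        (2 + 14 * w * q * (Γ.card * ∑ φ ∈ s, ‖G φ‖)) * (m * ρ + k * q + m / F.n i) + μ +
          2 * M * ε + 8 * (q * Γ.card) ^ 2 + 7 * (q * Γ.card) ^ 3 +
          Real.exp (-(ρ * T / 4)) * (2 * M) * (1 + q * Γ.card * (1 + ∑ φ ∈ s, ‖G φ‖)) := by
  classical
  obtain ⟨A, hA⟩ : ∃ A, A = (Icc (-M : ℤ) M).erase 0 := ⟨_, rfl⟩
  obtain ⟨m, hm, hD⟩ := hD (((Γ ×ˢ s ×ˢ A).image fun t => f t.2.1 + t.2.2 • F.mn t.1) ∪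
    A.image fun a => a • F.mn 0)
  refine ⟨m, fun ρ T hρ0 hρ1 => ?_⟩
  obtain ⟨p, p1, p2⟩ := sm_rep P
  obtain ⟨p', p3, p4⟩ := sm_rep Q
  have e1 : ∀ᶠ i in F.U, F.rr (F.sm Q) i = ((p' i).map (2 ^ ·)).sum :=
    F.mkR_eq.1 (by rw [mk_rr, p4])
  have e2 : ∀ᶠ i in F.U, F.rr b i = (((p i).map (2 ^ ·)).sum - F.rr (F.sm Q) i) * d i := by
    refine F.mkR_eq.1 ?_
    rw [mk_rr, MfD_mul, MfD_sub, mk_rr, ← p2, ← hb]
    rfl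
  have e3 : ∀ (φ : ι) (a : ℤ) (γ : F.G), F.mkR (fun i => F.rr (f φ) i +
      (a : ZMod (2 ^ F.n i - 1)) * BA.pw _ (F.og γ i)) = (f φ + a • F.mn γ : F.B) := fun φ a γ => by
    rw [MfD_add, MfD_mul, MfD_int, mk_rr, ← mn_pw, zsmul_eq_mul]
    push_cast
    rfl
  have hfar : ∀ (η : F.B) (y : ∀ i, ZMod (2 ^ F.n i - 1)), F.mkR y = η →
      (m : F.R) * η * F.dR d ∉ F.B → ∀ᶠ i in F.U, ¬BA.Wt T (y i * (d i * m)) := fun η y e h => by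
    refine not_wt ?_ T
    rw [MfD_mul, MfD_mul, MfD_nat, e]
    rwa [show (m : F.R) * η * F.dR d = η * (F.dR d * m) by ring] at h
  have h1 : ∀ᶠ i in F.U, ∀ γ ∈ Γ, ∀ t ∈ ZZ I s f M γ,
      BA.Wt w (F.rr (F.Dm d (f t.1 + t.2 • F.mn γ)) i) ∧ (m : ZMod (2 ^ F.n i - 1)) *
        ((F.rr (f t.1) i + (t.2 : ZMod (2 ^ F.n i - 1)) * BA.pw (2 ^ F.n i - 1) (F.og γ i)) * d i -
          F.rr (F.Dm d (f t.1 + t.2 • F.mn γ)) i) = 0 := by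
    refine (eventually_all_finset _).2 fun γ hγ => (eventually_all_finset _).2 fun t ht => ?_
    refine ((hw γ hγ t ht).wt (F.mk_rr _).symm).and ?_
    obtain ⟨t1, t2⟩ := mem_filter.1 ht
    have h2 := (hD _ (mem_union_left _ (mem_image.2
      ⟨(γ, t), mem_product.2 ⟨hγ, hA ▸ t1⟩, rfl⟩))).1 t2
    refine F.mkR_eq.1 (Eq.trans ?_ (map_zero F.mkR).symm)
    rw [MfD_mul, MfD_sub, MfD_mul, e3, mk_rr, MfD_nat]
    exact h2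
  have h2 : ∀ᶠ i in F.U, ∀ γ ∈ Γ, ∀ t ∈ s ×ˢ A, t ∉ ZZ I s f M γ →
      ¬BA.Wt T ((F.rr (f t.1) i + (t.2 : ZMod (2 ^ F.n i - 1)) *
        BA.pw (2 ^ F.n i - 1) (F.og γ i)) * (d i * m)) := by
    refine (eventually_all_finset _).2 fun γ hγ => (eventually_all_finset _).2 fun t ht => ?_
    by_cases h3 : t ∈ ZZ I s f M γ
    · exact Eventually.of_forall fun _ h => absurd h3 h
    · refine (hfar _ _ (e3 t.1 t.2 γ) ((hD _ (mem_union_left _ (mem_image.2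
        ⟨(γ, t), mem_product.2 ⟨hγ, ht⟩, rfl⟩))).2 fun h4 => h3 ?_)).mono fun i hi _ => hi
      exact mem_filter.2 ⟨hA ▸ ht, h4⟩
  have h3 : ∀ᶠ i in F.U, ∀ a ∈ A, ¬BA.Wt T ((a : ZMod (2 ^ F.n i - 1)) * (d i * m)) := by
    refine (eventually_all_finset _).2 fun a ha => hfar (a • F.mn 0) _ ?_
      ((hD _ (mem_union_right _ (mem_image_of_mem _ ha))).2
        (not_int hχ (mem_erase.1 (hA ▸ ha)).1 0))
    rw [MfD_int, mn_zero, zsmul_eq_mul, mul_one]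
    rfl
  have hW : ∑ γ ∈ Γ, ∑ t ∈ ZZ I s f M γ, ‖G t.1 / 2‖ * ‖c t.2‖ ≤ Γ.card * ∑ φ ∈ s, ‖G φ‖ := by
    rw [← nsmul_eq_mul]
    refine sum_le_card_nsmul _ _ _ fun γ _ => le_trans (sum_le_sum fun t ht => ?_)
      (sum_ZZ hχ s f M γ (fun φ => ‖G φ‖) fun _ => norm_nonneg _)
    have := hc.norm_le (mem_erase.1 (mem_product.1 (mem_filter.1 ht).1).2).1
    rw [norm_div, Complex.norm_ofNat]
    nlinarith [norm_nonneg (G t.1), norm_nonneg (c t.2)]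
  have hG2 : ∑ φ ∈ s, ‖G φ / 2‖ ≤ ∑ φ ∈ s, ‖G φ‖ := sum_le_sum fun φ _ => by
    rw [norm_div, Complex.norm_ofNat]
    linarith [norm_nonneg (G φ)]
  filter_upwards [e1, e2, F.bdd_ev hG, F.og_injOn Γ, hR, h1, h2, h3] with i a1 a2 a3 a4 a5 a6 a7 a8
  refine (GA.level (T := k) (F.hN i) (hd i) hc (p i) (p' i) (by rwa [p1, p3]) hm a1 a2 s
    (fun φ => F.rr (f φ) i) (fun φ => G φ / 2) a3 Γ (fun γ => F.og γ i) a4 a5 (ZZ I s f M)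
    (fun γ _ => filter_subset _ _) (fun γ t => F.rr (F.Dm d (f t.1 + t.2 • F.mn γ)) i) a6 (hA ▸ a7)
    (fun a b1 b2 => a8 a (hA ▸ mem_erase.2 ⟨b1, mem_Icc.2 (abs_le.1 b2)⟩)) hρ0 hρ1 hq0 hq1
    hW).trans ?_
  gcongr

/-- `lev_ev`; the left side tends to `q / 4 * (MM ..).re` (`tendsto_ee`, `mn_pw`, `mk_rr`,
`tendsto_finset_sum`), `m / n i` tends to zero (`big`), `le_of_tendsto_of_tendsto`. Then `T → ∞` for
fixed `ρ > 0`, then `ρ → 0`. -/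
theorem lim (hd : ∀ i, Dn (F.n i) (d i)) (hχ : ∀ η ∈ I, F.chi θ η = 0) (hD : F.Dich d I)
    {k : ℕ} {P Q : Multiset F.G} {b : F.B} (hk : P.card + Q.card ≤ k)
    (hb : ((F.sm P - F.sm Q : F.B) : F.R) * F.dR d = b) {s : Finset ι} {G : ι → ℂ} {f : ι → F.B}
    (hG : Bdd s G f) {c : ℤ → ℂ} {M : ℕ} {μ : ℝ} (hc : BA.Mino c M μ) (Γ : Finset F.G) {ε : ℝ}
    (hR : ∀ᶠ i in F.U, ∑ j ∈ (Γ.image fun γ => F.og γ i)ᶜ, ‖BA.ww (F.rr b i) j‖ ≤ ε) {w : ℕ}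
    (hw : ∀ γ ∈ Γ, ∀ t ∈ ZZ I s f M γ, F.WtB w (F.Dm d (f t.1 + t.2 • F.mn γ))) {q : ℝ}
    (hq0 : 0 ≤ q) (hq1 : q ≤ 1) :
    q / 4 * (MM d I (F.sm Q) b s G f c M Γ).re ≤
      (2 + 14 * w * q * (Γ.card * ∑ φ ∈ s, ‖G φ‖)) * (k * q) + μ + 2 * M * ε +
        8 * (q * Γ.card) ^ 2 + 7 * (q * Γ.card) ^ 3 := by
  obtain ⟨m, h⟩ := lev_ev hd hχ hD hk hb hG hc Γ hR hw hq0 hq1
  obtain ⟨C, hC⟩ : ∃ C, C = 2 + 14 * w * q * (Γ.card * ∑ φ ∈ s, ‖G φ‖) := ⟨_, rfl⟩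
  obtain ⟨D, hD⟩ : ∃ D, D = 1 + q * Γ.card * (1 + ∑ φ ∈ s, ‖G φ‖) := ⟨_, rfl⟩
  rw [← hC, ← hD] at h
  rw [← hC]
  have t1 : Tendsto (fun i => q / 2 * (∑ γ ∈ Γ, ∑ t ∈ ZZ I s f M γ, G t.1 / 2 * c t.2 *
      (BA.ee ((t.2 : ZMod (2 ^ F.n i - 1)) * (BA.pw _ (F.og γ i) * F.rr b i)) - 1) *
        BA.ee (F.rr (F.Dm d (f t.1 + t.2 • F.mn γ)) i * F.rr (F.sm Q) i)).re) F.U
      (𝓝 (q / 4 * (MM d I (F.sm Q) b s G f c M Γ).re)) := by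
    have e : q / 4 * (MM d I (F.sm Q) b s G f c M Γ).re = q / 2 * (∑ γ ∈ Γ, ∑ t ∈ ZZ I s f M γ,
        G t.1 / 2 * c t.2 * (ee (t.2 • F.db (F.mn γ * b)) - 1) *
          ee (F.db (F.Dm d (f t.1 + t.2 • F.mn γ) * F.sm Q))).re := by
      simp only [div_mul_eq_mul_div, ← sum_div, Complex.div_ofNat_re, MM]
      ring
    rw [e]
    refine ((Complex.continuous_re.tendsto _).comp (tendsto_finsetSum _ fun γ _ =>
      tendsto_finsetSum _ fun t _ => Tendsto.mul (Tendsto.const_mul _ (Tendsto.sub_const ?_ 1))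
        ?_)).const_mul _
    · have := F.tendsto_ee fun i => t.2 * (BA.pw (2 ^ F.n i - 1) (F.og γ i) * F.rr b i)
      rwa [MfD_mul, MfD_mul, MfD_int, mk_rr, ← mn_pw, ← zsmul_eq_mul, map_zsmul] at this
    · have := F.tendsto_ee (F.rr (F.Dm d (f t.1 + t.2 • F.mn γ)) * F.rr (F.sm Q))
      rwa [map_mul, mk_rr, mk_rr] at this
  have t2 : Tendsto (fun i => (m : ℝ) / F.n i) F.U (𝓝 0) :=
    (tendsto_const_div_atTop_nhds_zero_nat _).comp (tendsto_atTop.2 F.big)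
  have h1 : ∀ (ρ : ℝ) (T : ℕ), 0 ≤ ρ → ρ ≤ 1 / 2 → q / 4 * (MM d I (F.sm Q) b s G f c M Γ).re ≤
      C * (m * ρ + k * q + 0) + μ + 2 * M * ε + 8 * (q * Γ.card) ^ 2 + 7 * (q * Γ.card) ^ 3 +
        Real.exp (-(ρ * T / 4)) * (2 * M) * D := fun ρ T a1 a2 =>
    le_of_tendsto_of_tendsto t1 (((((((t2.const_add _).const_mul C).add_const _).add_const
      _).add_const _).add_const _).add_const _) (h ρ T a1 a2)
  have h2 : ∀ ρ : ℝ, 0 < ρ → ρ ≤ 1 / 2 → q / 4 * (MM d I (F.sm Q) b s G f c M Γ).re ≤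
      C * (m * ρ + k * q + 0) + μ + 2 * M * ε + 8 * (q * Γ.card) ^ 2 + 7 * (q * Γ.card) ^ 3 +
        0 * (2 * M) * D := fun ρ a1 a2 => by
    have t3 : Tendsto (fun T : ℕ => Real.exp (-(ρ * T / 4))) atTop (𝓝 0) :=
      Real.tendsto_exp_neg_atTop_nhds_zero.comp
        ((tendsto_natCast_atTop_atTop.const_mul_atTop a1).atTop_div_const (by norm_num))
    exact ge_of_tendsto' (((t3.mul_const _).mul_const D).const_add _) fun T => h1 ρ T a1.le a2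
  have t4 : Tendsto (fun ρ : ℝ => C * (m * ρ + k * q + 0) + μ + 2 * M * ε + 8 * (q * Γ.card) ^ 2 +
      7 * (q * Γ.card) ^ 3 + 0 * (2 * M) * D) (𝓝[>] 0) (𝓝 (C * (m * 0 + k * q + 0) + μ + 2 * M * ε +
        8 * (q * Γ.card) ^ 2 + 7 * (q * Γ.card) ^ 3 + 0 * (2 * M) * D)) :=
    (Continuous.tendsto (by fun_prop) 0).mono_left nhdsWithin_le_nhds
  refine (ge_of_tendsto t4 ?_).trans_eq (by ring)
  filter_upwards [Ioc_mem_nhdsGT (show (0 : ℝ) < 1 / 2 by norm_num)] with ρ hρ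
  exact h2 ρ hρ.1 hρ.2

end Fr

end Pool.Agent.GT
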