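import Pool.Agent.Lib.MP_a01f70_lc.GT.MfC
import Pool.Agent.Lib.MP_a01f70_lc.GT.MfD

/-! Block M: the mean field lemma. -/

namespace Pool.Agent.GT
open Finset Filter Topology Pool.Agent.GK Pool.Agent.Lib.MP_a01f70_lc

theorem mf_lim {Y K C : ℝ} (h : ∀ j : ℕ, 2 ≤ j → Y ≤ K + C * (j ^ 3 / 2 ^ j)) : Y ≤ K := by
  have h1 := ((tendsto_pow_const_div_const_pow_of_one_lt 3 (one_lt_two (α := ℝ))).const_mul
    C).const_add K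
  rw [mul_zero, add_zero] at h1
  exact ge_of_tendsto h1 (eventually_atTop.2 ⟨2, h⟩)

theorem mf_num {x m w A k s r t R y : ℝ} (hx : 0 < x) (hx1 : x ≤ 1) (hM : m * (x ^ 2) ^ 3 ≤ 33)
    (hw : 0 ≤ w) (hA : 0 ≤ A) (hk : 0 ≤ k) (hs : 0 ≤ s) (hr : 0 ≤ r) (ht : 1 ≤ t) (hR : 0 ≤ R)
    (hrt : r ≤ R * t) (h : x / 4 * y ≤ (2 + 14 * w * x * (r * A)) * (k * x) + x ^ 2 +
      2 * m * (s * x ^ 8) + 8 * (x * r) ^ 2 + 7 * (x * r) ^ 3) :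
    y + 6 * x ^ 2 * r * A ≤ 8 * k +
      (56 * w * R * A * k + 4 + 264 * s + 32 * R ^ 2 + 28 * R ^ 3 + 6 * R * A) * (t ^ 3 * x) := by
  have t1 : t ≤ t ^ 3 := le_self_pow₀ ht (by norm_num)
  have t2 : t ^ 2 ≤ t ^ 3 := pow_le_pow_right₀ ht (by norm_num)
  have t0 : 1 ≤ t ^ 3 := ht.trans t1
  have r1 : r ≤ R * t ^ 3 := hrt.trans (by gcongr)
  have r2 : r ^ 2 ≤ R ^ 2 * t ^ 3 := (pow_le_pow_left₀ hr hrt 2).trans (by rw [mul_pow]; gcongr)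
  have r3 : r ^ 3 ≤ R ^ 3 * t ^ 3 := (pow_le_pow_left₀ hr hrt 3).trans_eq (mul_pow _ _ _)
  have h1 : y ≤ 8 * k + x * (56 * w * A * k * r + 4 + 8 * s * (m * (x ^ 2) ^ 3) + 32 * r ^ 2 +
      28 * (x * r ^ 3)) := by
    refine le_of_mul_le_mul_left ?_ (by positivity : 0 < x / 4)
    linarith
  have h2 : 56 * w * A * k * r ≤ 56 * w * A * k * (R * t ^ 3) := by gcongr
  have h3 : 8 * s * (m * (x ^ 2) ^ 3) ≤ 8 * s * (33 * t ^ 3) :=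
    mul_le_mul_of_nonneg_left (by linarith) (by positivity)
  have h4 : x * r ^ 3 ≤ 1 * (R ^ 3 * t ^ 3) := by gcongr
  have h5 : 6 * A * (x * r) ≤ 6 * A * (1 * (R * t ^ 3)) := by gcongr
  have h6 := mul_le_mul_of_nonneg_left (show 56 * w * A * k * r + 4 + 8 * s * (m * (x ^ 2) ^ 3) +
      32 * r ^ 2 + 28 * (x * r ^ 3) + 6 * A * (x * r) ≤ (56 * w * R * A * k + 4 + 264 * s +
        32 * R ^ 2 + 28 * R ^ 3 + 6 * R * A) * t ^ 3 by linarith) hx.le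
  linarith

theorem meanfield : ∃ (κ : ℂ) (C₀ : ℝ), 1 / 2 ≤ ‖κ‖ ∧ ‖κ‖ ≤ 1 ∧ 0 ≤ C₀ ∧
    ∀ (F : Fr) (d : ℕ → ℕ) (θ : F.Ch) (I : Ideal F.B), (∀ i, Dn (F.n i) (d i)) → I ≤ F.J2 d →
      (∀ η ∈ I, F.chi θ η = 0) → F.Dich d I → F.MFall κ C₀ d I := by
  have hκ : ‖2 * Complex.I / Real.pi‖ = 2 / Real.pi := by simp [abs_of_pos Real.pi_pos]
  refine ⟨2 * Complex.I / Real.pi, 8, ?_, ?_, by norm_num,
    fun F d θ I hd _ hχ hD k P Q b hk hb ι s G f E hG hE0 hE => ?_⟩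
  · rw [hκ, le_div_iff₀ Real.pi_pos]
    linarith [Real.pi_lt_four]
  · rw [hκ, div_le_one Real.pi_pos]
    linarith [Real.pi_gt_three]
  obtain ⟨σ, hσ⟩ := F.sites b
  obtain ⟨Γ₀, h0, h1⟩ := Fr.near_fin hχ b s f
  obtain ⟨w, hw⟩ := Fr.near_wt hχ d b s f
  have hA : 0 ≤ ∑ φ ∈ s, ‖G φ‖ := sum_nonneg fun _ _ => norm_nonneg _
  refine mf_lim (C := (56 * w * (8 * σ + Γ₀.card) * ∑ φ ∈ s, ‖G φ‖) * k + 4 + 264 * (14 * σ + 1) +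
    32 * (8 * σ + Γ₀.card) ^ 2 + 28 * (8 * σ + Γ₀.card) ^ 3 +
    6 * (8 * σ + Γ₀.card) * ∑ φ ∈ s, ‖G φ‖) fun j hj => ?_
  obtain ⟨x, hx⟩ : ∃ x : ℝ, x = 1 / 2 ^ j := ⟨_, rfl⟩
  have hx0 : 0 < x := by rw [hx]; positivity
  have hx4 : x ≤ 1 / 4 := by
    rw [hx]
    exact one_div_le_one_div_of_le (by norm_num)
      (le_trans (by norm_num) (pow_le_pow_right₀ one_le_two hj))
  obtain ⟨M, c, hM, hc, hc1⟩ := GA.exists_mino' (pow_pos hx0 2) (by nlinarith)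
  obtain ⟨Γ, g0, g1, g2, g3⟩ := hσ (8 * j) Γ₀ h0
  have h2 := Fr.lim hd hχ hD hk hb hG hc Γ g3 (w := w) (fun γ hγ t ht => by
    classical
    obtain ⟨t1, t2⟩ := mem_filter.1 ht
    obtain ⟨t3, t4⟩ := mem_product.1 t1
    exact hw _ t3 _ (mem_erase.1 t4).1 γ t2 (g2 γ hγ)) hx0.le (by linarith)
  have h3 := Fr.dec hχ (F.sm Q) b s G f hc hc1 Γ (fun φ hφ a ha γ a1 a2 => g0 (h1 φ hφ a ha γ a1 a2))
    E hE0 hE
  have e1 : (14 * (σ : ℝ) + 1) / 2 ^ (8 * j) = (14 * σ + 1) * x ^ 8 := by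
    rw [hx, one_div, inv_pow, ← pow_mul, mul_comm j, div_eq_mul_inv]
  have hj1 : (1 : ℝ) ≤ j := by exact_mod_cast (by omega : 1 ≤ j)
  have h4 : (Γ.card : ℝ) ≤ (8 * σ + Γ₀.card) * j := by
    have : Γ.card ≤ (8 * σ + Γ₀.card) * j := g1.trans (by nlinarith)
    exact_mod_cast this
  rw [e1] at h2
  have h5 := mf_num hx0 (by linarith) hM (Nat.cast_nonneg w) hA (Nat.cast_nonneg k) (by positivity)
    (Nat.cast_nonneg _) hj1 (by positivity) h4 h2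
  rw [hx, mul_one_div (_ ^ 3 : ℝ), ← hx] at h5
  exact h3.trans (by linarith [h5])

end Pool.Agent.GT
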