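import Pool.Agent.Lib.MP_a01f70_lc.GT.MDefs

/-! The global model: active sites and weight. -/

noncomputable section

namespace Pool.Agent.GT.Fr
open Finset Filter Topology Pool.Agent.GK

variable {F : Fr}

theorem mp_one (γ₀ : F.G) (s : Finset F.G) : ∑ γ ∈ s, ‖F.db (F.mn γ * F.mn γ₀)‖ ≤ 1 := by
  have hi : Function.Injective fun j : ℕ => (-((j : ℤ) + 1)) • F.σ - γ₀ := fun i j h => by
    have := F.zsmul_σ_inj (sub_left_inj.1 h)
    omega
  rw [← sum_preimage _ s hi.injOn (fun γ => ‖F.db (F.mn γ * F.mn γ₀)‖) fun γ _ hγ => ?_]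
  · refine le_trans (sum_le_sum fun j _ => ?_)
      (sum_le_hasSum _ (fun _ _ => by positivity) (hasSum_geometric_two' 1))
    rw [← mn_add, sub_add_cancel, db_mn_σ]
    refine QuotientAddGroup.norm_mk_le_norm.trans (le_of_eq ?_)
    rw [Real.norm_of_nonneg (by positivity), zpow_neg, zpow_add_one₀ two_ne_zero, zpow_natCast]
    field_simp
  · rw [← mn_add, norm_eq_zero]
    by_cases h : ∃ j : ℤ, γ + γ₀ = j • F.σ
    · obtain ⟨j, hj⟩ := h
      obtain ⟨k, rfl | rfl⟩ := j.eq_nat_or_neg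
      · rw [hj, db_mn_σ, AddCircle.coe_eq_zero_iff]
        exact ⟨2 ^ k, by simp⟩
      · rcases k with _ | k
        · rw [hj, db_mn_σ]
          simp
        · exact (hγ ⟨k, by rw [sub_eq_iff_eq_add, hj]; simp⟩).elim
    · exact F.db_mn_of_ne fun j e => h ⟨j, e⟩

theorem mp_sm (P : Multiset F.G) (s : Finset F.G) :
    ∑ γ ∈ s, ‖F.db (F.mn γ * F.sm P)‖ ≤ P.card := by
  induction P using Multiset.induction_on with
  | empty => simp [sm_zero]
  | cons a P ih =>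
    rw [← Multiset.singleton_add, sm_add, sm_single, Multiset.card_add, Multiset.card_singleton]
    push_cast
    refine le_trans (sum_le_sum fun γ _ => ?_) (sum_add_distrib.le.trans
      (add_le_add (mp_one a s) ih))
    rw [mul_add, map_add]
    exact norm_add_le _ _

/-- For one monomial only the sites with `γ + γ₀ = -(j + 1) • σ`, `j : ℕ`, contribute, at most
`2 ^ (-(j + 1))` each. -/
theorem sum_norm_db {k : ℕ} {x : F.B} (h : F.WtB k x) (s : Finset F.G) :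
    ∑ γ ∈ s, ‖F.db (F.mn γ * x)‖ ≤ k := by
  obtain ⟨P, Q, hk, rfl⟩ := h
  refine le_trans (sum_le_sum fun γ _ => ?_) (sum_add_distrib.le.trans
    ((add_le_add (mp_sm P s) (mp_sm Q s)).trans (by exact_mod_cast hk)))
  rw [mul_sub, map_sub]
  exact norm_sub_le _ _

theorem card_big {k : ℕ} {x : F.B} (h : F.WtB k x) {t : ℝ} (s : Finset F.G)
    (hs : ∀ γ ∈ s, t ≤ ‖F.db (F.mn γ * x)‖) : s.card * t ≤ k := by
  rw [← nsmul_eq_mul]
  exact (card_nsmul_le_sum s _ t hs).trans (sum_norm_db h s)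

theorem finite_big (x : F.B) {t : ℝ} (ht : 0 < t) :
    {γ | t ≤ ‖F.db (F.mn γ * x)‖}.Finite := by
  obtain ⟨k, hk⟩ := exists_wtB x
  obtain ⟨n, hn⟩ := exists_nat_gt (k / t)
  by_contra h
  obtain ⟨s, h1, h2⟩ := Set.Infinite.exists_subset_card_eq h n
  have := card_big hk s fun γ hγ => h1 hγ
  rw [h2] at this
  exact absurd ((div_lt_iff₀ ht).1 hn) (not_lt.2 this)

theorem mp_eps (c : ℝ) : |round (2 * c) - 2 * round c| ≤ 1 ∧
    (|c - round c| < 1 / 4 → round (2 * c) - 2 * round c = 0) := by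
  have h1 := abs_le.1 (abs_sub_round c)
  have h2 := abs_le.1 (abs_sub_round (2 * c))
  constructor
  · have : |round (2 * c) - 2 * round c| < 2 := by
      rw [← Int.cast_lt (R := ℝ)]
      push_cast
      rw [abs_lt]
      constructor <;> linarith [h1.1, h1.2, h2.1, h2.2]
    omega
  · intro h
    rw [← Int.abs_lt_one_iff, ← Int.cast_lt (R := ℝ)]
    push_cast
    rw [abs_lt] at h ⊢
    constructor <;> linarith [h.1, h.2, h2.1, h2.2]

theorem mp_wt (s : Finset F.G) {ε : F.G → ℤ} (h : ∀ γ, |ε γ| ≤ 1) (f : F.G → F.G) :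
    F.WtB s.card (∑ γ ∈ s, ε γ • F.mn (f γ)) := by
  classical
  induction s using Finset.induction_on with
  | empty => exact ⟨0, 0, by simp, by simp⟩
  | insert a s ha ih =>
    rw [sum_insert ha, card_insert_of_notMem ha, add_comm s.card]
    refine WtB.add ?_ ih
    have h1 := abs_le.1 (h a)
    obtain e | e | e : ε a = 1 ∨ ε a = 0 ∨ ε a = -1 := by omega
    · simpa [e] using wtB_mn (f a)
    · exact ⟨0, 0, by simp, by simp [e]⟩
    · simpa [e] using (wtB_mn (f a)).neg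

theorem mp_far {c : ℝ} {k : ℕ} {z : ℤ} (h : c * 2 ^ k = z) : ∃ L : ℕ,
    (∀ j : ℤ, L ≤ j → (round (2 ^ j * c) : ℝ) = 2 ^ j * c) ∧
      ∀ j : ℤ, j ≤ -L → round (2 ^ j * c) = 0 := by
  obtain ⟨n, hn⟩ := pow_unbounded_of_one_lt (2 * |c|) (one_lt_two (α := ℝ))
  refine ⟨k + n, fun j hj => ?_, fun j hj => ?_⟩
  · obtain ⟨i, rfl⟩ : ∃ i : ℕ, j = i + k := ⟨(j - k).toNat, by omega⟩
    have : (2 : ℝ) ^ ((i : ℤ) + k) * c = (2 ^ i * z : ℤ) := by
      push_cast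
      rw [← h, zpow_add₀ two_ne_zero, zpow_natCast, zpow_natCast]
      ring
    rw [this, round_intCast]
  · have h1 : (2 : ℝ) ^ j ≤ 2 ^ (-(n : ℤ)) := zpow_le_zpow_right₀ one_le_two (by omega)
    have h2 : |(2 : ℝ) ^ j * c| < 1 / 2 := by
      rw [abs_mul, abs_of_pos (by positivity)]
      refine (mul_le_mul_of_nonneg_right h1 (abs_nonneg c)).trans_lt ?_
      rw [zpow_neg, zpow_natCast, inv_mul_lt_iff₀ (by positivity)]
      linarith
    exact round_eq_zero_iff.2 ⟨(abs_lt.1 h2).1.le, (abs_lt.1 h2).2⟩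

/-- Centred digits. Let `r γ = c - round c`, `c = co (mn γ * b)`, so `|r γ| = ‖db (mn γ * b)‖`
(`db_eq`, `UnitAddCircle.norm_eq`), and `ε γ = 2 r γ - r (γ + σ) = round (2 c) - 2 round c` is an integer
of size at most one (`|2 r - r'| ≤ 3 / 2`) that vanishes if `|r γ| < 1 / 4`. Put
`y = ∑ γ ∈ s, ε γ • mn (-γ - σ)`. On a line the coordinate of `y` at `γ₀` is the telescoping sum
`∑ j ∈ Icc (-L) L, (2 ^ (-j) r j - 2 ^ (-j - 1) r (j + 1)) = 2 ^ L r (-L) - 2 ^ (-L - 1) r (L + 1) = c`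
for large `L` (`co_σ_mul`, `co_dyadic`); `eq_zero_of_co`. -/
theorem wtB_of_active {b : F.B} (s : Finset F.G)
    (h : ∀ γ, 1 / 4 ≤ ‖F.db (F.mn γ * b)‖ → γ ∈ s) : F.WtB s.card b := by
  classical
  let ε : F.G → ℤ := fun γ => round (2 * F.co (F.mn γ * b)) - 2 * round (F.co (F.mn γ * b))
  have h0 : ∀ γ, γ ∉ s → ε γ = 0 := fun γ hγ => (mp_eps _).2 (by
    rw [← UnitAddCircle.norm_eq, ← db_eq]
    exact not_le.1 fun e => hγ (h γ e))
  have key : b - ∑ γ ∈ s, ε γ • F.mn (-γ - F.σ) = 0 := F.eq_zero_of_co fun γ₀ => by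
    obtain ⟨k, z, hz⟩ := F.co_dyadic (F.mn γ₀ * b)
    obtain ⟨L, h1, h2⟩ := mp_far hz
    set c := F.co (F.mn γ₀ * b) with hc
    have h3 : ∀ j : ℤ, ε (γ₀ + j • F.σ) = round (2 ^ (j + 1) * c) - 2 * round (2 ^ j * c) :=
      fun j => by
        simp only [ε]
        rw [add_comm γ₀, mn_add, mul_assoc, co_σ_mul, zpow_add_one₀ two_ne_zero, ← mul_assoc,
          mul_comm 2]
    have h4 : ∀ j : ℤ, F.co (F.mn γ₀ * F.mn (-(γ₀ + j • F.σ) - F.σ)) = 2 ^ (-(j + 1)) :=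
      fun j => by
        rw [← mn_add, ← co_mn_σ]
        congr 2
        module
    have hi : Function.Injective fun i : ℕ => γ₀ + ((i : ℤ) - L) • F.σ := fun i j e => by
      have := F.zsmul_σ_inj (add_left_cancel e)
      omega
    rw [mul_sub, map_sub, mul_sum, map_sum, sub_eq_zero, sum_congr_of_eq_on_inter
      (s₂ := (range (2 * L)).image fun i : ℕ => γ₀ + ((i : ℤ) - L) • F.σ)
      (g := fun γ => F.co (F.mn γ₀ * ε γ • F.mn (-γ - F.σ))) (fun γ _ hγ => ?_)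
      (fun γ _ hγ => by simp [h0 γ hγ]) fun _ _ _ => rfl, sum_image hi.injOn,
      sum_congr rfl (g := fun i : ℕ =>
        (round (2 ^ (((i + 1 : ℕ) : ℤ) - L) * c) : ℝ) * 2 ^ (-(((i + 1 : ℕ) : ℤ) - L)) -
        (round (2 ^ ((i : ℤ) - L) * c) : ℝ) * 2 ^ (-((i : ℤ) - L))) fun i _ => ?_,
      sum_range_sub fun i : ℕ => (round (2 ^ ((i : ℤ) - L) * c) : ℝ) * 2 ^ (-((i : ℤ) - L)),
      h1 _ (by omega), h2 _ (by omega), zpow_neg]
    · have : (2 : ℝ) ^ (((2 * L : ℕ) : ℤ) - L) ≠ 0 := by positivity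
      field_simp
      simp [hc]
    · have e : ((i + 1 : ℕ) : ℤ) - L = i - L + 1 := by omega
      rw [mul_smul_comm, map_zsmul, h3, h4, e, zsmul_eq_mul, zpow_neg, zpow_neg,
        zpow_add_one₀ two_ne_zero]
      push_cast
      ring
    · rw [mul_smul_comm, map_zsmul]
      by_cases hj : ∃ j : ℤ, γ = γ₀ + j • F.σ
      · obtain ⟨j, rfl⟩ := hj
        have h5 : L ≤ j ∨ j + 1 ≤ -L := by
          by_contra h6
          refine hγ (mem_image.2 ⟨(j + L).toNat, mem_range.2 (by omega), ?_⟩)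
          congr 2
          omega
        rw [h3, zsmul_eq_mul]
        refine mul_eq_zero_of_left ?_ _
        rcases h5 with h5 | h5
        · push_cast
          rw [h1 _ h5, h1 _ (by omega), zpow_add_one₀ two_ne_zero]
          ring
        · rw [h2 _ h5, h2 _ (by omega)]
          simp
      · rw [← mn_add, F.co_mn_of_ne fun j e => hj ⟨-j - 1, ?_⟩, smul_zero]
        linear_combination (norm := module) -e
  rw [sub_eq_zero.1 key]
  exact mp_wt s (fun γ => (mp_eps _).1) _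

theorem mp_inj {x : F.B} {s : Finset F.G}
    (h : ∀ γ, F.co (F.mn γ * x) ≠ 0 → ∃ γ₀ ∈ s, ∃ j : ℤ, γ = γ₀ + j • F.σ) :
    ∃ f : F.G → F.G, ∀ γ, F.co (F.mn γ * x) ≠ 0 → f γ ∈ s ∧
      ∀ γ', F.co (F.mn γ' * x) ≠ 0 → γ - γ' ∈ F.Tor → f γ = f γ' → γ = γ' := by
  choose! f hf j hj using h
  refine ⟨f, fun γ h1 => ⟨hf γ h1, fun γ' h2 h3 e => ?_⟩⟩
  have h4 : γ - γ' = (j γ - j γ') • F.σ := by
    conv_lhs => rw [hj γ h1, hj γ' h2, e]
    module
  rw [h4] at h3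
  rw [← sub_eq_zero, h4, F.eq_zero_of_tor h3, zero_smul]

/-- a coset of torsion elements meets a line at most once -/
theorem finite_coset (x : F.B) (γ : F.G) :
    {ω | ω ∈ F.Tor ∧ F.co (F.mn (γ + ω) * x) ≠ 0}.Finite := by
  obtain ⟨s, hs⟩ := F.co_lines x
  obtain ⟨f, hf⟩ := mp_inj hs
  refine s.finite_toSet.of_injOn (f := fun ω => f (γ + ω)) (fun ω h => (hf _ h.2).1)
    fun ω h ω' h' e => add_left_cancel ((hf _ h.2).2 _ h'.2 ?_ e)
  rw [add_sub_add_left_eq_sub]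
  exact sub_mem h.1 h'.1

theorem card_coset {x : F.B} {s : Finset F.G}
    (h : ∀ γ, F.co (F.mn γ * x) ≠ 0 → ∃ γ₀ ∈ s, ∃ j : ℤ, γ = γ₀ + j • F.σ) (t : Finset F.G)
    (h1 : ∀ γ ∈ t, F.co (F.mn γ * x) ≠ 0) (h2 : ∀ γ ∈ t, ∀ γ' ∈ t, γ - γ' ∈ F.Tor) :
    t.card ≤ s.card := by
  obtain ⟨f, hf⟩ := mp_inj h
  exact card_le_card_of_injOn f (fun γ hγ => (hf _ (h1 γ hγ)).1)
    fun γ hγ γ' hγ' => (hf _ (h1 γ hγ)).2 _ (h1 γ' hγ') (h2 γ hγ γ' hγ')

end Pool.Agent.GT.Fr
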