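import Pool.Agent.Lib.MP_a01f70_lc.GT.MX
import Pool.Agent.Lib.MP_a01f70_lc.GK.PA

/-! Rigidity of vanishing sums. -/

noncomputable section

namespace Pool.Agent.GT
open Finset Filter Topology Pool.Agent.GK Polynomial

theorem van_sub_one {x : C2} (h : ‖x‖ < 1) : ‖x - 1‖ = 1 := by
  rw [sub_eq_add_neg, IsUltrametricDist.norm_add_eq_max_of_norm_ne_norm (by simpa using h.ne)]
  simpa using h.le

theorem van_odd {a : ℤ} (ha : Odd a) : ‖(a : C2)‖ = 1 := by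
  obtain ⟨k, rfl⟩ := ha
  have h : ‖(2 * (k + 1 : ℤ) : C2)‖ < 1 := by
    rw [norm_mul, norm_two_C2]
    linarith [IsUltrametricDist.norm_intCast_le_one C2 (k + 1)]
  rw [← van_sub_one h]
  congr 1
  push_cast
  ring

theorem van_le_one (j : ℂ →+* C2) {ζ : ℂ} {c : ℕ} (hc : c ≠ 0) (h : ζ ^ c = 1) {α : ℂ}
    (hα : α ∈ Algebra.adjoin ℤ {ζ}) : ‖j α‖ ≤ 1 := by
  induction hα using Algebra.adjoin_induction with
  | mem x hx =>
    rw [Set.mem_singleton_iff.1 hx, ← pow_le_one_iff_of_nonneg (norm_nonneg _) hc, ← norm_pow, ← map_pow,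
      h, map_one, norm_one]
  | algebraMap r => simpa using IsUltrametricDist.norm_intCast_le_one C2 r
  | add x y _ _ h1 h2 => exact map_add j x y ▸ (IsUltrametricDist.norm_add_le_max _ _).trans (max_le h1 h2)
  | mul x y _ _ h1 h2 =>
    rw [map_mul, norm_mul]
    exact mul_le_one₀ h1 (norm_nonneg _) h2

theorem van_frob {ζ : ℂ} {t : ℕ} (h : ζ ^ 2 ^ t = ζ) (x : Algebra.adjoin ℤ {ζ}) :
    ∃ y, x ^ 2 ^ t = x + 2 * y := by
  obtain ⟨x, hx⟩ := x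
  induction hx using Algebra.adjoin_induction with
  | mem x hx => exact ⟨0, Subtype.ext (by simpa [Set.mem_singleton_iff.1 hx] using h)⟩
  | algebraMap r =>
    obtain ⟨k, hk⟩ : Even (r ^ 2 ^ t - r) := by simp [Int.even_sub, Int.even_pow]
    refine ⟨k, Subtype.ext ?_⟩
    have h1 : (r : ℂ) ^ 2 ^ t - r = k + k := by exact_mod_cast hk
    have h2 : ((2 : Algebra.adjoin ℤ {ζ}) : ℂ) = 2 := rfl
    simp only [h2, SubmonoidClass.coe_pow, Subalgebra.coe_add, MulMemClass.coe_mul, eq_intCast,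
      SubringClass.coe_intCast]
    linear_combination h1
  | add x y hx hy h1 h2 =>
    obtain ⟨u, h1⟩ := h1
    obtain ⟨v, h2⟩ := h2
    obtain ⟨r, hr⟩ := exists_add_pow_prime_pow_eq Nat.prime_two (⟨x, hx⟩ : Algebra.adjoin ℤ {ζ}) ⟨y, hy⟩ t
    refine ⟨u + v + ⟨x, hx⟩ * ⟨y, hy⟩ * r, hr.trans ?_⟩
    change _ = (⟨x, hx⟩ + ⟨y, hy⟩ : Algebra.adjoin ℤ {ζ}) + _
    rw [h1, h2]
    push_cast
    ring
  | mul x y hx hy h1 h2 =>
    obtain ⟨u, h1⟩ := h1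
    obtain ⟨v, h2⟩ := h2
    refine ⟨⟨x, hx⟩ * v + u * ⟨y, hy⟩ + 2 * u * v, ?_⟩
    change (⟨x, hx⟩ * ⟨y, hy⟩ : Algebra.adjoin ℤ {ζ}) ^ _ = (⟨x, hx⟩ * ⟨y, hy⟩ : Algebra.adjoin ℤ {ζ}) + _
    rw [mul_pow, h1, h2]
    ring

/-- Let `A = Algebra.adjoin ℤ {ζ}`, `q = 2 ^ φ c`. All `α ∈ A` have `‖j α‖ ≤ 1` and
`α ^ q - α ∈ 2 A` (induction: `ζ ^ q = ζ`, `(x + y) ^ 2 = x ^ 2 + y ^ 2 + 2 x y`; or work in `A ⧸ (2)`).
If `0 < ‖j α‖ < 1` then `α' = (α ^ q - α) / 2 ∈ A` has `‖j α'‖ = 2 ‖j α‖`. Induction on the least `k` with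
`1 < 2 ^ k ‖j α‖`. -/
theorem norm_adjoin (j : ℂ →+* C2) {ζ : ℂ} {c : ℕ} (hc : Odd c) (h : ζ ^ c = 1) {α : ℂ}
    (hα : α ∈ Algebra.adjoin ℤ {ζ}) (h0 : α ≠ 0) : ∃ k : ℕ, ‖j α‖ * 2 ^ k = 1 := by
  have h1 : ζ ^ 2 ^ c.totient = ζ := by
    rw [pow_eq_pow_mod _ h, Nat.ModEq.pow_totient (Nat.coprime_two_left.2 hc), ← pow_eq_pow_mod _ h, pow_one]
  obtain ⟨q, hq⟩ : ∃ q, 2 ^ c.totient = q + 1 + 1 := by
    have := Nat.one_lt_two_pow (Nat.totient_pos.2 hc.pos).ne'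
    exact ⟨2 ^ c.totient - 2, by omega⟩
  have key : ∀ k : ℕ, ∀ α ∈ Algebra.adjoin ℤ {ζ}, 1 ≤ ‖j α‖ * 2 ^ k → ∃ k : ℕ, ‖j α‖ * 2 ^ k = 1 := by
    intro k
    induction k with
    | zero => exact fun α hα h2 => ⟨0, le_antisymm (by simpa using van_le_one j hc.pos.ne' h hα) h2⟩
    | succ k ih =>
      intro α hα h2
      rcases (van_le_one j hc.pos.ne' h hα).eq_or_lt with h3 | h3
      · exact ⟨0, by simpa using h3⟩
      obtain ⟨β, hβ⟩ := van_frob h1 ⟨α, hα⟩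
      have h4 : α * (α ^ (q + 1) - 1) = 2 * β := by
        have h5 : α ^ 2 ^ c.totient = α + 2 * β := congrArg Subtype.val hβ
        rw [hq] at h5
        linear_combination h5
      have h5 := congrArg (fun x => ‖j x‖) h4
      simp only [map_mul, map_sub, map_pow, map_one, map_ofNat, norm_mul, norm_two_C2] at h5
      rw [van_sub_one (by rw [norm_pow]; exact pow_lt_one₀ (norm_nonneg _) h3 q.succ_ne_zero)] at h5
      obtain ⟨k', hk'⟩ := ih β β.2 (h2.trans_eq (by rw [pow_succ]; linear_combination 2 ^ k * 2 * h5))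
      exact ⟨k' + 1, by rw [pow_succ]; linear_combination hk' + 2 ^ k' * 2 * h5⟩
  have h2 : 0 < ‖j α‖ := norm_pos_iff.2 ((map_ne_zero j).2 h0)
  obtain ⟨k, hk⟩ := pow_unbounded_of_one_lt ‖j α‖⁻¹ (one_lt_two (α := ℝ))
  exact key k α hα ((inv_le_iff_one_le_mul₀' h2).1 hk.le)

/-- terms of different norms do not cancel -/
theorem eq_zero_of_norms {ι : Type} (s : Finset ι) (v : ι → C2)
    (h : ∀ i ∈ s, ∀ i' ∈ s, v i ≠ 0 → ‖v i‖ = ‖v i'‖ → i = i') (h0 : ∑ i ∈ s, v i = 0) :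
    ∀ i ∈ s, v i = 0 := by
  classical
  intro i hi
  obtain ⟨k, hk, h1⟩ := exists_max_image s (fun i => ‖v i‖) ⟨i, hi⟩
  by_contra h2
  have h3 : 0 < ‖v k‖ := (norm_pos_iff.2 h2).trans_le (h1 i hi)
  have h4 : ‖∑ i ∈ s.erase k, v i‖ < ‖v k‖ :=
    sum_induction v (‖·‖ < ‖v k‖)
      (fun x y hx hy => (IsUltrametricDist.norm_add_le_max x y).trans_lt (max_lt hx hy))
      (by simpa using h3) fun l hl => (h1 l (mem_of_mem_erase hl)).lt_of_ne fun e =>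
        ne_of_mem_erase hl (h k hk l (mem_of_mem_erase hl) (norm_pos_iff.1 h3) e.symm).symm
  rw [← add_sum_erase s v hk, add_eq_zero_iff_neg_eq] at h0
  rw [← h0, norm_neg] at h4
  exact h4.false

/-- an odd multiple of a root of unity is not twice an algebraic integer -/
theorem not_two_mul {a : ℤ} (ha : Odd a) {ζ α : ℂ} {c : ℕ} (hc : 0 < c) (h : ζ ^ c = 1)
    (hα : IsIntegral ℤ α) : a * ζ ≠ 2 * α := by
  intro e
  have h1 : α ^ c = algebraMap ℚ ℂ (a ^ c / 2 ^ c) := by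
    have h2 := congrArg (· ^ c) e
    simp only [mul_pow, h, mul_one] at h2
    simp [h2]
  obtain ⟨y, hy⟩ := IsIntegrallyClosed.algebraMap_eq_of_integral
    ((isIntegral_algebraMap_iff (algebraMap ℚ ℂ).injective).1 (h1 ▸ hα.pow c))
  rw [eq_intCast, eq_div_iff (by positivity)] at hy
  have h2 : y * 2 ^ c = a ^ c := by exact_mod_cast hy
  exact Int.not_even_iff_odd.2 (ha.pow (n := c))
    (h2 ▸ ((Int.even_pow.2 ⟨even_two, hc.ne'⟩).mul_left y))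

namespace Fr

variable {F : Fr}

theorem xv_G01 (θ : F.Ch) (j : ℤ) {ω : F.G} (h : ω ∈ F.Tor) :
    F.xv θ (j • F.σ + ω) = 2 ^ j * ee (θ.1 ω) := by
  simp [xv, F.ht_σ, F.ht_tor h, θ.2]

theorem ee_pow_order (θ : F.Ch) (ω : F.G) : ee (θ.1 ω) ^ addOrderOf ω = 1 := by
  rw [← ee_nsmul, ← map_nsmul, addOrderOf_nsmul_eq_zero, map_zero, ee_zero]

theorem van_norm (j : ℂ →+* C2) (θ : F.Ch) {δ : F.G} (h : δ ∈ F.G00) :
    ‖j (F.xv θ δ)‖ = 2 ^ (-F.ht δ) := by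
  obtain ⟨M, e, hM, he⟩ := h
  refine (pow_left_inj₀ (norm_nonneg _) (by positivity) hM.ne').1 ?_
  have h1 := xv_G01 θ e (zero_mem F.Tor)
  rw [add_zero, map_zero, ee_zero, mul_one] at h1
  rw [← norm_pow, ← map_pow, ← F.X_mn, ← map_pow, ← F.mn_nsmul, he, F.X_mn, h1, map_zpow₀, norm_zpow,
    map_ofNat, norm_two_C2, ← Real.rpow_natCast, ← Real.rpow_mul zero_le_two, neg_mul, mul_comm,
    F.ht_G00 he, Real.rpow_neg zero_le_two, Real.rpow_intCast, one_div, inv_zpow]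

theorem van_chi (θ : F.Ch) (a : ℤ) (γ : F.G) :
    F.chi θ (a • F.mn γ) = AddMonoidAlgebra.single (γ : F.V) (a * F.xv θ γ) := by
  rw [map_zsmul, F.chi_mn, AddMonoidAlgebra.smul_single, zsmul_eq_mul]

theorem chi_zsmul_mn {θ : F.Ch} {a : ℤ} {γ : F.G} (h : F.chi θ (a • F.mn γ) = 0) : a = 0 := by
  rw [van_chi, AddMonoidAlgebra.single_eq_zero] at h
  simpa [F.xv_ne] using h

/-- `δ = γ - γ' ∈ G00`, `M • δ = e • σ`, `a * xv δ = a'`, `xv δ ^ M = 2 ^ e`, so `e = 0`; `δ` has odd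
order `c` and `a ^ c = a' ^ c` -/
theorem pf {θ : F.Ch} {a a' : ℤ} (ha : Odd a) (ha' : Odd a') {γ γ' : F.G}
    (h : F.chi θ (a • F.mn γ - a' • F.mn γ') = 0) : a = a' ∧ γ - γ' ∈ F.K0 θ := by
  classical
  obtain ⟨j⟩ := exists_C2
  have h0 : (a : ℂ) ≠ 0 := fun e => by simp [Int.cast_eq_zero.1 e] at ha
  rw [map_sub, van_chi, van_chi, sub_eq_zero] at h
  have h1 := congrArg (fun f => f.coeff (γ : F.V)) h
  simp only [AddMonoidAlgebra.coeff_single, Finsupp.single_apply, if_true] at h1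
  split_ifs at h1 with e
  swap
  · exact absurd h1 (mul_ne_zero h0 (F.xv_ne θ γ))
  obtain ⟨δ, rfl⟩ : ∃ δ, γ = γ' + δ := ⟨γ - γ', by abel⟩
  have h2 : δ ∈ F.G00 := by simpa using e
  rw [F.xv_add, mul_comm (F.xv θ γ'), ← mul_assoc, mul_left_inj' (F.xv_ne θ γ')] at h1
  have h3 := congrArg (fun x => ‖j x‖) h1
  simp only [map_mul, map_intCast, norm_mul, van_odd ha, van_odd ha', van_norm j θ h2, one_mul] at h3
  rw [← Real.rpow_zero 2, Real.rpow_right_inj two_pos (by norm_num), neg_eq_zero] at h3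
  have h4 := F.tor_of_ht h2 h3
  have h5 := xv_G01 θ 0 h4
  rw [zero_smul, zero_add, zpow_zero, one_mul] at h5
  have h6 := congrArg (· ^ addOrderOf δ) h1
  simp only [mul_pow, h5, ee_pow_order, mul_one] at h6
  obtain rfl : a = a' := (F.odd_addOrderOf h4).pow_inj.1 (by exact_mod_cast h6)
  rw [h5, mul_eq_left₀ h0, ee_eq_one] at h1
  exact ⟨rfl, by simpa using h4, by simpa using h1⟩

theorem chi_mn_eq {θ : F.Ch} {γ γ' : F.G} (h : γ - γ' ∈ F.K0 θ) :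
    F.chi θ (F.mn γ) = F.chi θ (F.mn γ') := by
  have h1 := xv_G01 θ 0 h.1
  rw [zero_smul, zero_add, zpow_zero, one_mul, show θ.1 (γ - γ') = 0 from h.2, ee_zero] at h1
  rw [← sub_add_cancel γ γ', F.mn_add, map_mul, F.chi_mn, h1,
    (QuotientAddGroup.eq_zero_iff _).2 (F.tor_le_G00 h.1), ← AddMonoidAlgebra.one_def, one_mul]

theorem van_cls (j : ℂ →+* C2) (θ : F.Ch) {ι : Type} {s : Finset ι} {c : ι → ℤ} {g : ι → F.G}
    (h : ∀ i ∈ s, g i ∈ F.G01) (h0 : ∑ i ∈ s, c i * F.xv θ (g i) ≠ 0) :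
    ∃ k : ℤ, ‖j (∑ i ∈ s, c i * F.xv θ (g i))‖ = 2 ^ (k : ℝ) := by
  classical
  choose! e ω h1 h2 using fun i hi => F.mem_G01.1 (h i hi)
  obtain ⟨c₀, hc, h3⟩ := exists_common (s.image ω) (forall_mem_image.2 h1)
  obtain ⟨H, hH⟩ : ∃ H : ℕ, ∀ i ∈ s, 0 ≤ e i + H := ⟨s.sup fun i => (e i).natAbs, fun i hi => by
    have := le_sup (f := fun i => (e i).natAbs) hi
    omega⟩
  obtain ⟨k, hk⟩ := norm_adjoin j hc.odd (hc.order ▸ ee_pow_order θ (F.om c₀))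
    (α := 2 ^ H * ∑ i ∈ s, c i * F.xv θ (g i)) (by
      rw [mul_sum]
      refine sum_mem fun i hi => ?_
      obtain ⟨t, ht⟩ := h3 _ (mem_image_of_mem ω hi)
      obtain ⟨u, hu⟩ := Int.eq_ofNat_of_zero_le (hH i hi)
      rw [h2 i hi, xv_G01 θ _ (h1 i hi), ht, map_nsmul, ee_nsmul, mul_left_comm, ← mul_assoc (2 ^ H : ℂ),
        ← zpow_natCast, ← zpow_add₀ two_ne_zero, add_comm, hu, zpow_natCast]
      exact mul_mem (intCast_mem _ _) (mul_mem (pow_mem (ofNat_mem _ 2) _)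
        (pow_mem (Algebra.self_mem_adjoin_singleton ℤ _) _))) (mul_ne_zero (pow_ne_zero _ two_ne_zero) h0)
  refine ⟨H - k, ?_⟩
  rw [map_mul, norm_mul, map_pow, norm_pow, map_ofNat, norm_two_C2, one_div, inv_pow] at hk
  rw [Real.rpow_intCast, zpow_sub₀ two_ne_zero, zpow_natCast, zpow_natCast]
  field_simp at hk ⊢
  exact hk

open Classical in
theorem van_aux {θ : F.Ch} {ι : Type} {s : Finset ι} {c : ι → ℤ} {g : ι → F.G}
    (h : F.chi θ (∑ i ∈ s, c i • F.mn (g i)) = 0) (γ₀ : F.G) :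
    ∑ i ∈ s with g i - γ₀ ∈ F.G01, c i * F.xv θ (g i) = 0 := by
  obtain ⟨j⟩ := exists_C2
  obtain ⟨t, ht⟩ : ∃ t, t = {i ∈ s | g i - γ₀ ∈ F.G00} := ⟨_, rfl⟩
  have h1 : ∑ i ∈ t, c i * F.xv θ (g i) = 0 := by
    have h2 := congrArg (fun f => f.coeff (γ₀ : F.V)) h
    simp only [map_sum, van_chi, AddMonoidAlgebra.coeff_sum, AddMonoidAlgebra.coeff_single,
      Finsupp.finsetSum_apply, Finsupp.single_apply, QuotientAddGroup.eq_iff_sub_mem] at h2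
    rwa [ht, sum_filter]
  have h0 : ∀ i ∈ t, g i - γ₀ ∈ F.G00 := fun i hi => by
    rw [ht] at hi
    exact (mem_filter.1 hi).2
  let π : F.G → F.G ⧸ F.G01 := QuotientAddGroup.mk
  let v : F.G ⧸ F.G01 → ℂ := fun q => F.xv θ (-γ₀) * ∑ i ∈ t with π (g i) = q, c i * F.xv θ (g i)
  have h2 : ∀ i ∈ t, v (π (g i)) ≠ 0 →
      ∃ k : ℤ, ‖j (v (π (g i)))‖ = 2 ^ (k - F.ht (g i - γ₀)) := fun i hi h3 => by
    have h4 : v (π (g i)) =
        F.xv θ (g i - γ₀) * ∑ l ∈ t with π (g l) = π (g i), c l * F.xv θ (g l - g i) := by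
      simp only [v, mul_sum]
      refine sum_congr rfl fun l _ => ?_
      rw [mul_left_comm, mul_left_comm (F.xv θ _), ← F.xv_add, ← F.xv_add]
      congr 2
      abel
    rw [h4] at h3 ⊢
    obtain ⟨k, hk⟩ := van_cls j θ (fun l hl => QuotientAddGroup.eq_iff_sub_mem.1 (mem_filter.1 hl).2)
      (right_ne_zero_of_mul h3)
    refine ⟨k, ?_⟩
    rw [map_mul, norm_mul, hk, van_norm j θ (h0 i hi), ← Real.rpow_add two_pos,
      neg_add_eq_sub]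
  have h3 := eq_zero_of_norms (t.image fun i => π (g i)) (fun q => j (v q)) (fun q hq q' hq' h4 h5 => by
    obtain ⟨i, hi, rfl⟩ := mem_image.1 hq
    obtain ⟨i', hi', rfl⟩ := mem_image.1 hq'
    obtain ⟨k, hk⟩ := h2 i hi ((map_ne_zero j).1 h4)
    obtain ⟨k', hk'⟩ := h2 i' hi' ((map_ne_zero j).1 (norm_ne_zero_iff.1 (h5 ▸ norm_ne_zero_iff.2 h4)))
    rw [hk, hk', Real.rpow_right_inj two_pos (by norm_num), map_sub, map_sub] at h5
    refine QuotientAddGroup.eq_iff_sub_mem.2 (F.G01_of_ht (j := k - k') ?_ ?_)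
    · simpa using sub_mem (h0 i hi) (h0 i' hi')
    · rw [map_sub]
      push_cast
      linarith) (by
    simp only [v]
    rw [← map_sum, ← mul_sum, sum_fiberwise_of_maps_to fun i hi => mem_image_of_mem _ hi, h1, mul_zero,
      map_zero])
  have h4 : {i ∈ s | g i - γ₀ ∈ F.G01} = {i ∈ t | π (g i) = π γ₀} := by
    rw [ht, filter_filter]
    exact filter_congr fun i _ => ⟨fun e => ⟨F.G01_le_G00 e, QuotientAddGroup.eq_iff_sub_mem.2 e⟩,
      fun e => QuotientAddGroup.eq_iff_sub_mem.1 e.2⟩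
  rw [h4]
  by_cases e : π γ₀ ∈ t.image fun i => π (g i)
  · exact (mul_eq_zero.1 ((map_eq_zero j).1 (h3 _ e))).resolve_left (F.xv_ne θ _)
  · exact sum_eq_zero fun i hi => (e (mem_image.2 ⟨i, mem_filter.1 hi⟩)).elim

open Classical in
/-- Start from `chi_coeff` at `γ₀`, divide by `xv θ γ₀`, group the terms by their class modulo `G01`
(`Finset.sum_fiberwise_of_maps_to`). The sum over the class of `γ₁` is `xv θ (γ₁ - γ₀) / 2 ^ H * α` with
`α ∈ adjoin ℤ {ee (θ (om c))}` (`exists_common`, `xv_G01`). If `M • δ = e • σ` then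
`‖j (xv θ δ)‖ ^ M = 2 ^ (-e)`, so `‖j (xv θ δ)‖ = 2 ^ (-ht δ)` on `G00`; equal norms of two nonzero class sums
give an integer difference of heights (`norm_adjoin`, `G01_of_ht`). `exists_C2`,
`eq_zero_of_norms`. -/
theorem van {θ : F.Ch} {s : Finset F.G} {c : F.G → ℤ}
    (h : F.chi θ (∑ γ ∈ s, c γ • F.mn γ) = 0) (γ₀ : F.G) :
    ∑ γ ∈ s with γ - γ₀ ∈ F.G01, c γ * F.xv θ γ = 0 :=
  van_aux (g := id) h γ₀

open Classical in
/-- the same for an indexed family (collect equal sites) -/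
theorem van' {θ : F.Ch} {ι : Type} {s : Finset ι} {c : ι → ℤ} {g : ι → F.G}
    (h : F.chi θ (∑ i ∈ s, c i • F.mn (g i)) = 0) (γ₀ : F.G) :
    ∑ i ∈ s with g i - γ₀ ∈ F.G01, c i * F.xv θ (g i) = 0 :=
  van_aux h γ₀

end Fr

end Pool.Agent.GT
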