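import Pool.Agent.Lib.MP_a01f70_lc.GT.MW
import Pool.Agent.Lib.MP_a01f70_lc.GT.MP
import Pool.Agent.Lib.MP_a01f70_lc.GT.Van

/-! The mean field coefficients. -/

noncomputable section

namespace Pool.Agent.GT.Fr
open Finset Filter Topology Pool.Agent.GK

variable {F : Fr} {d : ℕ → ℕ} {θ : F.Ch} {I : Ideal F.B}

theorem SS_zero {u b f : F.B} {a : ℤ} (h : ∀ γ, f + a • F.mn γ ∉ I) : F.SS d I u b f a = 0 := by
  exact finsum_eq_zero_of_forall_eq_zero fun γ => if_neg (h γ)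

theorem SS_ne {u b f : F.B} {a : ℤ} (h : F.SS d I u b f a ≠ 0) :
    ∃ γ, f + a • F.mn γ ∈ I ∧ F.db (F.mn γ * b) ≠ 0 := by
  by_contra hc
  refine h (finsum_eq_zero_of_forall_eq_zero fun γ => ?_)
  split_ifs with h1
  · rw [not_not.1 fun e => hc ⟨γ, h1, e⟩, smul_zero, ee_zero, sub_self, mul_zero]
  · rfl

/-- `Dm_neg`, `ee_neg`; `(starRingAut : ℂ ≃+* _).toAddEquiv.map_finsum` or the injective version -/
theorem SS_conj (hI : I ≤ F.J2 d) (u b f : F.B) (a : ℤ) :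
    F.SS d I u b (-f) (-a) = (starRingEnd ℂ) (F.SS d I u b f a) := by
  rw [SS, SS]
  refine Eq.trans (finsum_congr fun γ => ?_) ((starRingEnd ℂ).toAddMonoidHom.map_finsum_of_injective
    (starRingEnd ℂ).injective _).symm
  rw [neg_smul, ← neg_add, neg_smul]
  by_cases h : f + a • F.mn γ ∈ I
  · rw [if_pos (neg_mem h), if_pos h, Dm_neg (hI h), neg_mul, map_neg, ee_neg, ee_neg]
    simp
  · rw [if_neg fun e => h (neg_mem_iff.1 e), if_neg h, map_zero]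

/-- `pf` -/
theorem rig (hχ : ∀ η ∈ I, F.chi θ η = 0) {f : F.B} {a a' : ℤ} (ha : Odd a) (ha' : Odd a')
    {γ γ' : F.G} (h : f + a • F.mn γ ∈ I) (h' : f + a' • F.mn γ' ∈ I) :
    a = a' ∧ γ - γ' ∈ F.K0 θ := by
  exact pf ha ha' (hχ _ (by simpa only [add_sub_add_left_eq_sub] using sub_mem h h'))

theorem not_int (hχ : ∀ η ∈ I, F.chi θ η = 0) {a : ℤ} (ha : a ≠ 0) (γ : F.G) :
    a • F.mn γ ∉ I := by
  exact fun h => ha (chi_zsmul_mn (hχ _ h))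

/-- `rig`, `finite_coset`, `db_eq` -/
theorem SS_finite (hχ : ∀ η ∈ I, F.chi θ η = 0) (b f : F.B) {a : ℤ} (ha : Odd a) :
    {γ | f + a • F.mn γ ∈ I ∧ F.co (F.mn γ * b) ≠ 0}.Finite := by
  rcases Set.eq_empty_or_nonempty {γ | f + a • F.mn γ ∈ I ∧ F.co (F.mn γ * b) ≠ 0} with h | ⟨γ₀, h⟩
  · exact h ▸ Set.finite_empty
  · exact ((finite_coset b γ₀).image (γ₀ + ·)).subset fun γ hγ =>
      ⟨γ - γ₀, ⟨(rig hχ ha ha hγ.1 h.1).2.1, by simpa using hγ.2⟩, by simp⟩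

theorem SS_eq_sum {u b f : F.B} {a : ℤ} (s : Finset F.G) (h1 : ∀ γ ∈ s, f + a • F.mn γ ∈ I)
    (h2 : ∀ γ, f + a • F.mn γ ∈ I → F.db (F.mn γ * b) ≠ 0 → γ ∈ s) :
    F.SS d I u b f a = ∑ γ ∈ s,
      ee (F.db (F.Dm d (f + a • F.mn γ) * u)) * (ee (a • F.db (F.mn γ * b)) - 1) := by
  rw [SS, finsum_eq_sum_of_support_subset (s := s) _ fun γ hγ => ?_]
  · exact sum_congr rfl fun γ hγ => if_pos (h1 γ hγ)
  · by_cases h : f + a • F.mn γ ∈ I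
    · exact h2 γ h fun e => hγ (by simp only [e, smul_zero, ee_zero, sub_self, mul_zero, ite_self])
    · exact absurd (if_neg h) hγ

/-- `card_coset` -/
theorem norm_SS_lines (hχ : ∀ η ∈ I, F.chi θ η = 0) (u : F.B) {b : F.B} {s : Finset F.G}
    (h : ∀ γ, F.co (F.mn γ * b) ≠ 0 → ∃ γ₀ ∈ s, ∃ j : ℤ, γ = γ₀ + j • F.σ) (f : F.B) {a : ℤ}
    (ha : Odd a) : ‖F.SS d I u b f a‖ ≤ 2 * s.card := by
  have h0 := SS_finite hχ b f ha
  rw [SS_eq_sum h0.toFinset (fun γ hγ => (h0.mem_toFinset.1 hγ).1) fun γ h1 h2 =>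
    h0.mem_toFinset.2 ⟨h1, fun e => h2 (by rw [db_eq, e, AddCircle.coe_zero])⟩]
  refine (norm_sum_le_of_le _ (n := fun _ => 2) fun γ _ => ?_).trans ?_
  · rw [norm_mul, norm_ee, one_mul]
    exact (norm_sub_le _ _).trans_eq (by rw [norm_ee, norm_one, one_add_one_eq_two])
  · rw [sum_const, nsmul_eq_mul, mul_comm]
    exact mul_le_mul_of_nonneg_left (Nat.cast_le.2 (card_coset h _
      (fun γ hγ => (h0.mem_toFinset.1 hγ).2) fun γ hγ γ' hγ' =>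
        (rig hχ ha ha (h0.mem_toFinset.1 hγ).1 (h0.mem_toFinset.1 hγ').1).2.1)) zero_le_two

theorem mem_iff_KI (hχ : ∀ η ∈ I, F.chi θ η = 0) {γ γ' : F.G} :
    -F.mn γ + (1 : ℤ) • F.mn γ' ∈ I ↔ γ' - γ ∈ F.KI I := by
  have e : -F.mn γ + (1 : ℤ) • F.mn γ' = F.mn γ * (F.mn (γ' - γ) - 1) := by
    rw [mul_sub, ← mn_add, add_sub_cancel, one_smul, mul_one, neg_add_eq_sub]
  refine ⟨fun h => ⟨(rig hχ odd_one odd_one h (γ' := γ) (by simp)).2.1, ?_⟩, fun h => ?_⟩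
  · exact (I.unit_mul_mem_iff_mem (F.isUnit_mn γ)).1 (e ▸ h)
  · exact e ▸ I.mul_mem_left _ h.2

theorem KI_le_K0 (hχ : ∀ η ∈ I, F.chi θ η = 0) : F.KI I ≤ F.K0 θ := by
  intro ω h
  have := (mem_iff_KI hχ (γ := 0) (γ' := ω)).2 (by rwa [sub_zero])
  simpa using (rig hχ odd_one odd_one this (γ' := 0) (by simp)).2

theorem SS_main (hI : I ≤ F.J2 d) (hχ : ∀ η ∈ I, F.chi θ η = 0) (u b : F.B) (γ : F.G)
    (Ω : Finset F.G) (h1 : ∀ ω ∈ Ω, ω ∈ F.KI I)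
    (h2 : ∀ ω ∈ F.KI I, F.db (F.mn (γ + ω) * b) ≠ 0 → ω ∈ Ω) :
    F.SS d I u b (-F.mn γ) 1 = ∑ ω ∈ Ω,
      ee (F.db (F.mn γ * (F.xi d ω * u))) * (ee (F.db (F.mn (γ + ω) * b)) - 1) := by
  classical
  rw [SS_eq_sum (Ω.map (addLeftEmbedding γ)) (fun γ' h => by
      obtain ⟨ω, a, rfl⟩ := mem_map.1 h
      exact (mem_iff_KI hχ).2 (by simpa using h1 ω a))
    fun γ' a b => mem_map.2 ⟨γ' - γ, h2 _ ((mem_iff_KI hχ).1 a) (by simpa using b), by simp⟩, sum_map]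
  refine sum_congr rfl fun ω h => ?_
  rw [one_smul, one_smul, addLeftEmbedding_apply, xi, ← mul_assoc, ← Dm_mul _ (hI (h1 ω h).2),
    F.mn_add γ ω, mul_sub (F.mn γ), mul_one, neg_add_eq_sub]

/-- no cancellation: all `1 - (ee _).re` are nonnegative; `norm_ee_sub_one`, `re_ee_le` -/
theorem SS_lower (hI : I ≤ F.J2 d) (hχ : ∀ η ∈ I, F.chi θ η = 0) (u b : F.B) (γ : F.G)
    (Ω : Finset F.G) (h1 : ∀ ω ∈ Ω, ω ∈ F.KI I)
    (h2 : ∀ ω ∈ F.KI I, F.db (F.mn (γ + ω) * b) ≠ 0 → ω ∈ Ω) {t : ℝ} (ht : 0 ≤ t)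
    (h3 : ∀ ω ∈ Ω, ‖F.db (F.mn γ * (F.xi d ω * u))‖ ≤ t) :
    8 * ‖F.db (F.mn γ * b)‖ ^ 2 - 13 * t * Ω.card ≤ ‖F.SS d I u b (-F.mn γ) 1‖ := by
  by_cases h0 : F.db (F.mn γ * b) = 0
  · rw [h0, norm_zero]
    nlinarith [norm_nonneg (F.SS d I u b (-F.mn γ) 1), (Nat.cast_nonneg _ : (0 : ℝ) ≤ Ω.card)]
  have h4 : (0 : F.G) ∈ Ω := h2 0 (zero_mem _) (by rwa [add_zero])
  rw [SS_main hI hχ u b γ Ω h1 h2]
  refine le_trans ?_ ((Complex.re_le_norm _).trans_eq (norm_neg _))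
  rw [← sum_neg_distrib, Complex.re_sum]
  have h5 : ∀ ω ∈ Ω, (1 - (ee (F.db (F.mn (γ + ω) * b))).re) - 13 * t ≤
      (-(ee (F.db (F.mn γ * (F.xi d ω * u))) * (ee (F.db (F.mn (γ + ω) * b)) - 1))).re :=
    fun ω hω => by
      generalize F.db (F.mn (γ + ω) * b) = y
      have a1 := (norm_ee_sub_one _).trans (mul_le_mul_of_nonneg_left (h3 ω hω) (by positivity))
      generalize ee (F.db (F.mn γ * (F.xi d ω * u))) = z at a1
      have a2 : ‖ee y - 1‖ ≤ 2 :=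
        (norm_sub_le _ _).trans_eq (by rw [norm_ee, norm_one, one_add_one_eq_two])
      have a3 := (Complex.re_le_norm ((z - 1) * (ee y - 1))).trans ((norm_mul_le _ _).trans
        (mul_le_mul a1 a2 (norm_nonneg _) (by positivity)))
      rw [show -(z * (ee y - 1)) = 1 - ee y - (z - 1) * (ee y - 1) by ring, Complex.sub_re,
        Complex.sub_re, Complex.one_re]
      nlinarith [Real.pi_lt_d2]
  refine le_trans ?_ (sum_le_sum h5)
  rw [sum_sub_distrib, sum_const, nsmul_eq_mul]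
  have h6 := single_le_sum (f := fun ω => 1 - (ee (F.db (F.mn (γ + ω) * b))).re)
    (fun ω _ => sub_nonneg.2 ((Complex.re_le_norm _).trans_eq (norm_ee _))) h4
  simp only [add_zero] at h6
  linarith [re_ee_le (F.db (F.mn γ * b))]

theorem SS_other (hχ : ∀ η ∈ I, F.chi θ η = 0) (u b : F.B) {f : F.B} {γ : F.G}
    (hf : F.chi θ f = F.chi θ (-F.mn γ)) {a : ℤ} (ha : Odd a) (h1 : a ≠ 1) :
    F.SS d I u b f a = 0 := by
  refine SS_zero fun γ' h => h1 (pf (θ := θ) ha odd_one (γ := γ') (γ' := γ) ?_).1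
  have := hχ _ h
  rw [map_add, hf, ← map_add] at this
  rwa [one_smul, ← neg_add_eq_sub]

/-- one character: `ι = Unit`, `G = conj z / ‖z‖` with `z = κ * S`, `E = 0` -/
theorem MF.single {u b : F.B} {κ : ℂ} {C : ℝ} (h : MF (F.SS d I u b) κ C) (hκ : 1 / 2 ≤ ‖κ‖)
    (hχ : ∀ η ∈ I, F.chi θ η = 0) (γ : F.G) : ‖F.SS d I u b (-F.mn γ) 1‖ ≤ 2 * C := by
  have key : ∀ G : ℂ, ‖G‖ ≤ 1 → (G * (κ * F.SS d I u b (-F.mn γ) 1)).re ≤ C := fun G hG => by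
    have := h Unit univ (fun _ => G) (fun _ => -F.mn γ) (fun _ => 0)
      (fun Θ => by simpa [norm_ee] using hG) (fun _ _ => le_rfl) fun _ _ a ha h3 => by
        rw [SS_other hχ u b rfl ha (by rintro rfl; simp at h3)]
        simp
    simpa [SS_other hχ u b rfl (a := -1) odd_neg_one (by norm_num)] using this
  obtain ⟨z, hz⟩ : ∃ z, z = κ * F.SS d I u b (-F.mn γ) 1 := ⟨_, rfl⟩
  have h1 : ‖z‖ ≤ C := by
    by_cases h0 : z = 0
    · simpa [h0] using key 0 (by simp)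
    · have h2 : (‖z‖ : ℂ) ≠ 0 := by simpa using h0
      have := key (‖z‖ / z) (by simp [h0])
      rwa [← hz, div_mul_cancel₀ _ h0, Complex.ofReal_re] at this
  rw [hz, norm_mul] at h1
  nlinarith [norm_nonneg (F.SS d I u b (-F.mn γ) 1)]

end Pool.Agent.GT.Fr
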