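import Pool.Agent.Lib.MP_a01f70_lc.GT.MW
import Pool.Agent.Lib.MP_a01f70_lc.GT.MX
import Pool.Agent.Lib.MP_a01f70_lc.GK.StrE

/-! The structure of the exceptional exponents. -/

namespace Pool.Agent.GT
open Finset Filter Pool.Agent.GK

theorem Str0.mono {C C' n e : ℕ} (h : Str0 C n e) (hC : C ≤ C') : Str0 C' n e := by
  obtain ⟨a, M, P, Q, h1, h2, h3, h4, h5, h6, h7⟩ := h
  exact ⟨a, M, P, Q, h1, h2.trans hC, h3, h4.trans hC, h5.trans hC, fun s hs =>
    (h6 s hs).imp fun b hb => ⟨hb.1.trans (Nat.cast_le.2 hC), hb.2⟩, h7⟩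

theorem Str1.mono {C C' n d : ℕ} (h : Str1 C n d) (hC : C ≤ C') : Str1 C' n d := by
  obtain ⟨e, i, h1, h2⟩ := h
  exact ⟨e, i, h1.mono hC, h2⟩

theorem StrT_iff {n a e : ℕ} {P Q : Multiset ℕ} :
    (a : ℤ) * e ≡ (P.map fun s => (2 : ℤ) ^ s).sum - (Q.map fun s => (2 : ℤ) ^ s).sum
      [ZMOD 2 ^ n - 1] ↔
    (a : ZMod (2 ^ n - 1)) * e = (P.map (2 ^ ·)).sum - (Q.map (2 ^ ·)).sum := by
  rw [← StrE_cast, ← ZMod.intCast_eq_intCast_iff]
  simp [Int.cast_multiset_sum]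

/-- binary digits of `d % (2 ^ n - 1)` (`exists_multiset`, `W_le`, reduce the exponents modulo `n`) -/
theorem str1_self {n : ℕ} (hn : n ≠ 0) (d : ℕ) : Str1 n n d := by
  obtain ⟨P, -, h1, h2⟩ := exists_multiset hn (d : ZMod (2 ^ n - 1))
  have h0 := Nat.pos_of_ne_zero hn
  refine ⟨d, 0, ⟨1, 1, P, 0, one_pos, h0, one_pos, h0, ?_, fun s _ => ⟨s % n, ?_, ?_⟩,
    StrT_iff.2 (by simpa using h2)⟩, by simp [Nat.ModEq]⟩
  · rw [add_zero]
    exact_mod_cast h1.trans_le (W_le _ _)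
  · exact_mod_cast (Nat.mod_lt s h0).le
  · simpa using (Int.mod_modEq _ _).symm

/-- `mem_B00`, a common `M` for all sites; `e i` is the value of `2 ^ (n i - (og γ i).val) * d i` -/
theorem Fr.FinT.str {F : Fr} {d : ℕ → ℕ} (h : F.FinT d) :
    ∃ C, ∀ᶠ i in F.U, Str1 C (F.n i) (d i) := by
  obtain ⟨a, γ, p, ha, hp, h⟩ := h
  obtain ⟨M, C, P, Q, hM, h1, rfl⟩ : ∃ (M C : ℕ) (P Q : Multiset F.G), 0 < M ∧
      (∀ δ ∈ P + Q, ∃ b : ℤ, |b| ≤ C ∧ M • δ = b • F.σ) ∧ p = F.sm P - F.sm Q := by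
    refine Fr.B00_induction (q := fun p => ∃ (M C : ℕ) (P Q : Multiset F.G), 0 < M ∧
      (∀ δ ∈ P + Q, ∃ b : ℤ, |b| ≤ C ∧ M • δ = b • F.σ) ∧ p = F.sm P - F.sm Q)
      ⟨1, 0, 0, 0, one_pos, by simp, by simp⟩
      (fun δ ⟨M, e, h1, h2⟩ => ⟨M, e.natAbs, {δ}, 0, h1, by simpa using ⟨e, le_rfl, h2⟩,
        by simp [Fr.sm]⟩) ?_ ?_ hp
    · rintro _ _ ⟨M, C, P, Q, h1, h2, rfl⟩ ⟨M', C', P', Q', h3, h4, rfl⟩
      refine ⟨M * M', M' * C + M * C', P + P', Q + Q', Nat.mul_pos h1 h3, fun δ hδ => ?_,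
        by rw [F.sm_add, F.sm_add]; ring⟩
      rw [add_add_add_comm, Multiset.mem_add] at hδ
      rcases hδ with hδ | hδ
      · obtain ⟨b, a1, a2⟩ := h2 δ hδ
        refine ⟨M' * b, ?_, by rw [mul_comm, mul_smul, a2, mul_smul, natCast_zsmul]⟩
        rw [abs_mul, Nat.abs_cast]
        push_cast
        nlinarith [mul_le_mul_of_nonneg_left a1 (Nat.cast_nonneg M'), Nat.zero_le (M * C')]
      · obtain ⟨b, a1, a2⟩ := h4 δ hδ
        refine ⟨M * b, ?_, by rw [mul_smul, a2, mul_smul, natCast_zsmul]⟩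
        rw [abs_mul, Nat.abs_cast]
        push_cast
        nlinarith [mul_le_mul_of_nonneg_left a1 (Nat.cast_nonneg M), Nat.zero_le (M' * C)]
    · rintro _ ⟨M, C, P, Q, h1, h2, rfl⟩
      exact ⟨M, C, Q, P, h1, by rwa [add_comm], by rw [neg_sub]⟩
  have h2 : ∀ P : Multiset F.G, (F.sm P : F.R) =
      F.mkR fun i => ((P.map fun δ => (F.og δ i).val).map (2 ^ ·)).sum := fun P => by
    induction P using Multiset.induction_on with
    | empty => exact (map_zero F.mkR).symm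
    | cons a P ih =>
      rw [← Multiset.singleton_add, F.sm_add, F.sm_single, Subring.coe_add, ih]
      refine (map_add F.mkR _ _).symm.trans (congrArg _ (funext fun i => ?_))
      simp
  have h3 : ∀ᶠ i in F.U, ∀ δ ∈ P + Q, ∃ b : ℤ, |b| ≤ C ∧
      (M : ℤ) * (F.og δ i).val ≡ b [ZMOD F.n i] := by
    classical
    refine ((eventually_all_finset (P + Q).toFinset).2 fun δ hδ => ?_).mono fun i hi δ hδ =>
      hi δ (Multiset.mem_toFinset.2 hδ)
    obtain ⟨b, a1, a2⟩ := h1 δ (Multiset.mem_toFinset.1 hδ)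
    rw [← F.mkG_og δ, Fr.σ, ← map_nsmul, ← map_zsmul, F.mkG_eq] at a2
    refine a2.mono fun i hi => ⟨b, a1, (ZMod.intCast_eq_intCast_iff _ _ _).1 ?_⟩
    have : NeZero (F.n i) := ⟨by have := F.two i; omega⟩
    simpa using hi
  rw [Subring.coe_mul, AddSubgroupClass.coe_sub, h2, h2, ← Fr.dR_const, Fr.dR, Fr.dR, ← map_mul,
    ← map_sub] at h
  replace h := F.mkR_eq.1 (h.trans (map_mul F.mkR _ _).symm)
  refine ⟨a + M + C + (P + Q).card, (h.and h3).mono fun i ⟨a1, a2⟩ => ?_⟩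
  have hn := F.two i
  have h4 : (2 : ZMod (2 ^ F.n i - 1)) ^ (F.og γ i).val * 2 ^ ((F.n i - 1) * (F.og γ i).val) = 1 := by
    rw [← pow_add, ← one_add_mul, Nat.add_sub_cancel' (by omega), pow_mul, two_pow_self, one_pow]
  refine ⟨2 ^ ((F.n i - 1) * (F.og γ i).val) * d i, (F.og γ i).val, ⟨a, M,
    P.map fun δ => (F.og δ i).val, Q.map fun δ => (F.og δ i).val, ha, by omega, hM, by omega,
    by simp, fun s hs => ?_, StrT_iff.2 ?_⟩, (ZMod.natCast_eq_natCast_iff _ _ _).1 ?_⟩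
  · rw [← Multiset.map_add, Multiset.mem_map] at hs
    obtain ⟨δ, b1, rfl⟩ := hs
    exact (a2 δ b1).imp fun b hb => ⟨hb.1.trans (Nat.cast_le.2 (by omega)), hb.2⟩
  · simp only [Pi.mul_apply, Pi.sub_apply] at a1
    push_cast
    rw [mul_left_comm, a1, ← mul_assoc, mul_comm _ (2 ^ _), h4, one_mul]
  · push_cast
    rw [← mul_assoc, h4, one_mul]

theorem StrT_sol {N a : ℕ} [NeZero N] (ha : 0 < a) (y : ZMod N) :
    (univ.filter fun x : ZMod N => a * x = y).card ≤ a := by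
  rcases (univ.filter fun x : ZMod N => a * x = y).eq_empty_or_nonempty with e | ⟨x₀, e⟩
  · simp [e]
  refine (card_le_card_of_injOn (· - x₀) (fun x hx => ?_) sub_left_injective.injOn).trans
    (IsAddCyclic.card_nsmul_eq_zero_le (α := ZMod N) ha)
  simp only [coe_filter, mem_univ, true_and, Set.mem_ofPred_eq, mem_filter] at e hx ⊢
  rw [nsmul_eq_mul, mul_sub, hx, e, sub_self]

open Pointwise in
theorem StrT_mem {R : Type} [AddCommGroup R] [DecidableEq R] {A : Finset R} (h0 : 0 ∈ A) {C : ℕ}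
    {S : Multiset R} (h : ∀ x ∈ S, x ∈ A) (hC : S.card ≤ C) : S.sum ∈ C • A := by
  refine nsmul_subset_nsmul_right h0 hC ?_
  clear hC
  induction S using Multiset.induction_on with
  | empty => simp
  | cons a S ih =>
    rw [Multiset.sum_cons, Multiset.card_cons, succ_nsmul']
    exact add_mem_add (h a (by simp)) (ih fun x hx => h x (by simp [hx]))

open Pointwise in

/-- `E` is the set of all `e < 2 ^ n - 1` with `Str0 C n e`. After reduction of the exponents modulo `n` they lie in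
a set `Z` of at most `C * (2 C + 1) * C` numbers (`M s ≡ b` has at most `M` solutions `s < n`); the right side is a
signed sum of at most `C` powers `2 ^ s`, `s ∈ Z` (at most `(2 |Z| + 1) ^ C` values), and `a e ≡ y` has at most `a`
solutions `e < 2 ^ n - 1`. -/
theorem str_count' (C : ℕ) : ∃ C' : ℕ, ∀ n : ℕ, 2 ≤ n → ∃ E : Finset ℕ, E.card ≤ C' ∧
    (∀ e ∈ E, Str0 C n e) ∧ ∀ d : ℕ, Str1 C n d → ∃ e ∈ E, ∃ i, d ≡ 2 ^ i * e [MOD 2 ^ n - 1] := by
  classical
  refine ⟨C * ((2 * (C * (2 * C + 1) * C) + 1) ^ C * C), fun n hn => ?_⟩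
  have : NeZero n := ⟨by omega⟩
  have : NeZero (2 ^ n - 1) := ⟨bas2_ne (by omega)⟩
  refine ⟨(range (2 ^ n - 1)).filter (Str0 C n), ?_, fun e he => (mem_filter.1 he).2, ?_⟩
  · let Z : Finset (ZMod n) := (Icc 1 C ×ˢ Icc (-C : ℤ) C).biUnion fun q =>
      univ.filter fun x : ZMod n => q.1 * x = q.2
    have h1 : Z.card ≤ C * (2 * C + 1) * C := (card_biUnion_le_card_mul _ _ C fun q hq =>
      (StrT_sol (mem_Icc.1 (mem_product.1 hq).1).1 _).trans
        (mem_Icc.1 (mem_product.1 hq).1).2).trans_eq (by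
          rw [card_product, Nat.card_Icc, Int.card_Icc]
          congr 2
          omega)
    let A : Finset (ZMod (2 ^ n - 1)) :=
      insert 0 ((Z.image fun s => 2 ^ s.val) ∪ Z.image fun s => -2 ^ s.val)
    have h2 : A.card ≤ 2 * (C * (2 * C + 1) * C) + 1 :=
      (card_insert_le _ _).trans (Nat.succ_le_succ ((card_union_le _ _).trans
        ((add_le_add card_image_le card_image_le).trans (by omega))))
    refine (card_le_card_of_injOn (t := (Icc 1 C).biUnion fun a : ℕ => (C • A).biUnion fun y =>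
      univ.filter fun x : ZMod (2 ^ n - 1) => a * x = y) Nat.cast (fun e he => ?_)
      fun e he e' he' h => ?_).trans ?_
    · obtain ⟨a, M, P, Q, a1, a2, a3, a4, a5, a6, a7⟩ := (mem_filter.1 he).2
      have h3 : ∀ s ∈ P + Q, (s : ZMod n) ∈ Z := fun s hs => by
        obtain ⟨b, b1, b2⟩ := a6 s hs
        refine mem_biUnion.2 ⟨(M, b), mem_product.2 ⟨mem_Icc.2 ⟨a3, a4⟩, mem_Icc.2 (abs_le.1 b1)⟩,
          mem_filter.2 ⟨mem_univ _, ?_⟩⟩
        simpa using (ZMod.intCast_eq_intCast_iff _ _ _).2 b2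
      refine mem_coe.2 (mem_biUnion.2 ⟨a, mem_Icc.2 ⟨a1, a2⟩, mem_biUnion.2 ⟨_, StrT_mem
        (mem_insert_self _ _) (S := P.map (2 ^ ·) + Q.map (-2 ^ ·)) (fun x hx => ?_)
        (by simpa using a5), mem_filter.2 ⟨mem_univ _, ?_⟩⟩⟩)
      · refine mem_insert_of_mem (mem_union.2 ((Multiset.mem_add.1 hx).imp (fun h => ?_) fun h => ?_))
        · obtain ⟨s, b, rfl⟩ := Multiset.mem_map.1 h
          exact mem_image.2 ⟨_, h3 s (by simp [b]), two_pow_val_natCast n s⟩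
        · obtain ⟨s, b, rfl⟩ := Multiset.mem_map.1 h
          exact mem_image.2 ⟨_, h3 s (by simp [b]), by rw [two_pow_val_natCast]⟩
      · rw [StrT_iff.1 a7, Multiset.sum_add, Multiset.sum_map_neg, sub_eq_add_neg]
    · exact ((ZMod.natCast_eq_natCast_iff _ _ _).1 h).eq_of_lt_of_lt
        (mem_range.1 (mem_filter.1 he).1) (mem_range.1 (mem_filter.1 he').1)
    · refine (card_biUnion_le_card_mul _ _ _ fun a ha => (card_biUnion_le_card_mul _ _ C fun y _ =>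
        (StrT_sol (mem_Icc.1 ha).1 _).trans (mem_Icc.1 ha).2).trans (Nat.mul_le_mul_right _
          (card_nsmul_le.trans (Nat.pow_le_pow_left h2 _)))).trans_eq (by simp)
  · rintro d ⟨e, i, ⟨a, M, P, Q, a1, a2, a3, a4, a5, a6, a7⟩, h⟩
    refine ⟨e % (2 ^ n - 1), mem_filter.2 ⟨mem_range.2 (Nat.mod_lt _ (NeZero.pos _)), a, M, P, Q, a1,
      a2, a3, a4, a5, a6, StrT_iff.2 ?_⟩, i, h.trans ((Nat.mod_modEq _ _).symm.mul_left _)⟩
    rw [ZMod.natCast_mod, StrT_iff.1 a7]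

end Pool.Agent.GT
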