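import Pool.Agent.Lib.MP_a01f70_lc.GT.NZD
import Pool.Agent.Lib.MP_a01f70_lc.GT.Chart
import Pool.Agent.Lib.MP_a01f70_lc.GT.Clim2
import Pool.Agent.Lib.MP_a01f70_lc.GT.DIf
import Pool.Agent.Lib.MP_a01f70_lc.GT.EIf
import Pool.Agent.Lib.MP_a01f70_lc.GT.StrT
import Pool.Agent.Lib.MP_a01f70_lc.GK.Link

namespace Pool.Agent.GT
open Finset Filter Pool.Agent.GK Pool.Agent.Lib.MP_a01f70_lc

theorem Fr.finT {F : Fr} {d : ℕ → ℕ} (hd : ∀ i, Good (F.n i) (d i)) : F.FinT d := by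
  classical
  obtain ⟨A, B, hA, hB, hs⟩ := Fr.exists_nzd hd
  obtain ⟨s, a, rfl⟩ := F.exists_sum_mn A
  obtain ⟨t, b, rfl⟩ := F.exists_sum_mn B
  obtain ⟨m, r, T, _, _, c, hm, hT, hc⟩ := Fr.exists_chart (s ∪ t)
  have : NeZero m := ⟨hm.ne'⟩
  obtain ⟨f, hf⟩ := c.exists_rep (fun γ h => hc γ (mem_union_left _ h)) a
  obtain ⟨g, hg⟩ := c.exists_rep (fun γ h => hc γ (mem_union_right _ h)) b
  generalize ∑ γ ∈ s, a γ • F.mn γ = A at *
  generalize ∑ γ ∈ t, b γ • F.mn γ = B at *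
  have key : ∀ p q : F.B, A * p = B * q → F.Small (F.dR d * q - p) := fun p q h => by
    refine Fr.Small.of_nzd hA ?_
    have h1 : ((A * p : F.B) : F.R) = (B * q : F.B) := by rw [h]
    convert hs.mul q using 1
    push_cast at h1
    linear_combination -h1
  rcases form_tors hT (hf.nzd hA) (hg.nzd hB) (Fr.Chart.dd (fun i => (hd i).dv) hf hg hs) with
    h | ⟨v, p, q, hq, hp, h⟩
  · obtain ⟨γ₁, γ₂, γ₃, γ₄, h1⟩ := hf.formQ hg hA h
    exact Fr.eQ hd _ _ _ _ (key _ _ h1)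
  · obtain ⟨γ, p₀, h0, h1⟩ := Fr.Chart.ev_slice (c := c) hp
    have h2 := congrArg c.ev h
    have h3 : c.ev 1 = 1 := by simpa [mon_zero, F.mn_zero] using c.ev_mon 0
    rw [hf.ev_mul, hg.ev_mul, h1, ← nsmul_one, map_nsmul, h3, nsmul_one] at h2
    exact Fr.eF hd hq γ h0 (key _ _ h2)

theorem str_of_good : ∃ C : ℕ, ∀ n : ℕ, 2 ≤ n → Odd n → ∀ d : ℕ, Good n d → Str1 C n d := by
  by_contra hc
  push Not at hc
  choose n two odd d hd hs using hc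
  have hge : ∀ c : ℕ, ∀ᶠ i in (hyperfilter ℕ : Filter ℕ), c ≤ i := fun c =>
    Nat.hyperfilter_le_atTop (eventually_ge_atTop c)
  have hn : ∀ i, i ≤ n i := fun i => by
    by_contra h
    exact hs i ((str1_self (by have := two i; omega) _).mono (by omega))
  let F : Fr := ⟨hyperfilter ℕ, n, two, odd, fun c => (hge c).mono fun i hi => hi.trans (hn i)⟩
  obtain ⟨C, hC⟩ := (Fr.finT (F := F) hd).str
  obtain ⟨i, h1, h2⟩ := (hC.and (hge C)).exists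
  exact hs i (h1.mono h2)

theorem final : ∃ C : ℕ, ∀ n : ℕ, Odd n →
    ∃ E : Finset ℕ, E.card ≤ C ∧ (∀ e ∈ E, Str0 C n e) ∧
      ∀ (F : Type) [Field F] [Fintype F] [Algebra (ZMod 2) F], Fintype.card F = 2 ^ n →
      ∀ d : ℕ, 1 ≤ d → d ≤ 2 ^ n - 2 → ABF F n d →
        (∃ e j : ℕ, ((∃ k : ℕ, Nat.Coprime n k ∧ e = 2 ^ k + 1) ∨
          (∃ k : ℕ, Nat.Coprime n k ∧ e = 2 ^ (2 * k) - 2 ^ k + 1)) ∧
          (d ≡ 2 ^ j * e [MOD 2 ^ n - 1] ∨ d * e ≡ 2 ^ j [MOD 2 ^ n - 1])) ∨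
        ∃ e ∈ E, ∃ i, d ≡ 2 ^ i * e [MOD 2 ^ n - 1] := by
  obtain ⟨C, hC⟩ := str_of_good
  obtain ⟨C', hC'⟩ := str_count' C
  refine ⟨max C C', fun n hn => ?_⟩
  by_cases h2 : 2 ≤ n
  · obtain ⟨E, h1, h3, h4⟩ := hC' n h2
    refine ⟨E, h1.trans (le_max_right _ _), fun e he => (h3 e he).mono (le_max_left _ _),
      fun F _ _ _ hc d hd _ hab => ?_⟩
    exact or_iff_not_imp_left.mpr fun hG => h4 d (hC n h2 hn d (good_of_ab hn hc hd hab hG))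
  · refine ⟨∅, by simp, by simp, fun F _ _ _ _ d hd hd' _ => ?_⟩
    have : n = 1 := by obtain ⟨k, rfl⟩ := hn; omega
    subst this
    omega

end Pool.Agent.GT
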