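import Pool.Agent.Lib.MP_a01f70_lc.GT.MS
import Pool.Agent.Lib.MP_a01f70_lc.GA.MLev

/-! Mean field lemma: representatives, boundedness, relevant sites. -/

noncomputable section

namespace Pool.Agent.GT
open Finset Filter Topology Pool.Agent.GK Pool.Agent.Lib.MP_a01f70_lc

instance (F : Fr) (i : ℕ) : NeZero (F.n i) := ⟨by have := F.two i; omega⟩

theorem Fr.hN (F : Fr) (i : ℕ) : 2 ^ F.n i - 1 + 1 = 2 ^ F.n i :=
  Nat.sub_add_cancel Nat.one_le_two_pow

instance (F : Fr) (i : ℕ) : NeZero (2 ^ F.n i - 1) :=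
  ⟨by have := Nat.one_lt_two_pow (NeZero.ne (F.n i)); omega⟩

/-- `x = (x.val : ℤ)`, `cc_intCast`, `ee_coe`, `ZMod.stdAddChar_coe` -/
theorem ee_cc {N : ℕ} [NeZero N] (x : ZMod N) : ee (cc N x) = BA.ee x := by
  rw [← ZMod.intCast_zmod_cast x, cc_intCast, ee_coe, BA.ee, ZMod.stdAddChar_coe]
  congr 1
  push_cast
  ring

theorem MfA_choice {l : Filter ℕ} {β : ℕ → Type} [∀ i, Nonempty (β i)] {p : ∀ i, β i → Prop}
    (h : ∀ᶠ i in l, ∃ y, p i y) : ∃ y : ∀ i, β i, ∀ᶠ i in l, p i (y i) :=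
  ⟨fun i => Classical.epsilon (p i), h.mono fun _ hi => Classical.epsilon_spec hi⟩

namespace Fr

variable (F : Fr)

/-- a representative of a residue -/
def rr (x : F.R) : ∀ i, ZMod (2 ^ F.n i - 1) := (F.mkR_surj x).choose

theorem mk_rr (x : F.R) : F.mkR (F.rr x) = x := (F.mkR_surj x).choose_spec

/-- `dl_mk`, `ee_cc`, continuity of `ee` (`AddCircle.continuous_toCircle`) -/
theorem tendsto_ee (y : ∀ i, ZMod (2 ^ F.n i - 1)) :
    Tendsto (fun i => BA.ee (y i)) F.U (𝓝 (ee (F.dl (F.mkR y)))) := by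
  have h : Continuous ee := continuous_subtype_val.comp AddCircle.continuous_toCircle
  simpa only [Function.comp_def, ee_cc] using (h.tendsto _).comp (F.dl_mk y)

theorem mn_pw (γ : F.G) : (F.mn γ : F.R) = F.mkR fun i => BA.pw (2 ^ F.n i - 1) (F.og γ i) := rfl

/-- `mkG_eq`, `mkG_og`, `Ultrafilter.eventually_not`, `Filter.eventually_all_finset` -/
theorem og_injOn (Γ : Finset F.G) : ∀ᶠ i in F.U, Set.InjOn (fun γ => F.og γ i) Γ := by
  have h : ∀ᶠ i in F.U, ∀ t ∈ Γ ×ˢ Γ, F.og t.1 i = F.og t.2 i → t.1 = t.2 := by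
    refine (eventually_all_finset _).2 fun t _ => ?_
    by_cases e : t.1 = t.2
    · exact Eventually.of_forall fun _ _ => e
    · refine (Ultrafilter.eventually_not.2 fun h1 => e ?_).mono fun i hi h2 => absurd h2 hi
      rw [← F.mkG_og t.1, ← F.mkG_og t.2]
      exact F.mkG_eq.2 h1
  exact h.mono fun i hi γ h1 γ' h2 e => hi (γ, γ') (mem_product.2 ⟨h1, h2⟩) e

/-- Otherwise (`Ultrafilter.eventually_not`) choose bad `y i`; the sums converge (`tendsto_ee`) to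
half of the value of the polynomial at the character `x ↦ dl (x * mkR y)` of `B`, of norm at most
`1 / 2`, while the norm is at least one (`ge_of_tendsto`). -/
theorem bdd_ev {ι : Type} {s : Finset ι} {G : ι → ℂ} {f : ι → F.B} (h : Bdd s G f) :
    ∀ᶠ i in F.U, ∀ y, ‖∑ φ ∈ s, G φ / 2 * BA.ee (F.rr (f φ) i * y)‖ ≤ 1 := by
  by_contra h0
  obtain ⟨y, hy⟩ := MfA_choice ((Ultrafilter.eventually_not.2 h0).mono fun i hi => not_forall.1 hi)
  have h1 : Tendsto (fun i => ‖∑ φ ∈ s, G φ / 2 * BA.ee (F.rr (f φ) i * y i)‖) F.U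
      (𝓝 ‖∑ φ ∈ s, G φ / 2 * ee (F.dl (f φ * F.mkR y))‖) := by
    refine (tendsto_finsetSum _ fun φ _ => Tendsto.const_mul _ ?_).norm
    have := F.tendsto_ee (F.rr (f φ) * y)
    rwa [map_mul, mk_rr] at this
  have h2 := ge_of_tendsto h1 (hy.mono fun i hi => (not_le.1 hi).le)
  have h3 := h ((F.dl.comp (AddMonoidHom.mulRight (F.mkR y))).comp F.B.subtype.toAddMonoidHom)
  simp only [div_mul_eq_mul_div, ← sum_div, norm_div, Complex.norm_ofNat] at h2
  have h4 : ‖∑ φ ∈ s, G φ * ee (F.dl (f φ * F.mkR y))‖ ≤ 1 := h3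
  linarith

/-- `exists_wtB`, `WtB.wt`, `BA.rel` give sets `R i` with at most `s * L` elements almost
everywhere. Choose `x i : Fin (s * L) → ZMod (n i)` whose range contains `R i`, put
`Γ₁ = univ.image fun t => mkG (x · t)`; then `R i ⊆ Γ₁.image (og · i)` almost everywhere. Let
`Γ = Γ₀ ∪ Γ₁.filter (db (mn · * b) ≠ 0)`. For the removed sites `‖ww (rr b i) (og γ i)‖` tends to
zero (`tendsto_ee`, `mn_pw`), so their sum is eventually at most `1 / 2 ^ L`. -/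
theorem sites (b : F.B) : ∃ s : ℕ, ∀ (L : ℕ) (Γ₀ : Finset F.G),
    (∀ γ ∈ Γ₀, F.db (F.mn γ * b) ≠ 0) → ∃ Γ : Finset F.G, Γ₀ ⊆ Γ ∧ Γ.card ≤ s * L + Γ₀.card ∧
      (∀ γ ∈ Γ, F.db (F.mn γ * b) ≠ 0) ∧ ∀ᶠ i in F.U,
        ∑ j ∈ (Γ.image fun γ => F.og γ i)ᶜ, ‖BA.ww (F.rr b i) j‖ ≤ (14 * s + 1) / 2 ^ L := by
  classical
  obtain ⟨s, hs⟩ := exists_wtB b
  refine ⟨s, fun L Γ₀ h0 => ?_⟩
  have h1 : ∀ᶠ i in F.U, ∃ x : Fin (s * L) → ZMod (F.n i),
      ∑ j ∈ (univ.image x)ᶜ, ‖BA.ww (F.rr b i) j‖ ≤ 14 * s / 2 ^ L := by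
    refine (hs.wt (F.mk_rr b).symm).mono fun i hi => ?_
    obtain ⟨R, h2, h3⟩ := BA.rel (F.hN i) L hi
    refine ⟨fun t => R.toList.getD t 0, le_trans (sum_le_sum_of_subset_of_nonneg
      (compl_subset_compl.2 fun j hj => ?_) fun _ _ _ => norm_nonneg _) h3⟩
    obtain ⟨t, ht, rfl⟩ := List.getElem_of_mem (mem_toList.2 hj)
    exact mem_image.2 ⟨⟨t, by rw [length_toList] at ht; omega⟩, mem_univ _, List.getD_eq_getElem _ _ ht⟩
  obtain ⟨x, hx⟩ := MfA_choice h1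
  obtain ⟨g, hg⟩ : ∃ g : Fin (s * L) → F.G, g = fun t => F.mkG fun i => x i t := ⟨_, rfl⟩
  refine ⟨Γ₀ ∪ (univ.image g).filter fun γ => F.db (F.mn γ * b) ≠ 0, subset_union_left, ?_,
    fun γ hγ => (mem_union.1 hγ).elim (h0 γ) fun h => (mem_filter.1 h).2, ?_⟩
  · have := (card_filter_le (univ.image g) fun γ => F.db (F.mn γ * b) ≠ 0).trans card_image_le
    rw [card_univ, Fintype.card_fin] at this
    exact (card_union_le _ _).trans (by omega)
  have h2 : ∀ᶠ i in F.U, ∀ t, F.og (g t) i = x i t :=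
    eventually_all.2 fun t => F.mkG_eq.1 (by rw [mkG_og, hg])
  have h3 : Tendsto (fun i => ∑ t ∈ univ.filter fun t => F.db (F.mn (g t) * b) = 0,
      ‖BA.ww (F.rr b i) (F.og (g t) i)‖) F.U
      (𝓝 (∑ t ∈ univ.filter fun t => F.db (F.mn (g t) * b) = 0, (0 : ℝ))) := by
    refine tendsto_finsetSum _ fun t ht => ?_
    have := ((F.tendsto_ee ((fun i => BA.pw _ (F.og (g t) i)) * F.rr b)).sub_const 1).norm
    rw [map_mul, mk_rr, ← mn_pw] at this
    have e : F.dl ((F.mn (g t) : F.R) * b) = 0 := (mem_filter.1 ht).2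
    rwa [e, ee_zero, sub_self, norm_zero] at this
  rw [sum_const_zero] at h3
  filter_upwards [hx, h2, h3.eventually_le_const (show (0 : ℝ) < 1 / 2 ^ L by positivity)]
    with i a1 a2 a3
  rw [add_div]
  refine le_trans ?_ (add_le_add a1 (le_trans (sum_image_le_of_nonneg (g := fun t => F.og (g t) i)
    (f := fun j => ‖BA.ww (F.rr b i) j‖) fun _ _ => norm_nonneg _) a3))
  refine le_trans (sum_le_sum_of_subset_of_nonneg (fun j hj => ?_) fun _ _ _ => norm_nonneg _)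
    (le_trans (le_add_of_nonneg_right (sum_nonneg fun _ _ => norm_nonneg _)) sum_union_inter.le)
  by_cases h4 : j ∈ univ.image (x i)
  · obtain ⟨t, -, rfl⟩ := mem_image.1 h4
    refine mem_union_right _ (mem_image.2 ⟨t, mem_filter.2 ⟨mem_univ _, ?_⟩, a2 t⟩)
    by_contra h5
    exact mem_compl.1 hj (mem_image.2 ⟨g t, mem_union_right _
      (mem_filter.2 ⟨mem_image_of_mem _ (mem_univ t), h5⟩), a2 t⟩)
  · exact mem_union_left _ (mem_compl.2 h4)

end Fr

end Pool.Agent.GT
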