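import Pool.Agent.Lib.MP_a01f70_lc.GT.MfA

/-! Mean field lemma: the near frequencies. -/

noncomputable section

namespace Pool.Agent.GT
open Finset Filter Topology Pool.Agent.GK Pool.Agent.Lib.MP_a01f70_lc

namespace Fr

variable {F : Fr} {d : ℕ → ℕ} {θ : F.Ch} {I : Ideal F.B} {ι : Type}

open Classical in
/-- the near frequencies at a site -/
def ZZ (I : Ideal F.B) (s : Finset ι) (f : ι → F.B) (M : ℕ) (γ : F.G) : Finset (ι × ℤ) :=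
  (s ×ˢ (Icc (-M : ℤ) M).erase 0).filter fun t => f t.1 + t.2 • F.mn γ ∈ I

/-- the main term -/
def MM (d : ℕ → ℕ) (I : Ideal F.B) (u b : F.B) (s : Finset ι) (G : ι → ℂ) (f : ι → F.B)
    (c : ℤ → ℂ) (M : ℕ) (Γ : Finset F.G) : ℂ :=
  ∑ γ ∈ Γ, ∑ t ∈ ZZ I s f M γ, G t.1 * c t.2 * (ee (t.2 • F.db (F.mn γ * b)) - 1) *
    ee (F.db (F.Dm d (f t.1 + t.2 • F.mn γ) * u))

/-- `not_int` for the difference -/
theorem near_one (hχ : ∀ η ∈ I, F.chi θ η = 0) {f : F.B} {γ : F.G} {a a' : ℤ}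
    (h : f + a • F.mn γ ∈ I) (h' : f + a' • F.mn γ ∈ I) : a = a' := by
  by_contra h0
  refine not_int hχ (sub_ne_zero.2 h0) γ ?_
  have := I.sub_mem h h'
  rwa [add_sub_add_left_eq_sub, ← sub_smul] at this

/-- If the set is not empty, all first coordinates agree (`rig`); `SS_finite`. -/
theorem near_finite (hχ : ∀ η ∈ I, F.chi θ η = 0) (b f : F.B) :
    {t : ℤ × F.G | Odd t.1 ∧ f + t.1 • F.mn t.2 ∈ I ∧ F.co (F.mn t.2 * b) ≠ 0}.Finite := by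
  rcases Set.eq_empty_or_nonempty
    {t : ℤ × F.G | Odd t.1 ∧ f + t.1 • F.mn t.2 ∈ I ∧ F.co (F.mn t.2 * b) ≠ 0} with h | ⟨t₀, h⟩
  · rw [h]
    exact Set.finite_empty
  · refine ((Set.finite_singleton t₀.1).prod (SS_finite hχ b f h.1)).subset fun t ht => ?_
    have e := (rig hχ ht.1 h.1 ht.2.1 h.2.1).1
    exact ⟨e, e ▸ ht.2.1, ht.2.2⟩

theorem MfB_co {x : F.B} (h : F.db x ≠ 0) : F.co x ≠ 0 := fun h0 => h (by rw [db_eq, h0]; rfl)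

/-- `near_finite`, `db_eq` -/
theorem near_fin (hχ : ∀ η ∈ I, F.chi θ η = 0) (b : F.B) (s : Finset ι) (f : ι → F.B) :
    ∃ Γ₀ : Finset F.G, (∀ γ ∈ Γ₀, F.db (F.mn γ * b) ≠ 0) ∧ ∀ φ ∈ s, ∀ a : ℤ, Odd a → ∀ γ,
      f φ + a • F.mn γ ∈ I → F.db (F.mn γ * b) ≠ 0 → γ ∈ Γ₀ := by
  have h := ((s.finite_toSet.biUnion fun φ _ => (near_finite hχ b (f φ)).image Prod.snd).subset
    (Set.inter_subset_left (t := {γ | F.db (F.mn γ * b) ≠ 0})))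
  refine ⟨h.toFinset, fun γ hγ => (h.mem_toFinset.1 hγ).2, fun φ hφ a ha γ h1 h2 => ?_⟩
  exact h.mem_toFinset.2 ⟨Set.mem_biUnion hφ ⟨(a, γ), ⟨ha, h1, MfB_co h2⟩, rfl⟩, h2⟩

/-- Write `a = 2 ^ j * a'` with `a'` odd (`Int.exists_eq_two_pow_mul_odd` or induction on
`a.natAbs`); `a • mn γ = a' • mn (γ + j • σ)` (`mn_add`, `mn_nsmul`, `mn_σ`) and the coordinate is
multiplied by `2 ^ j` (`co_σ_mul`, `db_eq`). So the element lies in a finite set (`near_finite`);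
`exists_wtB`, `WtB.mono`, `Set.Finite.bddAbove`. -/
theorem near_wt (hχ : ∀ η ∈ I, F.chi θ η = 0) (d : ℕ → ℕ) (b : F.B) (s : Finset ι)
    (f : ι → F.B) : ∃ w : ℕ, ∀ φ ∈ s, ∀ a : ℤ, a ≠ 0 → ∀ γ, f φ + a • F.mn γ ∈ I →
      F.db (F.mn γ * b) ≠ 0 → F.WtB w (F.Dm d (f φ + a • F.mn γ)) := by
  choose W hW using fun x : F.B => exists_wtB x
  obtain ⟨w, hw⟩ := (s.finite_toSet.biUnion fun φ _ => (near_finite hχ b (f φ)).image
    fun t => W (F.Dm d (f φ + t.1 • F.mn t.2))).bddAbove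
  refine ⟨w, fun φ hφ a ha γ h1 h2 => ?_⟩
  obtain ⟨j, c, hc, e⟩ := Nat.exists_eq_two_pow_mul_odd (Int.natAbs_ne_zero.2 ha)
  obtain ⟨a', ha', rfl⟩ : ∃ a' : ℤ, Odd a' ∧ a = 2 ^ j * a' := by
    have hc' : Odd (c : ℤ) := by exact_mod_cast hc
    rcases Int.natAbs_eq a with h | h
    · exact ⟨c, hc', by rw [h, e]; push_cast; ring⟩
    · exact ⟨-c, hc'.neg, by rw [h, e]; push_cast; ring⟩
  have e1 : F.mn ((j : ℤ) • F.σ) = 2 ^ j := by rw [natCast_zsmul, mn_nsmul, mn_σ]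
  have e2 : ((2 : ℤ) ^ j * a') • F.mn γ = a' • F.mn ((j : ℤ) • F.σ + γ) := by
    rw [mn_add, e1, zsmul_eq_mul, zsmul_eq_mul]
    push_cast
    ring
  rw [e2] at h1 ⊢
  refine (hW _).mono (hw (Set.mem_biUnion hφ ⟨(a', (j : ℤ) • F.σ + γ), ⟨ha', h1, ?_⟩, rfl⟩))
  rw [mn_add, mul_assoc, co_σ_mul]
  exact mul_ne_zero (zpow_ne_zero _ two_ne_zero) (MfB_co h2)

/-- `Prod.fst` is injective on `ZZ` (`near_one`), `Mino.norm_le` -/
theorem sum_ZZ (hχ : ∀ η ∈ I, F.chi θ η = 0) (s : Finset ι) (f : ι → F.B) (M : ℕ) (γ : F.G)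
    (A : ι → ℝ) (hA : ∀ φ, 0 ≤ A φ) : ∑ t ∈ ZZ I s f M γ, A t.1 ≤ ∑ φ ∈ s, A φ := by
  classical
  rw [← sum_image (s := ZZ I s f M γ) (g := Prod.fst) (f := A) fun t ht t' ht' e => ?_]
  · refine sum_le_sum_of_subset_of_nonneg (fun φ hφ => ?_) fun φ _ _ => hA φ
    obtain ⟨t, ht, rfl⟩ := mem_image.1 hφ
    exact (mem_product.1 (mem_filter.1 ht).1).1
  · exact Prod.ext e (near_one hχ (mem_filter.1 ht).2 (e ▸ (mem_filter.1 ht').2))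

end Fr

end Pool.Agent.GT
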