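import Pool.Agent.Lib.MP_a01f70_lc.GT.MfB

/-! Mean field lemma: the main term and the coefficients. -/

noncomputable section

namespace Pool.Agent.GT
open Finset Filter Topology Pool.Agent.GK Pool.Agent.Lib.MP_a01f70_lc

namespace Fr

variable {F : Fr} {d : ℕ → ℕ} {θ : F.Ch} {I : Ideal F.B} {ι : Type}

open Classical in
theorem MfC_one (hχ : ∀ η ∈ I, F.chi θ η = 0) (u b f : F.B) {c : ℤ → ℂ} {M : ℕ} {μ : ℝ}
    (hc : BA.Mino c M μ) {κ : ℂ} (hκ : ‖c 1 - κ‖ ≤ μ) (Γ : Finset F.G)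
    (hΓ : ∀ a : ℤ, Odd a → ∀ γ, f + a • F.mn γ ∈ I → F.db (F.mn γ * b) ≠ 0 → γ ∈ Γ) {E : ℝ}
    (hE0 : 0 ≤ E) (hE : ∀ a : ℤ, Odd a → 3 ≤ |a| → ‖F.SS d I u b f a‖ ≤ E * |(a : ℝ)|) :
    ‖κ * F.SS d I u b f 1 + (starRingEnd ℂ) κ * F.SS d I u b f (-1) -
      ∑ a ∈ (Icc (-M : ℤ) M).erase 0, c a * ∑ γ ∈ Γ.filter fun γ => f + a • F.mn γ ∈ I,
        ee (F.db (F.Dm d (f + a • F.mn γ) * u)) * (ee (a • F.db (F.mn γ * b)) - 1)‖ ≤
      E + 6 * μ * Γ.card := by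
  obtain ⟨A, hA⟩ : ∃ A, A = (Icc (-M : ℤ) M).erase 0 := ⟨_, rfl⟩
  obtain ⟨S, hS⟩ : ∃ S : ℤ → ℂ, ∀ a, ∑ γ ∈ Γ.filter fun γ => f + a • F.mn γ ∈ I,
    ee (F.db (F.Dm d (f + a • F.mn γ) * u)) * (ee (a • F.db (F.mn γ * b)) - 1) = S a :=
    ⟨_, fun _ => rfl⟩
  have hμ : 0 ≤ μ := (norm_nonneg _).trans hκ
  have h1 : ∀ a, Odd a → F.SS d I u b f a = S a := fun a ha => by
    rw [← hS]
    exact SS_eq_sum _ (fun γ h => (mem_filter.1 h).2) fun γ h h' => mem_filter.2 ⟨hΓ a ha γ h h', h⟩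
  have h2 : ∀ a, ‖S a‖ ≤ (Γ.filter fun γ => f + a • F.mn γ ∈ I).card * 2 := fun a => by
    rw [← hS, ← nsmul_eq_mul]
    refine (norm_sum_le _ _).trans (sum_le_card_nsmul _ _ _ fun γ _ => ?_)
    rw [norm_mul, norm_ee, one_mul]
    exact (norm_sub_le _ _).trans (by rw [norm_ee, norm_one]; norm_num)
  have h3 : ∀ a, ‖S a‖ ≤ Γ.card * 2 := fun a => (h2 a).trans
    (mul_le_mul_of_nonneg_right (Nat.cast_le.2 (card_filter_le _ _)) zero_le_two)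
  have b1 : ‖∑ a ∈ A.filter Even, c a * S a‖ ≤ μ * (Γ.card * 2) := by
    have h4 : ∑ a ∈ A.filter Even, (Γ.filter fun γ => f + a • F.mn γ ∈ I).card ≤ Γ.card := by
      simp only [card_filter]
      rw [sum_comm, card_eq_sum_ones Γ]
      refine sum_le_sum fun γ _ => ?_
      rw [← card_filter]
      exact card_le_one.2 fun a ha a' ha' => near_one hχ (mem_filter.1 ha).2 (mem_filter.1 ha').2
    refine (norm_sum_le_of_le _ fun a ha => (norm_mul_le _ _).trans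
      (mul_le_mul (hc.even a (mem_filter.1 ha).2) (h2 a) (norm_nonneg _) hμ)).trans ?_
    rw [← mul_sum, ← sum_mul]
    gcongr
    exact_mod_cast h4
  have hodd : ∀ a ∈ ((A.filter fun a => ¬Even a).erase 1).erase (-1), Odd a ∧ 3 ≤ |a| :=
    fun a ha => by
      simp only [mem_erase, mem_filter, Int.not_even_iff_odd] at ha
      obtain ⟨a1, a2, -, k, rfl⟩ := ha
      exact ⟨⟨k, rfl⟩, le_abs.2 (by omega)⟩
  have b2 : ‖∑ a ∈ ((A.filter fun a => ¬Even a).erase 1).erase (-1), c a * S a‖ ≤ E := by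
    by_cases h : ∃ a ∈ ((A.filter fun a => ¬Even a).erase 1).erase (-1), S a ≠ 0
    · obtain ⟨a, ha, h0⟩ := h
      obtain ⟨a1, a2⟩ := hodd a ha
      have a3 : a ≠ 0 := by rintro rfl; simp at a2
      rw [sum_eq_single_of_mem a ha fun a' ha' hne => ?_, norm_mul, ← h1 a a1]
      · refine (mul_le_mul (hc.dec a a3) (hE a a1 a2) (norm_nonneg _) (by positivity)).trans_eq ?_
        have : |(a : ℝ)| ≠ 0 := abs_ne_zero.2 (Int.cast_ne_zero.2 a3)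
        field_simp
      · by_contra h5
        obtain ⟨γ, g1, -⟩ := SS_ne (h1 a a1 ▸ h0)
        obtain ⟨γ', g2, -⟩ := SS_ne (h1 a' (hodd a' ha').1 ▸ right_ne_zero_of_mul h5)
        exact hne (rig hχ (hodd a' ha').1 a1 g2 g1).1
    · rw [sum_eq_zero fun a ha => by rw [not_not.1 fun h0 => h ⟨a, ha, h0⟩, mul_zero], norm_zero]
      exact hE0
  have hM := hc.pos
  have m1 : (1 : ℤ) ∈ A.filter fun a => ¬Even a := by
    simp only [hA, mem_filter, mem_erase, mem_Icc]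
    exact ⟨by omega, by decide⟩
  have m2 : (-1 : ℤ) ∈ (A.filter fun a => ¬Even a).erase 1 := by
    simp only [hA, mem_filter, mem_erase, mem_Icc]
    exact ⟨by omega, by omega, by decide⟩
  simp only [hS]
  rw [← hA, ← sum_filter_add_sum_filter_not A Even, ← add_sum_erase _ _ m1, ← add_sum_erase _ _ m2,
    h1 1 odd_one, h1 (-1) odd_neg_one, hc.cj]
  have b3 : ‖(c 1 - κ) * S 1‖ ≤ μ * (Γ.card * 2) :=
    (norm_mul_le _ _).trans (mul_le_mul hκ (h3 1) (norm_nonneg _) hμ)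
  have b4 : ‖(starRingEnd ℂ) (c 1 - κ) * S (-1)‖ ≤ μ * (Γ.card * 2) :=
    (norm_mul_le _ _).trans (mul_le_mul (by rwa [Complex.norm_conj]) (h3 _) (norm_nonneg _) hμ)
  rw [norm_sub_rev]
  refine le_trans (le_of_eq ?_) ((norm_add₄_le).trans
    ((add_le_add (add_le_add (add_le_add b1 b2) b3) b4).trans_eq (by ring)))
  rw [map_sub]
  congr 1
  ring

/-- Exchange the sums: `MM = ∑ φ ∈ s, G φ * ∑ a ∈ A, c a * S φ a`, where `S φ a` is the sum over the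
`γ ∈ Γ` with `f φ + a • mn γ ∈ I`. For odd `a`, `S φ a = SS d I u b (f φ) a` (`SS_eq_sum`, `hΓ`), of
norm at most `2 * Γ.card`. Even `a`: `‖c a‖ ≤ μ` (`Mino.even`), total at most
`Γ.card * (2 μ ∑ ‖G‖)` (`sum_ZZ`). Odd `a` with `3 ≤ |a|`: at most one has `SS ≠ 0` (`SS_ne`,
`rig`) and `‖c a‖ ‖SS‖ ≤ E φ` (`Mino.dec`). `a = ± 1`: `c (-1) = conj (c 1)` (`Mino.cj`), `hκ`. -/
theorem dec (hχ : ∀ η ∈ I, F.chi θ η = 0) (u b : F.B) (s : Finset ι) (G : ι → ℂ) (f : ι → F.B)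
    {c : ℤ → ℂ} {M : ℕ} {μ : ℝ} (hc : BA.Mino c M μ) {κ : ℂ} (hκ : ‖c 1 - κ‖ ≤ μ)
    (Γ : Finset F.G) (hΓ : ∀ φ ∈ s, ∀ a : ℤ, Odd a → ∀ γ, f φ + a • F.mn γ ∈ I →
      F.db (F.mn γ * b) ≠ 0 → γ ∈ Γ) (E : ι → ℝ) (hE0 : ∀ φ ∈ s, 0 ≤ E φ)
    (hE : ∀ φ ∈ s, ∀ a : ℤ, Odd a → 3 ≤ |a| → ‖F.SS d I u b (f φ) a‖ ≤ E φ * |(a : ℝ)|) :
    (∑ φ ∈ s, G φ * (κ * F.SS d I u b (f φ) 1 +
        (starRingEnd ℂ) κ * F.SS d I u b (f φ) (-1))).re ≤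
      (MM d I u b s G f c M Γ).re + ∑ φ ∈ s, ‖G φ‖ * E φ + 6 * μ * Γ.card * ∑ φ ∈ s, ‖G φ‖ := by
  classical
  have e : MM d I u b s G f c M Γ = ∑ φ ∈ s, G φ * ∑ a ∈ (Icc (-M : ℤ) M).erase 0, c a *
      ∑ γ ∈ Γ.filter fun γ => f φ + a • F.mn γ ∈ I, ee (F.db (F.Dm d (f φ + a • F.mn γ) * u)) *
        (ee (a • F.db (F.mn γ * b)) - 1) := by
    simp only [MM, ZZ, sum_filter, sum_product, mul_sum]
    rw [sum_comm]
    refine sum_congr rfl fun φ _ => ?_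
    rw [sum_comm]
    refine sum_congr rfl fun a _ => sum_congr rfl fun γ _ => ?_
    split_ifs
    · ring
    · simp
  rw [e, add_assoc, ← sub_le_iff_le_add', ← Complex.sub_re, ← sum_sub_distrib, mul_sum s,
    ← sum_add_distrib]
  refine (Complex.re_le_norm _).trans (norm_sum_le_of_le _ fun φ hφ => ?_)
  rw [← mul_sub, norm_mul, mul_comm _ ‖G φ‖, ← mul_add]
  exact mul_le_mul_of_nonneg_left (MfC_one hχ u b (f φ) hc hκ Γ (hΓ φ hφ) (hE0 φ hφ) (hE φ hφ))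
    (norm_nonneg _)

end Fr

end Pool.Agent.GT
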