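import Pool.Agent.Lib.MP_a01f70_lc.GT.Cpt
import Pool.Agent.Lib.MP_a01f70_lc.GT.MIf
import Pool.Agent.Lib.MP_a01f70_lc.GT.Kfin
import Pool.Agent.Lib.MP_a01f70_lc.GT.Kinf
import Pool.Agent.Lib.MP_a01f70_lc.GT.Diag

/-! A relation with non zero divisors. -/

namespace Pool.Agent.GT.Fr
open Pool.Agent.GK

variable {F : Fr} {d : ℕ → ℕ}

theorem nzd_right (hd : ∀ i, Good (F.n i) (d i)) {A B : F.B} (hA : A ∈ nonZeroDivisors F.B)
    (h : F.Small (A * F.dR d - B)) : B ∈ nonZeroDivisors F.B := by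
  refine mem_nonZeroDivisors_iff_right.2 fun f hf => mem_nonZeroDivisors_iff_right.1 hA f ?_
  obtain ⟨d', -, h1⟩ := exists_inv hd
  refine Small.eq_zero ?_
  have h2 : ((f * B : F.B) : F.R) = 0 := by rw [hf]; rfl
  convert h.mul (f * F.dR d') using 1
  push_cast at h2 ⊢
  linear_combination F.dR d' * h2 - (f : F.R) * A * h1

theorem exists_nzd (hd : ∀ i, Good (F.n i) (d i)) : ∃ A B : F.B, A ∈ nonZeroDivisors F.B ∧
    B ∈ nonZeroDivisors F.B ∧ F.Small (A * F.dR d - B) := by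
  suffices h : ∃ A B : F.B, A ∈ nonZeroDivisors F.B ∧ F.Small (A * F.dR d - B) by
    obtain ⟨A, B, h1, h2⟩ := h
    exact ⟨A, B, h1, nzd_right hd h1 h2, h2⟩
  rcases cpt (F.J d).toAddSubgroup with ⟨θ, hθ⟩ | ⟨f, hf, h⟩
  swap
  · exact ⟨f, F.Dm d f, nzd_of_chi h, by rw [Dm_of_J hf, sub_self]; exact small_zero⟩
  obtain ⟨κ, C₀, h1, h2, h3, hM⟩ := meanfield
  have hD := fun i => (hd i).dn
  have hu := fun m η hm hη => u1 h1 h2 hθ (hM F d θ _ hD J_le_J2 hθ dich_J) (m := m) hm (η := η) hη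
  have hM2 := hM F d θ _ hD le_rfl (chi_J2 hθ) (dich_J2 hu)
  rcases finite_or_infinite (F.KI (F.J2 d)) with hK | hK
  · exact (diag hD hθ (kfin h1 h2 (chi_J2 hθ) (fun m η hm => J2_tf hu hm) hM2)).elim
  · obtain ⟨r, hr⟩ := kinf h1 h3 (chi_J2 hθ) hM2
    exact ⟨1, r, one_mem _, by simpa using hr⟩

end Pool.Agent.GT.Fr
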