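import Pool.Agent.Lib.MP_a01f70_lc.GT.URS

/-! `B / J2` is torsion free. -/

namespace Pool.Agent.GT.Fr
open Finset Pool.Agent.GK

variable {F : Fr} {d : ℕ → ℕ} {θ : F.Ch} {κ : ℂ} {C₀ : ℝ}

theorem u1_norm {m : ℕ} (hm : 0 < m) {Z : ℤ} (h : ¬ (m : ℤ) ∣ Z) {ε : ℝ}
    (hε : |ε| ≤ 1 / (2 * m)) : 1 / (2 * m) ≤ ‖(((Z : ℝ) / m - ε : ℝ) : Tc)‖ := by
  have hm' : (0 : ℝ) < m := by exact_mod_cast hm
  rw [UnitAddCircle.norm_eq]
  generalize round ((Z : ℝ) / m - ε) = n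
  have h1 : Z - m * n ≠ 0 := fun h0 => h ⟨n, by linarith⟩
  have h2 : (1 : ℝ) ≤ |(Z : ℝ) - m * n| := by exact_mod_cast Int.one_le_abs h1
  have h3 : 1 / (m : ℝ) ≤ |(Z : ℝ) / m - n| := by
    rw [show (Z : ℝ) / m - n = ((Z : ℝ) - m * n) / m by field_simp, abs_div, abs_of_pos hm']
    exact div_le_div_of_nonneg_right h2 hm'.le
  have h4 := abs_sub_abs_le_abs_sub ((Z : ℝ) / m - n) ε
  have h5 : 1 / (m : ℝ) = 1 / (2 * m) + 1 / (2 * m) := by field_simp; norm_num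
  rw [show (Z : ℝ) / m - ε - n = (Z : ℝ) / m - n - ε by ring]
  linarith

theorem co_nat_mul (n : ℕ) (γ : F.G) (x : F.B) :
    F.co (F.mn γ * (n * x)) = n * F.co (F.mn γ * x) := by
  rw [mul_left_comm, ← nsmul_eq_mul, map_nsmul, nsmul_eq_mul]

theorem co_shift (γ : F.G) (j : ℤ) (x : F.B) :
    F.co (F.mn (γ + j • F.σ) * x) = (2 : ℝ) ^ j * F.co (F.mn γ * x) := by
  rw [add_comm, mn_add, mul_assoc, co_σ_mul]

theorem u1_odd (hκ : 1 / 2 ≤ ‖κ‖) (hχ : ∀ η ∈ F.J d, F.chi θ η = 0)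
    (h : F.MFall κ C₀ d (F.J d)) {m : ℕ} (hm : Odd m) {η : F.B} (hη : (m : F.B) * η ∈ F.J d) :
    η ∈ F.J2 d := by
  classical
  have hm0 := hm.pos
  have hm' : (0 : ℝ) < m := by exact_mod_cast hm0
  have hξ := Dm_of_J hη
  generalize F.Dm d (m * η) = ξ at hξ
  by_cases hdiv : ∀ γ, ∃ (k : ℕ) (z : ℤ), F.co (F.mn γ * ξ) * 2 ^ k = m * z
  · obtain ⟨y, rfl⟩ := F.exists_div hm0 hdiv
    refine mem_J2.2 ⟨m, y, hm0, ?_⟩
    push_cast at hξ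
    linear_combination hξ
  exfalso
  push Not at hdiv
  obtain ⟨γ₀, hγ₀⟩ := hdiv
  obtain ⟨k₀, z₀, hz⟩ := F.co_dyadic (F.mn γ₀ * ξ)
  have hnd : ¬ (m : ℤ) ∣ z₀ := by
    rintro ⟨z, rfl⟩
    exact hγ₀ k₀ z (by rw [hz]; push_cast; ring)
  obtain ⟨k, P, Q, hk, rfl⟩ := exists_wtB η
  obtain ⟨s₀, hs₀⟩ := F.co_lines ξ
  set Ω := (finite_coset ξ γ₀).toFinset.filter (· ∈ F.KI (F.J d)) with hΩ
  obtain ⟨ν, hν⟩ := exists_wt_all Ω (F.xi d)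
  set t : ℝ := 1 / (13 * m ^ 2 * (Ω.card + 1)) with ht
  have ht0 : 0 < t := by positivity
  obtain ⟨M, hM⟩ := rs (C₀ * (2 * k : ℕ)) (2 * s₀.card) (c₀ := 1 / (m : ℝ) ^ 2) (by positivity)
  obtain ⟨B₀, hB₀⟩ := exists_nat_ge (Ω.card * ((ν * k : ℕ) / t))
  obtain ⟨i₁, hi₁⟩ := pow_unbounded_of_one_lt (|F.co (F.mn γ₀ * ξ)| * 2) (one_lt_two (α := ℝ))
  obtain ⟨H, hH, uH, huH⟩ : ∃ H : ℕ, i₁ + (M + B₀ + 1) + k₀ ≤ H ∧ ∃ uH : ℕ, 2 ^ H = m * uH + 1 := by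
    refine ⟨m.totient * (i₁ + (M + B₀ + 1) + k₀),
      Nat.le_mul_of_pos_left _ (Nat.totient_pos.2 hm0), ?_⟩
    have h1 := (Nat.ModEq.pow_totient (Nat.coprime_two_left.2 hm)).pow (i₁ + (M + B₀ + 1) + k₀)
    rw [← pow_mul, one_pow] at h1
    obtain ⟨u, hu⟩ := (Nat.modEq_iff_dvd' Nat.one_le_two_pow).1 h1.symm
    exact ⟨u, by have := Nat.one_le_two_pow (n := m.totient * (i₁ + (M + B₀ + 1) + k₀)); omega⟩
  have h2H : F.mn (H • F.σ) = m * uH + 1 := by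
    rw [mn_nsmul, mn_σ]
    exact_mod_cast congrArg (Nat.cast : ℕ → F.B) huH
  have hMF := h (2 * k) (P.map (H • F.σ + ·) + Q) (Q.map (H • F.σ + ·) + P) (uH * ξ)
    (by simp only [Multiset.card_add, Multiset.card_map]; omega) (by
      rw [sm_add, sm_add, ← mn_mul_sm, ← mn_mul_sm, h2H]
      push_cast at hξ ⊢
      linear_combination (uH : F.R) * hξ)
  have hu : F.WtB k (F.sm (Q.map (H • F.σ + ·) + P)) :=
    (wtB_sm _).mono (by simp only [Multiset.card_add, Multiset.card_map]; omega)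
  generalize F.sm (Q.map (H • F.σ + ·) + P) = u at hMF hu
  set T := (range (M + B₀ + 1)).image fun i : ℕ => γ₀ + (-((i₁ + i : ℕ) : ℤ)) • F.σ with hT
  have hTc : T.card = M + B₀ + 1 := by
    rw [hT, card_image_of_injective, card_range]
    intro i i' hi
    have := F.zsmul_σ_inj (add_left_cancel hi)
    omega
  have hbad := card_bad Ω (fun ω => F.xi d ω * u) (fun ω hω => (hν ω hω).mul hu) ht0 T
  have hgood := hM F d θ _ κ u _ hκ J_le_J2 hχ hMF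
    (fun f a ha => norm_SS_lines hχ u (fun γ hγ => hs₀ γ fun h0 => hγ (by
      rw [co_nat_mul, h0, mul_zero])) f ha)
    (T.filter fun γ => ∀ ω ∈ Ω, ‖F.db (F.mn γ * (F.xi d ω * u))‖ ≤ t) ?_ ?_
  · have h1 := card_filter_add_card_filter_not (s := T)
      fun γ => ∀ ω ∈ Ω, ‖F.db (F.mn γ * (F.xi d ω * u))‖ ≤ t
    have h2 := Nat.cast_le.1 (hbad.trans hB₀)
    omega
  · intro γ hγ γ' hγ' hK
    obtain ⟨i, -, rfl⟩ := mem_image.1 (mem_filter.1 hγ).1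
    obtain ⟨i', -, rfl⟩ := mem_image.1 (mem_filter.1 hγ').1
    have h1 := hK.1
    rw [add_sub_add_left_eq_sub, ← sub_smul] at h1
    rw [sub_eq_zero.1 (F.eq_zero_of_tor h1)]
  · intro γ hγ
    obtain ⟨h1, h2⟩ := mem_filter.1 hγ
    obtain ⟨i, hi, rfl⟩ := mem_image.1 h1
    have hi' := mem_range.1 hi
    refine le_trans ?_ (SS_lower J_le_J2 hχ u _ _ Ω (fun ω hω => (mem_filter.1 hω).2)
      (fun ω hω h0 => ?_) ht0.le h2)
    · obtain ⟨e, he⟩ : ∃ e, H = e + k₀ + (i₁ + i) := ⟨H - k₀ - (i₁ + i), by omega⟩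
      have h3 : (2 : ℝ) ^ H = m * uH + 1 := by exact_mod_cast huH
      have h4 : F.co (F.mn (γ₀ + (-((i₁ + i : ℕ) : ℤ)) • F.σ) * (uH * ξ)) =
          ((2 ^ e * z₀ : ℤ) : ℝ) / m - F.co (F.mn γ₀ * ξ) / (2 ^ (i₁ + i) * m) := by
        rw [co_shift, co_nat_mul, zpow_neg, zpow_natCast]
        push_cast
        rw [← hz]
        rw [he, pow_add, pow_add] at h3
        field_simp
        linear_combination (-F.co (F.mn γ₀ * ξ)) * h3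
      have h5 := u1_norm hm0 (Z := 2 ^ e * z₀)
        (fun hd => hnd (IsCoprime.dvd_of_dvd_mul_left
          (IsCoprime.pow_right (Nat.isCoprime_iff_coprime.2 (Nat.coprime_two_right.2 hm))) hd))
        (ε := F.co (F.mn γ₀ * ξ) / (2 ^ (i₁ + i) * m)) (by
          rw [abs_div, abs_of_pos (a := (2 : ℝ) ^ (i₁ + i) * m) (by positivity),
            div_le_div_iff₀ (by positivity) (by positivity)]
          have : (2 : ℝ) ^ i₁ ≤ 2 ^ (i₁ + i) := pow_le_pow_right₀ one_le_two (by omega)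
          nlinarith)
      rw [← h4, ← db_eq] at h5
      have h6 := pow_le_pow_left₀ (by positivity) h5 2
      have h7 : 13 * t * Ω.card ≤ 1 / (m : ℝ) ^ 2 := by
        rw [ht, le_div_iff₀ (by positivity)]
        field_simp
        linarith
      have h8 : 8 * (1 / (2 * (m : ℝ))) ^ 2 = 1 / (m : ℝ) ^ 2 + 1 / (m : ℝ) ^ 2 := by
        field_simp
        norm_num
      linarith
    · refine mem_filter.2 ⟨(Set.Finite.mem_toFinset _).2 ⟨hω.1, fun h3 => h0 ?_⟩, hω⟩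
      rw [db_eq, add_right_comm, co_shift, co_nat_mul, h3, mul_zero, mul_zero]
      rfl

theorem u1 (hκ : 1 / 2 ≤ ‖κ‖) (hκ' : ‖κ‖ ≤ 1) (hχ : ∀ η ∈ F.J d, F.chi θ η = 0)
    (h : F.MFall κ C₀ d (F.J d)) {m : ℕ} (hm : 0 < m) {η : F.B} (hη : (m : F.B) * η ∈ F.J d) :
    η ∈ F.J2 d := by
  obtain ⟨k, m', ho, rfl⟩ := Nat.exists_eq_two_pow_mul_odd hm.ne'
  have h2 : IsUnit ((2 : F.B) ^ k) := (F.mn_σ ▸ F.isUnit_mn F.σ).pow k
  refine u1_odd hκ hχ h ho ((Ideal.unit_mul_mem_iff_mem _ h2).1 ?_)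
  rwa [Nat.cast_mul, Nat.cast_pow, Nat.cast_ofNat, mul_assoc] at hη

theorem dich_J2 (h : ∀ (m : ℕ) (η : F.B), 0 < m → (m : F.B) * η ∈ F.J d → η ∈ F.J2 d) :
    F.Dich d (F.J2 d) := by
  classical
  intro s
  choose! m hm using fun η (hη : η ∈ F.J2 d) => Dm_spec hη
  have h0 : 0 < ∏ η ∈ s with η ∈ F.J2 d, m η :=
    prod_pos fun η hη => (hm η (mem_filter.1 hη).2).1.pos
  refine ⟨_, h0, fun η hη => ⟨fun h1 => ?_, fun h1 h2 => h1 (h _ η h0 (mem_J.2 ?_))⟩⟩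
  · obtain ⟨c, hc⟩ := dvd_prod_of_mem m (mem_filter.2 ⟨hη, h1⟩ : η ∈ s.filter (· ∈ F.J2 d))
    rw [hc, Nat.cast_mul, mul_right_comm, (hm η h1).2, zero_mul]
  · simpa using h2

theorem J2_tf (h : ∀ (m : ℕ) (η : F.B), 0 < m → (m : F.B) * η ∈ F.J d → η ∈ F.J2 d) {m : ℕ}
    (hm : 0 < m) {η : F.B} (hη : m • η ∈ F.J2 d) : η ∈ F.J2 d := by
  obtain ⟨m', ho, h1⟩ := exists_mul_J hη
  refine h (m' * m) η (Nat.mul_pos ho.pos hm) ?_
  rwa [nsmul_eq_mul, ← mul_assoc, ← Nat.cast_mul] at h1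

end Pool.Agent.GT.Fr
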