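import Pool.Agent.Lib.MP_a01f70_lc.GT.USel2

/-! Selection of lacunary sites. -/

noncomputable section

namespace Pool.Agent.GT
open Finset Pool.Agent.GK

namespace Fr

variable {F : Fr} {θ : F.Ch}

theorem van_opt {r : ℕ} {g : Fin r → F.G} {s : Fin r → ℤ} {a : ℤ} {γ : F.G}
    (h : F.chi θ (∑ k, s k • F.mn (g k) + a • F.mn γ) = 0) (γ₀ : F.G)
    [DecidablePred fun δ : F.G => δ - γ₀ ∈ F.G01] :
    ∑ k, (if g k - γ₀ ∈ F.G01 then (s k : ℂ) * F.xv θ (g k) else 0) +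
      (if γ - γ₀ ∈ F.G01 then (a : ℂ) * F.xv θ γ else 0) = 0 := by
  have h1 := van' (θ := θ) (s := univ) (c := fun o : Option (Fin r) => o.elim a s)
    (g := fun o => o.elim γ g) (by rw [Fintype.sum_option, add_comm]; exact h) γ₀
  rw [sum_filter, Fintype.sum_option, add_comm] at h1
  convert h1 <;> rfl

theorem lac_of_cosets {r : ℕ} {g : Fin r → F.G} (h : ∀ k k', g k - g k' ∈ F.G01 → k = k') (D : ℕ) :
    F.Lac θ g D := by
  classical
  intro s _ ⟨k, k', hk, h1, h2⟩ a γ _ h0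
  have key : ∀ k, s k ≠ 0 → γ - g k ∈ F.G01 := by
    intro k hk
    by_contra hn
    have h3 := van_opt h0 (g k)
    rw [if_neg hn, add_zero, sum_eq_single k (fun l _ hl => if_neg fun e => hl (h _ _ e))
      (by simp), if_pos (by simp)] at h3
    exact mul_ne_zero (Int.cast_ne_zero.2 hk) (F.xv_ne θ _) h3
  exact absurd (h k k' (by simpa using sub_mem (key k' h2) (key k h1))) hk

theorem rel_coset {r : ℕ} {γ₀ : F.G} {j : Fin r → ℤ} {ω : Fin r → F.G} (hω : ∀ k, ω k ∈ F.Tor)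
    {s : Fin r → ℤ} {a : ℤ} {γ : F.G}
    (h : F.chi θ (∑ k, s k • F.mn (γ₀ + (j k • F.σ + ω k)) + a • F.mn γ) = 0) :
    ∑ k, (s k : ℂ) * (2 ^ j k * ee (θ.1 (ω k))) = 0 ∨ ∃ (j' : ℤ) (ω' : F.G), ω' ∈ F.Tor ∧
      ∑ k, (s k : ℂ) * (2 ^ j k * ee (θ.1 (ω k))) + a * (2 ^ j' * ee (θ.1 ω')) = 0 := by
  classical
  have h1 := van_opt h γ₀
  have h2 : ∀ k, γ₀ + (j k • F.σ + ω k) - γ₀ ∈ F.G01 := fun k =>
    F.mem_G01.2 ⟨j k, ω k, hω k, by abel⟩
  have h6 : ∀ k, (if γ₀ + (j k • F.σ + ω k) - γ₀ ∈ F.G01 then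
      (s k : ℂ) * F.xv θ (γ₀ + (j k • F.σ + ω k)) else 0) =
        F.xv θ γ₀ * (s k * (2 ^ j k * ee (θ.1 (ω k)))) := fun k => by
    rw [if_pos (h2 k), F.xv_add θ γ₀, xv_G01 θ _ (hω k)]
    ring
  rw [sum_congr rfl fun k _ => h6 k, ← mul_sum] at h1
  by_cases h3 : γ - γ₀ ∈ F.G01
  · obtain ⟨j', ω', h4, h5⟩ := F.mem_G01.1 h3
    refine Or.inr ⟨j', ω', h4, mul_left_cancel₀ (F.xv_ne θ γ₀) ?_⟩
    rw [if_pos h3, eq_add_of_sub_eq' h5, F.xv_add θ γ₀, xv_G01 θ _ h4] at h1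
    linear_combination h1
  · rw [if_neg h3, add_zero] at h1
    exact Or.inl ((mul_eq_zero.1 h1).resolve_left (F.xv_ne θ γ₀))

theorem root_tor {ω : F.G} (h : ω ∈ F.Tor) : ∃ c : ℕ, 0 < c ∧ ee (θ.1 ω) ^ c = 1 :=
  ⟨_, IsOfFinAddOrder.addOrderOf_pos h, ee_pow_order θ ω⟩

end Fr

theorem sel_coset (r D : ℕ) : ∃ M : ℕ, ∀ (F : Fr) (θ : F.Ch) (t : Finset F.G) (γ₀ : F.G),
    (∀ γ ∈ t, γ - γ₀ ∈ F.G01) → (∀ γ ∈ t, ∀ γ' ∈ t, γ - γ' ∈ F.K0 θ → γ = γ') → M ≤ t.card →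
      ∃ g : Fin r → F.G, (∀ k, g k ∈ t) ∧ F.Lac θ g D := by
  classical
  obtain ⟨M₁, h1⟩ := sel_gap r (D + 2)
  obtain ⟨M₂, h2⟩ := sel_unit r
  refine ⟨M₂ * M₁ + 1, fun F θ t γ₀ hG hK hM => ?_⟩
  choose! j ω hω he using fun γ hγ => F.mem_G01.1 (hG γ hγ)
  have he' : ∀ γ ∈ t, γ₀ + (j γ • F.σ + ω γ) = γ := fun γ hγ => by rw [← he γ hγ]; abel
  by_cases hc : M₁ ≤ (t.image j).card
  · obtain ⟨J, hJ, hgap⟩ := h1 _ hc
    choose g hg hgj using fun k => mem_image.1 (hJ k)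
    refine ⟨g, hg, fun s hs h3 a γ ha h0 => ?_⟩
    have h4 := gap_rel (L := D) hgap (ζ := fun k => ee (θ.1 (ω (g k))))
      (fun k => Fr.root_tor (hω _ (hg k))) hs h3
    rcases Fr.rel_coset (θ := θ) (γ₀ := γ₀) (j := J) (s := s) (a := a) (γ := γ)
      (fun k => hω _ (hg k)) (by simpa only [← hgj, he' _ (hg _)] using h0) with
      h5 | ⟨j', ω', h5, h6⟩
    · exact absurd h5 h4.1
    · exact h4.2 a j' _ ha (Fr.root_tor h5) h6
  · obtain ⟨J, -, hJ⟩ : ∃ J ∈ t.image j, M₂ < (t.filter fun γ => j γ = J).card := by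
      by_contra hn
      push Not at hn
      have h3 := card_le_mul_card_image t M₂ hn
      have h4 := Nat.mul_le_mul_left M₂ (not_le.1 hc).le
      omega
    have h3 : Set.InjOn (fun γ => ee (θ.1 (ω γ))) (t.filter fun γ => j γ = J) := by
      intro γ hγ γ' hγ' e
      obtain ⟨a1, a2⟩ := mem_filter.1 hγ
      obtain ⟨b1, b2⟩ := mem_filter.1 hγ'
      have e1 : γ - γ' = ω γ - ω γ' := by
        rw [← sub_sub_sub_cancel_right γ γ' γ₀, he γ a1, he γ' b1, a2, b2]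
        abel
      refine hK γ a1 γ' b1
        (e1 ▸ ⟨F.Tor.sub_mem (hω γ a1) (hω γ' b1), AddMonoidHom.mem_ker.2 ?_⟩)
      rw [map_sub, AddCircle.injective_toCircle one_ne_zero (Circle.ext e), sub_self]
    obtain ⟨z, hz, hu⟩ := h2 ((t.filter fun γ => j γ = J).image fun γ => ee (θ.1 (ω γ)))
      (fun ζ hζ => by
        obtain ⟨γ, hγ, rfl⟩ := mem_image.1 hζ
        exact norm_of_root (Fr.root_tor (hω γ (mem_filter.1 hγ).1)))
      (by rw [card_image_of_injOn h3]; exact hJ.le)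
    choose g hg hgz using fun k => mem_image.1 (hz k)
    have hg1 := fun k => (mem_filter.1 (hg k)).1
    have hg2 := fun k => he' _ (hg1 k)
    simp only [fun k => (mem_filter.1 (hg k)).2] at hg2
    refine ⟨g, hg1, fun s hs h4 a γ ha h0 => ?_⟩
    have h5 := flat_rel (z := z) (fun k => hgz k ▸ Fr.root_tor (hω _ (hg1 k))) (hu s hs h4) J
    rcases Fr.rel_coset (θ := θ) (γ₀ := γ₀) (j := fun _ => J) (s := s) (a := a) (γ := γ)
      (fun k => hω _ (hg1 k)) (by simpa only [hg2] using h0) with h6 | ⟨j', ω', h6, h7⟩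
    · simp only [hgz] at h6
      exact absurd h6 h5.1
    · simp only [hgz] at h7
      exact absurd h7 (h5.2 a j' _ ha (Fr.root_tor h6))

theorem sel (r D : ℕ) : ∃ M : ℕ, ∀ (F : Fr) (θ : F.Ch) (t : Finset F.G),
    (∀ γ ∈ t, ∀ γ' ∈ t, γ - γ' ∈ F.K0 θ → γ = γ') → M ≤ t.card →
      ∃ g : Fin r → F.G, (∀ k, g k ∈ t) ∧ F.Lac θ g D := by
  classical
  obtain ⟨M, h1⟩ := sel_coset r D
  refine ⟨M * r + 1, fun F θ t hK hM => ?_⟩
  by_cases hc : r ≤ (t.image (QuotientAddGroup.mk : F.G → F.G ⧸ F.G01)).card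
  · obtain ⟨A, hA, rfl⟩ := exists_subset_card_eq hc
    choose g hg hq using fun k : Fin A.card => mem_image.1 (hA (A.equivFin.symm k).2)
    refine ⟨g, hg, Fr.lac_of_cosets (fun k k' e => ?_) D⟩
    have h2 := QuotientAddGroup.eq_iff_sub_mem.2 e
    rw [hq, hq] at h2
    exact A.equivFin.symm.injective (Subtype.ext h2)
  · obtain ⟨q, hq, hJ⟩ : ∃ q ∈ t.image (QuotientAddGroup.mk : F.G → F.G ⧸ F.G01),
        M < (t.filter fun γ : F.G => (γ : F.G ⧸ F.G01) = q).card := by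
      by_contra hn
      push Not at hn
      have h3 := card_le_mul_card_image t M hn
      have h4 := Nat.mul_le_mul_left M (not_le.1 hc).le
      omega
    obtain ⟨γ₀, -, rfl⟩ := mem_image.1 hq
    obtain ⟨g, hg, hl⟩ := h1 F θ _ γ₀
      (fun γ hγ => QuotientAddGroup.eq_iff_sub_mem.1 (mem_filter.1 hγ).2)
      (fun γ hγ γ' hγ' => hK γ (mem_filter.1 hγ).1 γ' (mem_filter.1 hγ').1) hJ.le
    exact ⟨g, fun k => (mem_filter.1 (hg k)).1, hl⟩

end Pool.Agent.GT
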