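import Pool.Agent.Lib.MP_a01f70_lc.GT.URz
import Pool.Agent.Lib.MP_a01f70_lc.GT.USel

/-! Few inequivalent sites have a large coefficient. -/

noncomputable section

namespace Pool.Agent.GT
open Finset Pool.Agent.GK

theorem rs (C Sm : ℝ) {c₀ : ℝ} (hc : 0 < c₀) : ∃ M : ℕ, ∀ (F : Fr) (d : ℕ → ℕ) (θ : F.Ch)
    (I : Ideal F.B) (κ : ℂ) (u b : F.B), 1 / 2 ≤ ‖κ‖ → I ≤ F.J2 d → (∀ η ∈ I, F.chi θ η = 0) →
      MF (F.SS d I u b) κ C → (∀ (f : F.B) (a : ℤ), Odd a → ‖F.SS d I u b f a‖ ≤ Sm) →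
      ∀ t : Finset F.G, (∀ γ ∈ t, ∀ γ' ∈ t, γ - γ' ∈ F.K0 θ → γ = γ') →
        (∀ γ ∈ t, c₀ ≤ ‖F.SS d I u b (-F.mn γ) 1‖) → t.card ≤ M := by
  obtain ⟨N, hN⟩ := exists_nat_gt (max 0 ((C + 1) * 4 / c₀))
  obtain ⟨D, hD⟩ := exists_nat_ge (max 3 (Real.exp N * Sm))
  obtain ⟨M, hM⟩ := sel (N ^ 2) D
  refine ⟨M, fun F d θ I κ u b hκ hI hχ h hS t h1 h2 => ?_⟩
  by_contra hlt
  obtain ⟨g, hg, hl⟩ := hM F θ t h1 (by omega)
  have hN0 : 0 < N := by exact_mod_cast (le_max_left _ _).trans_lt hN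
  have hD3 : (3 : ℝ) ≤ D := (le_max_left _ _).trans hD
  have h3 := Fr.rz_lac hκ hI hχ h hS hN0 (by exact_mod_cast hD3) g hl fun k => h2 _ (hg k)
  have h4 : (C + 1) * 4 < N * c₀ := (div_lt_iff₀ hc).1 ((le_max_right _ _).trans_lt hN)
  have h5 : Real.exp N * (Sm / D) ≤ 1 := by
    rw [← mul_div_assoc, div_le_one (by linarith)]
    exact (le_max_right _ _).trans hD
  linarith

namespace Fr

variable {F : Fr}

open Classical in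
theorem card_bad (Ω : Finset F.G) (x : F.G → F.B) {w : ℕ} (hx : ∀ ω ∈ Ω, F.WtB w (x ω)) {t : ℝ}
    (ht : 0 < t) (T : Finset F.G) :
    ((T.filter fun γ => ¬ ∀ ω ∈ Ω, ‖F.db (F.mn γ * x ω)‖ ≤ t).card : ℝ) ≤ Ω.card * (w / t) := by
  have h1 : (T.filter fun γ => ¬ ∀ ω ∈ Ω, ‖F.db (F.mn γ * x ω)‖ ≤ t) ⊆
      Ω.biUnion fun ω => T.filter fun γ => t ≤ ‖F.db (F.mn γ * x ω)‖ := by
    intro γ hγ
    obtain ⟨h2, h3⟩ := mem_filter.1 hγ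
    push Not at h3
    obtain ⟨ω, h4, h5⟩ := h3
    exact mem_biUnion.2 ⟨ω, h4, mem_filter.2 ⟨h2, h5.le⟩⟩
  have h2 := (card_le_card h1).trans card_biUnion_le
  refine (Nat.cast_le.2 h2).trans ?_
  rw [Nat.cast_sum, ← nsmul_eq_mul]
  refine sum_le_card_nsmul _ _ _ fun ω hω => ?_
  rw [le_div_iff₀ ht]
  exact card_big (hx ω hω) _ fun γ hγ => (mem_filter.1 hγ).2

theorem exists_wt_all (Ω : Finset F.G) (x : F.G → F.B) : ∃ w, ∀ ω ∈ Ω, F.WtB w (x ω) := by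
  choose k hk using fun ω => exists_wtB (x ω)
  exact ⟨Ω.sup k, fun ω h => (hk ω).mono (le_sup h)⟩

end Fr

end Pool.Agent.GT
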