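import Pool.Agent.Lib.MP_a01f70_lc.GT.MS
import Pool.Agent.Lib.MP_a01f70_lc.GK.Rz0

/-! The Riesz product bound for lacunary sites. -/

noncomputable section

namespace Pool.Agent.GT
open Finset Pool.Agent.GK

theorem exists_phase (w : ℂ) : ∃ φ : Tc, ee (-φ) * w = Complex.I * (‖w‖ : ℝ) := by
  refine ⟨((w.arg / (2 * Real.pi) - 1 / 4 : ℝ) : Tc), ?_⟩
  have h1 := Complex.norm_mul_exp_arg_mul_I w
  have h2 : (Real.pi : ℂ) ≠ 0 := by exact_mod_cast Real.pi_ne_zero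
  have h3 : Complex.exp (2 * Real.pi * Complex.I * (-(w.arg / (2 * Real.pi) - 1 / 4) : ℝ)) *
      Complex.exp (w.arg * Complex.I) = Complex.I := by
    rw [← Complex.exp_add]
    convert Complex.exp_pi_div_two_mul_I using 2
    push_cast
    field_simp
    ring
  rw [← AddCircle.coe_neg, ee_coe]
  linear_combination (‖w‖ : ℂ) * h3 - Complex.exp (2 * Real.pi * Complex.I *
    (-(w.arg / (2 * Real.pi) - 1 / 4) : ℝ)) * h1

theorem two_of_Sg {n : ℕ} {σ : Fin n → ℤ} (hσ : σ ∈ Sg n) :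
    (∃ k k', k ≠ k' ∧ σ k ≠ 0 ∧ σ k' ≠ 0) ∨ σ = 0 ∨
      ∃ k s, (s = 1 ∨ s = -1) ∧ σ = Pi.single k s := by
  refine or_iff_not_imp_left.2 fun h => eq_single_Sg hσ fun k k' h1 h2 => ?_
  by_contra h3
  exact h ⟨k, k', h3, h1, h2⟩

theorem sum_single_smul {A : Type} [AddCommGroup A] {n : ℕ} (k : Fin n) (s : ℤ) (x : Fin n → A) :
    ∑ k', (Pi.single k s : Fin n → ℤ) k' • x k' = s • x k := by
  rw [Fintype.sum_eq_single k fun k' h => by rw [Pi.single_eq_of_ne h, zero_smul],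
    Pi.single_eq_same]

theorem sum_Sg {n : ℕ} (T : (Fin n → ℤ) → ℂ) (h0 : T 0 = 0)
    (h2 : ∀ σ ∈ Sg n, (∃ k k', k ≠ k' ∧ σ k ≠ 0 ∧ σ k' ≠ 0) → T σ = 0) :
    ∑ σ ∈ Sg n, T σ = ∑ k, (T (Pi.single k 1) + T (Pi.single k (-1))) := by
  have h1 : Set.InjOn (fun p : Fin n × ℤ => (Pi.single p.1 p.2 : Fin n → ℤ))
      (univ ×ˢ ({1, -1} : Finset ℤ) : Finset (Fin n × ℤ)) := by
    rintro ⟨k, s⟩ hp ⟨k', s'⟩ - e
    have h3 : s ≠ 0 := by
      have := (mem_product.1 (mem_coe.1 hp)).2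
      simp only [mem_insert, mem_singleton] at this
      omega
    have h4 := congrFun e k
    simp only [Pi.single_eq_same] at h4
    by_cases h5 : k = k'
    · subst h5
      rw [Pi.single_eq_same] at h4
      rw [h4]
    · rw [Pi.single_eq_of_ne h5] at h4
      exact absurd h4 h3
  rw [← sum_subset (s₁ := (univ ×ˢ ({1, -1} : Finset ℤ)).image
    fun p : Fin n × ℤ => (Pi.single p.1 p.2 : Fin n → ℤ)), sum_image h1, sum_product]
  · exact sum_congr rfl fun k _ => sum_pair (by decide)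
  · intro σ hσ
    obtain ⟨p, hp, rfl⟩ := mem_image.1 hσ
    exact single_mem_Sg _ (by simpa using (mem_product.1 hp).2)
  · intro σ hσ h3
    rcases two_of_Sg hσ with h | rfl | ⟨k, s, hs, rfl⟩
    · exact h2 σ hσ h
    · exact h0
    · exact absurd (mem_image.2 ⟨(k, s), by simpa using hs, rfl⟩) h3

theorem rz_abs {A : Type} [AddCommGroup A] {S : A → ℤ → ℂ} {κ : ℂ} {C c₀ E₀ : ℝ} (h : MF S κ C)
    (hκ : 1 / 2 ≤ ‖κ‖) {N : ℕ} (hN : 0 < N) (x : Fin (N ^ 2) → A) (hE : 0 ≤ E₀)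
    (hc : ∀ k, S (x k) (-1) = (starRingEnd ℂ) (S (-x k) 1))
    (h0 : S 0 1 = 0 ∧ S 0 (-1) = 0) (h1 : ∀ k, S (x k) 1 = 0 ∧ S (-x k) (-1) = 0)
    (h2 : ∀ σ ∈ Sg (N ^ 2), (∃ k k', k ≠ k' ∧ σ k ≠ 0 ∧ σ k' ≠ 0) →
      S (∑ k, σ k • x k) 1 = 0 ∧ S (∑ k, σ k • x k) (-1) = 0)
    (h3 : ∀ σ ∈ Sg (N ^ 2), ∀ a : ℤ, Odd a → 3 ≤ |a| → ‖S (∑ k, σ k • x k) a‖ ≤ E₀ * |(a : ℝ)|)
    (hx : ∀ k, c₀ ≤ ‖S (-x k) 1‖) : N * c₀ / 4 ≤ C + Real.exp N * E₀ := by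
  have hN' : (0 : ℝ) < N := by exact_mod_cast hN
  choose φ hφ using fun k => exists_phase (κ * S (-x k) 1)
  have h4 := h _ (Sg (N ^ 2)) (fun σ => -Complex.I / 2 * cf (N : ℂ)⁻¹ σ * ee (∑ k, σ k • φ k))
    (fun σ => ∑ k, σ k • x k) (fun _ => E₀) (fun Θ => ?_) (fun _ _ => hE) h3
  · have h5 : ∑ σ ∈ Sg (N ^ 2),
        ‖-Complex.I / 2 * cf (N : ℂ)⁻¹ σ * ee (∑ k, σ k • φ k)‖ * E₀ ≤ Real.exp N * E₀ := by
      rw [← sum_mul]
      refine mul_le_mul_of_nonneg_right ?_ hE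
      simp only [norm_mul, norm_ee, mul_one]
      rw [← mul_sum, sum_norm_cf, norm_inv, Complex.norm_natCast]
      have h6 : (1 + (N : ℝ)⁻¹) ^ (N ^ 2) ≤ Real.exp N := by
        refine (pow_le_pow_left₀ (by positivity) (b := Real.exp (N : ℝ)⁻¹)
          (by linarith [Real.add_one_le_exp (N : ℝ)⁻¹]) _).trans_eq ?_
        rw [← Real.exp_nat_mul]
        congr 1
        push_cast
        field_simp
      have h7 : ‖-Complex.I / 2‖ ≤ 1 := by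
        simp
        norm_num
      exact (mul_le_of_le_one_left (by positivity) h7).trans h6
    refine le_trans ?_ (h4.trans (add_le_add le_rfl h5))
    rw [sum_Sg _ (by simp [h0.1, h0.2]) fun σ hσ hk => by
      rw [(h2 σ hσ hk).1, (h2 σ hσ hk).2]
      simp, Complex.re_sum]
    refine le_trans (le_of_eq ?_) (card_nsmul_le_sum _ _ (c₀ / (4 * N)) fun k _ => ?_)
    · rw [card_univ, Fintype.card_fin, nsmul_eq_mul]
      push_cast
      field_simp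
    · have h6 := congrArg (starRingEnd ℂ) (hφ k)
      rw [map_mul, ← ee_neg, neg_neg, map_mul, map_mul, Complex.conj_I, Complex.conj_ofReal] at h6
      have h7 : -Complex.I / 2 * (-((1 : ℤ) : ℂ) * (N : ℂ)⁻¹ / 2) * ee (φ k) *
          (κ * 0 + (starRingEnd ℂ) κ * (starRingEnd ℂ) (S (-x k) 1)) +
          -Complex.I / 2 * (-((-1 : ℤ) : ℂ) * (N : ℂ)⁻¹ / 2) * ee (-φ k) *
            (κ * S (-x k) 1 + (starRingEnd ℂ) κ * 0) =
          ((‖κ * S (-x k) 1‖ / (2 * N) : ℝ) : ℂ) := by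
        have h8 := hφ k
        push_cast at h6 h8 ⊢
        linear_combination (Complex.I * (N : ℂ)⁻¹ / 4) * h6 - (Complex.I * (N : ℂ)⁻¹ / 4) * h8 -
          ((‖κ * S (-x k) 1‖ : ℂ) * (N : ℂ)⁻¹ / 2) * Complex.I_mul_I
      simp only [sum_single_smul, one_smul, neg_smul]
      rw [cf_single _ _ (Or.inl rfl), cf_single _ _ (Or.inr rfl), (h1 k).1, (h1 k).2, hc, h7,
        Complex.ofReal_re, norm_mul, div_le_div_iff₀ (by positivity) (by positivity)]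
      have h8 := mul_le_mul_of_nonneg_right hκ (norm_nonneg (S (-x k) 1))
      nlinarith [hx k]
  · have h5 := rz_eq (N : ℂ)⁻¹ fun k => φ k + Θ (x k)
    have h6 := norm_rz_le hN fun k => φ k + Θ (x k)
    simp only [smul_add, sum_add_distrib, ee_add] at h5
    simp only [map_sum, map_zsmul, mul_assoc]
    rw [← mul_sum, ← h5, norm_mul]
    simp
    linarith

namespace Fr

variable {F : Fr} {d : ℕ → ℕ} {θ : F.Ch} {I : Ideal F.B} {κ : ℂ}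

theorem rz_lac (hκ : 1 / 2 ≤ ‖κ‖) (hI : I ≤ F.J2 d) (hχ : ∀ η ∈ I, F.chi θ η = 0) {u b : F.B}
    {C Sm c₀ : ℝ} (h : MF (F.SS d I u b) κ C)
    (hS : ∀ (f : F.B) (a : ℤ), Odd a → ‖F.SS d I u b f a‖ ≤ Sm) {N D : ℕ} (hN : 0 < N) (hD : 3 ≤ D)
    (g : Fin (N ^ 2) → F.G) (hl : F.Lac θ g D)
    (hg : ∀ k, c₀ ≤ ‖F.SS d I u b (-F.mn (g k)) 1‖) :
    N * c₀ / 4 ≤ C + Real.exp N * (Sm / D) := by
  have hD' : (3 : ℝ) ≤ D := by exact_mod_cast hD
  have hSm : 0 ≤ Sm := (norm_nonneg _).trans (hS 0 1 odd_one)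
  have a0 : ∀ a : ℤ, a ≠ 0 → F.SS d I u b 0 a = 0 := fun a ha =>
    SS_zero fun γ => by rw [zero_add]; exact not_int hχ ha γ
  have a1 : ∀ (γ : F.G) (a : ℤ), Odd a → a ≠ 1 → F.SS d I u b (-F.mn γ) a = 0 :=
    fun γ a ha h1 => SS_other hχ u b rfl ha h1
  have a2 : ∀ (γ : F.G) (a : ℤ), F.SS d I u b (F.mn γ) (-a) =
      (starRingEnd ℂ) (F.SS d I u b (-F.mn γ) a) := fun γ a => by
    rw [← SS_conj hI, neg_neg]
  have a3 : ∀ (γ : F.G) (a : ℤ), Odd a → a ≠ -1 → F.SS d I u b (F.mn γ) a = 0 :=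
    fun γ a ha h1 => by rw [← neg_neg a, a2, a1 γ _ ha.neg (by omega), map_zero]
  have a4 : ∀ σ ∈ Sg (N ^ 2), (∃ k k', k ≠ k' ∧ σ k ≠ 0 ∧ σ k' ≠ 0) → ∀ a : ℤ, Odd a → |a| < D →
      F.SS d I u b (∑ k, σ k • F.mn (g k)) a = 0 := fun σ hσ hk a ha h1 =>
    SS_zero fun γ h2 => (hl σ hσ hk a γ ha (hχ _ h2)).not_gt h1
  refine rz_abs h hκ hN (fun k => F.mn (g k)) (by positivity) (fun k => a2 _ 1)
    ⟨a0 _ one_ne_zero, a0 _ (by decide)⟩
    (fun k => ⟨a3 _ _ odd_one (by decide), a1 _ _ odd_neg_one (by decide)⟩)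
    (fun σ hσ hk => ⟨a4 σ hσ hk _ odd_one (by simp; omega), a4 σ hσ hk _ odd_neg_one (by simp; omega)⟩)
    (fun σ hσ a ha h3 => ?_) hg
  have h4 : 0 ≤ Sm / D * |(a : ℝ)| := by positivity
  rcases two_of_Sg hσ with hk | rfl | ⟨k, s, rfl | rfl, rfl⟩
  · by_cases h5 : |a| < D
    · rwa [a4 σ hσ hk a ha h5, norm_zero]
    · have h6 : (D : ℝ) ≤ |(a : ℝ)| := by exact_mod_cast not_lt.1 h5
      refine (hS _ a ha).trans ?_
      rw [div_mul_eq_mul_div, le_div_iff₀ (by linarith)]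
      exact mul_le_mul_of_nonneg_left h6 hSm
  · simp only [Pi.zero_apply, zero_smul, sum_const_zero]
    rwa [a0 a (by rintro rfl; simp at h3), norm_zero]
  · rwa [sum_single_smul, one_smul, a3 _ a ha (by rintro rfl; simp at h3), norm_zero]
  · rwa [sum_single_smul, neg_one_smul, a1 _ a ha (by rintro rfl; simp at h3), norm_zero]

end Fr

end Pool.Agent.GT
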