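import Pool.Agent.Lib.MP_a01f70_lc.GT.Van
import Pool.Agent.Lib.MP_a01f70_lc.GK.Rz0

/-! Unimodular numbers without relations. -/

noncomputable section

namespace Pool.Agent.GT
open Finset Pool.Agent.GK

theorem sel_two {w : ℂ} (hw : w ≠ 0) (a : ℝ) (A : Finset ℂ)
    (h : ∀ ζ ∈ A, ‖ζ‖ = 1 ∧ ‖w + ζ‖ = a) : A.card ≤ 2 := by
  classical
  have h1 : ∀ ζ ∈ A, ((starRingEnd ℂ) w * ζ).re = (a ^ 2 - ‖w‖ ^ 2 - 1) / 2 ∧
      ((starRingEnd ℂ) w * ζ).re ^ 2 + ((starRingEnd ℂ) w * ζ).im ^ 2 = ‖w‖ ^ 2 := by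
    intro ζ hζ
    have h2 := congrArg (· ^ 2) (h ζ hζ).1
    have h3 := congrArg (· ^ 2) (h ζ hζ).2
    simp only [Complex.sq_norm, Complex.normSq_apply, Complex.add_re, Complex.add_im,
      Complex.mul_re, Complex.mul_im, Complex.conj_re, Complex.conj_im] at h2 h3 ⊢
    exact ⟨by linear_combination h3 / 2 - h2 / 2,
      by linear_combination (w.re * w.re + w.im * w.im) * h2⟩
  refine (card_le_card_of_injOn (t := (univ : Finset Bool))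
    (fun ζ => decide (0 ≤ ((starRingEnd ℂ) w * ζ).im)) (fun _ _ => mem_coe.2 (mem_univ _))
    fun ζ hζ ζ' hζ' e => ?_).trans (by simp)
  obtain ⟨h2, h3⟩ := h1 ζ hζ
  obtain ⟨h4, h5⟩ := h1 ζ' hζ'
  refine mul_left_cancel₀ ((map_ne_zero (starRingEnd ℂ)).2 hw) (Complex.ext (h2.trans h4.symm) ?_)
  have h6 := decide_eq_decide.1 e
  rw [h2] at h3
  rw [h4] at h5
  rcases sq_eq_sq_iff_eq_or_eq_neg.1 (add_left_cancel (h3.trans h5.symm)) with h7 | h7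
  · exact h7
  · by_cases h8 : 0 ≤ ((starRingEnd ℂ) w * ζ).im
    · linarith [h6.1 h8]
    · linarith [not_le.1 h8, not_le.1 (mt h6.2 h8)]

theorem neg_mem_Sg {r : ℕ} {s : Fin r → ℤ} (h : s ∈ Sg r) : -s ∈ Sg r :=
  mem_Sg.2 fun k => by
    have := mem_Sg.1 h k
    rw [Pi.neg_apply]
    omega

theorem sel_unit (r : ℕ) : ∃ M : ℕ, ∀ A : Finset ℂ, (∀ ζ ∈ A, ‖ζ‖ = 1) → M ≤ A.card →
    ∃ z : Fin r → ℂ, (∀ k, z k ∈ A) ∧ ∀ s ∈ Sg r, (∃ k k', k ≠ k' ∧ s k ≠ 0 ∧ s k' ≠ 0) →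
      ∀ n : ℕ, ‖∑ k, (s k : ℂ) * z k‖ ≠ n := by
  classical
  induction r with
  | zero => exact ⟨0, fun A _ _ => ⟨Fin.elim0, fun k => k.elim0, fun s _ ⟨k, _⟩ => k.elim0⟩⟩
  | succ r ih =>
    obtain ⟨M, ih⟩ := ih
    refine ⟨M + ((Sg r).card * (r + 2) * 2 + 1), fun A hA hM => ?_⟩
    obtain ⟨z, h1, h2⟩ := ih A hA (by omega)
    obtain ⟨ζ, h3, h4⟩ := exists_mem_notMem_of_card_lt_card
      (s := (Sg r ×ˢ range (r + 2)).biUnion fun p => A.filter fun ζ =>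
        ∑ k, (p.1 k : ℂ) * z k ≠ 0 ∧ ‖∑ k, (p.1 k : ℂ) * z k + ζ‖ = p.2) (t := A) (by
      refine (card_biUnion_le_card_mul _ _ 2 fun p _ => ?_).trans_lt (by
        rw [card_product, card_range]
        omega)
      by_cases h0 : ∑ k, (p.1 k : ℂ) * z k = 0
      · simp [h0]
      · exact sel_two h0 p.2 _ fun ζ hζ => ⟨hA ζ (mem_filter.1 hζ).1, (mem_filter.1 hζ).2.2⟩)
    have h5 : ∀ s ∈ Sg r, s ≠ 0 → ∀ n : ℕ, ‖∑ k, (s k : ℂ) * z k + ζ‖ ≠ n := by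
      intro s hs h0 n hn
      refine h4 (mem_biUnion.2 ⟨(s, n), mem_product.2 ⟨hs, mem_range.2 ?_⟩,
        mem_filter.2 ⟨h3, fun (h6 : ∑ k, (s k : ℂ) * z k = 0) => ?_, hn⟩⟩)
      · have h6 : ‖∑ k, (s k : ℂ) * z k‖ ≤ r :=
          (norm_sum_le _ _).trans ((sum_le_card_nsmul _ _ 1 fun k _ => by
            rcases mem_Sg.1 hs k with h | h | h <;> simp [h, hA _ (h1 k)]).trans (by simp))
        have h7 := norm_add_le (∑ k, (s k : ℂ) * z k) ζ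
        rw [hn, hA ζ h3] at h7
        have h8 : n ≤ r + 1 := by exact_mod_cast h7.trans (add_le_add h6 le_rfl)
        exact Nat.lt_succ_of_le h8
      · by_cases h7 : ∃ k k', k ≠ k' ∧ s k ≠ 0 ∧ s k' ≠ 0
        · exact h2 s hs h7 0 (by rw [h6]; simp)
        · obtain ⟨k, hk⟩ := Function.ne_iff.1 h0
          rw [Fintype.sum_eq_single k fun k' h8 => by
            rw [show s k' = 0 from by_contra fun h9 => h7 ⟨k', k, h8, h9, hk⟩]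
            simp] at h6
          have h8 := hA _ (h1 k)
          rw [(mul_eq_zero.1 h6).resolve_left (by exact_mod_cast hk)] at h8
          simp at h8
    refine ⟨Fin.cons ζ z, Fin.cases h3 h1, fun s hs ⟨k, k', h6, h7, h8⟩ n => ?_⟩
    have ht : (fun k => s k.succ) ∈ Sg r := mem_Sg.2 fun k => mem_Sg.1 hs _
    have h0 : (fun k : Fin r => s k.succ) ≠ 0 := fun h9 => by
      rcases Fin.eq_zero_or_eq_succ k with rfl | ⟨j, rfl⟩
      · obtain ⟨j, rfl⟩ := Fin.eq_succ_of_ne_zero h6.symm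
        exact h8 (congrFun h9 j)
      · exact h7 (congrFun h9 j)
    simp only [Fin.sum_univ_succ, Fin.cons_zero, Fin.cons_succ]
    rcases mem_Sg.1 hs 0 with h | h | h
    · obtain ⟨j, rfl⟩ := Fin.eq_succ_of_ne_zero (show k ≠ 0 by rintro rfl; exact h7 h)
      obtain ⟨j', rfl⟩ := Fin.eq_succ_of_ne_zero (show k' ≠ 0 by rintro rfl; exact h8 h)
      simpa [h] using h2 _ ht ⟨j, j', fun e => h6 (e ▸ rfl), h7, h8⟩ n
    · simpa [h, add_comm] using h5 _ ht h0 n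
    · have h9 := h5 _ (neg_mem_Sg ht) (neg_ne_zero.2 h0) n
      rw [← norm_neg] at h9
      simpa [h] using h9

theorem int_of_root {ζ : ℂ} (h : ∃ c : ℕ, 0 < c ∧ ζ ^ c = 1) : IsIntegral ℤ ζ := by
  obtain ⟨c, hc, h⟩ := h
  exact IsIntegral.of_pow hc (h ▸ isIntegral_one)

theorem norm_of_root {ζ : ℂ} (h : ∃ c : ℕ, 0 < c ∧ ζ ^ c = 1) : ‖ζ‖ = 1 := by
  obtain ⟨c, hc, h⟩ := h
  exact Complex.norm_eq_one_of_pow_eq_one h hc.ne'

theorem int_cast (a : ℤ) : IsIntegral ℤ (a : ℂ) := isIntegral_algebraMap (x := a)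

theorem int_two_pow (n : ℕ) : IsIntegral ℤ ((2 : ℂ) ^ n) := by
  exact_mod_cast int_cast (2 ^ n)

theorem two_zpow_add (j : ℤ) (n : ℕ) : (2 : ℂ) ^ (j + n) = 2 ^ j * 2 ^ n := by
  rw [zpow_add₀ two_ne_zero, zpow_natCast]

theorem flat_rel {r : ℕ} {z : Fin r → ℂ} (hz : ∀ k, ∃ c : ℕ, 0 < c ∧ z k ^ c = 1) {s : Fin r → ℤ}
    (hs : ∀ n : ℕ, ‖∑ k, (s k : ℂ) * z k‖ ≠ n) (j : ℤ) :
    ∑ k, (s k : ℂ) * (2 ^ j * z k) ≠ 0 ∧ ∀ (a j' : ℤ) (ζ' : ℂ), Odd a →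
      (∃ c : ℕ, 0 < c ∧ ζ' ^ c = 1) → ∑ k, (s k : ℂ) * (2 ^ j * z k) + a * (2 ^ j' * ζ') ≠ 0 := by
  have h1 : ∑ k, (s k : ℂ) * (2 ^ j * z k) = 2 ^ j * ∑ k, (s k : ℂ) * z k := by
    rw [mul_sum]
    exact sum_congr rfl fun k _ => mul_left_comm _ _ _
  have h2 : IsIntegral ℤ (∑ k, (s k : ℂ) * z k) :=
    IsIntegral.sum _ fun k _ => (int_cast _).mul (int_of_root (hz k))
  rw [h1]
  generalize ∑ k, (s k : ℂ) * z k = w at hs h2
  refine ⟨mul_ne_zero (zpow_ne_zero _ two_ne_zero) fun h => hs 0 (by simp [h]),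
    fun a j' ζ' ha h' h => ?_⟩
  rcases lt_or_ge j' j with h3 | h3
  · obtain ⟨n, rfl⟩ : ∃ n : ℕ, j = j' + (n + 1 : ℕ) := ⟨(j - j' - 1).toNat, by omega⟩
    obtain ⟨c, hc, h4⟩ := h'
    refine not_two_mul ha hc h4 ((int_two_pow n).mul h2).neg
      (mul_left_cancel₀ (zpow_ne_zero j' two_ne_zero) ?_)
    rw [two_zpow_add] at h
    linear_combination h
  · obtain ⟨n, rfl⟩ : ∃ n : ℕ, j' = j + n := ⟨(j' - j).toNat, by omega⟩
    have h4 : w = -(a * (2 ^ n * ζ')) := by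
      refine mul_left_cancel₀ (zpow_ne_zero j two_ne_zero) ?_
      rw [two_zpow_add] at h
      linear_combination h
    refine hs (a.natAbs * 2 ^ n) ?_
    rw [h4]
    simp [norm_of_root h']

end Pool.Agent.GT
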