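import Pool.Agent.Lib.MP_a01f70_lc.GT.USel1

/-! Lacunary sums of roots of unity. -/

noncomputable section

namespace Pool.Agent.GT
open Finset Pool.Agent.GK

theorem sel_gap (r L : ℕ) : ∃ M : ℕ, ∀ A : Finset ℤ, M ≤ A.card →
    ∃ j : Fin r → ℤ, (∀ k, j k ∈ A) ∧ ∀ k k', k < k' → j k + L ≤ j k' := by
  refine ⟨r * L + 1, fun A hA => ?_⟩
  have h0 : ∀ k : Fin r, k * L < A.card := fun k =>
    (Nat.mul_le_mul_right L k.2.le).trans_lt hA
  have h1 : ∀ (n a : ℕ) (h : a + n < A.card), A.orderEmbOfFin rfl ⟨a, by omega⟩ + n ≤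
      A.orderEmbOfFin rfl ⟨a + n, h⟩ := by
    intro n a
    induction n with
    | zero => simp
    | succ n ih =>
      intro h
      have h2 := ih (by omega)
      have h3 := (A.orderEmbOfFin rfl).strictMono
        (show (⟨a + n, by omega⟩ : Fin A.card) < ⟨a + (n + 1), h⟩ from Nat.lt_succ_self _)
      push_cast
      omega
  refine ⟨fun k => A.orderEmbOfFin rfl ⟨k * L, h0 k⟩, fun k => orderEmbOfFin_mem _ _ _,
    fun k k' h => ?_⟩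
  have h2 : k * L + L ≤ k' * L := Nat.succ_mul _ _ ▸ Nat.mul_le_mul_right L h
  exact (h1 L _ (h2.trans_lt (h0 k'))).trans ((A.orderEmbOfFin rfl).monotone h2)

theorem sum_zpow_le {ι : Type} (j : ι → ℤ) (s : Finset ι) (h : Set.InjOn j s) (J : ℤ)
    (hJ : ∀ i ∈ s, j i < J) : ∑ i ∈ s, (2 : ℝ) ^ j i ≤ 2 ^ J := by
  classical
  induction s using Finset.induction_on_max_value j generalizing J with
  | empty => simp; positivity
  | insert a s ha hm ih =>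
    have h1 := ih (h.mono (coe_subset.2 (subset_insert _ _))) (j a) fun i hi =>
      (hm i hi).lt_of_ne fun e => ha (h (mem_insert_of_mem hi) (mem_insert_self _ _) e ▸ hi)
    have h2 := zpow_le_zpow_right₀ (one_le_two (α := ℝ)) (Int.add_one_le_of_lt
      (hJ a (mem_insert_self _ _)))
    rw [zpow_add_one₀ two_ne_zero] at h2
    rw [sum_insert ha]
    linarith

theorem gap_norm {r : ℕ} {j : Fin r → ℤ} (hj : ∀ k k', k < k' → j k + 2 ≤ j k') {ζ : Fin r → ℂ}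
    (hζ : ∀ k, ‖ζ k‖ = 1) {s : Fin r → ℤ} (hs : s ∈ Sg r) {k₀ : Fin r} (h0 : s k₀ ≠ 0) :
    (2 : ℝ) ^ j k₀ / 2 ≤ ‖∑ k, (s k : ℂ) * (2 ^ j k * ζ k)‖ := by
  have hm : StrictMono j := fun k k' h => by have := hj k k' h; omega
  have hn : ∀ k, s k ≠ 0 → ‖(s k : ℂ) * (2 ^ j k * ζ k)‖ = (2 : ℝ) ^ j k := fun k hk => by
    rcases mem_Sg.1 hs k with h | h | h
    · exact absurd h hk
    all_goals simp [h, hζ]
  obtain ⟨k₁, h1, h2⟩ := exists_max_image (univ.filter fun k => s k ≠ 0) id ⟨k₀, by simpa⟩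
  have h3 := sum_zpow_le j ((univ.filter fun k => s k ≠ 0).erase k₁) hm.injective.injOn (j k₁ - 1)
    fun k hk => by
      have := hj k k₁ (lt_of_le_of_ne (h2 k (mem_erase.1 hk).2) (mem_erase.1 hk).1)
      omega
  have h4 := zpow_le_zpow_right₀ (one_le_two (α := ℝ)) (hm.monotone (h2 k₀ (by simpa)))
  have h5 := norm_sum_le ((univ.filter fun k => s k ≠ 0).erase k₁)
    fun k => (s k : ℂ) * (2 ^ j k * ζ k)
  rw [sum_congr rfl fun k hk => hn k (mem_filter.1 (mem_erase.1 hk).2).2] at h5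
  rw [← sum_filter_of_ne (p := fun k => s k ≠ 0) fun k _ h h' => h (by simp [h']),
    ← add_sum_erase _ _ h1]
  have h6 := norm_le_add_norm_add ((s k₁ : ℂ) * (2 ^ j k₁ * ζ k₁))
    (∑ k ∈ (univ.filter fun k => s k ≠ 0).erase k₁, (s k : ℂ) * (2 ^ j k * ζ k))
  rw [hn k₁ (mem_filter.1 h1).2] at h6
  rw [zpow_sub_one₀ two_ne_zero] at h3
  simp only [id] at h4
  linarith

theorem two_int {j j' : ℤ} (h : j < j') {α : ℂ} (hα : IsIntegral ℤ α) :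
    ∃ β, IsIntegral ℤ β ∧ 2 ^ j' * α = 2 ^ j * (2 * β) := by
  obtain ⟨n, rfl⟩ : ∃ n : ℕ, j' = j + (n + 1 : ℕ) := ⟨(j' - j - 1).toNat, by omega⟩
  exact ⟨_, (int_two_pow n).mul hα, by rw [two_zpow_add]; ring⟩

theorem two_int_sum {r : ℕ} {j : Fin r → ℤ} {ζ : Fin r → ℂ}
    (hζ : ∀ k, ∃ c : ℕ, 0 < c ∧ ζ k ^ c = 1) {s : Fin r → ℤ} (t : Finset (Fin r)) {J : ℤ}
    (h : ∀ k ∈ t, s k ≠ 0 → J < j k) :
    ∃ β, IsIntegral ℤ β ∧ ∑ k ∈ t, (s k : ℂ) * (2 ^ j k * ζ k) = 2 ^ J * (2 * β) := by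
  have h1 : ∀ k ∈ t, ∃ β, IsIntegral ℤ β ∧ (s k : ℂ) * (2 ^ j k * ζ k) = 2 ^ J * (2 * β) := by
    intro k hk
    by_cases h0 : s k = 0
    · exact ⟨0, isIntegral_zero, by simp [h0]⟩
    · rw [mul_left_comm]
      exact two_int (h k hk h0) ((int_cast _).mul (int_of_root (hζ k)))
  choose! β h2 h3 using h1
  exact ⟨_, IsIntegral.sum β h2, by rw [sum_congr rfl h3, mul_sum, mul_sum]⟩

theorem gap_low {r : ℕ} {j : Fin r → ℤ} {ζ : Fin r → ℂ} (hζ : ∀ k, ∃ c : ℕ, 0 < c ∧ ζ k ^ c = 1)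
    {s : Fin r → ℤ} {k₀ : Fin r} (h0 : Odd (s k₀)) (hj : ∀ k, k ≠ k₀ → s k ≠ 0 → j k₀ < j k)
    {a j' : ℤ} {ζ' : ℂ} (ha : Odd a) (h' : ∃ c : ℕ, 0 < c ∧ ζ' ^ c = 1)
    (h : ∑ k, (s k : ℂ) * (2 ^ j k * ζ k) + a * (2 ^ j' * ζ') = 0) : j' = j k₀ := by
  rcases lt_trichotomy j' (j k₀) with h1 | h1 | h1
  · obtain ⟨β, h2, h3⟩ := two_int_sum hζ (s := s) (j := j) univ (J := j') fun k _ hk => by
      by_cases e : k = k₀
      · rwa [e]
      · exact h1.trans (hj k e hk)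
    obtain ⟨c, hc, h4⟩ := h'
    refine absurd (mul_left_cancel₀ (zpow_ne_zero j' two_ne_zero) ?_) (not_two_mul ha hc h4 h2.neg)
    linear_combination h - h3
  · exact h1
  · obtain ⟨β, h2, h3⟩ := two_int_sum hζ (s := s) (j := j) (univ.erase k₀) fun k hk =>
      hj k (mem_erase.1 hk).1
    obtain ⟨β', h4, h5⟩ := two_int h1 ((int_cast a).mul (int_of_root h'))
    obtain ⟨c, hc, h6⟩ := hζ k₀
    rw [← add_sum_erase _ _ (mem_univ k₀)] at h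
    refine absurd (mul_left_cancel₀ (zpow_ne_zero (j k₀) two_ne_zero) ?_)
      (not_two_mul h0 hc h6 (h2.add h4).neg)
    linear_combination h - h3 - h5

theorem gap_rel {r L : ℕ} {j : Fin r → ℤ} (hj : ∀ k k', k < k' → j k + (L + 2 : ℕ) ≤ j k')
    {ζ : Fin r → ℂ} (hζ : ∀ k, ∃ c : ℕ, 0 < c ∧ ζ k ^ c = 1) {s : Fin r → ℤ} (hs : s ∈ Sg r)
    (h2 : ∃ k k', k ≠ k' ∧ s k ≠ 0 ∧ s k' ≠ 0) :
    ∑ k, (s k : ℂ) * (2 ^ j k * ζ k) ≠ 0 ∧ ∀ (a j' : ℤ) (ζ' : ℂ), Odd a →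
      (∃ c : ℕ, 0 < c ∧ ζ' ^ c = 1) → ∑ k, (s k : ℂ) * (2 ^ j k * ζ k) + a * (2 ^ j' * ζ') = 0 →
        (L : ℤ) ≤ |a| := by
  obtain ⟨k, k', h3, h4, h5⟩ := h2
  have hn := fun k₀ (h0 : s k₀ ≠ 0) => gap_norm (j := j)
    (fun k k' h => by have := hj k k' h; omega) (fun k => norm_of_root (hζ k)) hs h0
  refine ⟨norm_pos_iff.1 (lt_of_lt_of_le (by positivity) (hn k h4)), fun a j' ζ' ha h' h => ?_⟩
  obtain ⟨k₀, h6, h7⟩ := exists_min_image (univ.filter fun k => s k ≠ 0) id ⟨k, by simpa⟩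
  have h8 : ∀ k, k ≠ k₀ → s k ≠ 0 → j k₀ + (L + 2 : ℕ) ≤ j k := fun k e hk =>
    hj _ _ (lt_of_le_of_ne (h7 k (by simpa)) e.symm)
  obtain rfl := gap_low hζ (k₀ := k₀) (by
    have := (mem_filter.1 h6).2
    rcases mem_Sg.1 hs k₀ with e | e | e
    · exact absurd e this
    all_goals simp [e]) (fun k e hk => by have := h8 k e hk; omega) ha h' h
  obtain ⟨k₁, h9, h10⟩ : ∃ k₁, k₁ ≠ k₀ ∧ s k₁ ≠ 0 := by
    by_cases e : k = k₀
    · exact ⟨k', fun e' => h3 (e.trans e'.symm), h5⟩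
    · exact ⟨k, e, h4⟩
  have h11 := hn k₁ h10
  have h12 := zpow_le_zpow_right₀ (one_le_two (α := ℝ)) (h8 k₁ h9 h10)
  rw [eq_neg_of_add_eq_zero_left h] at h11
  simp only [norm_neg, norm_mul, norm_zpow, Complex.norm_ofNat, norm_of_root h', mul_one,
    Complex.norm_intCast] at h11
  rw [zpow_add₀ two_ne_zero, zpow_natCast, pow_add] at h12
  have h13 : (L : ℝ) ≤ 2 ^ L := by exact_mod_cast Nat.lt_two_pow_self.le
  have h14 : (0 : ℝ) < 2 ^ j k₀ := by positivity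
  have h15 : (L : ℝ) ≤ |(a : ℝ)| := by
    refine h13.trans (le_of_mul_le_mul_right ?_ h14)
    nlinarith [mul_pos h14 (show (0 : ℝ) < 2 ^ L by positivity)]
  exact_mod_cast h15

end Pool.Agent.GT
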